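import Mathlib

/-!
Global existence, continuous dependence, for the singular radial initial value problem
`(r² ψ')' = r (r F(ψ) - ψ)`, `ψ(0) = a`, with a globally Lipschitz `F`.
-/

open Set Filter Topology MeasureTheory
open scoped BoundedContinuousFunction

noncomputable section

namespace Pool.Agent.H75.Lieb

/-- weight -/
def wt (L r : ℝ) : ℝ := Real.exp (L * r ^ 2 + 2 * |r|)

lemma wt_pos (L r : ℝ) : 0 < wt L r := Real.exp_pos _

lemma one_le_wt {L : ℝ} (hL : 0 ≤ L) (r : ℝ) : 1 ≤ wt L r := by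
  unfold wt
  exact Real.one_le_exp (by positivity)

lemma continuous_wt (L : ℝ) : Continuous (wt L) := by
  unfold wt; fun_prop

lemma wt_mul {L r σ : ℝ} (hσ : 0 ≤ σ) :
    wt L (r * σ) = Real.exp (L * r ^ 2 * σ ^ 2 + 2 * |r| * σ) := by
  unfold wt
  rw [abs_mul, abs_of_nonneg hσ]
  ring_nf

lemma wt_integral (L r : ℝ) :
    ∫ σ in (0:ℝ)..1, (|r| * (|r| * σ * L + 1)) * wt L (r * σ) = (wt L r - 1) / 2 := by
  have h1 : ∀ σ ∈ Set.uIcc (0:ℝ) 1, HasDerivAt
      (fun σ : ℝ => Real.exp (L * r ^ 2 * σ ^ 2 + 2 * |r| * σ) / 2)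
      ((|r| * (|r| * σ * L + 1)) * Real.exp (L * r ^ 2 * σ ^ 2 + 2 * |r| * σ)) σ := by
    intro σ _
    have hd : HasDerivAt (fun σ : ℝ => L * r ^ 2 * σ ^ 2 + 2 * |r| * σ)
        (L * r ^ 2 * (2 * σ) + 2 * |r|) σ := by
      have a1 : HasDerivAt (fun σ : ℝ => L * r ^ 2 * σ ^ 2) (L * r ^ 2 * (2 * σ)) σ := by
        have := (hasDerivAt_pow 2 σ).const_mul (L * r ^ 2)
        simpa using this
      have a2 : HasDerivAt (fun σ : ℝ => 2 * |r| * σ) (2 * |r|) σ := by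
        simpa using (hasDerivAt_id σ).const_mul (2 * |r|)
      exact a1.add a2
    have h2 := hd.exp.div_const 2
    have h3 : |r| * |r| = r ^ 2 := by rw [← sq, sq_abs]
    have h4 : (|r| * (|r| * σ * L + 1)) * Real.exp (L * r ^ 2 * σ ^ 2 + 2 * |r| * σ) =
        Real.exp (L * r ^ 2 * σ ^ 2 + 2 * |r| * σ) * (L * r ^ 2 * (2 * σ) + 2 * |r|) / 2 := by
      rw [← h3]; ring
    rw [h4]
    exact h2
  have h2 := intervalIntegral.integral_eq_sub_of_hasDerivAt h1 (by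
    apply Continuous.intervalIntegrable; fun_prop)
  have h3 : ∫ σ in (0:ℝ)..1, (|r| * (|r| * σ * L + 1)) * wt L (r * σ) =
      ∫ σ in (0:ℝ)..1, (|r| * (|r| * σ * L + 1)) *
        Real.exp (L * r ^ 2 * σ ^ 2 + 2 * |r| * σ) := by
    apply intervalIntegral.integral_congr
    intro σ hσ
    rw [Set.uIcc_of_le (by norm_num)] at hσ
    simp only
    rw [wt_mul hσ.1]
  rw [h3, h2]
  unfold wt
  norm_num
  ring

/-- The Volterra operator. -/
def Kop (F ψ : ℝ → ℝ) (r : ℝ) : ℝ :=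
  r * ∫ σ in (0:ℝ)..1, (1 - σ) * (r * σ * F (ψ (r * σ)) - ψ (r * σ))

lemma Kop_continuous {F ψ : ℝ → ℝ} (hF : Continuous F) (hψ : Continuous ψ) :
    Continuous (Kop F ψ) := by
  unfold Kop
  apply continuous_id.mul
  apply intervalIntegral.continuous_parametric_intervalIntegral_of_continuous'
  fun_prop

lemma Kop_diff {L : ℝ} (hL : 0 ≤ L) {F : ℝ → ℝ} (hFc : Continuous F)
    (hF : ∀ x y, |F x - F y| ≤ L * |x - y|) {ψ₁ ψ₂ : ℝ → ℝ} (h₁ : Continuous ψ₁)
    (h₂ : Continuous ψ₂) {C : ℝ} (hC : ∀ s, |ψ₁ s - ψ₂ s| ≤ C * wt L s) (r : ℝ) :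
    |Kop F ψ₁ r - Kop F ψ₂ r| ≤ C * (wt L r / 2) := by
  have hC0 : 0 ≤ C := by
    have h := (abs_nonneg _).trans (hC 0)
    exact nonneg_of_mul_nonneg_left h (wt_pos L 0)
  have i1 : IntervalIntegrable
      (fun σ : ℝ => (1 - σ) * (r * σ * F (ψ₁ (r * σ)) - ψ₁ (r * σ))) volume 0 1 := by
    apply Continuous.intervalIntegrable; fun_prop
  have i2 : IntervalIntegrable
      (fun σ : ℝ => (1 - σ) * (r * σ * F (ψ₂ (r * σ)) - ψ₂ (r * σ))) volume 0 1 := by
    apply Continuous.intervalIntegrable; fun_prop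
  have e1 : Kop F ψ₁ r - Kop F ψ₂ r = ∫ σ in (0:ℝ)..1,
      r * ((1 - σ) * (r * σ * F (ψ₁ (r * σ)) - ψ₁ (r * σ)) -
        (1 - σ) * (r * σ * F (ψ₂ (r * σ)) - ψ₂ (r * σ))) := by
    unfold Kop
    rw [← mul_sub, ← intervalIntegral.integral_sub i1 i2, intervalIntegral.integral_const_mul]
  rw [e1]
  have hb : ∀ σ ∈ Set.Ioc (0:ℝ) 1,
      ‖r * ((1 - σ) * (r * σ * F (ψ₁ (r * σ)) - ψ₁ (r * σ)) -
        (1 - σ) * (r * σ * F (ψ₂ (r * σ)) - ψ₂ (r * σ)))‖ ≤
      C * ((|r| * (|r| * σ * L + 1)) * wt L (r * σ)) := by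
    intro σ hσ
    have s0 : 0 ≤ σ := hσ.1.le
    have s1 : 0 ≤ 1 - σ := by linarith [hσ.2]
    have s2 : 1 - σ ≤ 1 := by linarith
    rw [Real.norm_eq_abs]
    have e : r * ((1 - σ) * (r * σ * F (ψ₁ (r * σ)) - ψ₁ (r * σ)) -
        (1 - σ) * (r * σ * F (ψ₂ (r * σ)) - ψ₂ (r * σ))) =
        r * (1 - σ) * ((r * σ) * (F (ψ₁ (r * σ)) - F (ψ₂ (r * σ))) -
          (ψ₁ (r * σ) - ψ₂ (r * σ))) := by ring
    rw [e, abs_mul, abs_mul, abs_of_nonneg s1]
    have hd := hC (r * σ)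
    have hFd := hF (ψ₁ (r * σ)) (ψ₂ (r * σ))
    have h3 : |(r * σ) * (F (ψ₁ (r * σ)) - F (ψ₂ (r * σ))) - (ψ₁ (r * σ) - ψ₂ (r * σ))| ≤
        (|r| * σ * L + 1) * (C * wt L (r * σ)) := by
      calc _ ≤ |(r * σ) * (F (ψ₁ (r * σ)) - F (ψ₂ (r * σ)))| + |ψ₁ (r * σ) - ψ₂ (r * σ)| :=
            abs_sub _ _
        _ = |r| * σ * |F (ψ₁ (r * σ)) - F (ψ₂ (r * σ))| + |ψ₁ (r * σ) - ψ₂ (r * σ)| := by
            rw [abs_mul, abs_mul, abs_of_nonneg s0]
        _ ≤ |r| * σ * (L * (C * wt L (r * σ))) + C * wt L (r * σ) := by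
            gcongr
            exact hFd.trans (by gcongr)
        _ = _ := by ring
    calc |r| * (1 - σ) * |(r * σ) * (F (ψ₁ (r * σ)) - F (ψ₂ (r * σ))) -
          (ψ₁ (r * σ) - ψ₂ (r * σ))| ≤ |r| * 1 * ((|r| * σ * L + 1) * (C * wt L (r * σ))) := by
          gcongr
      _ = _ := by ring
  have h4 := intervalIntegral.norm_integral_le_of_norm_le (a := (0:ℝ)) (b := 1) (μ := volume)
    (f := fun σ => r * ((1 - σ) * (r * σ * F (ψ₁ (r * σ)) - ψ₁ (r * σ)) -
        (1 - σ) * (r * σ * F (ψ₂ (r * σ)) - ψ₂ (r * σ))))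
    (g := fun σ => C * ((|r| * (|r| * σ * L + 1)) * wt L (r * σ))) (by norm_num)
    (Filter.Eventually.of_forall hb) (by
      have := continuous_wt L
      apply Continuous.intervalIntegrable; fun_prop)
  rw [Real.norm_eq_abs] at h4
  refine h4.trans ?_
  rw [intervalIntegral.integral_const_mul, wt_integral]
  have := wt_pos L r
  gcongr
  linarith

lemma Kop_zero {F : ℝ → ℝ} (hF0 : F 0 = 0) (r : ℝ) : Kop F (fun _ => 0) r = 0 := by
  simp [Kop, hF0]

lemma Kop_bound {L : ℝ} (hL : 0 ≤ L) {F : ℝ → ℝ} (hFc : Continuous F) (hF0 : F 0 = 0)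
    (hF : ∀ x y, |F x - F y| ≤ L * |x - y|) {ψ : ℝ → ℝ} (h : Continuous ψ)
    {C : ℝ} (hC : ∀ s, |ψ s| ≤ C * wt L s) (r : ℝ) :
    |Kop F ψ r| ≤ C * (wt L r / 2) := by
  have := Kop_diff hL hFc hF h (continuous_const (y := (0:ℝ))) (C := C) (by simpa using hC) r
  rwa [Kop_zero hF0, sub_zero] at this

section fix

variable {L : ℝ} (hL : 0 ≤ L) {F : ℝ → ℝ} (hFc : Continuous F) (hF0 : F 0 = 0)
    (hF : ∀ x y, |F x - F y| ≤ L * |x - y|)

/-- The fixed point map. -/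
def Tmap (a : ℝ) (χ : ℝ →ᵇ ℝ) : ℝ →ᵇ ℝ :=
  BoundedContinuousFunction.ofNormedAddCommGroup
    (fun r => (a + Kop F (fun s => wt L s * χ s) r) / wt L r)
    (by
      have h1 := continuous_wt L
      have h2 : Continuous (Kop F (fun s => wt L s * χ s)) :=
        Kop_continuous hFc (h1.mul χ.continuous)
      exact (continuous_const.add h2).div h1 (fun r => (wt_pos L r).ne'))
    (|a| + ‖χ‖ / 2) (by
      intro r
      have h1 := continuous_wt L
      have hb := Kop_bound hL hFc hF0 hF (ψ := fun s => wt L s * χ s) (h1.mul χ.continuous)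
        (C := ‖χ‖) (fun s => by
        rw [abs_mul, abs_of_pos (wt_pos L s), mul_comm]
        have := χ.norm_coe_le_norm s
        rw [Real.norm_eq_abs] at this
        exact mul_le_mul_of_nonneg_right this (wt_pos L s).le) r
      rw [Real.norm_eq_abs, abs_div, abs_of_pos (wt_pos L r), div_le_iff₀ (wt_pos L r)]
      calc |a + Kop F (fun s => wt L s * χ s) r| ≤ |a| + |Kop F (fun s => wt L s * χ s) r| :=
            abs_add_le _ _
        _ ≤ |a| * wt L r + ‖χ‖ * (wt L r / 2) := by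
            gcongr
            have := one_le_wt hL r
            nlinarith [abs_nonneg a]
        _ = _ := by ring)

lemma Tmap_apply (a : ℝ) (χ : ℝ →ᵇ ℝ) (r : ℝ) :
    Tmap hL hFc hF0 hF a χ r = (a + Kop F (fun s => wt L s * χ s) r) / wt L r := rfl

lemma Tmap_dist (a b : ℝ) (χ₁ χ₂ : ℝ →ᵇ ℝ) :
    dist (Tmap hL hFc hF0 hF a χ₁) (Tmap hL hFc hF0 hF b χ₂) ≤
      |a - b| + dist χ₁ χ₂ / 2 := by
  rw [BoundedContinuousFunction.dist_le (by positivity)]
  intro r
  rw [Tmap_apply, Tmap_apply, Real.dist_eq, ← sub_div, abs_div, abs_of_pos (wt_pos L r),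
    div_le_iff₀ (wt_pos L r)]
  have h1 := continuous_wt L
  have hb := Kop_diff hL hFc hF (ψ₁ := fun s => wt L s * χ₁ s)
    (ψ₂ := fun s => wt L s * χ₂ s) (h1.mul χ₁.continuous) (h1.mul χ₂.continuous)
    (C := dist χ₁ χ₂) (fun s => by
        rw [← mul_sub, abs_mul, abs_of_pos (wt_pos L s), mul_comm]
        have := BoundedContinuousFunction.dist_coe_le_dist (f := χ₁) (g := χ₂) s
        rw [Real.dist_eq] at this
        exact mul_le_mul_of_nonneg_right this (wt_pos L s).le) r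
  calc |a + Kop F (fun s => wt L s * χ₁ s) r - (b + Kop F (fun s => wt L s * χ₂ s) r)| =
        |(a - b) + (Kop F (fun s => wt L s * χ₁ s) r - Kop F (fun s => wt L s * χ₂ s) r)| := by
          congr 1; ring
    _ ≤ |a - b| + |Kop F (fun s => wt L s * χ₁ s) r - Kop F (fun s => wt L s * χ₂ s) r| :=
          abs_add_le _ _
    _ ≤ |a - b| * wt L r + dist χ₁ χ₂ * (wt L r / 2) := by
          gcongr
          have := one_le_wt hL r
          nlinarith [abs_nonneg (a - b)]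
    _ = _ := by ring

lemma Tmap_contracting (a : ℝ) : ContractingWith (1 / 2) (Tmap hL hFc hF0 hF a) := by
  refine ⟨by norm_num [← NNReal.coe_lt_coe], LipschitzWith.of_dist_le_mul fun χ₁ χ₂ => ?_⟩
  have := Tmap_dist hL hFc hF0 hF a a χ₁ χ₂
  simp only [sub_self, abs_zero, zero_add] at this
  have e : ((1 / 2 : NNReal) : ℝ) = 1 / 2 := by norm_num
  rw [e]; linarith

/-- The solution. -/
def sol (a : ℝ) (r : ℝ) : ℝ :=
  wt L r * (Tmap_contracting hL hFc hF0 hF a).fixedPoint _ r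

lemma sol_continuous (a : ℝ) : Continuous (sol hL hFc hF0 hF a) :=
  (continuous_wt L).mul (BoundedContinuousFunction.continuous _)

lemma sol_eq (a r : ℝ) :
    sol hL hFc hF0 hF a r = a + Kop F (sol hL hFc hF0 hF a) r := by
  have h := (Tmap_contracting hL hFc hF0 hF a).fixedPoint_isFixedPt
  have h2 : Tmap hL hFc hF0 hF a ((Tmap_contracting hL hFc hF0 hF a).fixedPoint _) r =
    (Tmap_contracting hL hFc hF0 hF a).fixedPoint _ r := by
    rw [h.eq]
  rw [Tmap_apply] at h2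
  have hw := (wt_pos L r).ne'
  unfold sol
  rw [← h2]
  field_simp

lemma sol_dep (a b r : ℝ) :
    |sol hL hFc hF0 hF a r - sol hL hFc hF0 hF b r| ≤ 2 * |a - b| * wt L r := by
  set χ₁ := (Tmap_contracting hL hFc hF0 hF a).fixedPoint _ with h1
  set χ₂ := (Tmap_contracting hL hFc hF0 hF b).fixedPoint _ with h2
  have e1 : Tmap hL hFc hF0 hF a χ₁ = χ₁ := (Tmap_contracting hL hFc hF0 hF a).fixedPoint_isFixedPt
  have e2 : Tmap hL hFc hF0 hF b χ₂ = χ₂ := (Tmap_contracting hL hFc hF0 hF b).fixedPoint_isFixedPt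
  have h3 := Tmap_dist hL hFc hF0 hF a b χ₁ χ₂
  rw [e1, e2] at h3
  have h4 : dist χ₁ χ₂ ≤ 2 * |a - b| := by linarith
  have h5 := BoundedContinuousFunction.dist_coe_le_dist (f := χ₁) (g := χ₂) r
  rw [Real.dist_eq] at h5
  unfold sol
  rw [← mul_sub, abs_mul, abs_of_pos (wt_pos L r), mul_comm]
  exact mul_le_mul_of_nonneg_right (h5.trans h4) (wt_pos L r).le

lemma sol_joint_continuous : Continuous (fun p : ℝ × ℝ => sol hL hFc hF0 hF p.1 p.2) := by
  have h1 : Continuous (fun a : ℝ => (Tmap_contracting hL hFc hF0 hF a).fixedPoint _) := by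
    have : LipschitzWith 2 (fun a : ℝ => (Tmap_contracting hL hFc hF0 hF a).fixedPoint _) := by
      refine LipschitzWith.of_dist_le_mul fun a b => ?_
      set χ₁ := (Tmap_contracting hL hFc hF0 hF a).fixedPoint _ with h1
      set χ₂ := (Tmap_contracting hL hFc hF0 hF b).fixedPoint _ with h2
      have e1 : Tmap hL hFc hF0 hF a χ₁ = χ₁ :=
        (Tmap_contracting hL hFc hF0 hF a).fixedPoint_isFixedPt
      have e2 : Tmap hL hFc hF0 hF b χ₂ = χ₂ :=
        (Tmap_contracting hL hFc hF0 hF b).fixedPoint_isFixedPt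
      have h3 := Tmap_dist hL hFc hF0 hF a b χ₁ χ₂
      rw [e1, e2] at h3
      have h4 : dist χ₁ χ₂ ≤ 2 * |a - b| := by linarith
      rw [Real.dist_eq]
      exact_mod_cast h4
    exact this.continuous
  unfold sol
  apply Continuous.mul
  · exact (continuous_wt L).comp continuous_snd
  · have h2 : Continuous (fun p : (ℝ →ᵇ ℝ) × ℝ => p.1 p.2) :=
      continuous_eval
    exact h2.comp ((h1.comp continuous_fst).prodMk continuous_snd)

lemma sol_zero (a : ℝ) : sol hL hFc hF0 hF a 0 = a := by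
  rw [sol_eq]; simp [Kop]

/-- `m(r) = r² ψ'(r)`. -/
def mom (F ψ : ℝ → ℝ) (r : ℝ) : ℝ := ∫ s in (0:ℝ)..r, s * (s * F (ψ s) - ψ s)

lemma mom_zero (F ψ : ℝ → ℝ) : mom F ψ 0 = 0 := by simp [mom]

lemma mom_hasDerivAt {F ψ : ℝ → ℝ} (hF : Continuous F) (hψ : Continuous ψ) (r : ℝ) :
    HasDerivAt (mom F ψ) (r * (r * F (ψ r) - ψ r)) r := by
  unfold mom
  have hc : Continuous fun s => s * (s * F (ψ s) - ψ s) := by fun_prop
  exact intervalIntegral.integral_hasDerivAt_right (hc.intervalIntegrable _ _)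
    hc.aestronglyMeasurable.stronglyMeasurableAtFilter hc.continuousAt

lemma Kop_eq {F ψ : ℝ → ℝ} (hF : Continuous F) (hψ : Continuous ψ) {r : ℝ} (hr : 0 < r) :
    Kop F ψ r = (∫ s in (0:ℝ)..r, (s * F (ψ s) - ψ s)) - mom F ψ r / r := by
  have h1 : r * ∫ σ in (0:ℝ)..1, (1 - σ) * (r * σ * F (ψ (r * σ)) - ψ (r * σ)) =
      ∫ s in (0:ℝ)..r, (1 - s / r) * (s * F (ψ s) - ψ s) := by
    have h := intervalIntegral.integral_comp_mul_left (a := (0:ℝ)) (b := 1) (c := r)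
      (fun s => (1 - s / r) * (s * F (ψ s) - ψ s)) hr.ne'
    rw [mul_zero, mul_one, smul_eq_mul] at h
    have h' : ∫ σ in (0:ℝ)..1, (1 - σ) * (r * σ * F (ψ (r * σ)) - ψ (r * σ)) =
        ∫ x in (0:ℝ)..1, (1 - r * x / r) * (r * x * F (ψ (r * x)) - ψ (r * x)) := by
      apply intervalIntegral.integral_congr
      intro σ _
      simp only
      rw [mul_div_cancel_left₀ _ hr.ne']
    rw [h', h]
    field_simp
  unfold Kop
  rw [h1]
  unfold mom
  rw [← intervalIntegral.integral_div, ← intervalIntegral.integral_sub]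
  · apply intervalIntegral.integral_congr
    intro s _
    simp only
    field_simp
  · apply Continuous.intervalIntegrable; fun_prop
  · apply Continuous.intervalIntegrable; fun_prop

lemma sol_hasDerivAt (a : ℝ) {r : ℝ} (hr : 0 < r) :
    HasDerivAt (sol hL hFc hF0 hF a) (mom F (sol hL hFc hF0 hF a) r / r ^ 2) r := by
  set ψ := sol hL hFc hF0 hF a with hψ
  have hc : Continuous ψ := sol_continuous hL hFc hF0 hF a
  have he : ∀ᶠ x in 𝓝 r, ψ x = a + ((∫ s in (0:ℝ)..x, (s * F (ψ s) - ψ s)) - mom F ψ x / x) := by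
    filter_upwards [lt_mem_nhds hr] with x hx
    have h1 : ψ x = a + Kop F ψ x := sol_eq hL hFc hF0 hF a x
    rw [Kop_eq hFc hc hx] at h1
    exact h1
  have hg : Continuous fun s => s * F (ψ s) - ψ s := by fun_prop
  have d1 : HasDerivAt (fun x => ∫ s in (0:ℝ)..x, (s * F (ψ s) - ψ s)) (r * F (ψ r) - ψ r) r :=
    intervalIntegral.integral_hasDerivAt_right (hg.intervalIntegrable _ _)
    hg.aestronglyMeasurable.stronglyMeasurableAtFilter hg.continuousAt
  have d2 : HasDerivAt (fun x => mom F ψ x / x)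
      ((r * (r * F (ψ r) - ψ r) * r - mom F ψ r * 1) / r ^ 2) r :=
    (mom_hasDerivAt hFc hc r).div (hasDerivAt_id r) hr.ne'
  have d3 := (d1.sub d2).const_add a
  have d4 := d3.congr_of_eventuallyEq he
  have e5 : mom F ψ r / r ^ 2 = (r * F (ψ r) - ψ r) -
      (r * (r * F (ψ r) - ψ r) * r - mom F ψ r * 1) / r ^ 2 := by
    field_simp
    ring
  rw [e5]
  exact d4

end fix

end Pool.Agent.H75.Lieb
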