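import Mathlib
import Pool.Agent.H75.LiebExist

/-!
Shooting: existence of a positive global radial profile.
-/

open Set Filter Topology MeasureTheory

noncomputable section

namespace Pool.Agent.H75.Lieb

/-- truncated power nonlinearity -/
def Fn (q N y : ℝ) : ℝ := (max 0 (min y N)) ^ (q + 1) + N ^ q * max (y - N) 0

lemma Fn_zero {q N : ℝ} (hq : 0 < q) (hN : 0 < N) : Fn q N 0 = 0 := by
  unfold Fn
  rw [min_eq_left hN.le, max_self, Real.zero_rpow (by linarith), zero_sub,
    max_eq_right (by linarith)]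
  simp

lemma Fn_eq_pow {q N y : ℝ} (hq : 0 < q) (hy : 0 ≤ y) (hyN : y ≤ N) :
    Fn q N y = y ^ (q + 1) := by
  unfold Fn
  rw [min_eq_left hyN, max_eq_right hy, max_eq_right (by linarith)]
  simp

lemma Fn_eq_mul {q N y : ℝ} (hq : 0 < q) (hN : 0 < N) (hy : 0 ≤ y) :
    Fn q N y = y * (min y N) ^ q := by
  rcases le_total y N with h | h
  · rw [Fn_eq_pow hq hy h, min_eq_left h, Real.rpow_add' hy (by linarith), Real.rpow_one, mul_comm]
  · unfold Fn
    rw [min_eq_right h, max_eq_right hN.le, max_eq_left (by linarith),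
      Real.rpow_add' hN.le (by linarith), Real.rpow_one]
    ring

lemma rpow_lip {q N : ℝ} (hq : 0 < q) (hN : 0 < N) {x y : ℝ} (hx : x ∈ Icc 0 N)
    (hy : y ∈ Icc 0 N) : |x ^ (q + 1) - y ^ (q + 1)| ≤ (q + 1) * N ^ q * |x - y| := by
  have h := Convex.norm_image_sub_le_of_norm_hasDerivWithin_le (f := fun x : ℝ => x ^ (q + 1))
    (f' := fun x : ℝ => (q + 1) * x ^ q) (C := (q + 1) * N ^ q) (s := Icc (0:ℝ) N)
    (x := y) (y := x) (fun z hz => by
      have := Real.hasDerivAt_rpow_const (x := z) (p := q + 1) (Or.inr (by linarith))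
      simp only [add_sub_cancel_right] at this
      exact this.hasDerivWithinAt) (fun z hz => by
      rw [Real.norm_eq_abs, abs_of_nonneg (mul_nonneg (by linarith) (Real.rpow_nonneg hz.1 _))]
      exact mul_le_mul_of_nonneg_left (Real.rpow_le_rpow hz.1 hz.2 hq.le) (by linarith))
    (convex_Icc 0 N) hy hx
  simpa [Real.norm_eq_abs] using h

/-- Lipschitz constant. -/
def Lc (q N : ℝ) : ℝ := (q + 1) * N ^ q + N ^ q

lemma Lc_nonneg {q N : ℝ} (hq : 0 < q) (hN : 0 < N) : 0 ≤ Lc q N := by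
  unfold Lc; positivity

lemma Fn_lip {q N : ℝ} (hq : 0 < q) (hN : 0 < N) (x y : ℝ) :
    |Fn q N x - Fn q N y| ≤ Lc q N * |x - y| := by
  have h1 : |max 0 (min x N) - max 0 (min y N)| ≤ |x - y| := by
    have a := abs_max_sub_max_le_max 0 (min x N) 0 (min y N)
    have b := abs_min_sub_min_le_max x N y N
    rw [sub_self, abs_zero, max_eq_right (abs_nonneg (min x N - min y N))] at a
    rw [sub_self, abs_zero, max_eq_left (abs_nonneg (x - y))] at b
    exact a.trans b
  have h2 : |max (x - N) 0 - max (y - N) 0| ≤ |x - y| := by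
    have := abs_max_sub_max_le_abs (x - N) (y - N) 0
    simpa using this
  have mx : max 0 (min x N) ∈ Icc 0 N := ⟨le_max_left _ _, max_le hN.le (min_le_right _ _)⟩
  have my : max 0 (min y N) ∈ Icc 0 N := ⟨le_max_left _ _, max_le hN.le (min_le_right _ _)⟩
  have h3 := rpow_lip hq hN mx my
  unfold Fn Lc
  have hNq : 0 < N ^ q := by positivity
  calc _ = |((max 0 (min x N)) ^ (q + 1) - (max 0 (min y N)) ^ (q + 1)) +
        N ^ q * (max (x - N) 0 - max (y - N) 0)| := by congr 1; ring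
    _ ≤ |(max 0 (min x N)) ^ (q + 1) - (max 0 (min y N)) ^ (q + 1)| +
        |N ^ q * (max (x - N) 0 - max (y - N) 0)| := abs_add_le _ _
    _ ≤ (q + 1) * N ^ q * |x - y| + N ^ q * |x - y| := by
        rw [abs_mul, abs_of_pos hNq]
        gcongr
        exact h3.trans (by gcongr)
    _ = _ := by ring

lemma Fn_continuous {q N : ℝ} (hq : 0 < q) (hN : 0 < N) : Continuous (Fn q N) := by
  have : LipschitzWith (Real.toNNReal (Lc q N)) (Fn q N) := by
    refine LipschitzWith.of_dist_le_mul fun x y => ?_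
    rw [Real.dist_eq, Real.dist_eq, Real.coe_toNNReal _ (Lc_nonneg hq hN)]
    exact Fn_lip hq hN x y
  exact this.continuous

section shoot

variable {q N : ℝ} (hq : 0 < q) (hN : 0 < N)

/-- solution with `ψ(0) = a` -/
def psi (a : ℝ) : ℝ → ℝ :=
  sol (Lc_nonneg hq hN) (Fn_continuous hq hN) (Fn_zero hq hN) (Fn_lip hq hN) a

/-- `r² ψ'(r)` -/
def mm (a : ℝ) : ℝ → ℝ := mom (Fn q N) (psi hq hN a)

lemma psi_cont (a : ℝ) : Continuous (psi hq hN a) := sol_continuous _ _ _ _ _

lemma psi_joint : Continuous (fun p : ℝ × ℝ => psi hq hN p.1 p.2) := sol_joint_continuous _ _ _ _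

lemma psi_zero (a : ℝ) : psi hq hN a 0 = a := sol_zero _ _ _ _ _

lemma psi_deriv (a : ℝ) {r : ℝ} (hr : 0 < r) :
    HasDerivAt (psi hq hN a) (mm hq hN a r / r ^ 2) r := sol_hasDerivAt _ _ _ _ _ hr

lemma mm_zero (a : ℝ) : mm hq hN a 0 = 0 := mom_zero _ _

lemma mm_deriv (a r : ℝ) :
    HasDerivAt (mm hq hN a) (r * (r * Fn q N (psi hq hN a r) - psi hq hN a r)) r :=
  mom_hasDerivAt (Fn_continuous hq hN) (psi_cont hq hN a) r

lemma mm_cont (a : ℝ) : Continuous (mm hq hN a) :=
  continuous_iff_continuousAt.mpr fun r => (mm_deriv hq hN a r).continuousAt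

lemma mm_cont_a (r : ℝ) : Continuous (fun a => mm hq hN a r) := by
  unfold mm mom
  apply intervalIntegral.continuous_parametric_intervalIntegral_of_continuous'
  have h1 := psi_joint hq hN
  have h2 := Fn_continuous hq hN
  have h3 : Continuous (Function.uncurry fun (a s : ℝ) => psi hq hN a s) := h1
  exact continuous_snd.mul ((continuous_snd.mul (h2.comp h3)).sub h3)

/-- on an interval where `m ≤ 0`, `ψ` is nonincreasing -/
lemma psi_anti {a R : ℝ} (h : ∀ r, 0 < r → r < R → mm hq hN a r ≤ 0) :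
    AntitoneOn (psi hq hN a) (Icc 0 R) := by
  apply antitoneOn_of_deriv_nonpos (convex_Icc 0 R) (psi_cont hq hN a).continuousOn
  · intro x hx
    rw [interior_Icc] at hx
    exact (psi_deriv hq hN a hx.1).differentiableAt.differentiableWithinAt
  · intro x hx
    rw [interior_Icc] at hx
    rw [(psi_deriv hq hN a hx.1).deriv]
    exact div_nonpos_of_nonpos_of_nonneg (h x hx.1 hx.2) (by positivity)

lemma psi_mono {a R S : ℝ} (hR : 0 ≤ R) (h : ∀ r, R < r → r < S → 0 ≤ mm hq hN a r) :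
    MonotoneOn (psi hq hN a) (Icc R S) := by
  apply monotoneOn_of_deriv_nonneg (convex_Icc R S) (psi_cont hq hN a).continuousOn
  · intro x hx
    rw [interior_Icc] at hx
    exact (psi_deriv hq hN a (lt_of_le_of_lt hR hx.1)).differentiableAt.differentiableWithinAt
  · intro x hx
    rw [interior_Icc] at hx
    rw [(psi_deriv hq hN a (lt_of_le_of_lt hR hx.1)).deriv]
    exact div_nonneg (h x hx.1 hx.2) (by positivity)

/-- the set of `a` for which the solution crosses zero -/
def SA : Set ℝ := {a | ∃ r, 0 < r ∧ psi hq hN a r < 0}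

/-- the set of `a` for which the solution turns up before reaching zero -/
def SB : Set ℝ := {a | ∃ r, 0 < r ∧ 0 < mm hq hN a r ∧ ∀ s ∈ Icc 0 r, 0 < psi hq hN a s}

lemma SA_open : IsOpen (SA hq hN) := by
  have : SA hq hN = ⋃ r ∈ Ioi (0:ℝ), {a | psi hq hN a r < 0} := by
    ext a; simp [SA]
  rw [this]
  refine isOpen_biUnion fun r _ => ?_
  exact isOpen_lt ((psi_joint hq hN).comp (by fun_prop : Continuous fun a : ℝ => (a, r)))
    continuous_const

lemma SB_open : IsOpen (SB hq hN) := by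
  have : SB hq hN = ⋃ r ∈ Ioi (0:ℝ), ({a | 0 < mm hq hN a r} ∩
      {a | ∀ s ∈ Icc 0 r, 0 < psi hq hN a s}) := by
    ext a
    simp only [SB, Set.mem_iUnion, Set.mem_inter_iff]
    constructor
    · rintro ⟨r, h1, h2, h3⟩
      exact ⟨r, h1, h2, h3⟩
    · rintro ⟨r, h1, h2, h3⟩
      exact ⟨r, h1, h2, h3⟩
  rw [this]
  refine isOpen_biUnion fun r _ => ?_
  refine (isOpen_lt continuous_const (mm_cont_a hq hN r)).inter ?_
  rw [isOpen_iff_mem_nhds]
  intro a ha
  have h1 : ∀ s ∈ Icc (0:ℝ) r, ∀ᶠ p : ℝ × ℝ in 𝓝 a ×ˢ 𝓝 s, 0 < psi hq hN p.1 p.2 := by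
    intro s hs
    rw [← nhds_prod_eq]
    exact (psi_joint hq hN).continuousAt.eventually (lt_mem_nhds (ha s hs))
  have h2 := isCompact_Icc.eventually_forall_of_forall_eventually (K := Icc (0:ℝ) r)
    (P := fun (b : ℝ) (s : ℝ) => 0 < psi hq hN b s) (x₀ := a) (by
      intro s hs
      have := h1 s hs
      rw [← nhds_prod_eq] at this
      exact this)
  filter_upwards [h2] with b hb
  exact hb

lemma key_growth {a : ℝ} {r₁ : ℝ} (hr₁ : 0 < r₁) (hm : 0 < mm hq hN a r₁)
    (hpos : ∀ s ∈ Icc 0 r₁, 0 < psi hq hN a s) :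
    ∀ r, r₁ ≤ r → 0 < psi hq hN a r := by
  set ψ := psi hq hN a with hψ
  set m := mm hq hN a with hmd
  have mc : Continuous m := mm_cont hq hN a
  -- last nonpositive point of `m` before `r₁`
  obtain ⟨ξ, hξ0, hξ1, hkξ⟩ : ∃ ξ, 0 < ξ ∧ ξ ≤ r₁ ∧ (1 < ξ * (min (ψ ξ) N) ^ q) ∧
      (∀ s, ξ ≤ s → s ≤ r₁ → 0 ≤ m s) := by
    set Z := {r | r ∈ Icc 0 r₁ ∧ m r ≤ 0} with hZ
    have hZc : IsCompact Z := by
      have : Z = Icc 0 r₁ ∩ {r | m r ≤ 0} := by ext; simp [hZ]
      rw [this]
      exact isCompact_Icc.inter_right (isClosed_le mc continuous_const)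
    have hZn : Z.Nonempty := ⟨0, ⟨le_refl _, hr₁.le⟩, (mm_zero hq hN a).le⟩
    obtain ⟨r₂, hr₂, hmax⟩ := hZc.exists_isMaxOn hZn continuous_id.continuousOn
    have hr₂lt : r₂ < r₁ := by
      rcases lt_or_eq_of_le hr₂.1.2 with h | h
      · exact h
      · exfalso; have := hr₂.2; rw [h] at this; linarith
    obtain ⟨ξ, hξ, hslope⟩ := exists_hasDerivAt_eq_slope m
      (fun r => r * (r * Fn q N (ψ r) - ψ r)) hr₂lt mc.continuousOn
      (fun x _ => mm_deriv hq hN a x)
    have hξ0 : 0 < ξ := lt_of_le_of_lt hr₂.1.1 hξ.1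
    refine ⟨ξ, hξ0, hξ.2.le, ?_, ?_⟩
    · have hsp : 0 < ξ * (ξ * Fn q N (ψ ξ) - ψ ξ) := by
        rw [hslope]
        apply div_pos _ (by linarith)
        have := hr₂.2
        linarith
      have hψξ : 0 < ψ ξ := hpos ξ ⟨hξ0.le, hξ.2.le⟩
      have h2 : 0 < ξ * Fn q N (ψ ξ) - ψ ξ := by
        by_contra h; push Not at h
        nlinarith
      rw [Fn_eq_mul hq hN hψξ.le] at h2
      have h3 : 0 < ψ ξ * (ξ * (min (ψ ξ) N) ^ q - 1) := by linarith
      have := (mul_pos_iff_of_pos_left hψξ).mp h3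
      linarith
    · intro s hs1 hs2
      by_contra h
      push Not at h
      have : s ∈ Z := ⟨⟨by linarith, hs2⟩, h.le⟩
      have := hmax this
      simp only [id] at this
      have := hξ.1
      change s ≤ r₂ at *
      linarith
  obtain ⟨hk1, hmnn⟩ := hkξ
  have hψξ : 0 < ψ ξ := hpos ξ ⟨hξ0.le, hξ1⟩
  -- claim m > 0 on [r₁, ∞)
  have hmpos : ∀ r, r₁ ≤ r → 0 < m r := by
    by_contra hcon
    push Not at hcon
    obtain ⟨R, hR1, hR2⟩ := hcon
    set Z := {r | r ∈ Icc r₁ R ∧ m r ≤ 0} with hZ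
    have hZc : IsCompact Z := by
      have : Z = Icc r₁ R ∩ {r | m r ≤ 0} := by ext; simp [hZ]
      rw [this]
      exact isCompact_Icc.inter_right (isClosed_le mc continuous_const)
    have hZn : Z.Nonempty := ⟨R, ⟨hR1, le_refl _⟩, hR2⟩
    obtain ⟨r₄, hr₄, hmin⟩ := hZc.exists_isMinOn hZn continuous_id.continuousOn
    have hr₄gt : r₁ < r₄ := by
      rcases lt_or_eq_of_le hr₄.1.1 with h | h
      · exact h
      · exfalso; have := hr₄.2; rw [← h] at this; linarith
    have hmn : ∀ s, ξ < s → s < r₄ → 0 ≤ m s := by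
      intro s hs1 hs2
      rcases le_or_gt s r₁ with h | h
      · exact hmnn s hs1.le h
      · by_contra hc
        push Not at hc
        have : s ∈ Z := ⟨⟨h.le, hs2.le.trans hr₄.1.2⟩, hc.le⟩
        have := hmin this
        change r₄ ≤ s at this
        linarith
    have hmono := psi_mono hq hN hξ0.le hmn
    have hm_mono : MonotoneOn m (Icc r₁ r₄) := by
      apply monotoneOn_of_deriv_nonneg (convex_Icc _ _) mc.continuousOn
      · intro x hx
        exact (mm_deriv hq hN a x).differentiableAt.differentiableWithinAt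
      · intro x hx
        rw [interior_Icc] at hx
        rw [(mm_deriv hq hN a x).deriv]
        have hx0 : ξ ≤ x := hξ1.trans hx.1.le
        have hxpos : 0 < x := lt_of_lt_of_le hξ0 hx0
        have h1 : ψ ξ ≤ ψ x := hmono ⟨le_refl _, hx0.trans hx.2.le⟩ ⟨hx0, hx.2.le⟩ hx0
        have hψx : 0 < ψ x := lt_of_lt_of_le hψξ h1
        change 0 ≤ x * (x * Fn q N (ψ x) - ψ x)
        rw [Fn_eq_mul hq hN hψx.le]
        have h2 : (min (ψ ξ) N) ^ q ≤ (min (ψ x) N) ^ q :=
          Real.rpow_le_rpow (le_min hψξ.le hN.le) (min_le_min_right _ h1) hq.le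
        have h3 : 0 ≤ (min (ψ ξ) N) ^ q := Real.rpow_nonneg (le_min hψξ.le hN.le) _
        have h4 : 1 ≤ x * (min (ψ x) N) ^ q := by
          calc (1:ℝ) ≤ ξ * (min (ψ ξ) N) ^ q := hk1.le
            _ ≤ x * (min (ψ x) N) ^ q := by gcongr
        have h5 : x * (x * (ψ x * (min (ψ x) N) ^ q) - ψ x) =
          x * ψ x * (x * (min (ψ x) N) ^ q - 1) := by ring
        rw [h5]
        exact mul_nonneg (mul_nonneg hxpos.le hψx.le) (by linarith)
    have := hm_mono ⟨le_refl _, hr₄gt.le⟩ ⟨hr₄gt.le, le_refl _⟩ hr₄gt.le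
    have := hr₄.2
    linarith
  intro r hr
  have hmono := psi_mono hq hN (a := a) (R := r₁) (S := r) hr₁.le
    (fun s hs _ => (hmpos s hs.le).le)
  have h1 := hmono ⟨le_refl _, hr⟩ ⟨hr, le_refl _⟩ hr
  exact lt_of_lt_of_le (hpos r₁ ⟨hr₁.le, le_refl _⟩) h1

lemma SA_SB_disjoint {a : ℝ} (hA : a ∈ SA hq hN) (hB : a ∈ SB hq hN) : False := by
  obtain ⟨r, hr, hneg⟩ := hA
  obtain ⟨r₁, hr₁, hm, hpos⟩ := hB
  rcases le_or_gt r r₁ with h | h
  · exact absurd hneg (not_lt.mpr (hpos r ⟨hr.le, h⟩).le)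
  · exact absurd hneg (not_lt.mpr (key_growth hq hN hr₁ hm hpos r h.le).le)

/-- If `a > 0` is neither in `SA` nor in `SB`, the solution is positive and `m ≤ 0`. -/
lemma good_of_not_mem {a : ℝ} (ha : 0 < a) (hA : a ∉ SA hq hN) (hB : a ∉ SB hq hN) :
    (∀ r, 0 ≤ r → 0 < psi hq hN a r) ∧ (∀ r, 0 ≤ r → mm hq hN a r ≤ 0) := by
  set ψ := psi hq hN a with hψ
  set m := mm hq hN a with hmd
  have mc : Continuous m := mm_cont hq hN a
  have ψc : Continuous ψ := psi_cont hq hN a
  have hnn : ∀ r, 0 < r → 0 ≤ ψ r := by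
    intro r hr
    by_contra h
    push Not at h
    exact hA ⟨r, hr, h⟩
  have hmB : ∀ r, 0 < r → (∀ s ∈ Icc 0 r, 0 < ψ s) → m r ≤ 0 := by
    intro r hr h
    by_contra hc
    push Not at hc
    exact hB ⟨r, hr, hc, h⟩
  have hpos : ∀ r, 0 ≤ r → 0 < ψ r := by
    by_contra hcon
    push Not at hcon
    obtain ⟨R, hR0, hR⟩ := hcon
    set Z := {r | r ∈ Icc 0 R ∧ ψ r ≤ 0} with hZ
    have hZc : IsCompact Z := by
      have : Z = Icc 0 R ∩ {r | ψ r ≤ 0} := by ext; simp [hZ]
      rw [this]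
      exact isCompact_Icc.inter_right (isClosed_le ψc continuous_const)
    have hZn : Z.Nonempty := ⟨R, ⟨hR0, le_refl _⟩, hR⟩
    obtain ⟨r₀, hr₀, hmin⟩ := hZc.exists_isMinOn hZn continuous_id.continuousOn
    have hψ0 : ψ 0 = a := psi_zero hq hN a
    have hr₀pos : 0 < r₀ := by
      rcases lt_or_eq_of_le hr₀.1.1 with h | h
      · exact h
      · exfalso; have := hr₀.2; rw [← h, hψ0] at this; linarith
    have hbefore : ∀ s, 0 ≤ s → s < r₀ → 0 < ψ s := by
      intro s hs1 hs2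
      by_contra hc
      push Not at hc
      have : s ∈ Z := ⟨⟨hs1, hs2.le.trans hr₀.1.2⟩, hc⟩
      have := hmin this
      change r₀ ≤ s at this
      linarith
    have hψr₀ : ψ r₀ = 0 := le_antisymm hr₀.2 (hnn r₀ hr₀pos)
    -- near r₀ from the left, `r ψ ^ q < 1`
    have hcont : Continuous (fun r => r * (min (ψ r) N) ^ q) :=
      continuous_id.mul ((ψc.min continuous_const).rpow_const (fun _ => Or.inr hq.le))
    have hev : ∀ᶠ r in 𝓝 r₀, r * (min (ψ r) N) ^ q < 1 := by
      apply hcont.continuousAt.eventually (gt_mem_nhds _)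
      change r₀ * (min (ψ r₀) N) ^ q < 1
      rw [hψr₀, min_eq_left hN.le, Real.zero_rpow hq.ne', mul_zero]
      norm_num
    obtain ⟨δ, hδ, hball⟩ := Metric.eventually_nhds_iff.mp hev
    set δ' := min (δ / 2) (r₀ / 2) with hδ'
    have hδ'pos : 0 < δ' := lt_min (by linarith) (by linarith)
    have hδ'1 : δ' ≤ δ / 2 := min_le_left _ _
    have hδ'2 : δ' ≤ r₀ / 2 := min_le_right _ _
    have hanti : StrictAntiOn m (Icc (r₀ - δ') r₀) := by
      apply strictAntiOn_of_deriv_neg (convex_Icc _ _) mc.continuousOn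
      intro x hx
      rw [interior_Icc] at hx
      rw [(mm_deriv hq hN a x).deriv]
      have hx0 : 0 < x := by linarith [hx.1]
      have hψx : 0 < ψ x := hbefore x hx0.le hx.2
      change x * (x * Fn q N (ψ x) - ψ x) < 0
      rw [Fn_eq_mul hq hN hψx.le]
      have h1 : x * (min (ψ x) N) ^ q < 1 := by
        apply hball
        rw [Real.dist_eq, abs_lt]
        constructor <;> linarith [hx.1, hx.2]
      have h5 : x * (x * (ψ x * (min (ψ x) N) ^ q) - ψ x) =
          x * ψ x * (x * (min (ψ x) N) ^ q - 1) := by ring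
      rw [h5]
      exact mul_neg_of_pos_of_neg (mul_pos hx0 hψx) (by linarith)
    have h1 : m r₀ < m (r₀ - δ') :=
      hanti ⟨le_refl _, by linarith⟩ ⟨by linarith, le_refl _⟩ (by linarith)
    have h2 : m (r₀ - δ') ≤ 0 := by
      apply hmB _ (by linarith)
      intro s hs
      exact hbefore s hs.1 (by linarith [hs.2])
    have h3 : m r₀ / r₀ ^ 2 < 0 := div_neg_of_neg_of_pos (by linarith) (by positivity)
    -- so `ψ` becomes negative to the right of `r₀`
    have hd := psi_deriv hq hN a hr₀pos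
    have hd2 := (hasDerivAt_iff_tendsto_slope.mp hd).eventually (gt_mem_nhds h3)
    have hd3 : ∀ᶠ x in 𝓝[>] r₀, slope (psi hq hN a) r₀ x < 0 :=
      hd2.filter_mono (nhdsWithin_mono _ (fun x hx => by simpa using (ne_of_gt hx)))
    obtain ⟨x, hx1, hx2⟩ := (hd3.and self_mem_nhdsWithin).exists
    rw [slope_def_field] at hx1
    have hx2' : r₀ < x := hx2
    have h4 : ψ x - ψ r₀ < 0 := by
      by_contra hc
      push Not at hc
      have : 0 ≤ (ψ x - ψ r₀) / (x - r₀) := div_nonneg hc (by linarith)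
      exact absurd hx1 (not_lt.mpr this)
    rw [hψr₀, sub_zero] at h4
    exact absurd (hnn x (by linarith)) (not_le.mpr h4)
  refine ⟨hpos, fun r hr => ?_⟩
  rcases lt_or_eq_of_le hr with h | h
  · exact hmB r h (fun s hs => hpos s hs.1)
  · rw [← h]; exact (mm_zero hq hN a).le

/-- small initial values are in `SA` -/
lemma small_mem_SA {a : ℝ} (ha : 0 < a) (haN : 2 * a ≤ N) (hsmall : 20 * (2 * a) ^ q ≤ 1) :
    a ∈ SA hq hN := by
  by_contra hA
  set ψ := psi hq hN a with hψ
  set m := mm hq hN a with hmd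
  have mc : Continuous m := mm_cont hq hN a
  have ψc : Continuous ψ := psi_cont hq hN a
  have hψ0 : ψ 0 = a := psi_zero hq hN a
  have hnn : ∀ r, 0 ≤ r → 0 ≤ ψ r := by
    intro r hr
    rcases lt_or_eq_of_le hr with h | h
    · by_contra hc
      push Not at hc
      exact hA ⟨r, h, hc⟩
    · rw [← h, hψ0]; exact ha.le
  -- bound of the nonlinearity where ψ ≤ 2 a
  have hFb : ∀ r, 0 ≤ r → r ≤ 10 → ψ r ≤ 2 * a → r * Fn q N (ψ r) ≤ ψ r / 2 := by
    intro r hr0 hr1 hr2
    have h0 := hnn r hr0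
    rw [Fn_eq_mul hq hN h0]
    have h1 : (min (ψ r) N) ^ q ≤ (2 * a) ^ q :=
      Real.rpow_le_rpow (le_min h0 hN.le) ((min_le_left _ _).trans hr2) hq.le
    have h2 : 0 ≤ (min (ψ r) N) ^ q := Real.rpow_nonneg (le_min h0 hN.le) _
    have h3 : r * (min (ψ r) N) ^ q ≤ 1 / 2 := by
      calc r * (min (ψ r) N) ^ q ≤ 10 * (2 * a) ^ q := by gcongr
        _ ≤ 1 / 2 := by linarith
    nlinarith
  have hlt : ∀ r, 0 ≤ r → r ≤ 10 → ψ r < 2 * a := by
    by_contra hcon
    push Not at hcon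
    obtain ⟨R, hR0, hR1, hR2⟩ := hcon
    set Z := {r | r ∈ Icc 0 R ∧ 2 * a ≤ ψ r} with hZ
    have hZc : IsCompact Z := by
      have : Z = Icc 0 R ∩ {r | 2 * a ≤ ψ r} := by ext; simp [hZ]
      rw [this]
      exact isCompact_Icc.inter_right (isClosed_le continuous_const ψc)
    have hZn : Z.Nonempty := ⟨R, ⟨hR0, le_refl _⟩, hR2⟩
    obtain ⟨r₀, hr₀, hmin⟩ := hZc.exists_isMinOn hZn continuous_id.continuousOn
    have hr₀pos : 0 < r₀ := by
      rcases lt_or_eq_of_le hr₀.1.1 with h | h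
      · exact h
      · exfalso; have := hr₀.2; rw [← h, hψ0] at this; linarith
    have hbefore : ∀ s, 0 ≤ s → s < r₀ → ψ s < 2 * a := by
      intro s hs1 hs2
      by_contra hc
      push Not at hc
      have : s ∈ Z := ⟨⟨hs1, hs2.le.trans hr₀.1.2⟩, hc⟩
      have := hmin this
      change r₀ ≤ s at this
      linarith
    have hm_anti : AntitoneOn m (Icc 0 r₀) := by
      apply antitoneOn_of_deriv_nonpos (convex_Icc _ _) mc.continuousOn
      · intro x hx
        exact (mm_deriv hq hN a x).differentiableAt.differentiableWithinAt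
      · intro x hx
        rw [interior_Icc] at hx
        rw [(mm_deriv hq hN a x).deriv]
        have h1 := hFb x hx.1.le ((hx.2.le.trans hr₀.1.2).trans hR1) (hbefore x hx.1.le hx.2).le
        have h2 := hnn x hx.1.le
        change x * (x * Fn q N (ψ x) - ψ x) ≤ 0
        exact mul_nonpos_of_nonneg_of_nonpos hx.1.le (by linarith)
    have hm0 : ∀ s, 0 < s → s < r₀ → m s ≤ 0 := by
      intro s hs1 hs2
      have := hm_anti ⟨le_refl _, hr₀pos.le⟩ ⟨hs1.le, hs2.le⟩ hs1.le
      rwa [hmd, mm_zero hq hN a] at this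
    have := psi_anti hq hN hm0 ⟨le_refl _, hr₀pos.le⟩ ⟨hr₀pos.le, le_refl _⟩ hr₀pos.le
    change ψ r₀ ≤ ψ 0 at this
    have h5 := hr₀.2
    rw [hψ0] at this
    linarith
  -- the auxiliary function
  set H : ℝ → ℝ := fun r => (10 - r) ^ 2 * m r + 2 * r ^ 2 * (10 - r) * ψ r with hH
  have hHd : ∀ r, 0 < r → HasDerivAt H
      ((10 - r) ^ 2 * (r * (r * Fn q N (ψ r) - ψ r)) + (40 * r - 6 * r ^ 2) * ψ r) r := by
    intro r hr
    have d1 : HasDerivAt (fun r : ℝ => (10 - r) ^ 2) (-2 * (10 - r)) r := by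
      have := ((hasDerivAt_id r).const_sub 10).pow 2
      have e : ((2:ℕ):ℝ) * (10 - id r) ^ (2 - 1) * (-1) = -2 * (10 - r) := by
        simp only [id]; norm_num
      rw [e] at this
      exact this
    have d2 : HasDerivAt (fun r : ℝ => 2 * r ^ 2 * (10 - r)) (40 * r - 6 * r ^ 2) r := by
      have a1 : HasDerivAt (fun r : ℝ => 2 * r ^ 2) (2 * (2 * r)) r := by
        simpa using (hasDerivAt_pow 2 r).const_mul 2
      have := a1.mul ((hasDerivAt_id r).const_sub 10)
      have e : 2 * (2 * r) * (10 - id r) + 2 * r ^ 2 * (-1) = 40 * r - 6 * r ^ 2 := by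
        simp only [id]; ring
      rw [e] at this
      exact this
    have d3 := (d1.mul (mm_deriv hq hN a r)).add (d2.mul (psi_deriv hq hN a hr))
    have e : (10 - r) ^ 2 * (r * (r * Fn q N (ψ r) - ψ r)) + (40 * r - 6 * r ^ 2) * ψ r =
        -2 * (10 - r) * mm hq hN a r +
          (10 - r) ^ 2 * (r * (r * Fn q N (psi hq hN a r) - psi hq hN a r)) +
        ((40 * r - 6 * r ^ 2) * psi hq hN a r +
          2 * r ^ 2 * (10 - r) * (mm hq hN a r / r ^ 2)) := by
      field_simp
      ring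
    rw [e]
    exact d3
  have hHneg : ∀ r, 0 < r → r < 10 →
      (10 - r) ^ 2 * (r * (r * Fn q N (ψ r) - ψ r)) + (40 * r - 6 * r ^ 2) * ψ r ≤
        -(ψ r * r * ((r - 4) ^ 2 + 4) / 2) := by
    intro r h0 h1
    have h2 := hFb r h0.le h1.le (hlt r h0.le h1.le).le
    have h3 : (10 - r) ^ 2 * (r * (r * Fn q N (ψ r) - ψ r)) ≤ (10 - r) ^ 2 * (r * (-(ψ r) / 2)) := by
      gcongr
      linarith
    nlinarith
  have hHc : Continuous H := by
    rw [hH]; fun_prop
  have hHanti : AntitoneOn H (Icc 0 10) := by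
    apply antitoneOn_of_deriv_nonpos (convex_Icc _ _) hHc.continuousOn
    · intro x hx
      rw [interior_Icc] at hx
      exact (hHd x hx.1).differentiableAt.differentiableWithinAt
    · intro x hx
      rw [interior_Icc] at hx
      rw [(hHd x hx.1).deriv]
      refine (hHneg x hx.1 hx.2).trans ?_
      have h2 := hnn x hx.1.le
      have h3 : 0 ≤ ψ x * x * ((x - 4) ^ 2 + 4) / 2 := by
        have := hx.1.le
        positivity
      linarith
  have hH0 : H 0 = 0 := by
    simp only [hH]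
    rw [hmd, mm_zero hq hN a]
    ring
  have hH10 : H 10 = 0 := by
    simp only [hH]; ring
  have hHzero : ∀ r ∈ Icc (0:ℝ) 10, H r = 0 := by
    intro r hr
    have h1 := hHanti ⟨le_refl _, by norm_num⟩ hr hr.1
    have h2 := hHanti hr ⟨by norm_num, le_refl _⟩ hr.2
    rw [hH0] at h1
    rw [hH10] at h2
    linarith
  -- near 0 the function ψ is positive
  have hev : ∀ᶠ r in 𝓝 (0:ℝ), 0 < ψ r := by
    apply ψc.continuousAt.eventually (lt_mem_nhds _)
    rw [hψ0]; exact ha
  obtain ⟨δ, hδ, hball⟩ := Metric.eventually_nhds_iff.mp hev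
  set x := min (δ / 2) 1 with hx
  have hx0 : 0 < x := lt_min (by linarith) one_pos
  have hx1 : x ≤ 1 := min_le_right _ _
  have hψx : 0 < ψ x := by
    apply hball
    rw [Real.dist_eq, sub_zero, abs_of_pos hx0]
    have : x ≤ δ / 2 := min_le_left _ _
    linarith
  have hd0 : HasDerivAt H 0 x := by
    have : H =ᶠ[𝓝 x] fun _ => (0:ℝ) := by
      filter_upwards [Ioo_mem_nhds hx0 (by linarith : x < 10)] with y hy
      exact hHzero y ⟨hy.1.le, hy.2.le⟩
    exact (hasDerivAt_const x (0:ℝ)).congr_of_eventuallyEq this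
  have := hd0.unique (hHd x hx0)
  have h6 := hHneg x hx0 (by linarith)
  rw [← this] at h6
  have h7 : 0 < ψ x * x * ((x - 4) ^ 2 + 4) / 2 := by positivity
  linarith

/-- the large initial value `N` is in `SB` -/
lemma large_mem_SB (hlarge : 3 < (N / 2) ^ q) : N ∈ SB hq hN := by
  by_contra hB
  set ψ := psi hq hN N with hψ
  set m := mm hq hN N with hmd
  have mc : Continuous m := mm_cont hq hN N
  have ψc : Continuous ψ := psi_cont hq hN N
  have hψ0 : ψ 0 = N := psi_zero hq hN N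
  have hmB : ∀ r, 0 < r → (∀ s ∈ Icc 0 r, 0 < ψ s) → m r ≤ 0 := by
    intro r hr h
    by_contra hc
    push Not at hc
    exact hB ⟨r, hr, hc, h⟩
  -- estimate on a positivity interval
  have hest : ∀ R, 0 < R → R ≤ 1 → (∀ s, 0 ≤ s → s < R → 0 < ψ s) →
      ∀ r ∈ Icc 0 R, N / 2 ≤ ψ r ∧ ψ r ≤ N := by
    intro R hR0 hR1 hpos r hr
    have hm0 : ∀ s, 0 < s → s < R → m s ≤ 0 := by
      intro s hs1 hs2
      exact hmB s hs1 (fun t ht => hpos t ht.1 (lt_of_le_of_lt ht.2 hs2))
    have hanti := psi_anti hq hN hm0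
    have hle : ∀ s ∈ Icc 0 R, ψ s ≤ N := by
      intro s hs
      have := hanti ⟨le_refl _, hR0.le⟩ hs hs.1
      rwa [psi_zero hq hN N] at this
    have hge0 : ∀ s ∈ Icc 0 R, 0 ≤ ψ s := by
      intro s hs
      rcases lt_or_eq_of_le hs.2 with h | h
      · exact (hpos s hs.1 h).le
      · -- limit point
        rw [h]
        have hcl : R ∈ closure (Ico 0 R) := by
          rw [closure_Ico hR0.ne]; exact ⟨hR0.le, le_refl _⟩
        have hsub : Ico 0 R ⊆ {s | 0 ≤ ψ s} := fun t ht => (hpos t ht.1 ht.2).le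
        exact (isClosed_le continuous_const ψc).closure_subset_iff.mpr hsub hcl
    -- m + N r²/2 is monotone
    have hmono : MonotoneOn (fun s => m s + N * s ^ 2 / 2) (Icc 0 R) := by
      apply monotoneOn_of_deriv_nonneg (convex_Icc _ _) (by fun_prop)
      · intro x hx
        exact ((mm_deriv hq hN N x).add (by
          have := ((hasDerivAt_pow 2 x).const_mul N).div_const 2
          exact this)).differentiableAt.differentiableWithinAt
      · intro x hx
        rw [interior_Icc] at hx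
        have hd := (mm_deriv hq hN N x).add (((hasDerivAt_pow 2 x).const_mul N).div_const 2)
        have e : deriv (fun s => m s + N * s ^ 2 / 2) x = _ := hd.deriv
        rw [e]
        have hx' : x ∈ Icc 0 R := ⟨hx.1.le, hx.2.le⟩
        have h1 := hle x hx'
        have h2 := hge0 x hx'
        have h3 : 0 ≤ Fn q N (ψ x) := by
          rw [Fn_eq_mul hq hN h2]
          exact mul_nonneg h2 (Real.rpow_nonneg (le_min h2 hN.le) _)
        have h4 : 0 ≤ x * (x * Fn q N (ψ x)) := by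
          have := hx.1.le
          positivity
        have h5 : x * ψ x ≤ x * N := mul_le_mul_of_nonneg_left h1 hx.1.le
        change 0 ≤ x * (x * Fn q N (ψ x) - ψ x) + N * (((2:ℕ):ℝ) * x ^ (2 - 1)) / 2
        norm_num
        linarith
    have hmge : ∀ s ∈ Icc 0 R, -(N * s ^ 2 / 2) ≤ m s := by
      intro s hs
      have := hmono ⟨le_refl _, hR0.le⟩ hs hs.1
      simp only [hmd, mm_zero hq hN N] at this
      change _ ≤ mm hq hN N s
      linarith
    have hmono2 : MonotoneOn (fun s => ψ s + N * s / 2) (Icc 0 R) := by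
      apply monotoneOn_of_deriv_nonneg (convex_Icc _ _) (by fun_prop)
      · intro x hx
        rw [interior_Icc] at hx
        exact ((psi_deriv hq hN N hx.1).add
          (((hasDerivAt_id x).const_mul N).div_const 2)).differentiableAt.differentiableWithinAt
      · intro x hx
        rw [interior_Icc] at hx
        have hd := (psi_deriv hq hN N hx.1).add (((hasDerivAt_id x).const_mul N).div_const 2)
        have e : deriv (fun s => ψ s + N * s / 2) x = _ := hd.deriv
        rw [e]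
        have h1 := hmge x ⟨hx.1.le, hx.2.le⟩
        have h2 : -(N / 2) ≤ m x / x ^ 2 := by
          rw [le_div_iff₀ (by have := hx.1; positivity)]
          linarith
        change 0 ≤ m x / x ^ 2 + N * 1 / 2
        linarith
    have h6 := hmono2 ⟨le_refl _, hR0.le⟩ hr hr.1
    simp only [hψ0] at h6
    refine ⟨?_, hle r hr⟩
    have : r ≤ 1 := hr.2.trans hR1
    nlinarith
  -- no zero before 1
  have hpos1 : ∀ s, 0 ≤ s → s ≤ 1 → 0 < ψ s := by
    by_contra hcon
    push Not at hcon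
    obtain ⟨R, hR0, hR1, hR2⟩ := hcon
    set Z := {r | r ∈ Icc 0 R ∧ ψ r ≤ 0} with hZ
    have hZc : IsCompact Z := by
      have : Z = Icc 0 R ∩ {r | ψ r ≤ 0} := by ext; simp [hZ]
      rw [this]
      exact isCompact_Icc.inter_right (isClosed_le ψc continuous_const)
    have hZn : Z.Nonempty := ⟨R, ⟨hR0, le_refl _⟩, hR2⟩
    obtain ⟨r₀, hr₀, hmin⟩ := hZc.exists_isMinOn hZn continuous_id.continuousOn
    have hr₀pos : 0 < r₀ := by
      rcases lt_or_eq_of_le hr₀.1.1 with h | h
      · exact h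
      · exfalso; have := hr₀.2; rw [← h, hψ0] at this; linarith
    have hbefore : ∀ s, 0 ≤ s → s < r₀ → 0 < ψ s := by
      intro s hs1 hs2
      by_contra hc
      push Not at hc
      have : s ∈ Z := ⟨⟨hs1, hs2.le.trans hr₀.1.2⟩, hc⟩
      have := hmin this
      change r₀ ≤ s at this
      linarith
    have := (hest r₀ hr₀pos (hr₀.1.2.trans hR1) hbefore r₀ ⟨hr₀pos.le, le_refl _⟩).1
    have := hr₀.2
    linarith
  have hall := hest 1 one_pos le_rfl (fun s h1 h2 => hpos1 s h1 h2.le)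
  have hm1 : m 1 ≤ 0 := hmB 1 one_pos (fun s hs => hpos1 s hs.1 hs.2)
  -- but m(1) > 0
  have hmono : MonotoneOn (fun s => m s - (N / 2) * (N / 2) ^ q * s ^ 3 / 3 + N * s ^ 2 / 2)
      (Icc 0 1) := by
    apply monotoneOn_of_deriv_nonneg (convex_Icc _ _) (by fun_prop)
    · intro x hx
      exact (((mm_deriv hq hN N x).sub
        (((hasDerivAt_pow 3 x).const_mul ((N / 2) * (N / 2) ^ q)).div_const 3)).add
        (((hasDerivAt_pow 2 x).const_mul N).div_const 2)).differentiableAt.differentiableWithinAt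
    · intro x hx
      rw [interior_Icc] at hx
      have hd := ((mm_deriv hq hN N x).sub
        (((hasDerivAt_pow 3 x).const_mul ((N / 2) * (N / 2) ^ q)).div_const 3)).add
        (((hasDerivAt_pow 2 x).const_mul N).div_const 2)
      have e : deriv (fun s => m s - (N / 2) * (N / 2) ^ q * s ^ 3 / 3 + N * s ^ 2 / 2) x = _ :=
        hd.deriv
      rw [e]
      obtain ⟨h1, h2⟩ := hall x ⟨hx.1.le, hx.2.le⟩
      have h0 : 0 ≤ ψ x := by linarith
      change 0 ≤ x * (x * Fn q N (ψ x) - ψ x) -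
        (N / 2) * (N / 2) ^ q * (((3:ℕ):ℝ) * x ^ (3 - 1)) / 3 + N * (((2:ℕ):ℝ) * x ^ (2 - 1)) / 2
      rw [Fn_eq_mul hq hN h0]
      have h3 : (N / 2) ^ q ≤ (min (ψ x) N) ^ q :=
        Real.rpow_le_rpow (by linarith) (le_min h1 (by linarith)) hq.le
      have h4 : (N / 2) * (N / 2) ^ q ≤ ψ x * (min (ψ x) N) ^ q := by
        have := Real.rpow_nonneg (by linarith : 0 ≤ N / 2) q
        gcongr
      have h5 : x * ψ x ≤ x * N := mul_le_mul_of_nonneg_left h2 hx.1.le
      have h6 : x ^ 2 * ((N / 2) * (N / 2) ^ q) ≤ x ^ 2 * (ψ x * (min (ψ x) N) ^ q) := by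
        gcongr
      norm_num
      nlinarith
  have h7 := hmono ⟨le_refl _, zero_le_one⟩ ⟨zero_le_one, le_refl _⟩ zero_le_one
  simp only [hmd, mm_zero hq hN N] at h7
  have h8 : mm hq hN N 1 ≤ 0 := hm1
  norm_num at h7
  have h9 : N / 2 * 3 < N / 2 * (N / 2) ^ q := by
    apply mul_lt_mul_of_pos_left hlarge (by linarith)
  linarith

end shoot

/-- Existence of a positive, nonincreasing, global radial profile. -/
theorem exists_profile (q : ℝ) (hq : 0 < q) : ∃ (φ m : ℝ → ℝ) (a : ℝ), 0 < a ∧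
    Continuous φ ∧ Continuous m ∧ φ 0 = a ∧ m 0 = 0 ∧
    (∀ r, 0 ≤ r → 0 < φ r ∧ φ r ≤ a) ∧
    (∀ r, 0 < r → HasDerivAt φ (m r / r ^ 2) r) ∧
    (∀ r, 0 ≤ r → HasDerivAt m (r * (r * φ r ^ (q + 1) - φ r)) r) ∧
    (∀ r, 0 ≤ r → m r ≤ 0 ∧ -(a * r ^ 2 / 2) ≤ m r) := by
  -- large value
  set N : ℝ := 2 * 4 ^ (1 / q) with hNdef
  have h4 : (1:ℝ) ≤ 4 ^ (1 / q) := Real.one_le_rpow (by norm_num) (by positivity)
  have hN : 0 < N := by positivity
  have hlarge : 3 < (N / 2) ^ q := by
    have : N / 2 = 4 ^ (1 / q) := by rw [hNdef]; ring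
    rw [this, ← Real.rpow_mul (by norm_num), one_div, inv_mul_cancel₀ hq.ne', Real.rpow_one]
    norm_num
  -- small value
  set a₀ : ℝ := (1 / 20) ^ (1 / q) / 2 with ha₀
  have ha₀pos : 0 < a₀ := by positivity
  have h2a : 2 * a₀ = (1 / 20) ^ (1 / q) := by rw [ha₀]; ring
  have h2a1 : 2 * a₀ ≤ 1 := by
    rw [h2a]
    exact Real.rpow_le_one (by norm_num) (by norm_num) (by positivity)
  have hsmall : 20 * (2 * a₀) ^ q ≤ 1 := by
    rw [h2a, ← Real.rpow_mul (by norm_num), one_div q, inv_mul_cancel₀ hq.ne', Real.rpow_one]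
    norm_num
  have hA := small_mem_SA hq hN ha₀pos (by linarith) hsmall
  have hB := large_mem_SB hq hN hlarge
  have hle : a₀ ≤ N := by linarith
  obtain ⟨a, haI, haA, haB⟩ : ∃ a ∈ Icc a₀ N, a ∉ SA hq hN ∧ a ∉ SB hq hN := by
    by_contra hcon
    push Not at hcon
    have hpre : IsPreconnected (Icc a₀ N) := isPreconnected_Icc
    obtain ⟨x, -, hx1, hx2⟩ := hpre (SA hq hN) (SB hq hN) (SA_open hq hN) (SB_open hq hN)
      (fun a ha => by
        by_cases h : a ∈ SA hq hN
        · exact Or.inl h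
        · exact Or.inr (hcon a ha h))
      ⟨a₀, ⟨le_refl _, hle⟩, hA⟩ ⟨N, ⟨hle, le_refl _⟩, hB⟩
    exact SA_SB_disjoint hq hN hx1 hx2
  have hapos : 0 < a := lt_of_lt_of_le ha₀pos haI.1
  obtain ⟨hpos, hm⟩ := good_of_not_mem hq hN hapos haA haB
  have hle' : ∀ r, 0 ≤ r → psi hq hN a r ≤ a := by
    intro r hr
    have := psi_anti hq hN (a := a) (R := r) (fun s hs _ => hm s hs.le) ⟨le_refl _, hr⟩
      ⟨hr, le_refl _⟩ hr
    rwa [psi_zero hq hN a] at this
  have hF : ∀ r, 0 ≤ r → Fn q N (psi hq hN a r) = (psi hq hN a r) ^ (q + 1) := fun r hr =>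
    Fn_eq_pow hq (hpos r hr).le ((hle' r hr).trans haI.2)
  refine ⟨psi hq hN a, mm hq hN a, a, hapos, psi_cont hq hN a, mm_cont hq hN a, psi_zero hq hN a,
    mm_zero hq hN a, fun r hr => ⟨hpos r hr, hle' r hr⟩, fun r hr => psi_deriv hq hN a hr,
    fun r hr => ?_, fun r hr => ⟨hm r hr, ?_⟩⟩
  · have := mm_deriv hq hN a r
    rwa [hF r hr] at this
  · have hmono : MonotoneOn (fun s => mm hq hN a s + a * s ^ 2 / 2) (Ici 0) := by
      have mc := mm_cont hq hN a
      apply monotoneOn_of_deriv_nonneg (convex_Ici _) (by fun_prop)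
      · intro x hx
        exact ((mm_deriv hq hN a x).add
          (((hasDerivAt_pow 2 x).const_mul a).div_const 2)).differentiableAt.differentiableWithinAt
      · intro x hx
        rw [interior_Ici] at hx
        have hx0 : 0 < x := hx
        have hd := (mm_deriv hq hN a x).add (((hasDerivAt_pow 2 x).const_mul a).div_const 2)
        have e : deriv (fun s => mm hq hN a s + a * s ^ 2 / 2) x = _ := hd.deriv
        rw [e]
        have h1 := hle' x hx0.le
        have h2 := (hpos x hx0.le).le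
        have h3 : 0 ≤ Fn q N (psi hq hN a x) := by
          rw [Fn_eq_mul hq hN h2]
          exact mul_nonneg h2 (Real.rpow_nonneg (le_min h2 hN.le) _)
        have h4 : 0 ≤ x * (x * Fn q N (psi hq hN a x)) := by positivity
        have h5 : x * psi hq hN a x ≤ x * a := mul_le_mul_of_nonneg_left h1 hx0.le
        change 0 ≤ x * (x * Fn q N (psi hq hN a x) - psi hq hN a x) +
          a * (((2:ℕ):ℝ) * x ^ (2 - 1)) / 2
        norm_num
        linarith
    have := hmono (self_mem_Ici) hr hr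
    simp only [mm_zero hq hN a] at this
    norm_num at this
    linarith

end Pool.Agent.H75.Lieb
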