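import Pool.Agent.H75.NLSSol

/-!
Elementary operations on mild solutions: restriction, gluing, translation, uniqueness,
reparametrisation.
-/

open scoped Topology
open Set MeasureTheory intervalIntegral

noncomputable section

namespace NLSq

/-- unit speed -/
def one : ℝ → ℝ := fun _ => 1

lemma contOn_one {a b : ℝ} : ContinuousOn one (Icc a b) := continuousOn_const

lemma one_nonneg' {a b : ℝ} : ∀ r ∈ Icc a b, 0 ≤ one r := fun _ _ => zero_le_one

lemma intervalIntegrable_rhs {B : W →L[ℂ] W →L[ℂ] W} {d : ℂ} {g : ℝ → ℝ} {a b : ℝ} {u : ℝ → W}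
    (hg : ContinuousOn g (Icc a b)) (hu : ContinuousOn u (Icc a b)) (k : ℤ) {s t : ℝ}
    (hs : s ∈ Icc a b) (ht : t ∈ Icc a b) :
    IntervalIntegrable (fun r => (g r : ℂ) * rhs B d (u r) k) volume s t := by
  have hsub : uIcc s t ⊆ Icc a b := by
    intro x hx
    rw [mem_uIcc] at hx
    rcases hx with hx | hx
    · exact ⟨hs.1.trans hx.1, hx.2.trans ht.2⟩
    · exact ⟨ht.1.trans hx.1, hx.2.trans hs.2⟩
  exact (((Complex.continuous_ofReal.comp_continuousOn hg).mul (contOn_rhs hu k)).mono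
    hsub).intervalIntegrable

lemma IsSol.mono {B : W →L[ℂ] W →L[ℂ] W} {d : ℂ} {g : ℝ → ℝ} {a b a' b' : ℝ} {u : ℝ → W}
    (hg : ContinuousOn g (Icc a b)) (h : IsSol B d g a b u) (ha : a ≤ a') (hb : b' ≤ b) :
    IsSol B d g a' b' u where
  cont := h.cont.mono (Icc_subset_Icc ha hb)
  eq := fun s hs k => by
    have ha' : a' ∈ Icc a b := ⟨ha, hs.1.trans (hs.2.trans hb)⟩
    have hs' : s ∈ Icc a b := ⟨ha.trans hs.1, hs.2.trans hb⟩
    have haa : a ∈ Icc a b := ⟨le_refl a, ha'.1.trans ha'.2⟩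
    rw [h.eq s hs' k, h.eq a' ha' k,
      ← intervalIntegral.integral_add_adjacent_intervals
        (intervalIntegrable_rhs hg h.cont k haa ha') (intervalIntegrable_rhs hg h.cont k ha' hs')]
    ring

lemma IsSol.congr {B : W →L[ℂ] W →L[ℂ] W} {d : ℂ} {g : ℝ → ℝ} {a b : ℝ} {u v : ℝ → W}
    (h : IsSol B d g a b u) (huv : ∀ s ∈ Icc a b, v s = u s) : IsSol B d g a b v where
  cont := h.cont.congr huv
  eq := fun s hs k => by
    have haa : a ∈ Icc a b := ⟨le_refl a, hs.1.trans hs.2⟩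
    rw [huv s hs, huv a haa, h.eq s hs k]
    congr 1
    apply integral_congr
    intro r hr
    rw [uIcc_of_le hs.1] at hr
    simp only
    rw [huv r ⟨hr.1, hr.2.trans hs.2⟩]

lemma IsSol.glue {B : W →L[ℂ] W →L[ℂ] W} {d : ℂ} {g : ℝ → ℝ} {a b c : ℝ} {u : ℝ → W}
    (hab : a ≤ b) (hbc : b ≤ c) (hg : ContinuousOn g (Icc a c))
    (h1 : IsSol B d g a b u) (h2 : IsSol B d g b c u) :
    IsSol B d g a c u where
  cont := by
    have := h1.cont.union_of_isClosed h2.cont isClosed_Icc isClosed_Icc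
    rwa [Icc_union_Icc_eq_Icc hab hbc] at this
  eq := fun s hs k => by
    rcases le_total s b with h | h
    · exact h1.eq s ⟨hs.1, h⟩ k
    · rw [h2.eq s ⟨h, hs.2⟩ k, h1.eq b ⟨hab, le_refl b⟩ k]
      have i1 := intervalIntegrable_rhs (B := B) (d := d) (hg.mono (Icc_subset_Icc_right hbc))
        h1.cont k ⟨le_refl a, hab⟩ ⟨hab, le_refl b⟩
      have i2 := intervalIntegrable_rhs (B := B) (d := d) (hg.mono (Icc_subset_Icc_left hab))
        h2.cont k ⟨le_refl b, hbc⟩ ⟨h, hs.2⟩
      rw [← intervalIntegral.integral_add_adjacent_intervals i1 i2]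
      ring

lemma IsSol.translate {B : W →L[ℂ] W →L[ℂ] W} {d : ℂ} {a b : ℝ} {u : ℝ → W}
    (h : IsSol B d one a b u) (c : ℝ) :
    IsSol B d one (a - c) (b - c) (fun s => u (s + c)) where
  cont := by
    apply h.cont.comp (by fun_prop)
    intro s hs
    exact ⟨by linarith [hs.1], by linarith [hs.2]⟩
  eq := fun s hs k => by
    have h1 := h.eq (s + c) ⟨by linarith [hs.1], by linarith [hs.2]⟩ k
    simp only
    rw [h1, sub_add_cancel]
    congr 1
    have := intervalIntegral.integral_comp_add_right (a := a - c) (b := s)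
      (fun r => ((one r : ℝ) : ℂ) * rhs B d (u r) k) c
    rw [sub_add_cancel] at this
    rw [← this]
    rfl

theorem IsSol.unique {B : W →L[ℂ] W →L[ℂ] W} (hB : ∀ x y, ‖B x y‖ ≤ ‖x‖ * ‖y‖) {d : ℂ}
    (hd : ‖d‖ = 1) (hdim : d.im ≤ 0) {a b : ℝ} {u v : ℝ → W}
    (hu : IsSol B d one a b u) (hv : IsSol B d one a b v) (h0 : u a = v a)
    {s : ℝ} (hs : s ∈ Icc a b) : u s = v s := by
  have hab : a ≤ b := hs.1.trans hs.2
  obtain ⟨M, hM⟩ := isCompact_Icc.exists_bound_of_continuousOn hv.cont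
  have := closeness hB hd hdim hab contOn_one one_nonneg' hu hv.isApp (M := M) (δ := 0) (ε := 0)
    (η := 1) hM (by simp) (by simp [h0]) (by simp) hs
  simp only [zero_mul, add_zero, zero_mul] at this
  have h2 : ‖u s - v s‖ = 0 := le_antisymm this (norm_nonneg _)
  exact sub_eq_zero.mp (norm_eq_zero.mp h2)

/-- change of the time variable `s = a + h (1 - cos θ)` -/
theorem IsSol.cosine {B : W →L[ℂ] W →L[ℂ] W} {d : ℂ} {a h Θ : ℝ} (hh : 0 ≤ h)
    (hΘ : Θ ∈ Icc 0 Real.pi) {u : ℝ → W}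
    (hu : IsSol B d one a (a + h * (1 - Real.cos Θ)) u) :
    IsSol B d (fun θ => h * Real.sin θ) 0 Θ (fun θ => u (a + h * (1 - Real.cos θ))) := by
  have hcos : ∀ θ ∈ Icc 0 Θ, a + h * (1 - Real.cos θ) ∈ Icc a (a + h * (1 - Real.cos Θ)) := by
    intro θ hθ
    have h1 := Real.cos_le_one θ
    have h2 : Real.cos Θ ≤ Real.cos θ := Real.cos_le_cos_of_nonneg_of_le_pi hθ.1 hΘ.2 hθ.2
    constructor <;> nlinarith
  have cc : Continuous fun x : ℝ => a + h * (1 - Real.cos x) := by fun_prop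
  have cu : ∀ k, ContinuousOn (fun r => ((one r : ℝ) : ℂ) * rhs B d (u r) k)
      (Icc a (a + h * (1 - Real.cos Θ))) := fun k =>
    (Complex.continuous_ofReal.comp_continuousOn contOn_one).mul (contOn_rhs hu.cont k)
  refine ⟨hu.cont.comp cc.continuousOn hcos, ?_⟩
  intro θ hθ k
  have hmem := hcos θ hθ
  have hui : ∀ x ∈ uIcc 0 θ, x ∈ Icc 0 Θ := by
    intro x hx
    rw [uIcc_of_le hθ.1] at hx
    exact ⟨hx.1, hx.2.trans hθ.2⟩
  simp only [Real.cos_zero, sub_self, mul_zero, add_zero]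
  rw [hu.eq _ hmem k]
  congr 1
  have hcv : (∫ x in (0:ℝ)..θ, (h * Real.sin x) • ((fun r => ((one r : ℝ) : ℂ) *
      rhs B d (u r) k) ∘ fun x => a + h * (1 - Real.cos x)) x) =
      ∫ r in (a + h * (1 - Real.cos 0))..(a + h * (1 - Real.cos θ)),
        ((one r : ℝ) : ℂ) * rhs B d (u r) k := by
    apply intervalIntegral.integral_deriv_smul_comp'''
    · fun_prop
    · intro x _
      have : HasDerivAt (fun x => a + h * (1 - Real.cos x)) (h * Real.sin x) x := by
        have := ((Real.hasDerivAt_cos x).const_sub 1).const_mul h |>.const_add a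
        simpa using this
      exact this.hasDerivWithinAt
    · apply (cu k).mono
      rintro _ ⟨x, hx, rfl⟩
      exact hcos x (hui x (Ioo_subset_Icc_self hx))
    · have : ContinuousOn (fun r => ((one r : ℝ) : ℂ) * rhs B d (u r) k)
          ((fun x => a + h * (1 - Real.cos x)) '' uIcc 0 θ) := by
        apply (cu k).mono
        rintro _ ⟨x, hx, rfl⟩
        exact hcos x (hui x hx)
      apply ContinuousOn.integrableOn_compact _ this
      exact isCompact_uIcc.image (by fun_prop)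
    · apply ContinuousOn.integrableOn_compact isCompact_uIcc
      have cs : ContinuousOn (fun x : ℝ => h * Real.sin x) (uIcc 0 θ) := by fun_prop
      refine ContinuousOn.fun_smul cs ?_
      apply (cu k).comp cc.continuousOn
      intro x hx
      exact hcos x (hui x hx)
  simp only [Real.cos_zero, sub_self, mul_zero, add_zero] at hcv
  rw [← hcv]
  apply integral_congr
  intro x _
  simp [one]

end NLSq
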