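import Pool.Agent.H75.NLSDigit

/-!
Certificates: data, kernel-evaluable test, and Kronecker identities.
-/

open Finset

namespace NLSq

/-- data of one step -/
structure Cert where
  heat : Bool
  h : ℕ
  K : ℕ
  p : ℕ
  b : ℕ
  c : ℕ
  M : ℕ
  rows : List (ℕ × ℕ × ℕ)

/-- the `k`-th digit of `N` in base `2^w` -/
def dg (w N k : ℕ) : ℕ := Nat.mod (Nat.shiftRight N (Nat.mul w k)) (Nat.shiftLeft 1 w)

/-- digit offset -/
def off (w : ℕ) : ℕ := Nat.shiftLeft 1 (Nat.pred w)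

/-- the list `g s, g (s+1), …` with `c` entries -/
def dgl (g : ℕ → ℕ) (c s : ℕ) : List ℕ :=
  @Nat.rec (fun _ => ℕ → List ℕ) (fun _ => []) (fun _ ih s => g s :: ih (Nat.succ s)) c s

/-- naive packing in base `2^e` -/
def evl (e : ℕ) (l : List ℕ) : ℕ :=
  @List.rec ℕ (fun _ => ℕ) 0 (fun a _ ih => Nat.add a (Nat.shiftLeft ih e)) l

/-- joining neighbouring digits, with a pending digit -/
def pairsA (e : ℕ) (l : List ℕ) (o : Option ℕ) : List ℕ :=
  @List.rec ℕ (fun _ => Option ℕ → List ℕ)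
    (fun o => @Option.rec ℕ (fun _ => List ℕ) [] (fun a => [a]) o)
    (fun x _ ih o => @Option.rec ℕ (fun _ => List ℕ) (ih (some x))
      (fun a => Nat.add a (Nat.shiftLeft x e) :: ih none) o) l o

/-- packing in base `2^e` by binary splitting -/
def pk (f e : ℕ) (l : List ℕ) : ℕ :=
  @Nat.rec (fun _ => ℕ → List ℕ → ℕ) (fun e l => evl e l)
    (fun _ ih e l => ih (Nat.mul 2 e) (pairsA e l none)) f e l

/-- list reversal -/
def rev (l : List ℕ) : List ℕ :=
  @List.rec ℕ (fun _ => List ℕ → List ℕ) (fun acc => acc) (fun a _ ih acc => ih (a :: acc)) l []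

/-- tail -/
def tl (l : List ℕ) : List ℕ := @List.rec ℕ (fun _ => List ℕ) [] (fun _ t _ => t) l

/-- symmetric packing -/
def spk (e n : ℕ) (l : List ℕ) : ℕ :=
  Nat.add (Nat.shiftLeft (pk 8 e l) (Nat.mul e n)) (pk 8 e (rev (tl l)))

/-- antisymmetric packing -/
def apk (e n : ℕ) (l : List ℕ) : ℤ :=
  ((Nat.shiftLeft (pk 8 e l) (Nat.mul e n) : ℕ) : ℤ) - ((pk 8 e (rev (tl l)) : ℕ) : ℤ)

/-- multiplication by the index -/
def wml (m : ℕ) (l : List ℕ) : List ℕ :=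
  @List.rec ℕ (fun _ => ℕ → List ℕ) (fun _ => [])
    (fun a _ ih m => Nat.mul m a :: ih (Nat.succ m)) l m

/-- sum of a list -/
def lsum (l : List ℕ) : ℕ := @List.rec ℕ (fun _ => ℕ) 0 (fun a _ ih => Nat.add a ih) l

/-- map with index -/
def imap (f : ℕ → ℕ × ℕ × ℕ → ℕ) (m : ℕ) (l : List (ℕ × ℕ × ℕ)) : List ℕ :=
  @List.rec (ℕ × ℕ × ℕ) (fun _ => ℕ → List ℕ) (fun _ => [])
    (fun r _ ih m => f m r :: ih (Nat.succ m)) l m

lemma dgl_succ (g : ℕ → ℕ) (c s : ℕ) : dgl g (c + 1) s = g s :: dgl g c (s + 1) := rfl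
lemma evl_nil (e : ℕ) : evl e [] = 0 := rfl
lemma evl_cons (e a : ℕ) (t : List ℕ) : evl e (a :: t) = a + evl e t * 2 ^ e := by
  have : Nat.shiftLeft (evl e t) e = evl e t * 2 ^ e := Nat.shiftLeft_eq _ _
  rw [← this]; rfl
lemma pairsA_none (e x : ℕ) (t : List ℕ) : pairsA e (x :: t) none = pairsA e t (some x) := rfl
lemma pairsA_some (e x a : ℕ) (t : List ℕ) :
    pairsA e (x :: t) (some a) = (a + x * 2 ^ e) :: pairsA e t none := by
  have : Nat.shiftLeft x e = x * 2 ^ e := Nat.shiftLeft_eq _ _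
  rw [← this]; rfl
lemma wml_cons (m a : ℕ) (t : List ℕ) : wml m (a :: t) = m * a :: wml (m + 1) t := rfl
lemma lsum_cons (a : ℕ) (t : List ℕ) : lsum (a :: t) = a + lsum t := rfl
lemma imap_cons (f : ℕ → ℕ × ℕ × ℕ → ℕ) (m : ℕ) (r : ℕ × ℕ × ℕ) (t : List (ℕ × ℕ × ℕ)) :
    imap f m (r :: t) = f m r :: imap f (m + 1) t := rfl

lemma rev_aux (l : List ℕ) : ∀ acc, @List.rec ℕ (fun _ => List ℕ → List ℕ) (fun acc => acc)
    (fun a _ ih acc => ih (a :: acc)) l acc = l.reverse ++ acc := by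
  induction l with
  | nil => intro acc; rfl
  | cons a t ih =>
    intro acc
    change @List.rec ℕ (fun _ => List ℕ → List ℕ) (fun acc => acc)
      (fun a _ ih acc => ih (a :: acc)) t (a :: acc) = _
    rw [ih]; simp

lemma rev_eq (l : List ℕ) : rev l = l.reverse := by
  have := rev_aux l []
  rw [List.append_nil] at this
  exact this

lemma tl_eq (l : List ℕ) : tl l = l.tail := by cases l <;> rfl

lemma length_dgl (g : ℕ → ℕ) : ∀ c s, (dgl g c s).length = c := by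
  intro c
  induction c with
  | zero => intro s; rfl
  | succ c ih => intro s; rw [dgl_succ, List.length_cons, ih]

lemma getD_dgl (g : ℕ → ℕ) : ∀ c s k, k < c → (dgl g c s).getD k 0 = g (s + k) := by
  intro c
  induction c with
  | zero => intro s k hk; omega
  | succ c ih =>
    intro s k hk
    rw [dgl_succ]
    rcases k with _ | k
    · simp
    · rw [List.getD_cons_succ, ih _ _ (by omega)]
      congr 1; omega

lemma evl_pairs (e : ℕ) (l : List ℕ) : evl (2 * e) (pairsA e l none) = evl e l ∧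
    ∀ a, evl (2 * e) (pairsA e l (some a)) = a + evl e l * 2 ^ e := by
  induction l with
  | nil =>
    refine ⟨rfl, fun a => ?_⟩
    change evl (2 * e) [a] = _
    rw [evl_cons]; simp [evl_nil]
  | cons x t ih =>
    refine ⟨?_, fun a => ?_⟩
    · rw [pairsA_none, ih.2 x, evl_cons]
    · rw [pairsA_some, evl_cons, evl_cons, ih.1, two_mul, pow_add]
      ring

lemma pk_eq (f : ℕ) : ∀ (e : ℕ) (l : List ℕ), pk f e l = evl e l := by
  induction f with
  | zero => intro e l; rfl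
  | succ f ih =>
    intro e l
    change pk f (2 * e) (pairsA e l none) = _
    rw [ih, (evl_pairs e l).1]

lemma evl_eq (e : ℕ) : ∀ l : List ℕ, evl e l = ∑ i ∈ range l.length, l.getD i 0 * (2 ^ e) ^ i
  | [] => rfl
  | a :: t => by
    rw [evl_cons, evl_eq e t, List.length_cons, Finset.sum_range_succ']
    simp only [List.getD_cons_succ, List.getD_cons_zero, pow_zero, mul_one]
    rw [add_comm, Finset.sum_mul]
    congr 1
    apply Finset.sum_congr rfl
    intro i _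
    rw [pow_succ]; ring

lemma evl_tail_reverse (e n : ℕ) (l : List ℕ) (hl : l.length = n + 1) :
    evl e l.tail.reverse = ∑ m ∈ range n, l.getD (m + 1) 0 * (2 ^ e) ^ (n - (m + 1)) := by
  have ht : l.tail.length = n := by rw [List.length_tail, hl]; rfl
  rw [evl_eq, List.length_reverse, ht, ← Finset.sum_range_reflect]
  apply Finset.sum_congr rfl
  intro m hm
  rw [Finset.mem_range] at hm
  have h1 : l.tail.reverse.getD (n - 1 - m) 0 = l.getD (m + 1) 0 := by
    rw [List.getD_reverse _ (by rw [ht]; omega), ht]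
    have e1 : n - 1 - (n - 1 - m) = m := by omega
    rw [e1]
    cases l with
    | nil => simp
    | cons a t => simp
  rw [h1]
  congr 2
  omega

lemma spk_eq (e n : ℕ) (l : List ℕ) (hl : l.length = n + 1) :
    spk e n l = ∑ m ∈ range (n + 1), l.getD m 0 * Fw n (2 ^ e) m := by
  unfold spk
  have hs : ∀ x k : ℕ, Nat.shiftLeft x k = x * 2 ^ k := fun x k => Nat.shiftLeft_eq x k
  change Nat.shiftLeft (pk 8 e l) (e * n) + pk 8 e (rev (tl l)) = _
  rw [rev_eq, tl_eq, pk_eq, pk_eq, evl_tail_reverse e n l hl, evl_eq, hs, hl, Finset.sum_range_succ',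
    Finset.sum_range_succ' _ n, pow_mul, add_mul, Finset.sum_mul]
  have h0 : Fw n (2 ^ e) 0 = (2 ^ e) ^ n := by simp [Fw]
  rw [h0, pow_zero, mul_one, add_right_comm, ← Finset.sum_add_distrib]
  congr 1
  apply Finset.sum_congr rfl
  intro m _
  have h1 : Fw n (2 ^ e) (m + 1) = (2 ^ e) ^ (n + (m + 1)) + (2 ^ e) ^ (n - (m + 1)) := by
    simp [Fw]
  rw [h1, pow_add (2 ^ e) n]
  ring

lemma getD_wml : ∀ (l : List ℕ) (s m : ℕ), (wml s l).getD m 0 = (s + m) * l.getD m 0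
  | [], s, m => by simp [wml]
  | a :: t, s, m => by
    rw [wml_cons]
    rcases m with _ | m
    · simp
    · rw [List.getD_cons_succ, List.getD_cons_succ, getD_wml t (s + 1) m]
      congr 1; omega

lemma length_wml : ∀ (l : List ℕ) (s : ℕ), (wml s l).length = l.length
  | [], s => rfl
  | a :: t, s => by rw [wml_cons, List.length_cons, List.length_cons, length_wml t]

lemma apk_eq (e n : ℕ) (l : List ℕ) (hl : l.length = n + 1) :
    apk e n (wml 0 l) = ∑ m ∈ range (n + 1), (m : ℤ) * (l.getD m 0 : ℤ) *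
      (((2:ℤ) ^ e) ^ (n + m) - ((2:ℤ) ^ e) ^ (n - m)) := by
  unfold apk
  have hl' : (wml 0 l).length = n + 1 := by rw [length_wml, hl]
  have hs : ∀ x k : ℕ, Nat.shiftLeft x k = x * 2 ^ k := fun x k => Nat.shiftLeft_eq x k
  change ((Nat.shiftLeft (pk 8 e (wml 0 l)) (e * n) : ℕ) : ℤ) - _ = _
  rw [rev_eq, tl_eq, pk_eq, pk_eq, evl_tail_reverse e n _ hl', evl_eq, hs, hl', Finset.sum_range_succ',
    Finset.sum_range_succ' _ n, pow_mul]
  simp only [getD_wml, zero_add, Nat.cast_zero, zero_mul, add_zero]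
  push_cast
  rw [Finset.sum_mul, ← Finset.sum_sub_distrib]
  apply Finset.sum_congr rfl
  intro m _
  rw [pow_add ((2:ℤ) ^ e) n]
  ring

lemma lsum_eq : ∀ l : List ℕ, lsum l = ∑ i ∈ range l.length, l.getD i 0
  | [] => rfl
  | a :: t => by
    rw [lsum_cons, lsum_eq t, List.length_cons, Finset.sum_range_succ']
    simp only [List.getD_cons_succ, List.getD_cons_zero]
    ring

lemma length_imap (f : ℕ → ℕ × ℕ × ℕ → ℕ) : ∀ (l : List (ℕ × ℕ × ℕ)) (s : ℕ),
    (imap f s l).length = l.length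
  | [], s => rfl
  | a :: t, s => by rw [imap_cons, List.length_cons, List.length_cons, length_imap f t]

lemma getD_imap (f : ℕ → ℕ × ℕ × ℕ → ℕ) : ∀ (l : List (ℕ × ℕ × ℕ)) (s m : ℕ), m < l.length →
    (imap f s l).getD m 0 = f (s + m) (l.getD m (0, 0, 0))
  | [], s, m, h => by simp at h
  | a :: t, s, m, h => by
    rw [imap_cons]
    rcases m with _ | m
    · simp
    · rw [List.getD_cons_succ, List.getD_cons_succ,
        getD_imap f t (s + 1) m (by simpa using h)]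
      congr 1; omega

lemma lsum_imap (f : ℕ → ℕ × ℕ × ℕ → ℕ) (l : List (ℕ × ℕ × ℕ)) :
    lsum (imap f 0 l) = ∑ i ∈ range l.length, f i (l.getD i (0, 0, 0)) := by
  rw [lsum_eq, length_imap]
  apply Finset.sum_congr rfl
  intro i hi
  rw [getD_imap f l 0 i (Finset.mem_range.mp hi), zero_add]

lemma lsum_dgl (g : ℕ → ℕ) (c : ℕ) : lsum (dgl g c 0) = ∑ i ∈ range c, g i := by
  rw [lsum_eq, length_dgl]
  apply Finset.sum_congr rfl
  intro i hi
  rw [getD_dgl g c 0 i (Finset.mem_range.mp hi), zero_add]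

namespace Cert

variable (C : Cert)

def n : ℕ := C.rows.length - 1
def e : ℕ := C.b * (4 * C.K + 1)
def rowP (w N : ℕ) : ℕ := spk C.b C.K (dgl (fun k => dg w N k) (Nat.succ C.K) 0)
def rowQ (w N : ℕ) : ℕ :=
  spk C.b C.K (dgl (fun k => Nat.mul (Nat.mul k k) (dg w N k)) (Nat.succ C.K) 0)
def rowO : ℕ := spk C.b C.K (dgl (fun _ => 1) (Nat.succ C.K) 0)
def rowOQ : ℕ := spk C.b C.K (dgl (fun k => Nat.mul k k) (Nat.succ C.K) 0)

/-- packed coefficients -/
def S0 (sel : ℕ × ℕ × ℕ → ℕ) : ℤ :=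
  (spk C.e C.n (imap (fun _ r => C.rowP r.1 (sel r)) 0 C.rows) : ℤ) -
  (spk C.e C.n (imap (fun _ r => Nat.mul (off r.1) C.rowO) 0 C.rows) : ℤ)

/-- packed coefficients times `k²` -/
def S2 (sel : ℕ × ℕ × ℕ → ℕ) : ℤ :=
  (spk C.e C.n (imap (fun _ r => C.rowQ r.1 (sel r)) 0 C.rows) : ℤ) -
  (spk C.e C.n (imap (fun _ r => Nat.mul (off r.1) C.rowOQ) 0 C.rows) : ℤ)

/-- packed coefficients times `m` -/
def S1 (sel : ℕ × ℕ × ℕ → ℕ) : ℤ :=
  apk C.e C.n (wml 0 (imap (fun _ r => C.rowP r.1 (sel r)) 0 C.rows)) -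
  apk C.e C.n (wml 0 (imap (fun _ r => Nat.mul (off r.1) C.rowO) 0 C.rows))

def sX (r : ℕ × ℕ × ℕ) : ℕ := r.2.1
def sY (r : ℕ × ℕ × ℕ) : ℕ := r.2.2

def Nre : ℤ := C.S0 sX * C.S0 sX - C.S0 sY * C.S0 sY -
  (pw (C.p + (C.e * C.n + C.b * C.K)) : ℤ) * C.S2 sX
def Nim : ℤ := 2 * (C.S0 sX * C.S0 sY) -
  (pw (C.p + (C.e * C.n + C.b * C.K)) : ℤ) * C.S2 sY
def ZN (N : ℤ) : ℤ := (C.h : ℤ) * ((pw (2 * C.e) : ℤ) * N - N)
def Dre : ℤ := -((8192 * pw (C.p + (C.e * (C.n + 1) + C.b * C.K)) : ℕ) : ℤ) * C.S1 sY -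
  (bif C.heat then C.ZN C.Nim else C.ZN C.Nre)
def Dim : ℤ := ((8192 * pw (C.p + (C.e * (C.n + 1) + C.b * C.K)) : ℕ) : ℤ) * C.S1 sX -
  (bif C.heat then -C.ZN C.Nre else C.ZN C.Nim)

/-- total number of digits -/
def T : ℕ := (4 * C.n + 3) * (4 * C.K + 1)

def ad (w d : ℕ) : ℕ := Nat.add (Nat.sub d (off w)) (Nat.sub (off w) d)
def octn (x y : ℕ) : ℕ :=
  Nat.add (Nat.mul 12 (Nat.add x (Nat.sub y x))) (Nat.mul 5 (Nat.sub y (Nat.sub y x)))
def wt (m : ℕ) : ℕ := Nat.sub 2 (Nat.sub 1 m)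

lemma ad_def (w d : ℕ) : ad w d = (d - off w) + (off w - d) := rfl
lemma octn_def (x y : ℕ) : octn x y = 12 * (x + (y - x)) + 5 * (y - (y - x)) := rfl
lemma wt_zero : wt 0 = 1 := rfl
lemma wt_succ (m : ℕ) : wt (m + 1) = 2 := by
  change 2 - (1 - (m + 1)) = 2
  omega

def Msum : ℕ := lsum (imap (fun m r => Nat.mul (wt m) (lsum (dgl (fun k => Nat.mul (wt k)
  (octn (ad r.1 (dg r.1 r.2.1 k)) (ad r.1 (dg r.1 r.2.2 k)))) (Nat.succ C.K) 0))) 0 C.rows)

/-- the size parameter -/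
def TT : ℕ := C.M * pw C.p / 128 + 1

/-- the test -/
def check : Bool :=
  Nat.blt 0 C.rows.length && Nat.blt 0 C.h && Nat.blt 0 C.b &&
  Nat.ble (256 * C.Msum) (12 * (C.M * pw C.p)) &&
  Nat.blt (8192 * pw C.p * C.n * C.TT + 2 * C.h * (C.TT * C.TT + pw C.p * (C.K * C.K) * C.TT) +
    pw C.c) (pw C.b) &&
  chkD C.b C.c C.T C.Dre && chkD C.b C.c C.T C.Dim

/-- coefficients -/
def cf (sel : ℕ × ℕ × ℕ → ℕ) (m k : ℕ) : ℤ :=
  if m < C.rows.length ∧ k ≤ C.K then
    (dg (C.rows.getD m (0, 0, 0)).1 (sel (C.rows.getD m (0, 0, 0))) k : ℤ) -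
      (off (C.rows.getD m (0, 0, 0)).1 : ℤ)
  else 0

/-- integer coefficients indexed by integers -/
def Xf (sel : ℕ × ℕ × ℕ → ℕ) (m k : ℤ) : ℤ := C.cf sel m.natAbs k.natAbs

end Cert

/-- symmetric Kronecker evaluation -/
lemma kap_sym {A : Type*} [Field A] {u v : ℕ} (hu : (u : A) ≠ 0) (hv : (v : A) ≠ 0) (g : ℕ → ℕ → A)
    (n K : ℕ) :
    (u : A) ^ n * (v : A) ^ K * kap (u : A) (v : A) n K (fun m k => g m.natAbs k.natAbs) =
      ∑ m ∈ range (n + 1), (∑ k ∈ range (K + 1), g m k * (Fw K v k : A)) * (Fw n u m : A) := by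
  unfold kap
  have h1 := sum_Fw hu (fun m => ∑ k ∈ range (K + 1), g m k * (Fw K v k : A)) n
  rw [← h1]
  have h2 : ∀ m : ℤ, (v : A) ^ K * ∑ k ∈ sI K, g m.natAbs k.natAbs * (v : A) ^ k =
      ∑ k ∈ range (K + 1), g m.natAbs k * (Fw K v k : A) := fun m =>
    sum_Fw hv (fun k => g m.natAbs k) K
  rw [mul_assoc]
  congr 1
  rw [Finset.mul_sum]
  apply Finset.sum_congr rfl
  intro m _
  rw [← h2]; ring

lemma kap_anti {A : Type*} [Field A] {u v : ℕ} (hu : (u : A) ≠ 0) (hv : (v : A) ≠ 0) (g : ℕ → ℕ → A)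
    (n K : ℕ) :
    (u : A) ^ n * (v : A) ^ K *
      kap (u : A) (v : A) n K (fun m k => (m : A) * g m.natAbs k.natAbs) =
      ∑ m ∈ range (n + 1), (m : A) * (∑ k ∈ range (K + 1), g m k * (Fw K v k : A)) *
        ((u : A) ^ (n + m) - (u : A) ^ (n - m)) := by
  unfold kap
  have h1 := sum_Gw hu (fun m => ∑ k ∈ range (K + 1), g m k * (Fw K v k : A)) n
  rw [← h1]
  have h2 : ∀ m : ℤ, (v : A) ^ K * ∑ k ∈ sI K, g m.natAbs k.natAbs * (v : A) ^ k =
      ∑ k ∈ range (K + 1), g m.natAbs k * (Fw K v k : A) := fun m =>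
    sum_Fw hv (fun k => g m.natAbs k) K
  rw [mul_assoc]
  congr 1
  rw [Finset.mul_sum]
  apply Finset.sum_congr rfl
  intro m _
  rw [← h2, Finset.mul_sum, Finset.mul_sum, Finset.sum_mul, Finset.sum_mul, Finset.mul_sum]
  apply Finset.sum_congr rfl
  intro k _
  ring

lemma kap_congr {A : Type*} [Field A] {u v : A} {n K : ℕ} {f g : ℤ → ℤ → A}
    (h : ∀ m k, f m k = g m k) : kap u v n K f = kap u v n K g := by
  unfold kap
  apply Finset.sum_congr rfl
  intro m _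
  congr 1
  apply Finset.sum_congr rfl
  intro k _
  rw [h]

lemma kap_add {A : Type*} [Field A] {u v : A} {n K : ℕ} (f g : ℤ → ℤ → A) :
    kap u v n K (fun m k => f m k + g m k) = kap u v n K f + kap u v n K g := by
  unfold kap
  rw [← Finset.sum_add_distrib]
  apply Finset.sum_congr rfl
  intro m _
  rw [← add_mul, ← Finset.sum_add_distrib]
  congr 1
  apply Finset.sum_congr rfl
  intro k _
  ring

lemma kap_smul {A : Type*} [Field A] {u v : A} {n K : ℕ} (c : A) (f : ℤ → ℤ → A) :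
    kap u v n K (fun m k => c * f m k) = c * kap u v n K f := by
  unfold kap
  rw [Finset.mul_sum]
  apply Finset.sum_congr rfl
  intro m _
  rw [← mul_assoc, Finset.mul_sum]
  congr 1
  apply Finset.sum_congr rfl
  intro k _
  ring

lemma kap_extend {A : Type*} [Field A] {u v : A} {n K n' K' : ℕ} (hn : n ≤ n') (hK : K ≤ K')
    {f : ℤ → ℤ → A} (h1 : ∀ m k : ℤ, n < m.natAbs → f m k = 0)
    (h2 : ∀ m k : ℤ, K < k.natAbs → f m k = 0) : kap u v n' K' f = kap u v n K f := by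
  unfold kap
  rw [sum_extend hn]
  · apply Finset.sum_congr rfl
    intro m _
    rw [sum_extend hK]
    intro k hk; rw [h2 m k hk, zero_mul]
  · intro m hm
    rw [Finset.sum_eq_zero, zero_mul]
    intro k _; rw [h1 m k hm, zero_mul]

lemma kap_shift {A : Type*} [Field A] {u v : A} (hu : u ≠ 0) {n K : ℕ}
    {f : ℤ → ℤ → A} (h1 : ∀ m k : ℤ, n < m.natAbs → f m k = 0) :
    kap u v (n + 1) K (fun m k => f (m - 1) k - f (m + 1) k) = (u - u⁻¹) * kap u v n K f := by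
  unfold kap
  have e1 := sum_shift_up hu (fun m => ∑ k ∈ sI K, f m k * v ^ k) (b := n)
    (fun m hm => by apply Finset.sum_eq_zero; intro k _; rw [h1 m k hm, zero_mul])
  have e2 := sum_shift_down hu (fun m => ∑ k ∈ sI K, f m k * v ^ k) (b := n)
    (fun m hm => by apply Finset.sum_eq_zero; intro k _; rw [h1 m k hm, zero_mul])
  rw [sub_mul, ← e1, ← e2, ← Finset.sum_sub_distrib]
  apply Finset.sum_congr rfl
  intro m _
  rw [← sub_mul, ← Finset.sum_sub_distrib]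
  congr 1
  apply Finset.sum_congr rfl
  intro k _
  ring

end NLSq
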