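import Pool.Agent.H75.NLSRect
import Pool.Agent.H75.NLSD.LA0
import Pool.Agent.H75.NLSD.LA1
import Pool.Agent.H75.NLSD.LA2
import Pool.Agent.H75.NLSD.LA3
import Pool.Agent.H75.NLSD.LA4
import Pool.Agent.H75.NLSD.LA5
import Pool.Agent.H75.NLSD.LA6
import Pool.Agent.H75.NLSD.LB0
import Pool.Agent.H75.NLSD.LB1
import Pool.Agent.H75.NLSD.LB2
import Pool.Agent.H75.NLSD.LE
import Pool.Agent.H75.NLSD.FAR

/-!
Composition of the certified steps (generated).
-/

open scoped Topology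
open Set Complex

noncomputable section

namespace NLSq

open Dat Cert

theorem link_leg1 {C C' : Cert} {q bb v v' D : ℕ} {ht : Bool}
    (h : C.link C' 1 q bb v v' D ht = true) (hc : C'.check = true) :
    Leg B1 (dir ht) (C.UcN 1 Real.pi) v D (C'.UcN 1 Real.pi) v' := by
  have := link_leg h hc (le_refl (1:ℝ)) (by simp) (by simp)
  rwa [Bnu_one] at this

theorem legA : Leg B1 (dir false) (z0.UcN 1 Real.pi) 16155621 6144 (a34.UcN 1 Real.pi) 1310416 :=
  (Leg.trans (Leg.trans (Leg.trans (Leg.trans (Leg.trans (Leg.trans (Leg.trans (Leg.trans (Leg.trans (Leg.trans (Leg.trans (Leg.trans (Leg.trans (Leg.trans (Leg.trans (Leg.trans (Leg.trans (Leg.trans (Leg.trans (Leg.trans (Leg.trans (Leg.trans (Leg.trans (Leg.trans (Leg.trans (Leg.trans (Leg.trans (Leg.trans (Leg.trans (Leg.trans (Leg.trans (Leg.trans (Leg.trans (Leg.trans (link_leg1 la0 ca0)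
    (link_leg1 la1 ca1))
    (link_leg1 la2 ca2))
    (link_leg1 la3 ca3))
    (link_leg1 la4 ca4))
    (link_leg1 la5 ca5))
    (link_leg1 la6 ca6))
    (link_leg1 la7 ca7))
    (link_leg1 la8 ca8))
    (link_leg1 la9 ca9))
    (link_leg1 la10 ca10))
    (link_leg1 la11 ca11))
    (link_leg1 la12 ca12))
    (link_leg1 la13 ca13))
    (link_leg1 la14 ca14))
    (link_leg1 la15 ca15))
    (link_leg1 la16 ca16))
    (link_leg1 la17 ca17))
    (link_leg1 la18 ca18))
    (link_leg1 la19 ca19))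
    (link_leg1 la20 ca20))
    (link_leg1 la21 ca21))
    (link_leg1 la22 ca22))
    (link_leg1 la23 ca23))
    (link_leg1 la24 ca24))
    (link_leg1 la25 ca25))
    (link_leg1 la26 ca26))
    (link_leg1 la27 ca27))
    (link_leg1 la28 ca28))
    (link_leg1 la29 ca29))
    (link_leg1 la30 ca30))
    (link_leg1 la31 ca31))
    (link_leg1 la32 ca32))
    (link_leg1 la33 ca33))
    (link_leg1 la34 ca34))

theorem legA2 : Leg B1 (dir true) (a34.UcN 1 Real.pi) 1310416 384 (a36.UcN 1 Real.pi) 393216 :=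
  (Leg.trans (link_leg1 la35 ca35)
    (link_leg1 la36 ca36))

theorem legB : Leg B1 (dir true) (z0.UcN 1 Real.pi) 10348493 384 (b3.UcN 1 Real.pi) 9024889 :=
  (Leg.trans (Leg.trans (Leg.trans (link_leg1 lb0 cb0)
    (link_leg1 lb1 cb1))
    (link_leg1 lb2 cb2))
    (link_leg1 lb3 cb3))

theorem legB2 : Leg B1 (dir false) (b3.UcN 1 Real.pi) 9024889 6144 (b23.UcN 1 Real.pi) 393216 :=
  (Leg.trans (Leg.trans (Leg.trans (Leg.trans (Leg.trans (Leg.trans (Leg.trans (Leg.trans (Leg.trans (Leg.trans (Leg.trans (Leg.trans (Leg.trans (Leg.trans (Leg.trans (Leg.trans (Leg.trans (Leg.trans (Leg.trans (link_leg1 lb4 cb4)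
    (link_leg1 lb5 cb5))
    (link_leg1 lb6 cb6))
    (link_leg1 lb7 cb7))
    (link_leg1 lb8 cb8))
    (link_leg1 lb9 cb9))
    (link_leg1 lb10 cb10))
    (link_leg1 lb11 cb11))
    (link_leg1 lb12 cb12))
    (link_leg1 lb13 cb13))
    (link_leg1 lb14 cb14))
    (link_leg1 lb15 cb15))
    (link_leg1 lb16 cb16))
    (link_leg1 lb17 cb17))
    (link_leg1 lb18 cb18))
    (link_leg1 lb19 cb19))
    (link_leg1 lb20 cb20))
    (link_leg1 lb21 cb21))
    (link_leg1 lb22 cb22))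
    (link_leg1 lb23 cb23))

/-- the weight -/
def nu0 : ℝ := 65 / 64

lemma one_le_nu0 : (1:ℝ) ≤ nu0 := by unfold nu0; norm_num

lemma nu0_pow : nu0 ^ 84 ≤ 4 := by unfold nu0; norm_num

lemma nu0_pow' {K : ℕ} (h : K ≤ 42) : nu0 ^ (2 * K) ≤ ((4:ℕ) : ℝ) := by
  refine (pow_le_pow_right₀ one_le_nu0 (show 2 * K ≤ 84 by omega)).trans ?_
  have := nu0_pow
  push_cast
  exact this

theorem link_leg4 {C C' : Cert} {q bb v v' D : ℕ} {ht : Bool}
    (h : C.link C' 4 q bb v v' D ht = true) (hc : C'.check = true) (hK : C.K ≤ 42)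
    (hK' : C'.K ≤ 42) :
    Leg (Bnu nu0 one_le_nu0) (dir ht) (C.UcN nu0 Real.pi) v D (C'.UcN nu0 Real.pi) v' :=
  link_leg h hc one_le_nu0 (nu0_pow' hK) (nu0_pow' hK')

theorem legE : Leg (Bnu nu0 one_le_nu0) (dir true) (z0.UcN nu0 Real.pi) 5601616 384 (b3.UcN nu0 Real.pi) 393216 :=
  (Leg.trans (Leg.trans (Leg.trans (link_leg4 le0 cb0 (by decide) (by decide))
    (link_leg4 le1 cb1 (by decide) (by decide)))
    (link_leg4 le2 cb2 (by decide) (by decide)))
    (link_leg4 le3 cb3 (by decide) (by decide)))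

end NLSq
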