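import Pool.Agent.H75.NLSChain

/-!
The core contradiction: some real datum in the weighted Wiener algebra has no solution on `[0,3]`.
-/

open scoped Topology
open Set Complex

noncomputable section

namespace NLSq

open Dat Cert

lemma z0Y (k : ℕ) : z0.enI sY k = 0 := by
  match k with
  | 0 => decide +kernel
  | 1 => decide +kernel
  | k + 2 =>
    apply z0.enI_zero
    have : z0.K = 1 := rfl
    omega

/-- the base datum -/
def base (ν : ℝ) : W := z0.UcN ν Real.pi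

lemma base_apply (ν : ℝ) (k : ℤ) : base ν k =
    (wgt ν k : ℂ) * ((z0.enI sX k.natAbs : ℤ) : ℂ) / 2 ^ z0.p := by
  unfold base
  rw [z0.UcN_pi lenZ, z0Y]
  simp

lemma wgt_neg (ν : ℝ) (k : ℤ) : wgt ν (-k) = wgt ν k := by unfold wgt; rw [Int.natAbs_neg]

lemma wgt_one (k : ℤ) : wgt 1 k = 1 := by unfold wgt; simp

lemma base_real (k : ℤ) : base 1 (-k) = (starRingEnd ℂ) (base 1 k) := by
  rw [base_apply, base_apply, wgt_neg, Int.natAbs_neg, map_div₀, map_mul, map_pow,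
    Complex.conj_ofReal, map_intCast, map_ofNat]

lemma ex_nonneg (v : ℕ) : 0 ≤ ex v := (Real.exp_pos _).le

theorem core : ∃ ν : ℝ, 1 < ν ∧ ∃ x0 : W, (∀ k, x0 (-k) = (starRingEnd ℂ) (x0 k)) ∧
      (Summable fun k : ℤ => ‖x0 k‖ * ν ^ k.natAbs) ∧
      ¬ ∃ u : ℝ → W, IsSol B1 1 one 0 3 u ∧ u 0 = x0 := by
  refine ⟨nu0, by unfold nu0; norm_num, ?_⟩
  by_contra hH
  have hH' : ∀ x0 : W, (∀ k, x0 (-k) = (starRingEnd ℂ) (x0 k)) →
      (Summable fun k : ℤ => ‖x0 k‖ * nu0 ^ k.natAbs) →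
      ∃ u : ℝ → W, IsSol B1 1 one 0 3 u ∧ u 0 = x0 := by
    intro x0 h1 h2
    by_contra h3
    exact hH ⟨x0, h1, h2, h3⟩
  have e384 : (0:ℝ) + ((384 : ℕ) : ℝ) / 2048 = 3 / 16 := by norm_num
  have e6144 : (0:ℝ) + ((6144 : ℕ) : ℝ) / 2048 = 3 := by norm_num
  -- the weighted heat solution
  obtain ⟨U, hU, hU0⟩ := legE.ex 0 (base nu0) (by
    change ‖base nu0 - base nu0‖ ≤ _
    rw [sub_self, norm_zero]; exact ex_nonneg _)
  rw [e384] at hU
  have hd1 : dir false = 1 := rfl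
  have hd2 : dir true = -I := rfl
  rw [hd2] at hU
  have hsumU : ∀ t, Summable fun k : ℤ => ‖(((wgt nu0 k)⁻¹ : ℝ) : ℂ) * U t k‖ := by
    intro t
    refine Summable.of_nonneg_of_le (fun _ => norm_nonneg _) (fun k => ?_) (summable_norm (U t))
    rw [norm_mul, Complex.norm_real, Real.norm_of_nonneg (inv_nonneg.mpr (wgt_pos one_le_nu0 k).le)]
    have h1 : (wgt nu0 k)⁻¹ ≤ 1 := inv_le_one_of_one_le₀ (one_le_wgt one_le_nu0 k)
    exact mul_le_of_le_one_left (norm_nonneg _) h1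
  set v : ℝ → W := fun t => mkW (fun k => (((wgt nu0 k)⁻¹ : ℝ) : ℂ) * U t k) (hsumU t) with hvdef
  have hv : IsSol B1 (-I) one 0 (3 / 16) v := unweight one_le_nu0 hU (fun t k => rfl)
  have hv0 : v 0 = base 1 := by
    apply W_ext
    intro k
    change (((wgt nu0 k)⁻¹ : ℝ) : ℂ) * U 0 k = _
    rw [hU0, base_apply, base_apply, wgt_one]
    have : (wgt nu0 k : ℂ) ≠ 0 := by exact_mod_cast (wgt_pos one_le_nu0 k).ne'
    push_cast
    field_simp
  have hvreal := heat_real hv (fun k => by rw [hv0]; exact base_real k)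
  have hvsum : ∀ t, Summable fun k : ℤ => ‖v t k‖ * nu0 ^ k.natAbs := by
    intro t
    refine (summable_norm (U t)).congr (fun k => ?_)
    change ‖U t k‖ = ‖(((wgt nu0 k)⁻¹ : ℝ) : ℂ) * U t k‖ * wgt nu0 k
    have := wgt_pos one_le_nu0 k
    rw [norm_mul, Complex.norm_real, Real.norm_of_nonneg (inv_nonneg.mpr this.le)]
    field_simp
  -- real-time flows
  have hex : ∀ τ : ℝ, ∃ u : ℝ → W, τ ∈ Icc 0 (3 / 16) → IsSol B1 1 one 0 3 u ∧ u 0 = v τ := by
    intro τ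
    by_cases h : τ ∈ Icc (0:ℝ) (3 / 16)
    · obtain ⟨u, hu⟩ := hH' (v τ) (hvreal τ h) (hvsum τ)
      exact ⟨u, fun _ => hu⟩
    · exact ⟨fun _ => 0, fun h' => absurd h' h⟩
  choose V hV using hex
  have hcomm := commute_rect norm_B1 (by norm_num : (0:ℝ) ≤ 3) (by norm_num : (0:ℝ) ≤ 3 / 16) hv
    (fun τ h => (hV τ h).1) (fun τ h => (hV τ h).2)
  have m0 : (0:ℝ) ∈ Icc (0:ℝ) (3 / 16) := ⟨le_rfl, by norm_num⟩
  have m1 : (3 / 16 : ℝ) ∈ Icc (0:ℝ) (3 / 16) := ⟨by norm_num, le_rfl⟩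
  -- first path
  have A1 := legA.cl 0 (V 0) (by rw [e6144, hd1]; exact (hV 0 m0).1) (by
    rw [(hV 0 m0).2, hv0]
    change ‖base 1 - base 1‖ ≤ _
    rw [sub_self, norm_zero]; exact ex_nonneg _)
  rw [e6144] at A1
  have A2 := legA2.cl 0 (fun τ => V τ 3) (by rw [e384, hd2]; exact hcomm) A1
  rw [e384] at A2
  -- second path
  have C1 := legB.cl 0 v (by rw [e384, hd2]; exact hv) (by
    rw [hv0]
    change ‖base 1 - base 1‖ ≤ _
    rw [sub_self, norm_zero]; exact ex_nonneg _)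
  rw [e384] at C1
  have C2 := legB2.cl 0 (V (3 / 16)) (by rw [e6144, hd1]; exact (hV _ m1).1) (by
    rw [(hV _ m1).2]; exact C1)
  rw [e6144] at C2
  have hs : ex 393216 < 1 / 4 := ex_small (by norm_num)
  have hfar := far_spec lenA lenB farAB 1
  have h1 : ‖a36.UcN 1 Real.pi - b23.UcN 1 Real.pi‖ ≤
      ‖V (3 / 16) 3 - a36.UcN 1 Real.pi‖ + ‖V (3 / 16) 3 - b23.UcN 1 Real.pi‖ := by
    have := norm_sub_le (V (3 / 16) 3 - b23.UcN 1 Real.pi) (V (3 / 16) 3 - a36.UcN 1 Real.pi)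
    rw [sub_sub_sub_cancel_left] at this
    linarith
  change ‖V (3 / 16) 3 - a36.UcN 1 Real.pi‖ ≤ ex 393216 at A2
  linarith

end NLSq
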