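import Pool.Agent.H75.NLSFin

/-!
The bit-mask test for small signed digits.
-/

open Finset

namespace NLSq

/-- power of two -/
def pw (k : ℕ) : ℕ := Nat.shiftLeft 1 k

lemma pw_eq (k : ℕ) : pw k = 2 ^ k := by
  unfold pw
  have : Nat.shiftLeft 1 k = 1 * 2 ^ k := Nat.shiftLeft_eq 1 k
  rw [this, one_mul]

/-- repunit in base `2^b` -/
def ones (b T : ℕ) : ℕ := (pw (b * T) - 1) / (pw b - 1)

/-- the test -/
def chkD (b c T : ℕ) (z : ℤ) : Bool :=
  match z + (pw c * ones b T : ℕ) with
  | Int.ofNat x => Nat.blt x (pw (b * T)) && Nat.beq (x &&& (ones b T * (pw b - pw (c + 1)))) 0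
  | Int.negSucc _ => false

lemma ones_eq {b : ℕ} (hb : 1 ≤ b) (T : ℕ) : ones b T = ∑ i ∈ range T, (2 ^ b) ^ i := by
  rw [ones, pw_eq, pw_eq, Nat.geomSum_eq (by
    calc 2 = 2 ^ 1 := by norm_num
      _ ≤ 2 ^ b := Nat.pow_le_pow_right (by norm_num) hb), pow_mul]

lemma digit_expansion {B : ℕ} : ∀ (T x : ℕ), x < B ^ T →
    x = ∑ i ∈ range T, (x / B ^ i % B) * B ^ i := by
  intro T
  induction T with
  | zero => intro x hx; simp at hx; simp [hx]
  | succ T ih =>
    intro x hx
    rw [Finset.sum_range_succ']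
    simp only [pow_zero, Nat.div_one, mul_one]
    have h1 : x / B < B ^ T := by
      rw [pow_succ] at hx
      exact Nat.div_lt_of_lt_mul (by rwa [mul_comm] at hx)
    have h2 := ih (x / B) h1
    have h3 : ∑ i ∈ range T, x / B ^ (i + 1) % B * B ^ (i + 1) =
        B * ∑ i ∈ range T, (x / B) / B ^ i % B * B ^ i := by
      rw [Finset.mul_sum]
      apply Finset.sum_congr rfl
      intro i _
      rw [Nat.div_div_eq_div_mul, pow_succ']
      ring
    rw [h3, ← h2]
    exact (Nat.div_add_mod x B).symm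

lemma digit_of_sum {B : ℕ} (hB : 0 < B) : ∀ (T : ℕ) (e : ℕ → ℕ), (∀ i, e i < B) → ∀ j < T,
    (∑ i ∈ range T, e i * B ^ i) / B ^ j % B = e j := by
  intro T
  induction T with
  | zero => intro e _ j hj; omega
  | succ T ih =>
    intro e he j hj
    rw [Finset.sum_range_succ']
    simp only [pow_zero, mul_one]
    have h3 : ∑ i ∈ range T, e (i + 1) * B ^ (i + 1) =
        B * ∑ i ∈ range T, e (i + 1) * B ^ i := by
      rw [Finset.mul_sum]
      apply Finset.sum_congr rfl
      intro i _; ring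
    rw [h3]
    rcases j with _ | j
    · simp only [pow_zero, Nat.div_one]
      rw [Nat.mul_add_mod]
      exact Nat.mod_eq_of_lt (he 0)
    · rw [pow_succ', ← Nat.div_div_eq_div_mul, Nat.mul_add_div hB, Nat.div_eq_of_lt (he 0),
        add_zero]
      exact ih (fun i => e (i + 1)) (fun i => he (i + 1)) j (by omega)

lemma testBit_top {b c j : ℕ} (hj1 : c + 1 ≤ j) (hj2 : j < b) :
    (2 ^ b - 2 ^ (c + 1)).testBit j = true := by
  have h1 : 2 ^ (c + 1) = (2 ^ (c + 1) - 1) + 1 := by
    have : 0 < 2 ^ (c + 1) := by positivity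
    omega
  have h2 : 2 ^ (c + 1) - 1 < 2 ^ b := by
    have : 2 ^ (c + 1) ≤ 2 ^ b := Nat.pow_le_pow_right (by norm_num) (by omega)
    have : 0 < 2 ^ (c + 1) := by positivity
    omega
  rw [h1, Nat.testBit_two_pow_sub_succ h2]
  simp only [hj2, decide_true, Bool.true_and]
  rw [Nat.testBit_two_pow_sub_one]
  simp; omega

/-- the digit lemma -/
theorem chkD_sound {b c T : ℕ} (hb : 1 ≤ b) {z : ℤ} {F : ℕ → ℤ}
    (hF : ∀ i < T, |F i| + 2 ^ c < 2 ^ b) (hz : z = ∑ i ∈ range T, F i * (2 ^ b) ^ i)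
    (h : chkD b c T z = true) : ∀ i < T, |F i| ≤ 2 ^ c := by
  unfold chkD at h
  simp only [pw_eq] at h
  split at h
  · rename_i x hx
    rw [Bool.and_eq_true] at h
    have hlt : x < (2 ^ b) ^ T := by
      have := Nat.blt_eq.mp h.1
      rwa [← pow_mul]
    have hmask : x &&& (ones b T * (2 ^ b - 2 ^ (c + 1))) = 0 := Nat.eq_of_beq_eq_true h.2
    have hBpos : 0 < 2 ^ b := by positivity
    set e : ℕ → ℕ := fun i => x / (2 ^ b) ^ i % 2 ^ b with he
    have hexp : x = ∑ i ∈ range T, e i * (2 ^ b) ^ i := digit_expansion T x hlt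
    have hd : 2 ^ b - 2 ^ (c + 1) < 2 ^ b := by
      have : 0 < 2 ^ (c + 1) := by positivity
      omega
    have hones := ones_eq hb T
    have hm : ones b T * (2 ^ b - 2 ^ (c + 1)) =
        ∑ i ∈ range T, (2 ^ b - 2 ^ (c + 1)) * (2 ^ b) ^ i := by
      rw [hones, mul_comm, Finset.mul_sum]
    have hesmall : ∀ i < T, e i < 2 ^ (c + 1) := by
      intro i hi
      apply Nat.lt_pow_two_of_testBit
      intro j hj
      by_cases hjb : j < b
      · have h1 : (e i).testBit j = x.testBit (b * i + j) := by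
          rw [he]; simp only
          rw [Nat.testBit_mod_two_pow, ← pow_mul, Nat.testBit_div_two_pow]
          simp [hjb, add_comm]
        have h2 : (ones b T * (2 ^ b - 2 ^ (c + 1))).testBit (b * i + j) = true := by
          have h3 := digit_of_sum hBpos T (fun _ => 2 ^ b - 2 ^ (c + 1)) (fun _ => hd) i hi
          rw [← hm] at h3
          have h4 : (ones b T * (2 ^ b - 2 ^ (c + 1)) / (2 ^ b) ^ i % 2 ^ b).testBit j = true := by
            rw [h3]; exact testBit_top hj hjb
          rw [Nat.testBit_mod_two_pow, ← pow_mul, Nat.testBit_div_two_pow] at h4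
          simpa [hjb, add_comm] using h4
        have h5 : (x &&& (ones b T * (2 ^ b - 2 ^ (c + 1)))).testBit (b * i + j) = false := by
          rw [hmask]; simp
        rw [Nat.testBit_and, h2, Bool.and_true] at h5
        rw [h1, h5]
      · apply Nat.testBit_lt_two_pow
        have : e i < 2 ^ b := Nat.mod_lt _ hBpos
        exact this.trans_le (Nat.pow_le_pow_right (by norm_num) (by omega))
    have hxz : (x : ℤ) = z + (2 ^ c * ones b T : ℕ) := by rw [hx]; rfl
    have hzero : ∑ i ∈ range T, (F i + 2 ^ c - (e i : ℤ)) * ((2:ℤ) ^ b) ^ i = 0 := by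
      have h1 : ∑ i ∈ range T, (F i + 2 ^ c - (e i : ℤ)) * ((2:ℤ) ^ b) ^ i =
          (∑ i ∈ range T, F i * (2 ^ b) ^ i) + 2 ^ c * (∑ i ∈ range T, ((2:ℤ) ^ b) ^ i) -
          ∑ i ∈ range T, (e i : ℤ) * (2 ^ b) ^ i := by
        rw [Finset.mul_sum, ← Finset.sum_add_distrib, ← Finset.sum_sub_distrib]
        apply Finset.sum_congr rfl
        intro i _; ring
      have h2 : ((ones b T : ℕ) : ℤ) = ∑ i ∈ range T, ((2:ℤ) ^ b) ^ i := by
        rw [hones]; push_cast; rfl
      have h3 : (x : ℤ) = ∑ i ∈ range T, (e i : ℤ) * (2 ^ b) ^ i := by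
        conv_lhs => rw [hexp]
        push_cast; rfl
      rw [h1, ← hz, ← h2, ← h3, hxz]
      push_cast; ring
    have hall := digits_zero (B := (2:ℤ) ^ b) (by positivity) T
      (fun i => F i + 2 ^ c - (e i : ℤ)) (by
        intro i hi
        have h1 := hF i hi
        have h2 : ((e i : ℕ) : ℤ) < 2 ^ (c + 1) := by exact_mod_cast hesmall i hi
        have h3 : (0:ℤ) ≤ (e i : ℤ) := by positivity
        have h4 : (2:ℤ) ^ (c + 1) = 2 * 2 ^ c := by ring
        have h5 := neg_abs_le (F i)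
        have h6 := le_abs_self (F i)
        rw [abs_lt]
        constructor <;> linarith) hzero
    intro i hi
    have h1 := hall i hi
    have h2 : ((e i : ℕ) : ℤ) < 2 ^ (c + 1) := by exact_mod_cast hesmall i hi
    have h3 : (0:ℤ) ≤ (e i : ℤ) := by positivity
    have h4 : (2:ℤ) ^ (c + 1) = 2 * 2 ^ c := by ring
    rw [abs_le]
    constructor <;> linarith
  · exact absurd h (by simp)

/-- reindexing a double sum as a single sum of digits -/
lemma sum_double {A : Type*} [AddCommMonoid A] (f : ℕ → A) (N L : ℕ) :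
    ∑ t ∈ range (N * L), f t = ∑ i ∈ range N, ∑ j ∈ range L, f (i * L + j) := by
  induction N with
  | zero => simp
  | succ N ih =>
    rw [Finset.sum_range_succ, ← ih, add_mul, one_mul, Finset.sum_range_add]

lemma sum_sI_range {A : Type*} [AddCommMonoid A] (f : ℤ → A) (M : ℕ) :
    ∑ m ∈ sI M, f m = ∑ i ∈ range (2 * M + 1), f ((i : ℤ) - M) := by
  symm
  apply Finset.sum_bij (fun (i : ℕ) _ => (i : ℤ) - M)
  · intro i hi; rw [Finset.mem_range] at hi; rw [mem_sI]; omega
  · intro i _ j _ h; omega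
  · intro m hm
    rw [mem_sI] at hm
    refine ⟨(m + M).toNat, ?_, ?_⟩
    · rw [Finset.mem_range]; omega
    · omega
  · intro i _; rfl

end NLSq
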