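import Pool.Agent.H75.NLSRect

/-!
Continuation of solutions, and the stability/existence theorem for one cosine step.
-/

open scoped Topology
open Set MeasureTheory intervalIntegral Complex Metric

noncomputable section

namespace NLSq

lemma isSol_point {B : W →L[ℂ] W →L[ℂ] W} {d : ℂ} {g : ℝ → ℝ} (a : ℝ) (u : ℝ → W) :
    IsSol B d g a a u where
  cont := by rw [Icc_self]; exact continuousOn_singleton _ _
  eq := fun s hs k => by
    rw [Icc_self, mem_singleton_iff] at hs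
    rw [hs]; simp

lemma local_dir {B : W →L[ℂ] W →L[ℂ] W} (hB : ∀ x y, ‖B x y‖ ≤ ‖x‖ * ‖y‖) {d : ℂ}
    (hd : d = 1 ∨ d = -I) {M : ℝ}
    (hM : 0 < M) {δ : ℝ} (hδ : 0 < δ) (hδM : 16 * δ * M ≤ 1) (w : W) (hw : ‖w‖ ≤ M) :
    ∃ v : ℝ → W, v 0 = w ∧ IsSol B d one 0 δ v := by
  obtain ⟨V, hV0, hvert, hhor⟩ := local_square hB hM hδ hδM w hw
  rcases hd with hd | hd
  · refine ⟨fun s => V (s - ((0:ℝ):ℂ) * I), ?_, ?_⟩
    · simp [hV0]
    · rw [hd]; exact hhor 0 ⟨le_refl 0, hδ.le⟩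
  · refine ⟨fun r => V (((0:ℝ):ℂ) - r * I), ?_, ?_⟩
    · simp [hV0]
    · rw [hd]; exact hvert 0 ⟨le_refl 0, hδ.le⟩

lemma glue_at {B : W →L[ℂ] W →L[ℂ] W} {d : ℂ} {a c b : ℝ} (hac : a ≤ c) (hcb : c ≤ b)
    {u v : ℝ → W} (hu : IsSol B d one a c u) (hv : IsSol B d one c b v) (h : u c = v c) :
    ∃ u' : ℝ → W, IsSol B d one a b u' ∧ (∀ s ∈ Icc a c, u' s = u s) ∧
      ∀ s ∈ Icc c b, u' s = v s := by
  refine ⟨fun s => if s ≤ c then u s else v s, ?_, ?_, ?_⟩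
  · apply IsSol.glue hac hcb contOn_one
    · apply hu.congr
      intro s hs
      simp [hs.2]
    · apply hv.congr
      intro s hs
      rcases eq_or_lt_of_le hs.1 with h' | h'
      · rw [← h']; simp [h]
      · simp [not_le.mpr h']
  · intro s hs
    simp [hs.2]
  · intro s hs
    rcases eq_or_lt_of_le hs.1 with h' | h'
    · rw [← h']; simp [h]
    · simp [not_le.mpr h']

/-- existence from an a priori bound -/
theorem exists_sol {B : W →L[ℂ] W →L[ℂ] W} (hB : ∀ x y, ‖B x y‖ ≤ ‖x‖ * ‖y‖) {d : ℂ}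
    (hd : d = 1 ∨ d = -I) {a b M : ℝ} (hab : a ≤ b) (hM : 0 < M) (w0 : W)
    (hapr : ∀ c ∈ Icc a b, ∀ u : ℝ → W, IsSol B d one a c u → u a = w0 → ‖u c‖ ≤ M) :
    ∃ u : ℝ → W, IsSol B d one a b u ∧ u a = w0 := by
  set δ := 1 / (16 * M) with hδdef
  have hδ : 0 < δ := by positivity
  have hδM : 16 * δ * M ≤ 1 := by rw [hδdef]; field_simp; norm_num
  have key : ∀ n : ℕ, ∃ u : ℝ → W, IsSol B d one a (min b (a + n * δ)) u ∧ u a = w0 := by
    intro n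
    induction n with
    | zero =>
      refine ⟨fun _ => w0, ?_, rfl⟩
      have : min b (a + ((0:ℕ):ℝ) * δ) = a := by simp [hab]
      rw [this]
      exact isSol_point a _
    | succ n ih =>
      obtain ⟨u, hu, hua⟩ := ih
      set c := min b (a + n * δ) with hc
      have hac : a ≤ c := le_min hab (by
        have : 0 ≤ (n:ℝ) * δ := by positivity
        linarith)
      have hcb : c ≤ b := min_le_left _ _
      have hb := hapr c ⟨hac, hcb⟩ u hu hua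
      obtain ⟨v, hv0, hv⟩ := local_dir hB hd hM hδ hδM (u c) hb
      have hv' := hv.translate (-c)
      rw [zero_sub, neg_neg, sub_neg_eq_add, add_comm δ c] at hv'
      obtain ⟨u', hu', h1, h2⟩ := glue_at hac (by linarith) hu hv' (by simp [hv0])
      refine ⟨u', ?_, ?_⟩
      · apply hu'.mono contOn_one le_rfl
        rw [hc]
        push_cast
        have : min b (a + (n + 1) * δ) ≤ min b (a + n * δ) + δ := by
          rcases le_total b (a + n * δ) with h | h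
          · rw [min_eq_left h]; exact (min_le_left _ _).trans (by linarith)
          · rw [min_eq_right h]; exact (min_le_right _ _).trans (by linarith)
        exact this
      · rw [h1 a ⟨le_refl a, hac⟩, hua]
  obtain ⟨n, hn⟩ := exists_nat_gt ((b - a) / δ)
  obtain ⟨u, hu, hua⟩ := key n
  have : min b (a + n * δ) = b := by
    apply min_eq_left
    rw [div_lt_iff₀ hδ] at hn
    linarith
  rw [this] at hu
  exact ⟨u, hu, hua⟩

lemma dir_norm {d : ℂ} (hd : d = 1 ∨ d = -I) : ‖d‖ = 1 := by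
  rcases hd with h | h <;> rw [h] <;> simp

lemma dir_im {d : ℂ} (hd : d = 1 ∨ d = -I) : d.im ≤ 0 := by
  rcases hd with h | h <;> rw [h] <;> simp

lemma IsApp.mono_right {B : W →L[ℂ] W →L[ℂ] W} {d : ℂ} {g : ℝ → ℝ} {a b b' : ℝ} {U D : ℝ → W}
    (h : IsApp B d g a b U D) (hb : b' ≤ b) : IsApp B d g a b' U D where
  cont := h.cont.mono (Icc_subset_Icc_right hb)
  contD := h.contD.mono (Icc_subset_Icc_right hb)
  eq := fun s hs k => h.eq s ⟨hs.1, hs.2.trans hb⟩ k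

/-- stability over one cosine step (also for partial solutions) -/
theorem step_core {B : W →L[ℂ] W →L[ℂ] W} (hB : ∀ x y, ‖B x y‖ ≤ ‖x‖ * ‖y‖) {d : ℂ}
    (hd : d = 1 ∨ d = -I) {a h : ℝ} (hh : 0 < h) {U D : ℝ → W}
    (hU : IsApp B d (fun θ => h * Real.sin θ) 0 Real.pi U D) {M δ ε η : ℝ}
    (hM : ∀ θ ∈ Icc 0 Real.pi, ‖U θ‖ ≤ M) (hD : ∀ θ ∈ Icc 0 Real.pi, ‖D θ‖ ≤ δ)
    (hη : (ε + δ * Real.pi) * Real.exp ((2 * M + η) * (2 * h)) < η)
    {c : ℝ} (hc : c ∈ Icc a (a + 2 * h)) {u : ℝ → W} (hu : IsSol B d one a c u)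
    (hε : ‖u a - U 0‖ ≤ ε) :
    ∃ Θ ∈ Icc 0 Real.pi, c = a + h * (1 - Real.cos Θ) ∧
      ‖u c - U Θ‖ ≤ (ε + δ * Real.pi) * Real.exp ((2 * M + η) * (2 * h)) := by
  set Θ := Real.arccos (1 - (c - a) / h) with hΘ
  have h1 : -1 ≤ 1 - (c - a) / h := by
    have : (c - a) / h ≤ 2 := by rw [div_le_iff₀ hh]; linarith [hc.2]
    linarith
  have h2 : 1 - (c - a) / h ≤ 1 := by
    have : 0 ≤ (c - a) / h := div_nonneg (by linarith [hc.1]) hh.le
    linarith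
  have hcosΘ : Real.cos Θ = 1 - (c - a) / h := Real.cos_arccos h1 h2
  have hΘmem : Θ ∈ Icc 0 Real.pi := ⟨Real.arccos_nonneg _, Real.arccos_le_pi _⟩
  have hceq : c = a + h * (1 - Real.cos Θ) := by
    rw [hcosΘ]; field_simp; ring
  refine ⟨Θ, hΘmem, hceq, ?_⟩
  have hu' : IsSol B d (fun θ => h * Real.sin θ) 0 Θ (fun θ => u (a + h * (1 - Real.cos θ))) := by
    apply IsSol.cosine hh.le hΘmem
    rwa [← hceq]
  have cg : ContinuousOn (fun θ : ℝ => h * Real.sin θ) (Icc 0 Θ) := by fun_prop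
  have hg0 : ∀ r ∈ Icc 0 Θ, 0 ≤ h * Real.sin r := fun r hr =>
    mul_nonneg hh.le (Real.sin_nonneg_of_nonneg_of_le_pi hr.1 (hr.2.trans hΘmem.2))
  have h0Θ : (0:ℝ) ∈ Icc 0 Θ := ⟨le_refl 0, hΘmem.1⟩
  have h0π : (0:ℝ) ∈ Icc 0 Real.pi := ⟨le_refl 0, Real.pi_pos.le⟩
  have hM0 : 0 ≤ M := (norm_nonneg _).trans (hM 0 h0π)
  have hδ0 : 0 ≤ δ := (norm_nonneg _).trans (hD 0 h0π)
  have hε0 : 0 ≤ ε := (norm_nonneg _).trans hε
  have hη0 : 0 < η := lt_of_le_of_lt (by positivity) hη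
  have hint : (∫ r in (0:ℝ)..Θ, h * Real.sin r) ≤ 2 * h := by
    rw [intervalIntegral.integral_const_mul, integral_sin]
    have := Real.neg_one_le_cos Θ
    simp only [Real.cos_zero]
    nlinarith
  have hbound : (ε + δ * (Θ - 0)) * Real.exp ((2 * M + η) * ∫ r in (0:ℝ)..Θ, h * Real.sin r) ≤
      (ε + δ * Real.pi) * Real.exp ((2 * M + η) * (2 * h)) := by
    apply mul_le_mul
    · have := mul_le_mul_of_nonneg_left hΘmem.2 hδ0
      linarith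
    · apply Real.exp_le_exp.mpr
      apply mul_le_mul_of_nonneg_left hint (by linarith)
    · exact (Real.exp_pos _).le
    · positivity
  have hcl := closeness hB (dir_norm hd) (dir_im hd) hΘmem.1 cg hg0 hu' (hU.mono_right hΘmem.2)
    (M := M) (δ := δ) (ε := ε) (η := η) (fun r hr => hM r ⟨hr.1, hr.2.trans hΘmem.2⟩)
    (fun r hr => hD r ⟨hr.1, hr.2.trans hΘmem.2⟩) (by simpa using hε)
    (lt_of_le_of_lt hbound hη) (s := Θ) ⟨hΘmem.1, le_refl Θ⟩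
  have h5 := hcl.trans hbound
  rwa [← hceq] at h5

theorem step_close {B : W →L[ℂ] W →L[ℂ] W} (hB : ∀ x y, ‖B x y‖ ≤ ‖x‖ * ‖y‖) {d : ℂ}
    (hd : d = 1 ∨ d = -I) {a h : ℝ} (hh : 0 < h) {U D : ℝ → W}
    (hU : IsApp B d (fun θ => h * Real.sin θ) 0 Real.pi U D) {M δ ε η : ℝ}
    (hM : ∀ θ ∈ Icc 0 Real.pi, ‖U θ‖ ≤ M) (hD : ∀ θ ∈ Icc 0 Real.pi, ‖D θ‖ ≤ δ)
    (hη : (ε + δ * Real.pi) * Real.exp ((2 * M + η) * (2 * h)) < η)
    {u : ℝ → W} (hu : IsSol B d one a (a + 2 * h) u)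
    (hε : ‖u a - U 0‖ ≤ ε) :
    ‖u (a + 2 * h) - U Real.pi‖ ≤ (ε + δ * Real.pi) * Real.exp ((2 * M + η) * (2 * h)) := by
  obtain ⟨Θ, hΘ, hceq, hb⟩ := step_core hB hd hh hU hM hD hη (c := a + 2 * h)
    ⟨by linarith, le_rfl⟩ hu hε
  have h1 : Real.cos Θ = -1 := by
    have : h * (1 - Real.cos Θ) = h * 2 := by linarith
    have := mul_left_cancel₀ hh.ne' this
    linarith
  have h2 : Θ = Real.pi := by
    have := Real.arccos_cos hΘ.1 hΘ.2
    rw [← this, h1, Real.arccos_neg_one]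
  rwa [h2] at hb

theorem step_exists {B : W →L[ℂ] W →L[ℂ] W} (hB : ∀ x y, ‖B x y‖ ≤ ‖x‖ * ‖y‖) {d : ℂ}
    (hd : d = 1 ∨ d = -I) {a h : ℝ} (hh : 0 < h) {U D : ℝ → W}
    (hU : IsApp B d (fun θ => h * Real.sin θ) 0 Real.pi U D) {M δ ε η : ℝ}
    (hM : ∀ θ ∈ Icc 0 Real.pi, ‖U θ‖ ≤ M) (hD : ∀ θ ∈ Icc 0 Real.pi, ‖D θ‖ ≤ δ)
    (hη : (ε + δ * Real.pi) * Real.exp ((2 * M + η) * (2 * h)) < η)
    (w0 : W) (hε : ‖w0 - U 0‖ ≤ ε) :
    ∃ u : ℝ → W, IsSol B d one a (a + 2 * h) u ∧ u a = w0 := by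
  have h0π : (0:ℝ) ∈ Icc 0 Real.pi := ⟨le_refl 0, Real.pi_pos.le⟩
  have hM0 : 0 ≤ M := (norm_nonneg _).trans (hM 0 h0π)
  have hδ0 : 0 ≤ δ := (norm_nonneg _).trans (hD 0 h0π)
  have hε0 : 0 ≤ ε := (norm_nonneg _).trans hε
  have hη0 : 0 < η := lt_of_le_of_lt (by positivity) hη
  apply exists_sol hB hd (M := M + η) (by linarith) (by linarith) w0
  intro c hc u hu hua
  obtain ⟨Θ, hΘ, -, hb⟩ := step_core hB hd hh hU hM hD hη hc hu (by rwa [hua])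
  calc ‖u c‖ = ‖(u c - U Θ) + U Θ‖ := by rw [sub_add_cancel]
    _ ≤ ‖u c - U Θ‖ + ‖U Θ‖ := norm_add_le _ _
    _ ≤ η + M := add_le_add (hb.trans hη.le) (hM Θ hΘ)
    _ = M + η := add_comm _ _

end NLSq
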