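import Mathlib

/-!
Finite symmetric sums, convolution identities and the digit lemma (Kronecker substitution).
-/

open Finset

noncomputable section

namespace NLSq

/-- the symmetric interval -/
def sI (n : ℕ) : Finset ℤ := Finset.Icc (-(n : ℤ)) n

lemma mem_sI {n : ℕ} {m : ℤ} : m ∈ sI n ↔ m.natAbs ≤ n := by
  unfold sI; rw [Finset.mem_Icc]; omega

lemma sum_sI_sym {A : Type*} [AddCommMonoid A] (f : ℤ → A) (n : ℕ) :
    ∑ m ∈ sI n, f m = f 0 + ∑ m ∈ range n, (f ((m : ℤ) + 1) + f (-((m : ℤ) + 1))) := by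
  induction n with
  | zero => simp [sI]
  | succ n ih =>
    rw [Finset.sum_range_succ, ← add_assoc, ← ih]
    have h1 : sI (n + 1) = insert ((n : ℤ) + 1) (insert (-((n : ℤ) + 1)) (sI n)) := by
      ext m; simp only [Finset.mem_insert, mem_sI]; omega
    rw [h1, Finset.sum_insert, Finset.sum_insert]
    · rw [add_comm (∑ m ∈ sI n, f m), add_assoc]
    · rw [mem_sI]; omega
    · simp only [Finset.mem_insert, mem_sI]; omega

lemma sum_shift {A : Type*} [AddCommMonoid A] {h : ℤ → A} {a b : ℕ}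
    (hh : ∀ m : ℤ, b < m.natAbs → h m = 0) {m1 : ℤ} (hm1 : m1.natAbs ≤ a) :
    ∑ m ∈ sI (a + b), h (m - m1) = ∑ m ∈ sI b, h m := by
  have h1 : ∑ m ∈ sI b, h m = ∑ m ∈ (sI b).map (Equiv.addRight m1).toEmbedding, h (m - m1) := by
    rw [Finset.sum_map]; simp
  rw [h1]
  symm
  apply Finset.sum_subset
  · intro m hm
    rw [Finset.mem_map] at hm
    obtain ⟨x, hx, rfl⟩ := hm
    rw [mem_sI] at hx ⊢
    simp only [Equiv.coe_toEmbedding, Equiv.coe_addRight]
    omega
  · intro m _ hm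
    apply hh
    by_contra hc
    apply hm
    rw [Finset.mem_map]
    refine ⟨m - m1, ?_, by simp⟩
    rw [mem_sI]; omega

/-- product of two Laurent polynomials -/
lemma conv1 {A : Type*} [Field A] {z : A} (hz : z ≠ 0) (f g : ℤ → A) {a b : ℕ}
    (hg : ∀ m : ℤ, b < m.natAbs → g m = 0) :
    (∑ i ∈ sI a, f i * z ^ i) * (∑ i ∈ sI b, g i * z ^ i) =
      ∑ m ∈ sI (a + b), (∑ i ∈ sI a, f i * g (m - i)) * z ^ m := by
  have h1 : ∀ i ∈ sI a, f i * z ^ i * (∑ j ∈ sI b, g j * z ^ j) =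
      ∑ m ∈ sI (a + b), f i * g (m - i) * z ^ m := by
    intro i hi
    rw [mem_sI] at hi
    rw [← sum_shift (h := fun j => g j * z ^ j) (a := a) (b := b)
      (fun m hm => by simp [hg m hm]) hi, Finset.mul_sum]
    apply Finset.sum_congr rfl
    intro m _
    have : z ^ m = z ^ i * z ^ (m - i) := by rw [← zpow_add₀ hz]; congr 1; ring
    rw [this]; ring
  rw [Finset.sum_mul, Finset.sum_congr rfl h1, Finset.sum_comm]
  apply Finset.sum_congr rfl
  intro m _
  rw [Finset.sum_mul]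

/-- two-dimensional convolution -/
def cv {A : Type*} [CommRing A] (a q : ℕ) (f g : ℤ → ℤ → A) (m k : ℤ) : A :=
  ∑ i ∈ sI a, ∑ j ∈ sI q, f i j * g (m - i) (k - j)

/-- Kronecker evaluation -/
def kap {A : Type*} [Field A] (u v : A) (M Q : ℕ) (f : ℤ → ℤ → A) : A :=
  ∑ m ∈ sI M, (∑ k ∈ sI Q, f m k * v ^ k) * u ^ m

/-- the product of two two-variable Laurent polynomials -/
lemma conv2 {A : Type*} [Field A] {u v : A} (hu : u ≠ 0) (hv : v ≠ 0) (f g : ℤ → ℤ → A)
    {a b q r : ℕ} (hg1 : ∀ m k : ℤ, b < m.natAbs → g m k = 0)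
    (hg2 : ∀ m k : ℤ, r < k.natAbs → g m k = 0) :
    kap u v a q f * kap u v b r g = kap u v (a + b) (q + r) (cv a q f g) := by
  unfold kap
  rw [conv1 hu (fun i => ∑ k ∈ sI q, f i k * v ^ k) (fun i => ∑ k ∈ sI r, g i k * v ^ k)
    (a := a) (b := b) (fun m hm => by
      apply Finset.sum_eq_zero
      intro k _; rw [hg1 m k hm, zero_mul])]
  apply Finset.sum_congr rfl
  intro m _
  congr 1
  have h1 : ∀ i ∈ sI a, (∑ k ∈ sI q, f i k * v ^ k) * (∑ k ∈ sI r, g (m - i) k * v ^ k) =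
      ∑ k ∈ sI (q + r), (∑ j ∈ sI q, f i j * g (m - i) (k - j)) * v ^ k := by
    intro i _
    exact conv1 hv (f i) (g (m - i)) (fun k hk => hg2 _ k hk)
  rw [Finset.sum_congr rfl h1, Finset.sum_comm]
  apply Finset.sum_congr rfl
  intro k _
  unfold cv
  rw [Finset.sum_mul]

/-- shifting up -/
lemma sum_shift_up {A : Type*} [Field A] {z : A} (hz : z ≠ 0) (f : ℤ → A) {b : ℕ}
    (hf : ∀ m : ℤ, b < m.natAbs → f m = 0) :
    ∑ m ∈ sI (b + 1), f (m - 1) * z ^ m = z * ∑ m ∈ sI b, f m * z ^ m := by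
  have h := sum_shift (h := fun j => f j * z ^ j) (a := 1) (b := b)
      (fun m hm => by simp [hf m hm]) (m1 := 1) (by simp)
  rw [← h, Finset.mul_sum, add_comm b 1]
  apply Finset.sum_congr rfl
  intro m _
  have : z ^ m = z * z ^ (m - 1) := by
    rw [← zpow_one_add₀ hz]; congr 1; ring
  rw [this]; ring

lemma sum_shift_down {A : Type*} [Field A] {z : A} (hz : z ≠ 0) (f : ℤ → A) {b : ℕ}
    (hf : ∀ m : ℤ, b < m.natAbs → f m = 0) :
    ∑ m ∈ sI (b + 1), f (m + 1) * z ^ m = z⁻¹ * ∑ m ∈ sI b, f m * z ^ m := by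
  have h := sum_shift (h := fun j => f j * z ^ j) (a := 1) (b := b)
      (fun m hm => by simp [hf m hm]) (m1 := -1) (by simp)
  rw [← h, Finset.mul_sum, add_comm b 1]
  apply Finset.sum_congr rfl
  intro m _
  have : z ^ m = z⁻¹ * z ^ (m - -1) := by
    rw [← zpow_neg_one, ← zpow_add₀ hz]; congr 1; ring
  rw [this]; simp only [sub_neg_eq_add]; ring

lemma sum_extend {A : Type*} [AddCommMonoid A] {h : ℤ → A} {b c : ℕ} (hbc : b ≤ c)
    (hh : ∀ m : ℤ, b < m.natAbs → h m = 0) : ∑ m ∈ sI c, h m = ∑ m ∈ sI b, h m := by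
  symm
  apply Finset.sum_subset
  · intro m hm; rw [mem_sI] at hm ⊢; omega
  · intro m _ hm
    apply hh; rw [mem_sI] at hm; omega

/-- symmetric packing weights -/
def Fw (n u m : ℕ) : ℕ := if m = 0 then u ^ n else u ^ (n + m) + u ^ (n - m)

lemma sum_Fw {A : Type*} [Field A] {u : ℕ} (hu : (u : A) ≠ 0) (g : ℕ → A) (n : ℕ) :
    (u : A) ^ n * ∑ m ∈ sI n, g m.natAbs * (u : A) ^ m =
      ∑ m ∈ range (n + 1), g m * (Fw n u m : A) := by
  rw [sum_sI_sym, Finset.sum_range_succ']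
  simp only [Int.natAbs_zero, zpow_zero, mul_one, Fw]
  rw [mul_add, Finset.mul_sum, add_comm]
  congr 1
  · apply Finset.sum_congr rfl
    intro m hm
    rw [Finset.mem_range] at hm
    have e1 : ((m : ℤ) + 1).natAbs = m + 1 := by omega
    have e2 : (-((m : ℤ) + 1)).natAbs = m + 1 := by omega
    rw [e1, e2]
    simp only [Nat.add_eq_zero_iff, one_ne_zero, and_false, if_false]
    push_cast
    have h1 : (u : A) ^ ((m : ℤ) + 1) = (u : A) ^ (m + 1) := by
      rw [← zpow_natCast]; push_cast; rfl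
    have h2 : (u : A) ^ n * (u : A) ^ (-((m : ℤ) + 1)) = (u : A) ^ (n - (m + 1)) := by
      rw [← zpow_natCast, ← zpow_natCast, ← zpow_add₀ hu]
      congr 1
      push_cast [Nat.cast_sub (show m + 1 ≤ n from hm)]
      ring
    rw [h1, mul_add, ← mul_assoc, mul_comm ((u:A)^n) (g (m+1)), mul_assoc, ← pow_add,
      mul_left_comm ((u:A)^n) (g (m+1)), h2]
    ring
  · simp; ring

lemma sum_Gw {A : Type*} [Field A] {u : ℕ} (hu : (u : A) ≠ 0) (g : ℕ → A) (n : ℕ) :
    (u : A) ^ n * ∑ m ∈ sI n, (m : A) * g m.natAbs * (u : A) ^ m =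
      ∑ m ∈ range (n + 1), (m : A) * g m * ((u : A) ^ (n + m) - (u : A) ^ (n - m)) := by
  rw [sum_sI_sym, Finset.sum_range_succ']
  simp only [Int.cast_zero, zero_mul, Nat.cast_zero, add_zero, zero_add]
  rw [Finset.mul_sum]
  apply Finset.sum_congr rfl
  intro m hm
  rw [Finset.mem_range] at hm
  have e1 : ((m : ℤ) + 1).natAbs = m + 1 := by omega
  have e2 : (-((m : ℤ) + 1)).natAbs = m + 1 := by omega
  rw [e1, e2]
  have h1 : (u : A) ^ ((m : ℤ) + 1) = (u : A) ^ (m + 1) := by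
    rw [← zpow_natCast]; push_cast; rfl
  have h2 : (u : A) ^ n * (u : A) ^ (-((m : ℤ) + 1)) = (u : A) ^ (n - (m + 1)) := by
    rw [← zpow_natCast, ← zpow_natCast, ← zpow_add₀ hu]
    congr 1
    push_cast [Nat.cast_sub (show m + 1 ≤ n from hm)]
    ring
  rw [h1]
  push_cast
  rw [mul_add]
  have h3 : (u : A) ^ n * (-(↑m + 1) * g (m + 1) * (u : A) ^ (-((m : ℤ) + 1))) =
      -(↑m + 1) * g (m + 1) * (u : A) ^ (n - (m + 1)) := by
    rw [← h2]; ring
  rw [h3]
  ring

/-- uniqueness of small signed digits -/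
lemma digits_zero {B : ℤ} (hB : 0 < B) : ∀ (n : ℕ) (F : ℕ → ℤ), (∀ i < n, |F i| < B) →
    ∑ i ∈ range n, F i * B ^ i = 0 → ∀ i < n, F i = 0 := by
  intro n
  induction n with
  | zero => intro F _ _ i hi; omega
  | succ n ih =>
    intro F hF hsum
    rw [Finset.sum_range_succ'] at hsum
    simp only [pow_zero, mul_one] at hsum
    have h1 : ∑ i ∈ range n, F (i + 1) * B ^ (i + 1) = B * ∑ i ∈ range n, F (i + 1) * B ^ i := by
      rw [Finset.mul_sum]; apply Finset.sum_congr rfl; intro i _; ring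
    rw [h1] at hsum
    have hdvd : B ∣ F 0 := ⟨-∑ i ∈ range n, F (i + 1) * B ^ i, by linarith⟩
    have h0 : F 0 = 0 := by
      by_contra hne
      have := Int.le_of_dvd (abs_pos.mpr hne) ((dvd_abs _ _).mpr hdvd)
      linarith [hF 0 (by omega)]
    rw [h0, add_zero] at hsum
    have h2 : ∑ i ∈ range n, F (i + 1) * B ^ i = 0 := by
      rcases mul_eq_zero.mp hsum with h | h
      · omega
      · exact h
    have h3 := ih (fun i => F (i + 1)) (fun i hi => hF (i + 1) (by omega)) h2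
    intro i hi
    rcases i with _ | i
    · exact h0
    · exact h3 i (by omega)

end NLSq
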