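import Pool.Agent.H75.NLSWeight
import Pool.Agent.H75.NLSExist

/-!
Assembly: from the non-existence of a normalised solution on `[0,3]` to the final theorem on the
original equation.
-/

open scoped Topology
open Set Filter Complex MeasureTheory

noncomputable section

namespace NLSq

/-! ### the maximal solution -/

/-- the maximal solution and its blow-up -/
theorem maximal {B : W →L[ℂ] W →L[ℂ] W} (hB : ∀ x y, ‖B x y‖ ≤ ‖x‖ * ‖y‖) {w0 : W} {L : ℝ}
    (hno : ¬ ∃ u : ℝ → W, IsSol B 1 one 0 L u ∧ u 0 = w0) :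
    ∃ S : ℝ, 0 < S ∧ S ≤ L ∧ ∃ U : ℝ → W, U 0 = w0 ∧ (∀ b ∈ Ico 0 S, IsSol B 1 one 0 b U) ∧
      (∀ s ∈ Ico 0 S, s + 1 / (16 * max ‖U s‖ 1) < S) ∧
      (∀ (b : ℝ) (u : ℝ → W), IsSol B 1 one 0 b u → u 0 = w0 → b < S) := by
  classical
  set P : ℝ → Prop := fun b => ∃ u : ℝ → W, IsSol B 1 one 0 b u ∧ u 0 = w0 with hP
  have hmono : ∀ b b', b' ≤ b → P b → P b' := by
    rintro b b' hbb ⟨u, hu, hu0⟩
    exact ⟨u, hu.mono contOn_one le_rfl hbb, hu0⟩
  have hP0 : P 0 := ⟨fun _ => w0, isSol_point 0 _, rfl⟩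
  have hext : ∀ b, 0 ≤ b → ∀ u : ℝ → W, IsSol B 1 one 0 b u → u 0 = w0 →
      P (b + 1 / (16 * max ‖u b‖ 1)) := by
    intro b hb u hu hu0
    set M := max ‖u b‖ 1 with hM
    have hMpos : 0 < M := lt_of_lt_of_le one_pos (le_max_right _ _)
    set δ := 1 / (16 * M) with hδdef
    have hδ : 0 < δ := by positivity
    have hδM : 16 * δ * M ≤ 1 := by rw [hδdef]; field_simp; norm_num
    obtain ⟨v, hv0, hv⟩ := local_dir hB (d := 1) (Or.inl rfl) hMpos hδ hδM (u b) (le_max_left _ _)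
    have hv' := hv.translate (-b)
    rw [zero_sub, neg_neg, sub_neg_eq_add, add_comm δ b] at hv'
    obtain ⟨u', hu', h1, -⟩ := glue_at hb (by linarith) hu hv' (by simp [hv0])
    exact ⟨u', hu', by rw [h1 0 ⟨le_refl 0, hb⟩, hu0]⟩
  have hbdd : BddAbove {b | P b} := by
    refine ⟨L, fun b hb => ?_⟩
    by_contra hc
    exact hno (hmono b L (not_le.mp hc).le hb)
  set S := sSup {b | P b} with hS
  have hpos : 0 < S := by
    obtain ⟨u, hu, hu0⟩ := hP0
    have h1 := hext 0 le_rfl u hu hu0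
    have h2 : 0 + 1 / (16 * max ‖u 0‖ 1) ≤ S := le_csSup hbdd h1
    have hMpos : 0 < max ‖u 0‖ 1 := lt_of_lt_of_le one_pos (le_max_right _ _)
    have h3 : 0 < 1 / (16 * max ‖u 0‖ 1) := by positivity
    linarith
  have hltS : ∀ b, P b → b < S := by
    intro b hb
    rcases lt_or_ge b 0 with h | h
    · linarith
    · obtain ⟨u, hu, hu0⟩ := hb
      have h1 := hext b h u hu hu0
      have h2 : b + 1 / (16 * max ‖u b‖ 1) ≤ S := le_csSup hbdd h1
      have hMpos : 0 < max ‖u b‖ 1 := lt_of_lt_of_le one_pos (le_max_right _ _)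
      have h3 : 0 < 1 / (16 * max ‖u b‖ 1) := by positivity
      linarith
  have hPlt : ∀ b, b < S → P b := by
    intro b hb
    obtain ⟨b', hb', hlt⟩ := exists_lt_of_lt_csSup ⟨0, hP0⟩ hb
    exact hmono b' b hlt.le hb'
  have hSL : S ≤ L := by
    apply csSup_le ⟨0, hP0⟩
    intro b hb
    by_contra hc
    exact hno (hmono b L (not_le.mp hc).le hb)
  choose! sol hsol hsol0 using hPlt
  refine ⟨S, hpos, hSL, fun s => sol s s, hsol0 0 hpos, ?_, ?_, ?_⟩
  · intro b hb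
    apply (hsol b hb.2).congr
    intro s hs
    have hsS : s < S := lt_of_le_of_lt hs.2 hb.2
    exact (hsol s hsS).unique hB norm_one_dir im_one_dir
      ((hsol b hb.2).mono contOn_one le_rfl hs.2) (by rw [hsol0 s hsS, hsol0 b hb.2])
      ⟨hs.1, le_rfl⟩
  · intro s hs
    exact hltS _ (hext s hs.1 (sol s) (hsol s hs.2) (hsol0 s hs.2))
  · intro b u hu hu0
    exact hltS b ⟨u, hu, hu0⟩

/-! ### derivatives -/

lemma IsSol.hasDeriv {B : W →L[ℂ] W →L[ℂ] W} {d : ℂ} {b : ℝ} {u : ℝ → W}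
    (hu : IsSol B d one 0 b u) {s : ℝ} (hs : s ∈ Icc 0 b) (k : ℤ) :
    HasDerivWithinAt (fun r => u r k) (rhs B d (u s) k) (Icc 0 b) s := by
  have hb : (0:ℝ) ≤ b := hs.1.trans hs.2
  set g : ℝ → ℂ := fun r => rhs B d (u r) k with hg
  have cg : ContinuousOn g (Icc 0 b) := contOn_rhs hu.cont k
  have cext : Continuous (IccExtend hb (fun x : Icc 0 b => g x)) :=
    (continuousOn_iff_continuous_domRestrict.mp cg).Icc_extend'
  have hext : ∀ x ∈ Icc 0 b, IccExtend hb (fun x : Icc 0 b => g x) x = g x := by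
    intro x hx
    rw [IccExtend_of_mem hb _ hx]
  have h1 : HasDerivAt (fun s => u 0 k + ∫ r in (0:ℝ)..s, IccExtend hb (fun x : Icc 0 b => g x) r)
      (IccExtend hb (fun x : Icc 0 b => g x) s) s :=
    (cext.integral_hasStrictDerivAt 0 s).hasDerivAt.const_add _
  rw [hext s hs] at h1
  apply h1.hasDerivWithinAt.congr_of_mem _ hs
  intro x hx
  rw [hu.eq x hx k]
  congr 1
  apply intervalIntegral.integral_congr
  intro r hr
  rw [uIcc_of_le hx.1] at hr
  simp only [one, ofReal_one, one_mul]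
  rw [hext r ⟨hr.1, hr.2.trans hx.2⟩]

/-! ### weights -/

lemma wgt_ne {ν : ℝ} (hν : 1 ≤ ν) (k : ℤ) : wgt ν k ≠ 0 := (wgt_pos hν k).ne'

/-- the convolution of the unweighted sequence -/
lemma tsum_unweight {ν : ℝ} (hν : 1 ≤ ν) (c : ℂ) (x : W) (k : ℤ) :
    ∑' j, (c * ((wgt ν j)⁻¹ : ℝ) * x j) * (c * ((wgt ν (k - j))⁻¹ : ℝ) * x (k - j)) =
      c ^ 2 * ((wgt ν k)⁻¹ : ℝ) * Bnu ν hν x x k := by
  rw [Bnu, conv_apply, ← tsum_mul_left]
  congr 1
  ext1 j
  have h1 : ((wgt ν k : ℝ) : ℂ) ≠ 0 := by exact_mod_cast wgt_ne hν k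
  have h2 : ((wgt ν j : ℝ) : ℂ) ≠ 0 := by exact_mod_cast wgt_ne hν j
  have h3 : ((wgt ν (k - j) : ℝ) : ℂ) ≠ 0 := by exact_mod_cast wgt_ne hν (k - j)
  unfold ckn
  push_cast
  field_simp

lemma norm_wgt_inv {ν : ℝ} (hν : 1 ≤ ν) (k : ℤ) : ‖(((wgt ν k)⁻¹ : ℝ) : ℂ)‖ ≤ 1 := by
  rw [Complex.norm_real, Real.norm_of_nonneg (inv_nonneg.mpr (wgt_pos hν k).le)]
  exact inv_le_one_of_one_le₀ (one_le_wgt hν k)

/-- removing the weight is a bounded operator -/
def unw (ν : ℝ) (hν : 1 ≤ ν) : W →L[ℂ] W :=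
  shiftL (fun k => (((wgt ν k)⁻¹ : ℝ) : ℂ)) (norm_wgt_inv hν) 0

lemma unw_apply {ν : ℝ} (hν : 1 ≤ ν) (x : W) (k : ℤ) :
    unw ν hν x k = ((wgt ν k)⁻¹ : ℝ) * x k := by
  simp [unw]

lemma isSol_unw {ν : ℝ} (hν : 1 ≤ ν) {d : ℂ} {a b : ℝ} {u : ℝ → W}
    (hu : IsSol (Bnu ν hν) d one a b u) : IsSol B1 d one a b (fun s => unw ν hν (u s)) where
  cont := (unw ν hν).continuous.comp_continuousOn hu.cont
  eq := fun s hs k => by
    rw [unw_apply, unw_apply, hu.eq s hs k, mul_add, ← intervalIntegral.integral_const_mul]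
    congr 1
    apply intervalIntegral.integral_congr
    intro r _
    simp only [rhs, one, ofReal_one, one_mul]
    have h := tsum_unweight hν 1 (u r) k
    have h2 : B1 (unw ν hν (u r)) (unw ν hν (u r)) k =
        ((wgt ν k)⁻¹ : ℝ) * Bnu ν hν (u r) (u r) k := by
      rw [B1_apply]
      simp only [one_mul, one_pow] at h
      rw [← h]
      congr 1
      ext1 j
      rw [unw_apply, unw_apply]
    rw [h2, unw_apply]
    ring

/-! ### the conversion constant -/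

/-- `4 π²` -/
def cpi : ℝ := 4 * Real.pi ^ 2

lemma cpi_pos : 0 < cpi := by unfold cpi; positivity

/-- from the normalised to the original equation -/
def toOrig (ν : ℝ) (U : ℝ → W) (t : ℝ) (k : ℤ) : ℂ :=
  (cpi : ℂ) * ((wgt ν k)⁻¹ : ℝ) * U (cpi * t) k

lemma norm_toOrig_sub {ν : ℝ} (hν : 1 ≤ ν) (U : ℝ → W) (s t : ℝ) (k : ℤ) :
    ‖toOrig ν U s k - toOrig ν U t k‖ * ν ^ k.natAbs = cpi * ‖(U (cpi * s) - U (cpi * t)) k‖ := by
  have h1 : toOrig ν U s k - toOrig ν U t k =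
      (cpi : ℂ) * ((wgt ν k)⁻¹ : ℝ) * (U (cpi * s) - U (cpi * t)) k := by
    simp only [toOrig, lp.coeFn_sub, Pi.sub_apply]; ring
  rw [h1, norm_mul, norm_mul, Complex.norm_real, Complex.norm_real,
    Real.norm_of_nonneg cpi_pos.le, Real.norm_of_nonneg (inv_nonneg.mpr (wgt_pos hν k).le)]
  change cpi * (wgt ν k)⁻¹ * _ * wgt ν k = _
  have := wgt_ne hν k
  field_simp

lemma norm_toOrig {ν : ℝ} (hν : 1 ≤ ν) (U : ℝ → W) (t : ℝ) (k : ℤ) :
    ‖toOrig ν U t k‖ * ν ^ k.natAbs = cpi * ‖U (cpi * t) k‖ := by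
  rw [toOrig, norm_mul, norm_mul, Complex.norm_real, Complex.norm_real,
    Real.norm_of_nonneg cpi_pos.le, Real.norm_of_nonneg (inv_nonneg.mpr (wgt_pos hν k).le)]
  change cpi * (wgt ν k)⁻¹ * _ * wgt ν k = _
  have := wgt_ne hν k
  field_simp

lemma tsum_toOrig {ν : ℝ} (hν : 1 ≤ ν) (U : ℝ → W) (t : ℝ) :
    ∑' k, ‖toOrig ν U t k‖ * ν ^ k.natAbs = cpi * ‖U (cpi * t)‖ := by
  simp only [norm_toOrig hν, tsum_mul_left, norm_eq]

lemma solves_toOrig {ν : ℝ} (hν : 1 ≤ ν) {S : ℝ} {U : ℝ → W}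
    (hU : ∀ b ∈ Ico 0 S, IsSol (Bnu ν hν) 1 one 0 b U) :
    QuadNLS.Solves ν (Ico 0 (S / cpi)) (toOrig ν U) := by
  have hc := cpi_pos
  have hmem : ∀ t ∈ Ico 0 (S / cpi), cpi * t ∈ Ico 0 S := by
    intro t ht
    refine ⟨mul_nonneg hc.le ht.1, ?_⟩
    have := ht.2
    rw [lt_div_iff₀ hc] at this
    linarith
  -- neighbourhoods
  have hnb : ∀ t ∈ Ico 0 S, ∃ b ∈ Ico 0 S, t ∈ Icc 0 b ∧ Icc 0 b ∈ 𝓝[Ico 0 S] t := by
    intro t ht
    refine ⟨(t + S) / 2, ⟨by linarith [ht.1, ht.2], by linarith [ht.2]⟩,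
      ⟨ht.1, by linarith [ht.2]⟩, ?_⟩
    have h1 : Iio ((t + S) / 2) ∈ 𝓝 t := Iio_mem_nhds (by linarith [ht.2])
    filter_upwards [mem_nhdsWithin_of_mem_nhds h1, self_mem_nhdsWithin] with x hx hx2
    exact ⟨hx2.1, le_of_lt hx⟩
  have hmap : ∀ t, Tendsto (fun s => cpi * s) (𝓝[Ico 0 (S / cpi)] t) (𝓝[Ico 0 S] (cpi * t)) := by
    intro t
    apply tendsto_nhdsWithin_of_tendsto_nhds_of_eventually_within
    · exact ((continuous_const.mul continuous_id).tendsto t).mono_left nhdsWithin_le_nhds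
    · filter_upwards [self_mem_nhdsWithin] with x hx
      exact hmem x hx
  refine ⟨?_, ?_, ?_⟩
  · intro t _
    simp only [norm_toOrig hν]
    exact (summable_norm _).mul_left _
  · intro t ht
    have h1 : ∀ s, ∑' k : ℤ, ‖toOrig ν U s k - toOrig ν U t k‖ * ν ^ k.natAbs =
        cpi * ‖U (cpi * s) - U (cpi * t)‖ := by
      intro s
      simp only [norm_toOrig_sub hν, tsum_mul_left, norm_eq]
    simp only [h1]
    obtain ⟨b, hb, htb, hnhd⟩ := hnb _ (hmem t ht)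
    have h2 : ContinuousWithinAt U (Icc 0 b) (cpi * t) := (hU b hb).cont _ htb
    have h3 : Tendsto U (𝓝[Ico 0 S] (cpi * t)) (𝓝 (U (cpi * t))) := by
      apply Tendsto.mono_left h2
      rw [nhdsWithin_le_iff]
      exact hnhd
    have h4 := (h3.comp (hmap t))
    have h5 : Tendsto (fun s => cpi * ‖U (cpi * s) - U (cpi * t)‖) (𝓝[Ico 0 (S / cpi)] t)
        (𝓝 (cpi * ‖U (cpi * t) - U (cpi * t)‖)) :=
      Tendsto.const_mul _ (Tendsto.norm (h4.sub_const _))
    simpa using h5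
  · intro t ht k
    obtain ⟨b, hb, htb, hnhd⟩ := hnb _ (hmem t ht)
    have h1 := (hU b hb).hasDeriv htb k
    have h2 : HasDerivWithinAt (fun r => U r k) (rhs (Bnu ν hν) 1 (U (cpi * t)) k) (Ico 0 S)
        (cpi * t) := by
      apply h1.mono_of_mem_nhdsWithin hnhd
    have h3 : HasDerivWithinAt (fun s : ℝ => cpi * s) cpi (Ico 0 (S / cpi)) t := by
      have := (hasDerivAt_id t).const_mul cpi
      simp only [mul_one] at this
      exact this.hasDerivWithinAt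
    have h4 := h2.scomp t h3 (fun x hx => hmem x hx)
    have h5 := h4.const_mul ((cpi : ℂ) * ((wgt ν k)⁻¹ : ℝ))
    have h6 : (cpi : ℂ) * ((wgt ν k)⁻¹ : ℝ) * (cpi • rhs (Bnu ν hν) 1 (U (cpi * t)) k) =
        I * (-(2 * Real.pi * k) ^ 2 * toOrig ν U t k +
          ∑' j : ℤ, toOrig ν U t j * toOrig ν U t (k - j)) := by
      have h7 : ∑' j : ℤ, toOrig ν U t j * toOrig ν U t (k - j) =
          (cpi : ℂ) ^ 2 * ((wgt ν k)⁻¹ : ℝ) * Bnu ν hν (U (cpi * t)) (U (cpi * t)) k := by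
        rw [← tsum_unweight hν (cpi : ℂ)]
        rfl
      rw [h7, rhs, toOrig, Complex.real_smul]
      have h8 : (cpi : ℂ) = 4 * (Real.pi : ℂ) ^ 2 := by unfold cpi; push_cast; ring
      rw [h8]
      ring
    rw [← h6]
    exact h5

/-! ### from the original to the normalised equation -/

open Classical in
/-- build an element of `W`, junk value `0` -/
def mkW' (f : ℤ → ℂ) : W := if h : Summable fun k => ‖f k‖ then mkW f h else 0

lemma mkW'_apply {f : ℤ → ℂ} (hf : Summable fun k => ‖f k‖) (k : ℤ) : mkW' f k = f k := by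
  rw [mkW', dif_pos hf, mkW_apply]

/-- from the original to the normalised equation -/
def fromOrig (ν : ℝ) (v : ℝ → ℤ → ℂ) (s : ℝ) : W :=
  mkW' fun k => (cpi⁻¹ : ℝ) * (wgt ν k : ℝ) * v (s / cpi) k

lemma isSol_fromOrig {ν : ℝ} (hν : 1 ≤ ν) {T : ℝ} {v : ℝ → ℤ → ℂ}
    (hv : QuadNLS.Solves ν (Icc 0 T) v) :
    IsSol (Bnu ν hν) 1 one 0 (cpi * T) (fromOrig ν v) := by
  have hc := cpi_pos
  have hmem : ∀ s ∈ Icc 0 (cpi * T), s / cpi ∈ Icc 0 T := by
    intro s hs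
    refine ⟨div_nonneg hs.1 hc.le, ?_⟩
    rw [div_le_iff₀ hc]
    linarith [hs.2]
  have hnorm : ∀ s k, ‖(cpi⁻¹ : ℝ) * (wgt ν k : ℝ) * v (s / cpi) k‖ =
      cpi⁻¹ * (‖v (s / cpi) k‖ * ν ^ k.natAbs) := by
    intro s k
    rw [norm_mul, norm_mul, Complex.norm_real, Complex.norm_real,
      Real.norm_of_nonneg (inv_nonneg.mpr hc.le), Real.norm_of_nonneg (wgt_pos hν k).le, wgt]
    ring
  have hsum : ∀ s ∈ Icc 0 (cpi * T),
      Summable fun k : ℤ => ‖(cpi⁻¹ : ℝ) * (wgt ν k : ℝ) * v (s / cpi) k‖ := by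
    intro s hs
    simp only [hnorm]
    exact (hv.summable _ (hmem s hs)).mul_left _
  have hap : ∀ s ∈ Icc 0 (cpi * T), ∀ k,
      fromOrig ν v s k = (cpi⁻¹ : ℝ) * (wgt ν k : ℝ) * v (s / cpi) k :=
    fun s hs k => mkW'_apply (hsum s hs) k
  have hmap : ∀ s, Tendsto (fun r => r / cpi) (𝓝[Icc 0 (cpi * T)] s) (𝓝[Icc 0 T] (s / cpi)) := by
    intro s
    apply tendsto_nhdsWithin_of_tendsto_nhds_of_eventually_within
    · exact ((continuous_id.div_const cpi).tendsto s).mono_left nhdsWithin_le_nhds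
    · filter_upwards [self_mem_nhdsWithin] with x hx
      exact hmem x hx
  have hcont : ContinuousOn (fromOrig ν v) (Icc 0 (cpi * T)) := by
    intro s hs
    rw [ContinuousWithinAt, tendsto_iff_norm_sub_tendsto_zero]
    have h1 := ((hv.continuous _ (hmem s hs)).comp (hmap s)).const_mul cpi⁻¹
    rw [mul_zero] at h1
    apply h1.congr'
    filter_upwards [self_mem_nhdsWithin] with r hr
    rw [norm_eq]
    simp only [Function.comp]
    rw [← tsum_mul_left]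
    congr 1
    ext1 k
    rw [lp.coeFn_sub, Pi.sub_apply, hap r hr, hap s hs, ← mul_sub, norm_mul, norm_mul,
      Complex.norm_real, Complex.norm_real, Real.norm_of_nonneg (inv_nonneg.mpr hc.le),
      Real.norm_of_nonneg (wgt_pos hν k).le, wgt]
    ring
  have hto : ∀ s ∈ Icc 0 (cpi * T), ∀ k, v (s / cpi) k =
      (cpi : ℂ) * ((wgt ν k)⁻¹ : ℝ) * fromOrig ν v s k := by
    intro s hs k
    rw [hap s hs k]
    have h1 : ((wgt ν k : ℝ) : ℂ) ≠ 0 := by exact_mod_cast wgt_ne hν k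
    have h2 : (cpi : ℂ) ≠ 0 := by exact_mod_cast hc.ne'
    push_cast
    field_simp
  refine ⟨hcont, ?_⟩
  intro s hs k
  have hderiv : ∀ r ∈ Icc 0 (cpi * T), HasDerivWithinAt (fun r => fromOrig ν v r k)
      (rhs (Bnu ν hν) 1 (fromOrig ν v r) k) (Icc 0 (cpi * T)) r := by
    intro r hr
    have h1 := hv.eq _ (hmem r hr) k
    have h3 : HasDerivWithinAt (fun s : ℝ => s / cpi) (1 / cpi) (Icc 0 (cpi * T)) r :=
      ((hasDerivAt_id r).div_const cpi).hasDerivWithinAt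
    have h4 := h1.scomp r h3 (fun x hx => hmem x hx)
    have h5 := h4.const_mul (((cpi⁻¹ : ℝ) : ℂ) * ((wgt ν k : ℝ) : ℂ))
    have h6 : ((cpi⁻¹ : ℝ) : ℂ) * ((wgt ν k : ℝ) : ℂ) * ((1 / cpi) •
        (I * (-(2 * Real.pi * k) ^ 2 * v (r / cpi) k +
          ∑' j : ℤ, v (r / cpi) j * v (r / cpi) (k - j)))) =
        rhs (Bnu ν hν) 1 (fromOrig ν v r) k := by
      have h7 : ∑' j : ℤ, v (r / cpi) j * v (r / cpi) (k - j) =
          (cpi : ℂ) ^ 2 * ((wgt ν k)⁻¹ : ℝ) *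
            Bnu ν hν (fromOrig ν v r) (fromOrig ν v r) k := by
        rw [← tsum_unweight hν (cpi : ℂ)]
        congr 1
        ext1 j
        rw [hto r hr j, hto r hr (k - j)]
      rw [h7, hto r hr k, rhs, Complex.real_smul]
      have h8 : (cpi : ℂ) = 4 * (Real.pi : ℂ) ^ 2 := by unfold cpi; push_cast; ring
      have h9 : (cpi : ℂ) ≠ 0 := by exact_mod_cast hc.ne'
      have h10 : ((wgt ν k : ℝ) : ℂ) ≠ 0 := by exact_mod_cast wgt_ne hν k
      have h11 : (2 * (Real.pi : ℂ) * k) ^ 2 = (cpi : ℂ) * (k : ℂ) ^ 2 := by rw [h8]; ring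
      rw [h11]
      push_cast
      field_simp
    rw [← h6]
    apply h5.congr_of_mem _ hr
    intro x hx
    exact hap x hx k
  have hcr : ContinuousOn (fun r => rhs (Bnu ν hν) 1 (fromOrig ν v r) k) (Icc 0 (cpi * T)) :=
    contOn_rhs hcont k
  have hftc := intervalIntegral.integral_eq_sub_of_hasDerivAt_of_le hs.1
    ((contOn_coord hcont k).mono (Icc_subset_Icc_right hs.2))
    (f' := fun r => rhs (Bnu ν hν) 1 (fromOrig ν v r) k)
    (fun x hx => (hderiv x ⟨hx.1.le, hx.2.le.trans hs.2⟩).hasDerivAt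
      (Icc_mem_nhds hx.1 (hx.2.trans_le hs.2)))
    ((hcr.mono (by rw [uIcc_of_le hs.1]; exact Icc_subset_Icc_right hs.2)).intervalIntegrable)
  simp only [one, ofReal_one, one_mul]
  rw [hftc]
  ring

/-! ### real-valued functions -/

lemma real_valued {f : ℤ → ℂ} (hf : ∀ k, f (-k) = (starRingEnd ℂ) (f k)) (x : ℝ) :
    (∑' k : ℤ, f k * exp (2 * Real.pi * I * k * x)).im = 0 := by
  rw [← Complex.conj_eq_iff_im, Complex.conj_tsum, ← (Equiv.neg ℤ).tsum_eq]
  congr 1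
  ext1 k
  simp only [Equiv.neg_apply, map_mul, hf, Complex.conj_conj]
  congr 1
  rw [← Complex.exp_conj]
  congr 1
  simp only [map_mul, Complex.conj_ofReal, Complex.conj_I, map_ofNat, map_intCast]
  push_cast
  ring

/-! ### the final theorem -/

theorem final_of_core
    (hcore : ∃ ν : ℝ, 1 < ν ∧ ∃ x0 : W, (∀ k, x0 (-k) = (starRingEnd ℂ) (x0 k)) ∧
      (Summable fun k : ℤ => ‖x0 k‖ * ν ^ k.natAbs) ∧
      ¬ ∃ u : ℝ → W, IsSol B1 1 one 0 3 u ∧ u 0 = x0) :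
    ∃ ν : ℝ, 1 < ν ∧ ∃ u0 : ℤ → ℂ,
      (∀ x : ℝ, (∑' k : ℤ, u0 k * exp (2 * Real.pi * I * k * x)).im = 0) ∧
      (Summable fun k : ℤ => ‖u0 k‖ * ν ^ k.natAbs) ∧
      ∀ ν' ∈ Icc 1 ν, ∃ T : ℝ, 0 < T ∧
        (∃ u : ℝ → ℤ → ℂ, u 0 = u0 ∧ QuadNLS.Solves ν' (Ico 0 T) u ∧
          Tendsto (fun t => ∑' k : ℤ, ‖u t k‖ * ν' ^ k.natAbs) (𝓝[<] T) atTop) ∧
        ∀ (T' : ℝ) (v : ℝ → ℤ → ℂ), v 0 = u0 → QuadNLS.Solves ν' (Icc 0 T') v → T' < T := by
  obtain ⟨ν, hν1, x0, hreal, hsum, hno⟩ := hcore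
  have hc := cpi_pos
  refine ⟨ν, hν1, fun k => (cpi : ℂ) * x0 k, ?_, ?_, ?_⟩
  · apply real_valued
    intro k
    rw [hreal, map_mul, Complex.conj_ofReal]
  · have : ∀ k : ℤ, ‖(cpi : ℂ) * x0 k‖ * ν ^ k.natAbs = cpi * (‖x0 k‖ * ν ^ k.natAbs) := by
      intro k
      rw [norm_mul, Complex.norm_real, Real.norm_of_nonneg hc.le, mul_assoc]
    simp only [this]
    exact hsum.mul_left _
  · intro ν' hν'
    have hsum' : Summable fun k : ℤ => ‖((wgt ν' k : ℝ) : ℂ) * x0 k‖ := by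
      apply Summable.of_nonneg_of_le (fun _ => norm_nonneg _) _ hsum
      intro k
      rw [norm_mul, Complex.norm_real, Real.norm_of_nonneg (wgt_pos hν'.1 k).le, mul_comm]
      apply mul_le_mul_of_nonneg_left _ (norm_nonneg _)
      exact pow_le_pow_left₀ (by linarith [hν'.1]) hν'.2 _
    set w0 : W := mkW (fun k => ((wgt ν' k : ℝ) : ℂ) * x0 k) hsum' with hw0
    have hno' : ¬ ∃ u : ℝ → W, IsSol (Bnu ν' hν'.1) 1 one 0 3 u ∧ u 0 = w0 := by
      rintro ⟨u, hu, hu0⟩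
      apply hno
      refine ⟨fun s => unw ν' hν'.1 (u s), isSol_unw hν'.1 hu, ?_⟩
      apply W_ext
      intro k
      rw [unw_apply, hu0, hw0, mkW_apply]
      have h1 : ((wgt ν' k : ℝ) : ℂ) ≠ 0 := by exact_mod_cast wgt_ne hν'.1 k
      push_cast
      field_simp
    obtain ⟨S, hS, -, U, hU0, hU, hblow, hmax⟩ := maximal (norm_Bnu hν'.1) hno'
    have h0 : toOrig ν' U 0 = fun k => (cpi : ℂ) * x0 k := by
      ext1 k
      rw [toOrig, mul_zero, hU0, hw0, mkW_apply]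
      have h1 : ((wgt ν' k : ℝ) : ℂ) ≠ 0 := by exact_mod_cast wgt_ne hν'.1 k
      push_cast
      field_simp
    refine ⟨S / cpi, div_pos hS hc, ⟨toOrig ν' U, h0, solves_toOrig hν'.1 hU, ?_⟩, ?_⟩
    · simp only [tsum_toOrig hν'.1]
      rw [tendsto_atTop]
      intro R
      -- near the maximal time the norm is at least `R / cpi`
      set M := max (R / cpi) 1 with hM
      have hMpos : 0 < M := lt_of_lt_of_le one_pos (le_max_right _ _)
      have h1 : ∀ᶠ t in 𝓝[<] (S / cpi), t ∈ Ioo (max 0 ((S - 1 / (16 * M)) / cpi)) (S / cpi) := by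
        apply Ioo_mem_nhdsLT
        apply max_lt (div_pos hS hc)
        apply div_lt_div_of_pos_right _ hc
        have : 0 < 1 / (16 * M) := by positivity
        linarith
      filter_upwards [h1] with t ht
      have ht1 : 0 < t := (le_max_left _ _).trans_lt ht.1
      have ht2 : S - 1 / (16 * M) < cpi * t := by
        have := (le_max_right _ _).trans_lt ht.1
        rw [div_lt_iff₀ hc] at this
        linarith
      have ht3 : cpi * t < S := by
        have := ht.2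
        rw [lt_div_iff₀ hc] at this
        linarith
      have h2 := hblow (cpi * t) ⟨(mul_pos hc ht1).le, ht3⟩
      have h3 : 1 / (16 * max ‖U (cpi * t)‖ 1) < 1 / (16 * M) := by linarith
      have hN : 0 < max ‖U (cpi * t)‖ 1 := lt_of_lt_of_le one_pos (le_max_right _ _)
      have h4 : M < max ‖U (cpi * t)‖ 1 := by
        rw [one_div_lt_one_div (by positivity) (by positivity)] at h3
        linarith
      have h5 : R / cpi < ‖U (cpi * t)‖ := by
        rcases lt_max_iff.mp h4 with h | h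
        · exact (le_max_left _ _).trans_lt h
        · exact absurd h (not_lt.mpr (le_max_right _ _))
      rw [div_lt_iff₀ hc] at h5
      linarith
    · intro T' v hv0 hv
      rcases lt_or_ge T' 0 with hT | hT
      · exact hT.trans (div_pos hS hc)
      have h1 := isSol_fromOrig hν'.1 hv
      have h2 : fromOrig ν' v 0 = w0 := by
        apply W_ext
        intro k
        have hs : Summable fun k : ℤ => ‖((cpi⁻¹ : ℝ) : ℂ) * (wgt ν' k : ℝ) * v (0 / cpi) k‖ := by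
          have h3 : ∀ k : ℤ, ‖((cpi⁻¹ : ℝ) : ℂ) * (wgt ν' k : ℝ) * v (0 / cpi) k‖ =
              ‖((wgt ν' k : ℝ) : ℂ) * x0 k‖ := by
            intro k
            rw [zero_div, hv0]
            congr 1
            have h2 : (cpi : ℂ) ≠ 0 := by exact_mod_cast hc.ne'
            push_cast
            field_simp
          simp only [h3]
          exact hsum'
        rw [fromOrig, mkW'_apply hs, hw0, mkW_apply, zero_div, hv0]
        have h2 : (cpi : ℂ) ≠ 0 := by exact_mod_cast hc.ne'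
        push_cast
        field_simp
      have h3 := hmax _ _ h1 h2
      rw [lt_div_iff₀ hc]
      linarith

end NLSq
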