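import Pool.Agent.H75.NLSLocal

/-!
Existence of the local solution on a complex square, and the directional equations.
-/

open scoped Topology BoundedContinuousFunction NNReal
open Set MeasureTheory intervalIntegral Complex Metric

noncomputable section

namespace NLSq

/-- the Picard map on bounded continuous functions -/
def PicB (B : W →L[ℂ] W →L[ℂ] W) (hB : ∀ x y, ‖B x y‖ ≤ ‖x‖ * ‖y‖) (w : W) (δ : ℝ) (hδ : 0 ≤ δ)
    (V : ℂ →ᵇ W) : ℂ →ᵇ W :=
  BoundedContinuousFunction.ofNormedAddCommGroup (fun t => Pic B w V (ret δ t))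
    ((continuous_Pic V.continuous).comp (continuous_ret δ)) (‖w‖ + 2 * δ * ‖V‖ ^ 2)
    (fun t => norm_Pic_le hB (fun s => V.norm_coe_le_norm s) (abs_re_le (ret_mem hδ t))
      (abs_im_le (ret_mem hδ t)))

lemma PicB_apply (B : W →L[ℂ] W →L[ℂ] W) (hB) (w : W) (δ : ℝ) (hδ : 0 ≤ δ)
    (V : ℂ →ᵇ W) (t : ℂ) : PicB B hB w δ hδ V t = Pic B w V (ret δ t) := rfl

/-- the invariant set -/
def goodSet (R δ : ℝ) : Set (ℂ →ᵇ W) :=
  {V | ‖V‖ ≤ R ∧ ∀ k : ℤ, DifferentiableOn ℂ (fun t => V t k) (SqO δ)}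

lemma isClosed_goodSet (R δ : ℝ) : IsClosed (goodSet R δ) := by
  have : goodSet R δ = {V | ‖V‖ ≤ R} ∩ ⋂ k : ℤ, {V | DifferentiableOn ℂ (fun t => V t k) (SqO δ)} := by
    ext V; simp [goodSet]
  rw [this]
  apply IsClosed.inter (isClosed_le continuous_norm continuous_const)
  apply isClosed_iInter
  intro k
  apply isClosed_of_closure_subset
  intro V hV
  rw [mem_closure_iff_seq_limit] at hV
  obtain ⟨Vn, hVn, hlim⟩ := hV
  have hloc : TendstoLocallyUniformlyOn (fun n t => Vn n t k) (fun t => V t k) Filter.atTop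
      (SqO δ) := by
    apply TendstoUniformlyOn.tendstoLocallyUniformlyOn
    rw [Metric.tendstoUniformlyOn_iff]
    intro ε hε
    have h1 := (Metric.tendsto_atTop.mp hlim) ε hε
    obtain ⟨N, hN⟩ := h1
    filter_upwards [Filter.eventually_ge_atTop N] with n hn t _
    have h2 := hN n hn
    rw [dist_comm, dist_eq_norm]
    calc ‖Vn n t k - V t k‖ = ‖(Vn n t - V t) k‖ := by simp
      _ ≤ ‖Vn n t - V t‖ := norm_coord_le _ _
      _ = dist (Vn n t) (V t) := (dist_eq_norm _ _).symm
      _ ≤ dist (Vn n) V := BoundedContinuousFunction.dist_coe_le_dist t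
      _ < ε := h2
  exact hloc.differentiableOn (Filter.Eventually.of_forall fun n => hVn n) (isOpen_SqO δ)

/-- local solution in complex time -/
theorem exists_local {B : W →L[ℂ] W →L[ℂ] W} (hB : ∀ x y, ‖B x y‖ ≤ ‖x‖ * ‖y‖) {M : ℝ}
    (hM : 0 < M) {δ : ℝ} (hδ : 0 < δ) (hδM : 16 * δ * M ≤ 1) (w : W) (hw : ‖w‖ ≤ M) :
    ∃ V : ℂ → W, Continuous V ∧ (∀ t, ‖V t‖ ≤ 2 * M) ∧
      (∀ k : ℤ, DifferentiableOn ℂ (fun t => V t k) (SqO δ)) ∧
      ∀ t ∈ Sq δ, V t = Pic B w V t := by
  have hmaps : MapsTo (PicB B hB w δ hδ.le) (goodSet (2 * M) δ) (goodSet (2 * M) δ) := by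
    intro V hV
    refine ⟨?_, ?_⟩
    · rw [BoundedContinuousFunction.norm_le (by positivity)]
      intro t
      rw [PicB_apply]
      have h1 := norm_Pic_le (w := w) hB (fun s => (V.norm_coe_le_norm s).trans hV.1)
        (abs_re_le (ret_mem hδ.le t)) (abs_im_le (ret_mem hδ.le t))
      refine h1.trans ?_
      nlinarith
    · intro k
      have hc : Continuous V := V.continuous
      have h1 := wedge_differentiableOn (continuous_fk (B := B) hc k)
        (differentiableOn_fk (B := B) hc hV.2 k)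
      have h2 : DifferentiableOn ℂ (fun t : ℂ => exp (-(I * (k : ℂ) ^ 2 * t)) *
          (w k + I * wedgeIntegral 0 t (fk B V k))) (SqO δ) := by
        apply DifferentiableOn.mul (by fun_prop)
        exact (h1.const_mul I).const_add (w k)
      apply h2.congr
      intro t ht
      have htS : t ∈ Sq δ := by
        rw [mem_SqO] at ht; rw [mem_Sq]
        exact ⟨⟨ht.1.1.le, ht.1.2.le⟩, ht.2.1.le, ht.2.2.le⟩
      have htim : t.im ≤ 0 := (mem_Sq.mp htS).2.2
      rw [PicB_apply, ret_eq htS, Pic_coord hc htim k]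
  have hcontr : ContractingWith (1 / 2 : ℝ≥0) (hmaps.restrict _ _ _) := by
    refine ⟨by rw [div_lt_one] <;> norm_num, ?_⟩
    apply LipschitzWith.of_dist_le_mul
    rintro ⟨V, hV⟩ ⟨V', hV'⟩
    rw [Subtype.dist_eq]
    simp only [MapsTo.val_restrict_apply]
    rw [BoundedContinuousFunction.dist_le (by positivity)]
    intro t
    rw [PicB_apply, PicB_apply, dist_eq_norm]
    have h1 := norm_Pic_sub_le (w := w) hB V.continuous V'.continuous
      (fun s => (V.norm_coe_le_norm s).trans hV.1) (fun s => (V'.norm_coe_le_norm s).trans hV'.1)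
      (ε := dist V V') (fun s => by
        rw [← dist_eq_norm]; exact BoundedContinuousFunction.dist_coe_le_dist s)
      (abs_re_le (ret_mem hδ.le t)) (abs_im_le (ret_mem hδ.le t))
    refine h1.trans ?_
    rw [Subtype.dist_eq]
    have h0 : 0 ≤ dist V V' := dist_nonneg
    have h2 : 2 * δ * (2 * (2 * M) * dist V V') = (8 * δ * M) * dist V V' := by ring
    rw [h2]
    have h3 : ((1 / 2 : ℝ≥0) : ℝ) = 1 / 2 := by simp
    rw [h3]
    apply mul_le_mul_of_nonneg_right _ h0
    linarith
  have h0mem : (0 : ℂ →ᵇ W) ∈ goodSet (2 * M) δ := by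
    refine ⟨by simp; positivity, fun k => ?_⟩
    have : (fun t : ℂ => (0 : ℂ →ᵇ W) t k) = fun _ => (0 : ℂ) := by ext t; simp
    rw [this]
    exact differentiableOn_const _
  obtain ⟨V, hVs, hfix, -⟩ := hcontr.exists_fixedPoint' (isClosed_goodSet (2 * M) δ).isComplete
    hmaps h0mem (edist_ne_top _ _)
  refine ⟨V, V.continuous, fun t => (V.norm_coe_le_norm t).trans hVs.1, hVs.2, ?_⟩
  intro t ht
  have : PicB B hB w δ hδ.le V t = V t := by rw [hfix]
  rw [PicB_apply, ret_eq ht] at this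
  exact this.symm

/-- the equation along a straight path inside the square -/
lemma eq_along {B : W →L[ℂ] W →L[ℂ] W} {w : W} {V : ℂ → W} (hV : Continuous V) {δ : ℝ}
    (hk : ∀ k : ℤ, DifferentiableOn ℂ (fun t => V t k) (SqO δ))
    (heq : ∀ t ∈ Sq δ, V t = Pic B w V t) {d t1 : ℂ} (hd : d = 1 ∨ d = -I) {L : ℝ}
    (hL : ∀ s ∈ Icc 0 L, t1 + d * s ∈ Sq δ) {s : ℝ} (hs : s ∈ Icc 0 L) (k : ℤ) :
    V (t1 + d * s) k = V t1 k + ∫ r in (0:ℝ)..s, rhs B d (V (t1 + d * r)) k := by
  have h0 : (0:ℝ) ∈ Icc 0 L := ⟨le_refl 0, hs.1.trans hs.2⟩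
  have ht1 : t1 ∈ Sq δ := by have := hL 0 h0; simpa using this
  have cfk := continuous_fk (B := B) hV k
  have dfk := differentiableOn_fk (B := B) hV hk k
  set γ : ℝ → ℂ := fun r => t1 + d * r with hγ
  have cγ : Continuous γ := by fun_prop
  have dγ : ∀ r, HasDerivAt γ d r := by
    intro r
    have h := ((hasDerivAt_id r).ofReal_comp.const_mul d).const_add t1
    have h2 : HasDerivAt (fun x : ℝ => t1 + d * ((id x : ℝ) : ℂ)) (d * ((1:ℝ):ℂ)) r := h
    rw [ofReal_one, mul_one] at h2
    exact h2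
  set G : ℝ → ℂ := fun s => wedgeIntegral 0 t1 (fk B V k) + d * ∫ r in (0:ℝ)..s, fk B V k (γ r)
    with hG
  have cfγ : Continuous fun r => fk B V k (γ r) := cfk.comp cγ
  have dG : ∀ r, HasDerivAt G (d * fk B V k (γ r)) r := fun r =>
    ((cfγ.integral_hasStrictDerivAt 0 r).hasDerivAt.const_mul d).const_add _
  -- wedge integral along the path
  have hW : ∀ r ∈ Icc 0 L, wedgeIntegral 0 (γ r) (fk B V k) = G r := by
    intro r hr
    have h1 := wedge_add cfk dfk ht1 (hL r hr)
    have h2 : wedgeIntegral 0 (γ r) (fk B V k) =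
        wedgeIntegral 0 t1 (fk B V k) + wedgeIntegral t1 (γ r) (fk B V k) := by
      rw [← h1]; ring
    rw [h2, hG]
    simp only
    congr 1
    rcases hd with hd | hd
    · have e1 : (γ r).re = t1.re + r := by simp [hγ, hd]
      have e2 : (γ r).im = t1.im := by simp [hγ, hd]
      rw [wedgeIntegral, e1, e2, intervalIntegral.integral_same, smul_zero, add_zero, hd, one_mul]
      have := intervalIntegral.integral_comp_add_left (a := 0) (b := r)
        (fun x : ℝ => fk B V k (x + t1.im * I)) t1.re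
      rw [add_zero] at this
      rw [← this]
      apply integral_congr
      intro x _
      simp only [hγ, hd, one_mul]
      congr 1
      push_cast
      conv_rhs => rw [← re_add_im t1]
      ring
    · have e1 : (γ r).re = t1.re := by simp [hγ, hd]
      have e2 : (γ r).im = t1.im - r := by simp [hγ, hd]; ring
      rw [wedgeIntegral, e1, e2, intervalIntegral.integral_same, zero_add, hd, smul_eq_mul]
      have := intervalIntegral.integral_comp_sub_left (a := 0) (b := r)
        (fun y : ℝ => fk B V k (t1.re + y * I)) t1.im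
      rw [sub_zero] at this
      rw [intervalIntegral.integral_symm, ← this, mul_neg, neg_mul]
      congr 2
      apply integral_congr
      intro x _
      simp only [hγ, hd]
      congr 1
      push_cast
      conv_rhs => rw [← re_add_im t1]
      ring
  set z : ℝ → ℂ := fun r => exp (-(I * (k : ℂ) ^ 2 * γ r)) * (w k + I * G r) with hz
  have hzV : ∀ r ∈ Icc 0 L, V (γ r) k = z r := by
    intro r hr
    have hm := hL r hr
    have h1 : V (γ r) k = Pic B w V (γ r) k := by rw [← heq _ hm]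
    rw [h1, Pic_coord hV (mem_Sq.mp hm).2.2 k, hW r hr]
  have dz : ∀ r, HasDerivAt z (I * d * (-(k : ℂ) ^ 2 * z r + B (V (γ r)) (V (γ r)) k)) r := by
    intro r
    have h1 : HasDerivAt (fun r => -(I * (k : ℂ) ^ 2 * γ r)) (-(I * (k : ℂ) ^ 2 * d)) r :=
      ((dγ r).const_mul _).neg
    have h2 : HasDerivAt (fun r => w k + I * G r) (I * (d * fk B V k (γ r))) r :=
      ((dG r).const_mul I).const_add _
    refine (h1.cexp.mul h2).congr_deriv ?_
    have h3 : exp (-(I * (k : ℂ) ^ 2 * γ r)) * fk B V k (γ r) = B (V (γ r)) (V (γ r)) k := by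
      rw [fk, ← mul_assoc, ← exp_add]; simp
    rw [← h3, hz]
    ring
  have cBV : Continuous fun r => B (V (γ r)) (V (γ r)) k := by
    have := (ev k).continuous.comp ((continuous_BV (B := B) hV).comp cγ)
    exact this
  have cz : Continuous z := continuous_iff_continuousAt.mpr fun r => (dz r).continuousAt
  have hint : z s - z 0 = ∫ r in (0:ℝ)..s,
      I * d * (-(k : ℂ) ^ 2 * z r + B (V (γ r)) (V (γ r)) k) := by
    rw [integral_eq_sub_of_hasDerivAt (fun r _ => dz r)]
    apply Continuous.intervalIntegrable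
    exact continuous_const.mul ((continuous_const.mul cz).add cBV)
  have hγ0 : γ 0 = t1 := by simp [hγ]
  have e1 : V (t1 + d * s) k = z s := hzV s hs
  have e2 : V t1 k = z 0 := by rw [← hzV 0 h0, hγ0]
  rw [e1, e2, ← sub_eq_iff_eq_add', hint]
  apply integral_congr
  intro r hr
  rw [uIcc_of_le hs.1] at hr
  have hr' : r ∈ Icc 0 L := ⟨hr.1, hr.2.trans hs.2⟩
  simp only [rhs]
  rw [← hzV r hr']

end NLSq
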