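import Pool.Agent.H75.NLSSound4

/-!
Values of the approximate solutions at the ends of a step, and their comparison.
-/

open scoped Topology
open Set MeasureTheory intervalIntegral Complex

noncomputable section

namespace NLSq

namespace Cert

variable (C : Cert)

def evS (sel : ℕ × ℕ × ℕ → ℕ) (k : ℕ) : ℕ :=
  lsum (imap (fun m r => bif Nat.beq (Nat.mod m 2) 0 then Nat.mul (wt m) (dg r.1 (sel r) k)
    else 0) 0 C.rows)
def odS (sel : ℕ × ℕ × ℕ → ℕ) (k : ℕ) : ℕ :=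
  lsum (imap (fun m r => bif Nat.beq (Nat.mod m 2) 0 then 0
    else Nat.mul (wt m) (dg r.1 (sel r) k)) 0 C.rows)
def evO : ℕ := lsum (imap (fun m r => bif Nat.beq (Nat.mod m 2) 0 then Nat.mul (wt m) (off r.1)
  else 0) 0 C.rows)
def odO : ℕ := lsum (imap (fun m r => bif Nat.beq (Nat.mod m 2) 0 then 0
  else Nat.mul (wt m) (off r.1)) 0 C.rows)

/-- coefficient at the start of the step, times `2^p` -/
def stI (sel : ℕ × ℕ × ℕ → ℕ) (k : ℕ) : ℤ :=
  bif Nat.ble k C.K then ((C.evS sel k : ℤ) - (C.evO : ℤ)) + ((C.odS sel k : ℤ) - (C.odO : ℤ))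
  else 0

/-- coefficient at the end of the step, times `2^p` -/
def enI (sel : ℕ × ℕ × ℕ → ℕ) (k : ℕ) : ℤ :=
  bif Nat.ble k C.K then ((C.evS sel k : ℤ) - (C.evO : ℤ)) - ((C.odS sel k : ℤ) - (C.odO : ℤ))
  else 0

/-- comparison of the end of one step with the start of the next -/
def jmp (C C' : Cert) (q : ℕ) : Bool :=
  Nat.ble (pw q * lsum (dgl (fun k => Nat.mul (wt k) (Nat.add
    (Int.natAbs (C.enI sX k * (pw C'.p : ℤ) - C'.stI sX k * (pw C.p : ℤ)))
    (Int.natAbs (C.enI sY k * (pw C'.p : ℤ) - C'.stI sY k * (pw C.p : ℤ)))))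
    (C.K + (C'.K - C.K) + 1) 0)) (pw (C.p + C'.p))

/-- the ends of two steps are far apart -/
def far (C C' : Cert) : Bool :=
  Nat.ble (pw (C.p + C'.p))
    (2 * Int.natAbs (C.enI sX 0 * (pw C'.p : ℤ) - C'.enI sX 0 * (pw C.p : ℤ)))

lemma cf_eq {m : ℕ} (hm : m < C.rows.length) {k : ℕ} (hk : k ≤ C.K) (sel : ℕ × ℕ × ℕ → ℕ) :
    C.cf sel m k = (dg (C.rows.getD m (0, 0, 0)).1
      (sel (C.rows.getD m (0, 0, 0))) k : ℤ) - (off (C.rows.getD m (0, 0, 0)).1 : ℤ) := by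
  unfold cf; rw [if_pos ⟨hm, hk⟩]

lemma ev_sub (h : 0 < C.rows.length) (sel : ℕ × ℕ × ℕ → ℕ) {k : ℕ} (hk : k ≤ C.K) :
    (C.evS sel k : ℤ) - (C.evO : ℤ) =
      ∑ m ∈ Finset.range (C.n + 1), (if m % 2 = 0 then (wt m : ℤ) * C.cf sel m k else 0) := by
  unfold evS evO
  rw [lsum_imap, lsum_imap, C.length_eq h]
  push_cast
  rw [← Finset.sum_sub_distrib]
  apply Finset.sum_congr rfl
  intro m hm
  rw [Finset.mem_range] at hm
  rw [C.cf_eq hm hk]
  change (((bif Nat.beq (m % 2) 0 then wt m * dg (C.rows.getD m (0, 0, 0)).1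
    (sel (C.rows.getD m (0, 0, 0))) k else 0 : ℕ) : ℤ)) - ((bif Nat.beq (m % 2) 0 then
    wt m * off (C.rows.getD m (0, 0, 0)).1 else 0 : ℕ) : ℤ) = _
  by_cases h2 : m % 2 = 0
  · simp [h2]; ring
  · have : Nat.beq (m % 2) 0 = false := by
      cases hb : Nat.beq (m % 2) 0
      · rfl
      · exact absurd (Nat.eq_of_beq_eq_true hb) h2
    simp [h2, this]

lemma od_sub (h : 0 < C.rows.length) (sel : ℕ × ℕ × ℕ → ℕ) {k : ℕ} (hk : k ≤ C.K) :
    (C.odS sel k : ℤ) - (C.odO : ℤ) =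
      ∑ m ∈ Finset.range (C.n + 1), (if m % 2 = 0 then 0 else (wt m : ℤ) * C.cf sel m k) := by
  unfold odS odO
  rw [lsum_imap, lsum_imap, C.length_eq h]
  push_cast
  rw [← Finset.sum_sub_distrib]
  apply Finset.sum_congr rfl
  intro m hm
  rw [Finset.mem_range] at hm
  rw [C.cf_eq hm hk]
  change (((bif Nat.beq (m % 2) 0 then 0 else wt m * dg (C.rows.getD m (0, 0, 0)).1
    (sel (C.rows.getD m (0, 0, 0))) k : ℕ) : ℤ)) - ((bif Nat.beq (m % 2) 0 then 0 else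
    wt m * off (C.rows.getD m (0, 0, 0)).1 : ℕ) : ℤ) = _
  by_cases h2 : m % 2 = 0
  · simp [h2]
  · have : Nat.beq (m % 2) 0 = false := by
      cases hb : Nat.beq (m % 2) 0
      · rfl
      · exact absurd (Nat.eq_of_beq_eq_true hb) h2
    simp [h2, this]; ring

end Cert

lemma sum_sI_wt' {A : Type*} [CommSemiring A] (g : ℕ → A) (n : ℕ) :
    ∑ m ∈ sI n, g m.natAbs = ∑ m ∈ Finset.range (n + 1), (Cert.wt m : A) * g m := by
  rw [sum_sI_sym, Finset.sum_range_succ', add_comm]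
  congr 1
  · apply Finset.sum_congr rfl
    intro m _
    have e1 : ((m : ℤ) + 1).natAbs = m + 1 := by omega
    have e2 : (-((m : ℤ) + 1)).natAbs = m + 1 := by omega
    rw [e1, e2, Cert.wt_succ]
    push_cast
    ring
  · simp [Cert.wt_zero]

namespace Cert

variable (C : Cert)

lemma stI_eq (h : 0 < C.rows.length) (sel : ℕ × ℕ × ℕ → ℕ) (k : ℤ) :
    C.stI sel k.natAbs = ∑ m ∈ sI C.n, C.Xf sel m k := by
  unfold stI
  by_cases hk : k.natAbs ≤ C.K
  · have : Nat.ble k.natAbs C.K = true := Nat.ble_eq_true_of_le hk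
    rw [this, cond_true, C.ev_sub h sel hk, C.od_sub h sel hk, ← Finset.sum_add_distrib]
    have := sum_sI_wt' (fun m => C.cf sel m k.natAbs) C.n
    unfold Xf
    rw [this]
    apply Finset.sum_congr rfl
    intro m _
    split_ifs <;> ring
  · have : Nat.ble k.natAbs C.K = false := by
      cases hb : Nat.ble k.natAbs C.K
      · rfl
      · exact absurd (Nat.le_of_ble_eq_true hb) hk
    rw [this, cond_false]
    symm
    apply Finset.sum_eq_zero
    intro m _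
    exact C.Xf_supp2 sel m (by omega)

lemma enI_eq (h : 0 < C.rows.length) (sel : ℕ × ℕ × ℕ → ℕ) (k : ℤ) :
    C.enI sel k.natAbs = ∑ m ∈ sI C.n, (-1) ^ m.natAbs * C.Xf sel m k := by
  unfold enI
  by_cases hk : k.natAbs ≤ C.K
  · have : Nat.ble k.natAbs C.K = true := Nat.ble_eq_true_of_le hk
    rw [this, cond_true, C.ev_sub h sel hk, C.od_sub h sel hk, ← Finset.sum_sub_distrib]
    have := sum_sI_wt' (fun m => (-1) ^ m * C.cf sel m k.natAbs) C.n
    unfold Xf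
    rw [this]
    apply Finset.sum_congr rfl
    intro m _
    split_ifs with h2
    · have : Even m := Nat.even_iff.mpr h2
      rw [this.neg_one_pow]; ring
    · have : Odd m := Nat.odd_iff.mpr (by omega)
      rw [this.neg_one_pow]; ring
  · have : Nat.ble k.natAbs C.K = false := by
      cases hb : Nat.ble k.natAbs C.K
      · rfl
      · exact absurd (Nat.le_of_ble_eq_true hb) hk
    rw [this, cond_false]
    symm
    apply Finset.sum_eq_zero
    intro m _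
    rw [C.Xf_supp2 sel m (by omega), mul_zero]

lemma UcN_zero (h : 0 < C.rows.length) (ν : ℝ) (k : ℤ) : C.UcN ν 0 k =
    (wgt ν k : ℂ) * (((C.stI sX k.natAbs : ℤ) : ℂ) + I * ((C.stI sY k.natAbs : ℤ) : ℂ)) /
      2 ^ C.p := by
  unfold UcN
  rw [polyW_apply _ _ _ _ _ (fun m k hk => by
    rw [C.aC_supp2 m k (by rw [mem_sI] at hk; omega), mul_zero])]
  unfold rowp
  rw [ee_zero, C.stI_eq h, C.stI_eq h]
  push_cast
  rw [Finset.mul_sum, ← Finset.sum_add_distrib, Finset.mul_sum, Finset.sum_div]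
  apply Finset.sum_congr rfl
  intro m _
  rw [one_zpow]
  unfold aC
  ring

lemma neg_one_zpow_natAbs (m : ℤ) : (-1 : ℂ) ^ m = (-1) ^ m.natAbs := by
  rcases Int.natAbs_eq m with h | h
  · conv_lhs => rw [h]
    rw [zpow_natCast]
  · conv_lhs => rw [h]
    rw [zpow_neg, zpow_natCast, ← inv_pow]
    norm_num

lemma UcN_pi (h : 0 < C.rows.length) (ν : ℝ) (k : ℤ) : C.UcN ν Real.pi k =
    (wgt ν k : ℂ) * (((C.enI sX k.natAbs : ℤ) : ℂ) + I * ((C.enI sY k.natAbs : ℤ) : ℂ)) /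
      2 ^ C.p := by
  unfold UcN
  rw [polyW_apply _ _ _ _ _ (fun m k hk => by
    rw [C.aC_supp2 m k (by rw [mem_sI] at hk; omega), mul_zero])]
  unfold rowp
  rw [ee_pi, C.enI_eq h, C.enI_eq h]
  push_cast
  rw [Finset.mul_sum, ← Finset.sum_add_distrib, Finset.mul_sum, Finset.sum_div]
  apply Finset.sum_congr rfl
  intro m _
  rw [neg_one_zpow_natAbs]
  unfold aC
  ring

lemma stI_zero (sel : ℕ × ℕ × ℕ → ℕ) {k : ℕ} (hk : C.K < k) : C.stI sel k = 0 := by
  unfold stI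
  have : Nat.ble k C.K = false := by
    cases hb : Nat.ble k C.K
    · rfl
    · exact absurd (Nat.le_of_ble_eq_true hb) (by omega)
  rw [this, cond_false]

lemma enI_zero (sel : ℕ × ℕ × ℕ → ℕ) {k : ℕ} (hk : C.K < k) : C.enI sel k = 0 := by
  unfold enI
  have : Nat.ble k C.K = false := by
    cases hb : Nat.ble k C.K
    · rfl
    · exact absurd (Nat.le_of_ble_eq_true hb) (by omega)
  rw [this, cond_false]

lemma norm_intPair (x y : ℤ) : ‖(x : ℂ) + I * (y : ℂ)‖ ≤ ((x.natAbs + y.natAbs : ℕ) : ℝ) := by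
  refine (norm_add_le _ _).trans ?_
  rw [norm_mul, Complex.norm_I, one_mul, Complex.norm_intCast, Complex.norm_intCast]
  rw [Nat.cast_add, Nat.cast_natAbs, Nat.cast_natAbs, Int.cast_abs, Int.cast_abs]

theorem jmp_spec {C C' : Cert} (h : 0 < C.rows.length) (h' : 0 < C'.rows.length) {q : ℕ}
    (hj : C.jmp C' q = true) {ν : ℝ} (hν : 1 ≤ ν) {lam : ℕ} (hl : ν ^ (2 * C.K) ≤ lam)
    (hl' : ν ^ (2 * C'.K) ≤ lam) :
    ‖C.UcN ν Real.pi - C'.UcN ν 0‖ ≤ lam * ((2:ℝ) ^ q)⁻¹ := by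
  set Q := C.K + (C'.K - C.K) with hQ
  set g : ℕ → ℕ := fun k =>
    (Int.natAbs (C.enI sX k * (pw C'.p : ℤ) - C'.stI sX k * (pw C.p : ℤ)) +
     Int.natAbs (C.enI sY k * (pw C'.p : ℤ) - C'.stI sY k * (pw C.p : ℤ))) with hg
  have h1 : (2 ^ q * ∑ k ∈ sI Q, g k.natAbs : ℕ) ≤ 2 ^ (C.p + C'.p) := by
    have := Nat.le_of_ble_eq_true hj
    rw [lsum_dgl, ← hQ, pw_eq q, pw_eq (C.p + C'.p)] at this
    change 2 ^ q * ∑ k ∈ Finset.range (Q + 1), wt k * g k ≤ _ at this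
    rw [← sum_sI_wt g Q] at this
    exact this
  have hcoord : ∀ k, (C.UcN ν Real.pi - C'.UcN ν 0) k = (wgt ν k : ℂ) *
      (((C.enI sX k.natAbs * (pw C'.p : ℤ) - C'.stI sX k.natAbs * (pw C.p : ℤ) : ℤ) : ℂ) +
        I * ((C.enI sY k.natAbs * (pw C'.p : ℤ) - C'.stI sY k.natAbs * (pw C.p : ℤ) : ℤ) : ℂ)) /
        2 ^ (C.p + C'.p) := by
    intro k
    change C.UcN ν Real.pi k - C'.UcN ν 0 k = _
    rw [C.UcN_pi h, C'.UcN_zero h', pw_eq, pw_eq]
    have e1 : (2:ℂ) ^ C.p ≠ 0 := pow_ne_zero _ two_ne_zero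
    have e2 : (2:ℂ) ^ C'.p ≠ 0 := pow_ne_zero _ two_ne_zero
    rw [pow_add]
    push_cast
    field_simp
    ring
  have hsup : ∀ k, k ∉ sI Q → (C.UcN ν Real.pi - C'.UcN ν 0) k = 0 := by
    intro k hk
    rw [mem_sI] at hk
    rw [hcoord, C.enI_zero sX (k := k.natAbs) (by omega), C.enI_zero sY (k := k.natAbs) (by omega),
      C'.stI_zero sX (k := k.natAbs) (by omega), C'.stI_zero sY (k := k.natAbs) (by omega)]
    simp
  have hwl : ∀ k ∈ sI Q, wgt ν k ≤ lam := by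
    intro k hk
    have h2 := wgt_le_of_mem hν hk
    refine h2.trans ?_
    rcases le_total C.K C'.K with hle | hle
    · exact (pow_le_pow_right₀ hν (by omega)).trans hl'
    · exact (pow_le_pow_right₀ hν (by omega)).trans hl
  rw [norm_supp _ Q hsup]
  calc ∑ k ∈ sI Q, ‖(C.UcN ν Real.pi - C'.UcN ν 0) k‖
      ≤ ∑ k ∈ sI Q, (lam : ℝ) * (g k.natAbs : ℝ) / 2 ^ (C.p + C'.p) := by
        apply Finset.sum_le_sum
        intro k hk
        rw [hcoord, norm_div, norm_mul, norm_pow, Complex.norm_ofNat, Complex.norm_real,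
          Real.norm_of_nonneg (wgt_pos hν k).le]
        apply div_le_div_of_nonneg_right _ (by positivity)
        exact mul_le_mul (hwl k hk) (norm_intPair _ _) (norm_nonneg _) (by positivity)
    _ = (lam : ℝ) / 2 ^ (C.p + C'.p) * ((∑ k ∈ sI Q, g k.natAbs : ℕ) : ℝ) := by
        push_cast
        rw [Finset.mul_sum]
        apply Finset.sum_congr rfl
        intro k _
        ring
    _ ≤ _ := by
        have h2 : ((2 ^ q * ∑ k ∈ sI Q, g k.natAbs : ℕ) : ℝ) ≤ ((2 ^ (C.p + C'.p) : ℕ) : ℝ) := by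
          exact_mod_cast h1
        have e : ((2 ^ q * ∑ k ∈ sI Q, g k.natAbs : ℕ) : ℝ) =
            2 ^ q * ((∑ k ∈ sI Q, g k.natAbs : ℕ) : ℝ) := by
          rw [Nat.cast_mul]; norm_num
        rw [e] at h2
        push_cast at h2 ⊢
        rw [div_mul_eq_mul_div, ← div_eq_mul_inv, div_le_div_iff₀ (by positivity) (by positivity)]
        have hl0 : (0:ℝ) ≤ lam := by positivity
        nlinarith

theorem far_spec {C C' : Cert} (h : 0 < C.rows.length) (h' : 0 < C'.rows.length)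
    (hf : C.far C' = true) (ν : ℝ) : 1 / 2 ≤ ‖C.UcN ν Real.pi - C'.UcN ν Real.pi‖ := by
  have h1 := Nat.le_of_ble_eq_true hf
  rw [pw_eq (C.p + C'.p)] at h1
  refine le_trans ?_ (norm_coord_le _ 0)
  have hw : wgt ν 0 = 1 := by unfold wgt; simp
  have hcoord : (C.UcN ν Real.pi - C'.UcN ν Real.pi) 0 =
      (((C.enI sX 0 * (pw C'.p : ℤ) - C'.enI sX 0 * (pw C.p : ℤ) : ℤ) : ℂ) +
        I * ((C.enI sY 0 * (pw C'.p : ℤ) - C'.enI sY 0 * (pw C.p : ℤ) : ℤ) : ℂ)) /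
        2 ^ (C.p + C'.p) := by
    change C.UcN ν Real.pi 0 - C'.UcN ν Real.pi 0 = _
    rw [C.UcN_pi h, C'.UcN_pi h', pw_eq, pw_eq, hw]
    have e1 : (2:ℂ) ^ C.p ≠ 0 := pow_ne_zero _ two_ne_zero
    have e2 : (2:ℂ) ^ C'.p ≠ 0 := pow_ne_zero _ two_ne_zero
    rw [pow_add]
    simp only [Int.natAbs_zero]
    push_cast
    field_simp
    ring
  rw [hcoord, norm_div, norm_pow, Complex.norm_ofNat]
  set x : ℤ := C.enI sX 0 * (pw C'.p : ℤ) - C'.enI sX 0 * (pw C.p : ℤ)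
  set y : ℤ := C.enI sY 0 * (pw C'.p : ℤ) - C'.enI sY 0 * (pw C.p : ℤ)
  have h2 : |(x : ℝ)| ≤ ‖(x : ℂ) + I * (y : ℂ)‖ := by
    have := Complex.abs_re_le_norm ((x : ℂ) + I * (y : ℂ))
    simpa using this
  have h3 : ((2 ^ (C.p + C'.p) : ℕ) : ℝ) ≤ ((2 * x.natAbs : ℕ) : ℝ) := by exact_mod_cast h1
  rw [Nat.cast_mul, Nat.cast_natAbs, Int.cast_abs] at h3
  push_cast at h3
  rw [le_div_iff₀ (by positivity)]
  linarith

/-- all the numerical conditions linking two consecutive steps -/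
def link (C C' : Cert) (lam q bb v v' D : ℕ) (ht : Bool) : Bool :=
  C.jmp C' q && C'.err lam q bb v v' && Nat.beq C'.h D && (C'.heat == ht) &&
    Nat.blt 0 C.rows.length

/-- direction attached to a boolean -/
def dir (ht : Bool) : ℂ := bif ht then -I else 1

theorem link_leg {C C' : Cert} {lam q bb v v' D : ℕ} {ht : Bool}
    (h : C.link C' lam q bb v v' D ht = true) (hc : C'.check = true) {ν : ℝ} (hν : 1 ≤ ν)
    (hl : ν ^ (2 * C.K) ≤ lam) (hl' : ν ^ (2 * C'.K) ≤ lam) :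
    Leg (Bnu ν hν) (dir ht) (C.UcN ν Real.pi) v D (C'.UcN ν Real.pi) v' := by
  unfold link at h
  simp only [Bool.and_eq_true] at h
  obtain ⟨⟨⟨⟨h1, h2⟩, h3⟩, h4⟩, h5⟩ := h
  have h3 := Nat.eq_of_beq_eq_true h3
  have h4 : C'.heat = ht := by simpa using h4
  have h5 := Nat.blt_eq.mp h5
  have h6 := (C'.check_spec hc).1
  have := C'.leg hν hl' hc h2 (jmp_spec h5 h6 h1 hν hl hl')
  rw [h3] at this
  have hd : C'.dC = dir ht := by unfold dC dir; rw [h4]
  rwa [hd] at this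

end Cert

lemma Bnu_one : Bnu 1 le_rfl = B1 := by
  ext1 x
  ext1 y
  apply W_ext
  intro k
  unfold Bnu B1
  rw [conv_apply, conv_apply]
  congr 1
  ext1 j
  unfold ckn wgt
  simp

end NLSq
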