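import Pool.Agent.H75.NLSPicard

/-!
Local solutions on a square in complex time, holomorphic in the interior.
-/

open scoped Topology BoundedContinuousFunction
open Set MeasureTheory intervalIntegral Complex Metric

noncomputable section

namespace NLSq

/-- the closed square `[0,δ] × [-δ,0]` -/
def Sq (δ : ℝ) : Set ℂ := Icc 0 δ ×ℂ Icc (-δ) 0

/-- its interior -/
def SqO (δ : ℝ) : Set ℂ := Ioo 0 δ ×ℂ Ioo (-δ) 0

lemma mem_Sq {δ : ℝ} {t : ℂ} : t ∈ Sq δ ↔ (0 ≤ t.re ∧ t.re ≤ δ) ∧ (-δ ≤ t.im ∧ t.im ≤ 0) := by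
  simp [Sq, mem_reProdIm]

lemma mem_SqO {δ : ℝ} {t : ℂ} : t ∈ SqO δ ↔ (0 < t.re ∧ t.re < δ) ∧ (-δ < t.im ∧ t.im < 0) := by
  simp [SqO, mem_reProdIm]

lemma isOpen_SqO (δ : ℝ) : IsOpen (SqO δ) := isOpen_Ioo.reProdIm isOpen_Ioo

/-- retraction onto the square -/
def ret (δ : ℝ) (t : ℂ) : ℂ := ((max 0 (min t.re δ) : ℝ) : ℂ) + ((max (-δ) (min t.im 0) : ℝ) : ℂ) * I

lemma ret_re (δ : ℝ) (t : ℂ) : (ret δ t).re = max 0 (min t.re δ) := by simp [ret]
lemma ret_im (δ : ℝ) (t : ℂ) : (ret δ t).im = max (-δ) (min t.im 0) := by simp [ret]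

lemma ret_mem {δ : ℝ} (hδ : 0 ≤ δ) (t : ℂ) : ret δ t ∈ Sq δ := by
  rw [mem_Sq, ret_re, ret_im]
  refine ⟨⟨le_max_left _ _, max_le hδ (min_le_right _ _)⟩, le_max_left _ _, ?_⟩
  exact max_le (by linarith) (min_le_right _ _)

lemma ret_eq {δ : ℝ} {t : ℂ} (ht : t ∈ Sq δ) : ret δ t = t := by
  rw [mem_Sq] at ht
  apply Complex.ext
  · rw [ret_re, min_eq_left ht.1.2, max_eq_right ht.1.1]
  · rw [ret_im, min_eq_left ht.2.2, max_eq_right ht.2.1]

lemma continuous_ret (δ : ℝ) : Continuous (ret δ) := by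
  unfold ret
  fun_prop

lemma abs_re_le {δ : ℝ} {t : ℂ} (ht : t ∈ Sq δ) : |t.re| ≤ δ := by
  rw [mem_Sq] at ht; rw [abs_le]; constructor <;> linarith [ht.1.1, ht.1.2]

lemma abs_im_le {δ : ℝ} {t : ℂ} (ht : t ∈ Sq δ) : |t.im| ≤ δ := by
  rw [mem_Sq] at ht; rw [abs_le]; constructor <;> linarith [ht.2.1, ht.2.2]

/-- additivity of wedge integrals in the square -/
lemma wedge_add {δ : ℝ} {f : ℂ → ℂ} (hf : Continuous f) (hd : DifferentiableOn ℂ f (SqO δ))
    {z w : ℂ} (hz : z ∈ Sq δ) (hw : w ∈ Sq δ) :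
    wedgeIntegral 0 w f - wedgeIntegral 0 z f = wedgeIntegral z w f := by
  rw [mem_Sq] at hz hw
  have hint : ∀ (a b c : ℝ), IntervalIntegrable (fun x : ℝ => f (x + c * I)) volume a b := by
    intro a b c; apply Continuous.intervalIntegrable; fun_prop
  have hint' : ∀ (a b c : ℝ), IntervalIntegrable (fun x : ℝ => f (c + x * I)) volume a b := by
    intro a b c; apply Continuous.intervalIntegrable; fun_prop
  have h0 := integral_boundary_rect_eq_zero_of_continuousOn_of_differentiableOn f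
    ((z.re : ℂ) + ((0:ℝ):ℂ) * I) ((w.re : ℂ) + (z.im : ℂ) * I) hf.continuousOn (hd.mono (by
      intro t ht
      rw [mem_reProdIm] at ht
      rw [mem_SqO]
      simp only [add_re, ofReal_re, mul_re, I_re, mul_zero, ofReal_im, I_im, mul_one, sub_self,
        add_zero, add_im, mul_im, zero_add, mem_Ioo] at ht
      refine ⟨⟨lt_of_le_of_lt (le_min hz.1.1 hw.1.1) ht.1.1,
        lt_of_lt_of_le ht.1.2 (max_le hz.1.2 hw.1.2)⟩, ?_, ?_⟩
      · refine lt_of_le_of_lt (le_min (by linarith [hz.2.1, hz.2.2]) hz.2.1) ht.2.1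
      · exact lt_of_lt_of_le ht.2.2 (max_le le_rfl hz.2.2)))
  simp only [add_re, ofReal_re, mul_re, I_re, mul_zero, ofReal_im, I_im, mul_one, sub_self,
    add_zero, add_im, mul_im, zero_add] at h0
  unfold wedgeIntegral
  simp only [zero_re, zero_im]
  have e1 : (∫ x : ℝ in (0:ℝ)..w.re, f (x + ((0:ℝ):ℂ) * I)) =
      (∫ x : ℝ in (0:ℝ)..z.re, f (x + ((0:ℝ):ℂ) * I)) +
      ∫ x : ℝ in z.re..w.re, f (x + ((0:ℝ):ℂ) * I) :=
    (intervalIntegral.integral_add_adjacent_intervals (hint _ _ _) (hint _ _ _)).symm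
  have e2 : (∫ y : ℝ in (0:ℝ)..w.im, f (w.re + y * I)) =
      (∫ y : ℝ in (0:ℝ)..z.im, f (w.re + y * I)) + ∫ y : ℝ in z.im..w.im, f (w.re + y * I) :=
    (intervalIntegral.integral_add_adjacent_intervals (hint' _ _ _) (hint' _ _ _)).symm
  rw [e1, e2, smul_add]
  linear_combination h0

/-- holomorphy of the wedge integral in the open square -/
lemma wedge_differentiableOn {δ : ℝ} {f : ℂ → ℂ} (hf : Continuous f)
    (hd : DifferentiableOn ℂ f (SqO δ)) :
    DifferentiableOn ℂ (fun t => wedgeIntegral 0 t f) (SqO δ) := by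
  intro c hc
  obtain ⟨r, hr, hb⟩ := Metric.isOpen_iff.mp (isOpen_SqO δ) c hc
  have hsub : SqO δ ⊆ Sq δ := by
    intro t ht
    rw [mem_SqO] at ht; rw [mem_Sq]
    exact ⟨⟨ht.1.1.le, ht.1.2.le⟩, ht.2.1.le, ht.2.2.le⟩
  have hcons : IsConservativeOn f (ball c r) := (hd.mono hb).isConservativeOn
  have h1 := hcons.hasDerivAt_wedgeIntegral hf.continuousOn (mem_ball_self hr)
  have h2 : HasDerivAt (fun t => wedgeIntegral 0 c f + wedgeIntegral c t f) (f c) c :=
    h1.const_add _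
  apply DifferentiableAt.differentiableWithinAt
  apply (h2.congr_of_eventuallyEq _).differentiableAt
  filter_upwards [ball_mem_nhds c hr] with t ht
  have := wedge_add hf hd (hsub hc) (hsub (hb ht))
  rw [← this]; ring

/-- the scalar integrand -/
def fk (B : W →L[ℂ] W →L[ℂ] W) (V : ℂ → W) (k : ℤ) (s : ℂ) : ℂ :=
  exp (I * (k : ℂ) ^ 2 * s) * B (V s) (V s) k

lemma continuous_BV {B : W →L[ℂ] W →L[ℂ] W} {V : ℂ → W} (hV : Continuous V) :
    Continuous fun s => B (V s) (V s) :=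
  (B.continuous.comp hV).clm_apply hV

lemma continuous_fk {B : W →L[ℂ] W →L[ℂ] W} {V : ℂ → W} (hV : Continuous V) (k : ℤ) :
    Continuous (fk B V k) := by
  have h1 : Continuous fun s => ev k (B (V s) (V s)) := (ev k).continuous.comp (continuous_BV hV)
  have h2 : Continuous fun s : ℂ => exp (I * (k : ℂ) ^ 2 * s) := by fun_prop
  exact h2.mul h1

lemma differentiableOn_fk {B : W →L[ℂ] W →L[ℂ] W} {V : ℂ → W} (hV : Continuous V) {δ : ℝ}
    (hk : ∀ k : ℤ, DifferentiableOn ℂ (fun t => V t k) (SqO δ)) (k : ℤ) :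
    DifferentiableOn ℂ (fk B V k) (SqO δ) := by
  have hd := differentiableOn_of_coord (isOpen_SqO δ) hV.continuousOn hk
  have h1 : DifferentiableOn ℂ (fun s => B (V s) (V s)) (SqO δ) :=
    (B.differentiable.comp_differentiableOn hd).clm_apply hd
  have h2 : DifferentiableOn ℂ (fun s => ev k (B (V s) (V s))) (SqO δ) :=
    (ev k).differentiable.comp_differentiableOn h1
  have h3 : DifferentiableOn ℂ (fun s : ℂ => exp (I * (k : ℂ) ^ 2 * s)) (SqO δ) := by fun_prop
  exact h3.mul h2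

lemma mult_eq {t : ℂ} (ht : t.im ≤ 0) (k : ℤ) : mult t k = exp (-(I * (k : ℂ) ^ 2 * t)) := by
  rw [mult, low_of_nonpos ht]

/-- coordinates of the Picard map -/
lemma Pic_coord {B : W →L[ℂ] W →L[ℂ] W} {w : W} {V : ℂ → W} (hV : Continuous V) {t : ℂ}
    (ht : t.im ≤ 0) (k : ℤ) :
    Pic B w V t k = exp (-(I * (k : ℂ) ^ 2 * t)) * (w k + I * wedgeIntegral 0 t (fk B V k)) := by
  have c1 : Continuous (pint B V t) :=
    (continuous_pint hV).comp (continuous_const.prodMk continuous_id)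
  have hp : ∀ s : ℂ, (t - s).im ≤ 0 → ev k (pint B V t s) =
      exp (-(I * (k : ℂ) ^ 2 * t)) * fk B V k s := by
    intro s hs
    have : ev k (pint B V t s) = mult (t - s) k * (B (V s) (V s) k) := by
      rw [ev_apply, pint, T_apply]
    rw [this, mult_eq hs, fk, ← mul_assoc, ← exp_add]
    congr 2; ring
  have hev : Pic B w V t k = ev k (Pic B w V t) := rfl
  have hh : ∀ (a b c : ℝ), IntervalIntegrable (fun x : ℝ => pint B V t (x + c * I)) volume a b := by
    intro a b c; apply Continuous.intervalIntegrable; fun_prop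
  have hh' : ∀ (a b c : ℝ), IntervalIntegrable (fun x : ℝ => pint B V t (c + x * I)) volume a b := by
    intro a b c; apply Continuous.intervalIntegrable; fun_prop
  have i1 := (ev k).intervalIntegral_comp_comm (hh (0:ℂ).re t.re (0:ℂ).im)
  have i2 := (ev k).intervalIntegral_comp_comm (hh' (0:ℂ).im t.im t.re)
  have j1 : (∫ x : ℝ in (0:ℂ).re..t.re, ev k (pint B V t (x + (0:ℂ).im * I))) =
      exp (-(I * (k : ℂ) ^ 2 * t)) * ∫ x : ℝ in (0:ℂ).re..t.re, fk B V k (x + (0:ℂ).im * I) := by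
    rw [← intervalIntegral.integral_const_mul]
    apply integral_congr
    intro x _
    simp only
    rw [hp]
    simpa using ht
  have j2 : (∫ y : ℝ in (0:ℂ).im..t.im, ev k (pint B V t (t.re + y * I))) =
      exp (-(I * (k : ℂ) ^ 2 * t)) * ∫ y : ℝ in (0:ℂ).im..t.im, fk B V k (t.re + y * I) := by
    rw [← intervalIntegral.integral_const_mul]
    apply integral_congr
    intro y hy
    simp only
    rw [hp]
    rw [zero_im, uIcc_of_ge ht] at hy
    simpa using hy.1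
  rw [hev]
  have e0 : ev k (Pic B w V t) = ev k (T t w) + I * (ev k (∫ x : ℝ in (0:ℂ).re..t.re,
      pint B V t (x + (0:ℂ).im * I)) + I * ev k (∫ y : ℝ in (0:ℂ).im..t.im,
      pint B V t (t.re + y * I))) := by
    rw [Pic, map_add, map_smul, wedgeIntegral, map_add, map_smul]
    rfl
  rw [e0, ← i1, ← i2, j1, j2]
  have e1 : ev k (T t w) = exp (-(I * (k : ℂ) ^ 2 * t)) * w k := by
    rw [ev_apply, T_apply, mult_eq ht]
  rw [e1, wedgeIntegral, smul_eq_mul]
  ring

end NLSq
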