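import Pool.Agent.H75.NLSBasic

/-!
Local solutions in complex time: the Picard map on continuous functions of a complex time variable.
-/

open scoped Topology
open Set MeasureTheory intervalIntegral Complex Metric

noncomputable section

namespace NLSq

/-- projection of a complex time onto the closed lower half plane -/
def low (t : ℂ) : ℂ := (t.re : ℂ) + ((min t.im 0 : ℝ) : ℂ) * I

lemma continuous_low : Continuous low := by
  unfold low
  have h1 : Continuous fun t : ℂ => min t.im 0 := by fun_prop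
  exact (continuous_ofReal.comp continuous_re).add ((continuous_ofReal.comp h1).mul continuous_const)

lemma low_of_nonpos {t : ℂ} (h : t.im ≤ 0) : low t = t := by
  unfold low
  rw [min_eq_left h, re_add_im]

/-- the multiplier `e^{-i k² t}` -/
def mult (t : ℂ) (k : ℤ) : ℂ := exp (-(I * (k : ℂ) ^ 2 * low t))

lemma norm_mult (t : ℂ) (k : ℤ) : ‖mult t k‖ ≤ 1 := by
  unfold mult
  rw [norm_exp]
  apply Real.exp_le_one_iff.mpr
  have h1 : (k : ℂ) ^ 2 = (((k : ℝ) ^ 2 : ℝ) : ℂ) := by push_cast; rfl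
  have : (-(I * (k : ℂ) ^ 2 * low t)).re = (k : ℝ) ^ 2 * min t.im 0 := by
    rw [h1]
    generalize (k : ℝ) ^ 2 = x
    simp [low]
  rw [this]
  exact mul_nonpos_of_nonneg_of_nonpos (sq_nonneg _) (min_le_right _ _)

lemma continuous_mult (k : ℤ) : Continuous fun t => mult t k := by
  unfold mult
  have := continuous_low
  fun_prop

/-- the linear semigroup -/
def T (t : ℂ) : W →L[ℂ] W := shiftL (mult t) (norm_mult t) 0

@[simp] lemma T_apply (t : ℂ) (x : W) (k : ℤ) : T t x k = mult t k * x k := by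
  simp [T]

lemma norm_T_le (t : ℂ) (x : W) : ‖T t x‖ ≤ ‖x‖ := by
  calc ‖T t x‖ ≤ ‖T t‖ * ‖x‖ := (T t).le_opNorm x
    _ ≤ 1 * ‖x‖ := by gcongr; exact norm_shiftL _ _ _
    _ = _ := one_mul _

lemma continuous_T_left (x : W) : Continuous fun t => T t x := by
  rw [continuous_iff_continuousAt]
  intro t0
  rw [ContinuousAt, tendsto_iff_norm_sub_tendsto_zero]
  have h : ∀ t, ‖T t x - T t0 x‖ = ∑' k, ‖mult t k * x k - mult t0 k * x k‖ := by
    intro t; rw [norm_eq]; congr 1; ext1 k; simp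
  simp only [h]
  have : Filter.Tendsto (fun t => ∑' k, ‖mult t k * x k - mult t0 k * x k‖) (𝓝 t0)
      (𝓝 (∑' k : ℤ, (0:ℝ))) := by
    apply tendsto_tsum_of_dominated_convergence (bound := fun k => 2 * ‖x k‖)
    · exact (summable_norm x).mul_left 2
    · intro k
      have c : Continuous fun t => ‖mult t k * x k - mult t0 k * x k‖ := by
        have := continuous_mult k
        fun_prop
      have := c.tendsto t0
      simpa using this
    · refine Filter.Eventually.of_forall fun t k => ?_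
      rw [norm_norm]
      refine (norm_sub_le _ _).trans ?_
      rw [norm_mul, norm_mul]
      have h1 := mul_le_mul_of_nonneg_right (norm_mult t k) (norm_nonneg (x k))
      have h2 := mul_le_mul_of_nonneg_right (norm_mult t0 k) (norm_nonneg (x k))
      linarith
  simpa using this

lemma continuous_T : Continuous fun p : ℂ × W => T p.1 p.2 := by
  rw [continuous_iff_continuousAt]
  intro p0
  rw [ContinuousAt, tendsto_iff_norm_sub_tendsto_zero]
  have h1 : Filter.Tendsto (fun p : ℂ × W => ‖p.2 - p0.2‖ + ‖T p.1 p0.2 - T p0.1 p0.2‖) (𝓝 p0)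
      (𝓝 0) := by
    have c : Continuous fun p : ℂ × W => ‖p.2 - p0.2‖ + ‖T p.1 p0.2 - T p0.1 p0.2‖ := by
      have := (continuous_T_left p0.2).comp continuous_fst (X := ℂ × W)
      have h2 : Continuous fun p : ℂ × W => T p.1 p0.2 := this
      fun_prop
    have := c.tendsto p0
    simpa using this
  apply squeeze_zero (fun _ => norm_nonneg _) _ h1
  intro p
  have : T p.1 p.2 - T p0.1 p0.2 = T p.1 (p.2 - p0.2) + (T p.1 p0.2 - T p0.1 p0.2) := by
    rw [map_sub]; abel
  rw [this]
  exact (norm_add_le _ _).trans (add_le_add (norm_T_le _ _) le_rfl)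

attribute [irreducible] T

/-- integrand of the Picard map -/
def pint (B : W →L[ℂ] W →L[ℂ] W) (V : ℂ → W) (t s : ℂ) : W := T (t - s) (B (V s) (V s))

lemma continuous_pint {B : W →L[ℂ] W →L[ℂ] W} {V : ℂ → W} (hV : Continuous V) :
    Continuous fun p : ℂ × ℂ => pint B V p.1 p.2 := by
  have h2 : Continuous fun p : ℂ × ℂ => V p.2 := hV.comp continuous_snd
  have h1 : Continuous fun p : ℂ × ℂ => B (V p.2) (V p.2) := (B.continuous.comp h2).clm_apply h2
  have h0 : Continuous fun p : ℂ × ℂ => p.1 - p.2 := continuous_fst.sub continuous_snd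
  exact continuous_T.comp₂ h0 h1

/-- the Picard map -/
def Pic (B : W →L[ℂ] W →L[ℂ] W) (w : W) (V : ℂ → W) (t : ℂ) : W :=
  T t w + I • wedgeIntegral 0 t (pint B V t)

lemma continuous_Pic {B : W →L[ℂ] W →L[ℂ] W} {w : W} {V : ℂ → W} (hV : Continuous V) :
    Continuous (Pic B w V) := by
  unfold Pic wedgeIntegral
  refine (continuous_T_left w).add (Continuous.const_smul (Continuous.add ?_ ?_) I)
  · simp only [zero_re, zero_im]
    apply intervalIntegral.continuous_parametric_intervalIntegral_of_continuous (a₀ := 0)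
      (f := fun (t : ℂ) (x : ℝ) => pint B V t (x + ((0:ℝ):ℂ) * I)) _ continuous_re
    exact (continuous_pint hV).comp (continuous_fst.prodMk (by fun_prop))
  · simp only [zero_im]
    refine Continuous.const_smul ?_ I
    apply intervalIntegral.continuous_parametric_intervalIntegral_of_continuous (a₀ := 0)
      (f := fun (t : ℂ) (y : ℝ) => pint B V t (t.re + y * I)) _ continuous_im
    exact (continuous_pint hV).comp (continuous_fst.prodMk (by fun_prop))

/-- norm bound for wedge integrals -/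
lemma norm_wedge_le {E : Type*} [NormedAddCommGroup E] [NormedSpace ℂ E] {f : ℂ → E} {t : ℂ}
    {δ C : ℝ} (hre : |t.re| ≤ δ) (him : |t.im| ≤ δ) (hC : 0 ≤ C) (hf : ∀ s, ‖f s‖ ≤ C) :
    ‖wedgeIntegral 0 t f‖ ≤ 2 * δ * C := by
  unfold wedgeIntegral
  refine (norm_add_le _ _).trans ?_
  have h1 : ‖∫ x : ℝ in (0:ℂ).re..t.re, f (x + (0:ℂ).im * I)‖ ≤ C * |t.re - (0:ℂ).re| :=
    intervalIntegral.norm_integral_le_of_norm_le_const fun x _ => hf _
  have h2 : ‖∫ y : ℝ in (0:ℂ).im..t.im, f (t.re + y * I)‖ ≤ C * |t.im - (0:ℂ).im| :=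
    intervalIntegral.norm_integral_le_of_norm_le_const fun x _ => hf _
  rw [norm_smul, norm_I, one_mul]
  simp only [zero_re, zero_im, sub_zero] at h1 h2 ⊢
  have h3 := mul_le_mul_of_nonneg_left hre hC
  have h4 := mul_le_mul_of_nonneg_left him hC
  linarith

lemma norm_pint_le {B : W →L[ℂ] W →L[ℂ] W} (hB : ∀ x y, ‖B x y‖ ≤ ‖x‖ * ‖y‖) {V : ℂ → W}
    {R : ℝ} (hV : ∀ s, ‖V s‖ ≤ R) (t s : ℂ) : ‖pint B V t s‖ ≤ R ^ 2 := by
  unfold pint
  refine (norm_T_le _ _).trans ((hB _ _).trans ?_)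
  have := hV s
  have h0 := norm_nonneg (V s)
  nlinarith

lemma norm_Pic_le {B : W →L[ℂ] W →L[ℂ] W} (hB : ∀ x y, ‖B x y‖ ≤ ‖x‖ * ‖y‖) {w : W} {V : ℂ → W}
    {R δ : ℝ} (hV : ∀ s, ‖V s‖ ≤ R) {t : ℂ} (hre : |t.re| ≤ δ) (him : |t.im| ≤ δ) :
    ‖Pic B w V t‖ ≤ ‖w‖ + 2 * δ * R ^ 2 := by
  unfold Pic
  refine (norm_add_le _ _).trans (add_le_add (norm_T_le _ _) ?_)
  rw [norm_smul, norm_I, one_mul]
  exact norm_wedge_le hre him (sq_nonneg R) (norm_pint_le hB hV t)

lemma wedge_sub {E : Type*} [NormedAddCommGroup E] [NormedSpace ℂ E] [CompleteSpace E]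
    {f g : ℂ → E} (hf : Continuous f) (hg : Continuous g) (t : ℂ) :
    wedgeIntegral 0 t f - wedgeIntegral 0 t g = wedgeIntegral 0 t (fun s => f s - g s) := by
  unfold wedgeIntegral
  rw [intervalIntegral.integral_sub, intervalIntegral.integral_sub, smul_sub]
  · abel
  all_goals apply Continuous.intervalIntegrable; fun_prop

lemma norm_Pic_sub_le {B : W →L[ℂ] W →L[ℂ] W} (hB : ∀ x y, ‖B x y‖ ≤ ‖x‖ * ‖y‖) {w : W}
    {V V' : ℂ → W} (cV : Continuous V) (cV' : Continuous V')
    {R δ ε : ℝ} (hV : ∀ s, ‖V s‖ ≤ R) (hV' : ∀ s, ‖V' s‖ ≤ R) (hd : ∀ s, ‖V s - V' s‖ ≤ ε)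
    {t : ℂ} (hre : |t.re| ≤ δ) (him : |t.im| ≤ δ) :
    ‖Pic B w V t - Pic B w V' t‖ ≤ 2 * δ * (2 * R * ε) := by
  have hR : 0 ≤ R := (norm_nonneg _).trans (hV 0)
  have hε : 0 ≤ ε := (norm_nonneg _).trans (hd 0)
  have c1 : Continuous (pint B V t) := (continuous_pint cV).comp (continuous_const.prodMk continuous_id)
  have c2 : Continuous (pint B V' t) :=
    (continuous_pint cV').comp (continuous_const.prodMk continuous_id)
  have : Pic B w V t - Pic B w V' t =
      I • wedgeIntegral 0 t (fun s => pint B V t s - pint B V' t s) := by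
    unfold Pic
    rw [← wedge_sub c1 c2, smul_sub]; abel
  rw [this, norm_smul, norm_I, one_mul]
  apply norm_wedge_le hre him (by positivity)
  intro s
  unfold pint
  rw [← map_sub]
  refine (norm_T_le _ _).trans ?_
  have e : B (V s) (V s) - B (V' s) (V' s) = B (V s - V' s) (V s) + B (V' s) (V s - V' s) := by
    simp only [map_sub, sub_apply]; abel
  rw [e]
  refine (norm_add_le _ _).trans ?_
  have b1 := hB (V s - V' s) (V s)
  have b2 := hB (V' s) (V s - V' s)
  have h1 := hV s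
  have h2 := hV' s
  have h3 := hd s
  have h4 : ‖V s - V' s‖ * ‖V s‖ ≤ ε * R := mul_le_mul h3 h1 (norm_nonneg _) hε
  have h5 : ‖V' s‖ * ‖V s - V' s‖ ≤ R * ε := mul_le_mul h2 h3 (norm_nonneg _) hR
  linarith

/-- continuous + coordinatewise holomorphic implies holomorphic -/
lemma differentiableOn_of_coord {U : Set ℂ} (hU : IsOpen U) {V : ℂ → W} (hV : ContinuousOn V U)
    (hk : ∀ k : ℤ, DifferentiableOn ℂ (fun t => V t k) U) : DifferentiableOn ℂ V U := by
  apply (isConservativeOn_and_continuousOn_iff_isDifferentiableOn hU).mp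
  refine ⟨?_, hV⟩
  intro z w hzw
  have hrect : ∀ {p q : ℝ} {c : ℝ}, (∀ x ∈ uIcc p q, ((x : ℂ) + c * I) ∈ U) →
      IntervalIntegrable (fun x : ℝ => V (x + c * I)) volume p q := by
    intro p q c h
    apply ContinuousOn.intervalIntegrable
    apply hV.comp (by fun_prop)
    intro x hx; exact h x hx
  have hrect' : ∀ {p q : ℝ} {c : ℝ}, (∀ x ∈ uIcc p q, ((c : ℂ) + x * I) ∈ U) →
      IntervalIntegrable (fun x : ℝ => V (c + x * I)) volume p q := by
    intro p q c h
    apply ContinuousOn.intervalIntegrable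
    apply hV.comp (by fun_prop)
    intro x hx; exact h x hx
  have hmem : ∀ x y : ℝ, x ∈ uIcc z.re w.re → y ∈ uIcc z.im w.im → ((x : ℂ) + y * I) ∈ U := by
    intro x y hx hy
    apply hzw
    simp only [Rectangle, mem_reProdIm]
    simp [hx, hy]
  have key : ∀ k : ℤ, ∀ a b : ℂ, (∀ x y : ℝ, x ∈ uIcc a.re b.re → y ∈ uIcc a.im b.im →
      ((x : ℂ) + y * I) ∈ U) →
      ev k (wedgeIntegral a b V) = wedgeIntegral a b (fun t => V t k) := by
    intro k a b hm
    have i1 := (ev k).intervalIntegral_comp_comm (hrect (fun x hx => hm x a.im hx left_mem_uIcc))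
    have i2 := (ev k).intervalIntegral_comp_comm
      (hrect' (fun y hy => hm b.re y right_mem_uIcc hy))
    unfold wedgeIntegral
    rw [map_add, map_smul]
    exact congrArg₂ (· + ·) i1.symm (congrArg (I • ·) i2.symm)
  apply W_ext
  intro k
  have h1 := (hk k).isConservativeOn z w hzw
  have e1 := key k z w hmem
  have e2 := key k w z (fun x y hx hy => hmem x y (by rwa [uIcc_comm]) (by rwa [uIcc_comm]))
  have h2 : ev k (wedgeIntegral z w V) = ev k (-wedgeIntegral w z V) := by
    rw [map_neg, e1, e2, h1]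
  exact h2

end NLSq
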