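import Pool.Agent.H75.NLSExist
import Pool.Agent.H75.NLSFin

/-!
Trigonometric polynomials in the angle `θ` and in space as approximate solutions.
-/

open scoped Topology
open Set MeasureTheory intervalIntegral Complex

noncomputable section

namespace NLSq

/-- the untwisted convolution -/
def B1 : W →L[ℂ] W →L[ℂ] W := conv (fun _ _ => 1) (fun _ _ => by simp)

lemma norm_B1 (x y : W) : ‖B1 x y‖ ≤ ‖x‖ * ‖y‖ := norm_conv_le _ _ x y

lemma B1_apply (x y : W) (k : ℤ) : B1 x y k = ∑' j, x j * y (k - j) := by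
  rw [B1, conv_apply]; simp

/-- a finitely supported element -/
def fin (Q : ℕ) (f : ℤ → ℂ) : W := ∑ k ∈ sI Q, lp.single 1 k (f k)

lemma fin_apply (Q : ℕ) (f : ℤ → ℂ) (k : ℤ) : fin Q f k = if k ∈ sI Q then f k else 0 := by
  have h : ev k (fin Q f) = ∑ j ∈ sI Q, ev k (lp.single 1 j (f j)) := by
    unfold fin; rw [map_sum]
  have h2 : ∀ j, ev k (lp.single 1 j (f j)) = if j = k then f k else 0 := by
    intro j
    rw [ev_apply, lp.single_apply]
    by_cases hj : j = k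
    · subst hj; simp
    · rw [if_neg hj, Pi.single_eq_of_ne (Ne.symm hj)]
  change ev k (fin Q f) = _
  rw [h]
  simp only [h2]
  rw [Finset.sum_ite_eq']

lemma norm_fin_le (Q : ℕ) (f : ℤ → ℂ) : ‖fin Q f‖ ≤ ∑ k ∈ sI Q, ‖f k‖ := by
  unfold fin
  refine (norm_sum_le _ _).trans (Finset.sum_le_sum fun k _ => ?_)
  rw [lp.norm_single (by simp)]

lemma continuous_fin {Q : ℕ} {f : ℝ → ℤ → ℂ} (hf : ∀ k, Continuous fun θ => f θ k) :
    Continuous fun θ => fin Q (f θ) := by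
  unfold fin
  apply continuous_finsetSum
  intro k _
  have h := (lp.singleContinuousLinearMap ℂ (fun _ : ℤ => ℂ) 1 k).continuous.comp (hf k)
  exact h

lemma tsum_fin (x : W) (Q : ℕ) (hx : ∀ j, j ∉ sI Q → x j = 0) (y : W) (k : ℤ) :
    B1 x y k = ∑ j ∈ sI Q, x j * y (k - j) := by
  rw [B1_apply]
  apply tsum_eq_sum
  intro j hj
  rw [hx j hj, zero_mul]

/-- `e^{iθ}` -/
def ee (θ : ℝ) : ℂ := exp (I * θ)

lemma ee_ne (θ : ℝ) : ee θ ≠ 0 := exp_ne_zero _

lemma norm_ee (θ : ℝ) : ‖ee θ‖ = 1 := by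
  unfold ee; rw [mul_comm]; exact norm_exp_ofReal_mul_I θ

lemma ee_zpow (θ : ℝ) (m : ℤ) : ee θ ^ m = exp (I * m * θ) := by
  unfold ee; rw [← exp_int_mul]; congr 1; ring

lemma norm_ee_zpow (θ : ℝ) (m : ℤ) : ‖ee θ ^ m‖ = 1 := by
  rw [norm_zpow, norm_ee, one_zpow]

lemma hasDerivAt_ee_zpow (m : ℤ) (θ : ℝ) :
    HasDerivAt (fun θ : ℝ => ee θ ^ m) (I * m * ee θ ^ m) θ := by
  simp only [ee_zpow]
  have h1 : HasDerivAt (fun θ : ℝ => I * (m : ℂ) * (θ : ℂ)) (I * m) θ := by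
    have h := (hasDerivAt_id θ).ofReal_comp.const_mul (I * (m : ℂ))
    have h2 : HasDerivAt (fun x : ℝ => I * (m : ℂ) * ((id x : ℝ) : ℂ)) (I * m * ((1:ℝ):ℂ)) θ := h
    rw [ofReal_one, mul_one] at h2
    exact h2
  refine h1.cexp.congr_deriv ?_
  ring

lemma ee_sub_inv (θ : ℝ) : ee θ - (ee θ)⁻¹ = 2 * I * (Real.sin θ : ℂ) := by
  have h : (ee θ)⁻¹ = exp (-(I * θ)) := by rw [exp_neg]; rfl
  rw [h, ofReal_sin, Complex.sin]
  unfold ee
  have h1 : (-(θ:ℂ) * I) = -(I * θ) := by ring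
  have h2 : ((θ:ℂ) * I) = I * θ := by ring
  rw [h1, h2]
  ring_nf
  rw [I_sq]
  ring

/-- row polynomial -/
def rowp (M : ℕ) (a : ℤ → ℤ → ℂ) (θ : ℝ) (k : ℤ) : ℂ := ∑ m ∈ sI M, a m k * ee θ ^ m

lemma hasDerivAt_rowp (M : ℕ) (a : ℤ → ℤ → ℂ) (k : ℤ) (θ : ℝ) :
    HasDerivAt (fun θ => rowp M a θ k) (rowp M (fun m k => I * m * a m k) θ k) θ := by
  unfold rowp
  apply (HasDerivAt.fun_sum fun m _ => (hasDerivAt_ee_zpow m θ).const_mul (a m k)).congr_deriv
  apply Finset.sum_congr rfl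
  intro m _
  ring

lemma continuous_rowp (M : ℕ) (a : ℤ → ℤ → ℂ) (k : ℤ) : Continuous fun θ => rowp M a θ k :=
  continuous_iff_continuousAt.mpr fun θ => (hasDerivAt_rowp M a k θ).continuousAt

/-- the element of `W` -/
def polyW (M Q : ℕ) (a : ℤ → ℤ → ℂ) (θ : ℝ) : W := fin Q (rowp M a θ)

lemma polyW_apply (M Q : ℕ) (a : ℤ → ℤ → ℂ) (θ : ℝ) (k : ℤ) (ha : ∀ m k, k ∉ sI Q → a m k = 0) :
    polyW M Q a θ k = rowp M a θ k := by
  unfold polyW
  rw [fin_apply]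
  split_ifs with h
  · rfl
  · unfold rowp
    rw [Finset.sum_eq_zero]
    intro m _
    rw [ha m k h, zero_mul]

lemma norm_polyW_le (M Q : ℕ) (a : ℤ → ℤ → ℂ) (θ : ℝ) :
    ‖polyW M Q a θ‖ ≤ ∑ k ∈ sI Q, ∑ m ∈ sI M, ‖a m k‖ := by
  unfold polyW
  refine (norm_fin_le _ _).trans (Finset.sum_le_sum fun k _ => ?_)
  unfold rowp
  refine (norm_sum_le _ _).trans (Finset.sum_le_sum fun m _ => ?_)
  rw [norm_mul, norm_ee_zpow, mul_one]

lemma continuous_polyW (M Q : ℕ) (a : ℤ → ℤ → ℂ) : Continuous (polyW M Q a) :=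
  continuous_fin fun k => continuous_rowp M a k

/-- the nonlinear coefficients `N = a ⊛ a - k² a / c`  -/
def nl (n K : ℕ) (a : ℤ → ℤ → ℂ) (m k : ℤ) : ℂ := cv n K a a m k - (k : ℂ) ^ 2 * a m k

/-- defect coefficients for speed `hq sin θ` -/
def dfc (n K : ℕ) (hq d : ℂ) (a : ℤ → ℤ → ℂ) (m k : ℤ) : ℂ :=
  I * m * a m k - hq * d / 2 * (nl n K a (m - 1) k - nl n K a (m + 1) k)

lemma cv_supp1 {n K : ℕ} {a : ℤ → ℤ → ℂ} (h1 : ∀ m k : ℤ, n < m.natAbs → a m k = 0)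
    {m : ℤ} (hm : 2 * n < m.natAbs) (k : ℤ) : cv n K a a m k = 0 := by
  unfold cv
  apply Finset.sum_eq_zero
  intro i hi
  apply Finset.sum_eq_zero
  intro j _
  rw [mem_sI] at hi
  rw [h1 (m - i) (k - j) (by omega), mul_zero]

lemma cv_supp2 {n K : ℕ} {a : ℤ → ℤ → ℂ} (h2 : ∀ m k : ℤ, K < k.natAbs → a m k = 0)
    (m : ℤ) {k : ℤ} (hk : 2 * K < k.natAbs) : cv n K a a m k = 0 := by
  unfold cv
  apply Finset.sum_eq_zero
  intro i _
  apply Finset.sum_eq_zero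
  intro j hj
  rw [mem_sI] at hj
  rw [h2 (m - i) (k - j) (by omega), mul_zero]

lemma nl_supp1 {n K : ℕ} {a : ℤ → ℤ → ℂ} (h1 : ∀ m k : ℤ, n < m.natAbs → a m k = 0)
    {m : ℤ} (hm : 2 * n < m.natAbs) (k : ℤ) : nl n K a m k = 0 := by
  unfold nl
  rw [cv_supp1 h1 hm, h1 m k (by omega)]; simp

lemma nl_supp2 {n K : ℕ} {a : ℤ → ℤ → ℂ} (h2 : ∀ m k : ℤ, K < k.natAbs → a m k = 0)
    (m : ℤ) {k : ℤ} (hk : 2 * K < k.natAbs) : nl n K a m k = 0 := by
  unfold nl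
  rw [cv_supp2 h2 m hk, h2 m k (by omega)]; simp

lemma dfc_supp2 {n K : ℕ} {hq d : ℂ} {a : ℤ → ℤ → ℂ}
    (h2 : ∀ m k : ℤ, K < k.natAbs → a m k = 0)
    (m : ℤ) {k : ℤ} (hk : 2 * K < k.natAbs) : dfc n K hq d a m k = 0 := by
  unfold dfc
  rw [nl_supp2 h2 _ hk, nl_supp2 h2 _ hk, h2 m k (by omega)]; simp

/-- the approximate solution identity -/
theorem isApp_poly {n K : ℕ} {hq : ℝ} {d : ℂ} {a : ℤ → ℤ → ℂ}
    (h1 : ∀ m k : ℤ, n < m.natAbs → a m k = 0) (h2 : ∀ m k : ℤ, K < k.natAbs → a m k = 0) :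
    IsApp B1 d (fun θ => hq * Real.sin θ) 0 Real.pi (polyW n K a)
      (polyW (2 * n + 1) (2 * K) (dfc n K hq d a)) := by
  have h2' : ∀ m k : ℤ, k ∉ sI K → a m k = 0 := by
    intro m k hk; apply h2; rw [mem_sI] at hk; omega
  have h2'' : ∀ m k : ℤ, k ∉ sI (2 * K) → dfc n K hq d a m k = 0 := by
    intro m k hk; apply dfc_supp2 h2; rw [mem_sI] at hk; omega
  refine ⟨(continuous_polyW _ _ _).continuousOn, (continuous_polyW _ _ _).continuousOn, ?_⟩
  have key : ∀ (θ : ℝ) (k : ℤ), rowp n (fun m k => I * m * a m k) θ k =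
      ((hq * Real.sin θ : ℝ) : ℂ) * rhs B1 d (polyW n K a θ) k +
      polyW (2 * n + 1) (2 * K) (dfc n K hq d a) θ k := by
    intro θ k
    rw [polyW_apply _ _ _ _ _ h2'']
    have hsup : ∀ j, j ∉ sI K → polyW n K a θ j = 0 := by
      intro j hj; unfold polyW; rw [fin_apply, if_neg hj]
    have hB : B1 (polyW n K a θ) (polyW n K a θ) k =
        ∑ m ∈ sI (2 * n), cv n K a a m k * ee θ ^ m := by
      rw [tsum_fin _ K hsup]
      have e1 : ∀ j ∈ sI K, polyW n K a θ j * polyW n K a θ (k - j) =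
          ∑ m ∈ sI (n + n), (∑ i ∈ sI n, a i j * a (m - i) (k - j)) * ee θ ^ m := by
        intro j _
        rw [polyW_apply _ _ _ _ _ h2', polyW_apply _ _ _ _ _ h2']
        unfold rowp
        exact conv1 (ee_ne θ) (fun m => a m j) (fun m => a m (k - j)) (fun m hm => h1 m _ hm)
      rw [Finset.sum_congr rfl e1, Finset.sum_comm, two_mul]
      apply Finset.sum_congr rfl
      intro m _
      rw [← Finset.sum_mul]
      congr 1
      unfold cv
      rw [Finset.sum_comm]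
    have hN : -(k : ℂ) ^ 2 * polyW n K a θ k + B1 (polyW n K a θ) (polyW n K a θ) k =
        ∑ m ∈ sI (2 * n), nl n K a m k * ee θ ^ m := by
      rw [hB, polyW_apply _ _ _ _ _ h2']
      have e2 : rowp n a θ k = ∑ m ∈ sI (2 * n), a m k * ee θ ^ m := by
        unfold rowp
        rw [sum_extend (b := n) (c := 2 * n) (by omega) (fun m hm => by rw [h1 m k hm, zero_mul])]
      rw [e2, Finset.mul_sum, ← Finset.sum_add_distrib]
      apply Finset.sum_congr rfl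
      intro m _
      unfold nl
      ring
    have e3 : rowp n (fun m k => I * m * a m k) θ k =
        ∑ m ∈ sI (2 * n + 1), (I * m * a m k) * ee θ ^ m := by
      unfold rowp
      rw [sum_extend (b := n) (c := 2 * n + 1) (by omega)
        (fun m hm => by rw [h1 m k hm]; ring)]
    have e4 := sum_shift_up (ee_ne θ) (fun m => nl n K a m k) (b := 2 * n)
      (fun m hm => nl_supp1 h1 hm k)
    have e5 := sum_shift_down (ee_ne θ) (fun m => nl n K a m k) (b := 2 * n)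
      (fun m hm => nl_supp1 h1 hm k)
    have e6 : rowp (2 * n + 1) (dfc n K hq d a) θ k =
        (∑ m ∈ sI (2 * n + 1), (I * m * a m k) * ee θ ^ m) - hq * d / 2 *
        ((ee θ - (ee θ)⁻¹) * ∑ m ∈ sI (2 * n), nl n K a m k * ee θ ^ m) := by
      rw [sub_mul, ← e4, ← e5, mul_sub, Finset.mul_sum, Finset.mul_sum, ← Finset.sum_sub_distrib,
        ← Finset.sum_sub_distrib]
      unfold rowp
      apply Finset.sum_congr rfl
      intro m _
      unfold dfc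
      ring
    rw [e3, e6, rhs, hN, ee_sub_inv]
    push_cast
    ring
  intro s hs k
  have hcoord : ∀ θ, polyW n K a θ k = rowp n a θ k := fun θ => polyW_apply _ _ _ _ _ h2'
  have hD : ∀ θ, HasDerivAt (fun θ => rowp n a θ k) (rowp n (fun m k => I * m * a m k) θ k) θ :=
    fun θ => hasDerivAt_rowp n a k θ
  have hint := integral_eq_sub_of_hasDerivAt (a := (0:ℝ)) (b := s) (fun θ _ => hD θ)
    ((continuous_rowp n (fun m k => I * m * a m k) k).intervalIntegrable _ _)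
  rw [hcoord, hcoord, ← sub_eq_iff_eq_add', ← hint]
  apply integral_congr
  intro θ _
  exact key θ k

end NLSq
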