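import Pool.Agent.H75.NLSWeight

/-!
Weights and reality: transfer of solutions and approximate solutions.
-/

open scoped Topology
open Set Filter Complex MeasureTheory

noncomputable section

namespace NLSq

lemma norm_wgt_inv_le {ν : ℝ} (hν : 1 ≤ ν) (k : ℤ) : ‖(((wgt ν k)⁻¹ : ℝ) : ℂ)‖ ≤ 1 := by
  rw [Complex.norm_real, Real.norm_of_nonneg (inv_nonneg.2 (wgt_pos hν k).le)]
  exact inv_le_one_of_one_le₀ (one_le_wgt hν k)

/-- SPEC (helper74): removing the weight -/
theorem unweight {ν : ℝ} (hν : 1 ≤ ν) {d : ℂ} {a b : ℝ} {u : ℝ → W}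
    (hu : IsSol (Bnu ν hν) d one a b u) {v : ℝ → W}
    (hv : ∀ t k, v t k = ((wgt ν k)⁻¹ : ℝ) * u t k) : IsSol B1 d one a b v := by
  have hw : ∀ k, ((wgt ν k : ℝ) : ℂ) ≠ 0 := fun k => by
    exact_mod_cast (wgt_pos hν k).ne'
  have hvL : ∀ t, v t = shiftL (fun k => (((wgt ν k)⁻¹ : ℝ) : ℂ)) (norm_wgt_inv_le hν) 0 (u t) := by
    intro t; apply W_ext; intro k
    rw [shiftL_apply, sub_zero, hv]
  refine ⟨?_, ?_⟩
  · have h1 : v = fun t => shiftL (fun k => (((wgt ν k)⁻¹ : ℝ) : ℂ)) (norm_wgt_inv_le hν) 0 (u t) :=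
      funext hvL
    rw [h1]
    exact (ContinuousLinearMap.continuous _).comp_continuousOn hu.cont
  · intro s hs k
    have hr : ∀ r, rhs B1 d (v r) k = (((wgt ν k)⁻¹ : ℝ) : ℂ) * rhs (Bnu ν hν) d (u r) k := by
      intro r
      have hB : B1 (v r) (v r) k = (((wgt ν k)⁻¹ : ℝ) : ℂ) * Bnu ν hν (u r) (u r) k := by
        rw [B1_apply, Bnu, conv_apply, ← tsum_mul_left]
        congr 1; funext j
        rw [hv, hv, ckn]
        have h1 := hw k; have h2 := hw j; have h3 := hw (k - j)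
        push_cast
        field_simp
      rw [rhs, rhs, hB, hv]; ring
    rw [hv, hv, hu.eq s hs k, mul_add]
    congr 1
    rw [← intervalIntegral.integral_const_mul]
    congr 1; funext r
    rw [hr]; ring

/-- reflection `x_k ↦ conj x_{-k}` -/
def refl (x : W) : W := mkW (fun k => (starRingEnd ℂ) (x (-k))) (by
  simp only [RCLike.norm_conj]
  exact (Equiv.neg ℤ).summable_iff.mpr (summable_norm x))

@[simp] lemma refl_apply (x : W) (k : ℤ) : refl x k = (starRingEnd ℂ) (x (-k)) := rfl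

lemma norm_refl_sub (x y : W) : ‖refl x - refl y‖ = ‖x - y‖ := by
  rw [norm_eq, norm_eq, ← (Equiv.neg ℤ).tsum_eq (fun k => ‖(x - y) k‖)]
  congr 1; funext k
  show ‖(starRingEnd ℂ) (x (-k)) - (starRingEnd ℂ) (y (-k))‖ = ‖x (-k) - y (-k)‖
  rw [← map_sub, RCLike.norm_conj]

lemma continuous_refl : Continuous refl := by
  have : Isometry refl := Isometry.of_dist_eq fun x y => by
    rw [dist_eq_norm, dist_eq_norm, norm_refl_sub]
  exact this.continuous

/-- SPEC (helper74): the heat flow preserves real-valued functions -/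
theorem heat_real {b : ℝ} {v : ℝ → W} (hv : IsSol B1 (-I) one 0 b v)
    (h0 : ∀ k, v 0 (-k) = (starRingEnd ℂ) (v 0 k)) :
    ∀ t ∈ Icc 0 b, ∀ k, v t (-k) = (starRingEnd ℂ) (v t k) := by
  have hrhs : ∀ (x : W) (k : ℤ), rhs B1 (-I) x k = -(k:ℂ)^2 * x k + B1 x x k := by
    intro x k
    rw [rhs]
    have : I * -I = 1 := by rw [mul_neg, I_mul_I, neg_neg]
    rw [this, one_mul]
  have hBr : ∀ (x : W) (k : ℤ), B1 (refl x) (refl x) k = (starRingEnd ℂ) (B1 x x (-k)) := by
    intro x k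
    rw [B1_apply, B1_apply, RCLike.conj_tsum, ← (Equiv.neg ℤ).tsum_eq]
    congr 1; funext j
    simp only [Equiv.neg_apply, refl_apply, map_mul, neg_neg]
    have : -(k - -j) = -k - j := by ring
    rw [this]
  have hr : IsSol B1 (-I) one 0 b (fun t => refl (v t)) := by
    refine ⟨continuous_refl.comp_continuousOn hv.cont, ?_⟩
    intro s hs k
    simp only [refl_apply]
    rw [hv.eq s hs (-k), map_add]
    congr 1
    have hc : (starRingEnd ℂ) (∫ r in (0:ℝ)..s, ((one r : ℝ) : ℂ) * rhs B1 (-I) (v r) (-k)) =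
        ∫ r in (0:ℝ)..s, (starRingEnd ℂ) (((one r : ℝ) : ℂ) * rhs B1 (-I) (v r) (-k)) := by
      rw [intervalIntegral.integral_of_le hs.1, intervalIntegral.integral_of_le hs.1, integral_conj]
    rw [hc]
    congr 1; funext r
    rw [map_mul, Complex.conj_ofReal, hrhs, hrhs, hBr]
    simp
  have h00 : refl (v 0) = v 0 := by
    apply W_ext; intro k
    rw [refl_apply, h0, starRingEnd_self_apply]
  intro t ht k
  have hu := IsSol.unique norm_B1 (d := -I) norm_I_dir im_I_dir hr hv h00 ht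
  have h2 := congrArg (fun x : W => x k) hu
  simp only [refl_apply] at h2
  rw [← h2, starRingEnd_self_apply]

/-- SPEC (helper74): adding the weight to a polynomial approximate solution -/
theorem isApp_weight {ν : ℝ} (hν : 1 ≤ ν) {d : ℂ} {g : ℝ → ℝ} {n K M Q : ℕ} {α β : ℤ → ℤ → ℂ}
    (_hα : ∀ m k : ℤ, K < k.natAbs → α m k = 0) (_hβ : ∀ m k : ℤ, Q < k.natAbs → β m k = 0)
    (h : IsApp B1 d g 0 Real.pi (polyW n K α) (polyW M Q β)) :
    IsApp (Bnu ν hν) d g 0 Real.pi (polyW n K fun m k => (wgt ν k : ℂ) * α m k)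
      (polyW M Q fun m k => (wgt ν k : ℂ) * β m k) := by
  have hw : ∀ k, ((wgt ν k : ℝ) : ℂ) ≠ 0 := fun k => by
    exact_mod_cast (wgt_pos hν k).ne'
  have hp : ∀ (n K : ℕ) (α : ℤ → ℤ → ℂ) (θ : ℝ) (k : ℤ),
      polyW n K (fun m k => (wgt ν k : ℂ) * α m k) θ k = (wgt ν k : ℂ) * polyW n K α θ k := by
    intro n K α θ k
    unfold polyW
    rw [fin_apply, fin_apply]
    split_ifs
    · unfold rowp; rw [Finset.mul_sum]
      apply Finset.sum_congr rfl; intro m _; ring
    · ring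
  refine ⟨(continuous_polyW _ _ _).continuousOn, (continuous_polyW _ _ _).continuousOn, ?_⟩
  intro s hs k
  have hB : ∀ r, Bnu ν hν (polyW n K (fun m k => (wgt ν k : ℂ) * α m k) r)
      (polyW n K (fun m k => (wgt ν k : ℂ) * α m k) r) k =
      (wgt ν k : ℂ) * B1 (polyW n K α r) (polyW n K α r) k := by
    intro r
    rw [B1_apply, Bnu, conv_apply, ← tsum_mul_left]
    congr 1; funext j
    rw [hp, hp, ckn]
    have h1 := hw k; have h2 := hw j; have h3 := hw (k - j)
    push_cast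
    field_simp
  have hr : ∀ r, rhs (Bnu ν hν) d (polyW n K (fun m k => (wgt ν k : ℂ) * α m k) r) k =
      (wgt ν k : ℂ) * rhs B1 d (polyW n K α r) k := by
    intro r
    rw [rhs, rhs, hB, hp]; ring
  rw [hp, hp, h.eq s hs k, mul_add]
  congr 1
  rw [← intervalIntegral.integral_const_mul]
  congr 1; funext r
  rw [hr, hp]; ring

end NLSq
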