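import Pool.Agent.H75.NLSFix

/-!
Commutation of the real-time flow and the heat flow on a rectangle, assuming that all the
horizontal solutions exist.
-/

open scoped Topology BoundedContinuousFunction NNReal
open Set MeasureTheory intervalIntegral Complex Metric

noncomputable section

namespace NLSq

lemma norm_one_dir : ‖(1:ℂ)‖ = 1 := norm_one
lemma norm_I_dir : ‖(-I:ℂ)‖ = 1 := by simp
lemma im_one_dir : (1:ℂ).im ≤ 0 := by simp
lemma im_I_dir : (-I:ℂ).im ≤ 0 := by simp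

/-- local square solution, directional form -/
theorem local_square {B : W →L[ℂ] W →L[ℂ] W} (hB : ∀ x y, ‖B x y‖ ≤ ‖x‖ * ‖y‖) {M : ℝ}
    (hM : 0 < M) {δ : ℝ} (hδ : 0 < δ) (hδM : 16 * δ * M ≤ 1) (w : W) (hw : ‖w‖ ≤ M) :
    ∃ V : ℂ → W, V 0 = w ∧
      (∀ σ ∈ Icc 0 δ, IsSol B (-I) one 0 δ (fun r => V (σ - r * I))) ∧
      (∀ τ ∈ Icc 0 δ, IsSol B 1 one 0 δ (fun s => V (s - τ * I))) := by
  obtain ⟨V, cV, -, hk, heq⟩ := exists_local hB hM hδ hδM w hw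
  refine ⟨V, ?_, ?_, ?_⟩
  · have h0 : (0:ℂ) ∈ Sq δ := by rw [mem_Sq]; simp [hδ.le]
    apply W_ext
    intro k
    have h1 : V 0 k = Pic B w V 0 k := by rw [← heq _ h0]
    rw [h1, Pic_coord cV (by simp) k]
    simp [wedgeIntegral]
  · intro σ hσ
    refine ⟨?_, ?_⟩
    · exact (cV.comp (by fun_prop)).continuousOn
    · intro s hs k
      have h := eq_along cV hk heq (d := -I) (t1 := (σ:ℂ)) (Or.inr rfl) (L := δ) (by
        intro x hx
        rw [mem_Sq]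
        simp only [add_re, ofReal_re, mul_re, neg_re, I_re, neg_zero, zero_mul, neg_im, I_im,
          ofReal_im, mul_zero, sub_zero, add_zero, add_im, mul_im, zero_add]
        exact ⟨⟨hσ.1, hσ.2⟩, by linarith [hx.2], by linarith [hx.1]⟩) hs k
      have e1 : ∀ x : ℝ, ((σ:ℂ) + -I * x) = (σ:ℂ) - x * I := by intro x; ring
      simp only [e1] at h
      simp only [one, ofReal_one, one_mul, ofReal_zero, zero_mul, sub_zero]
      exact h
  · intro τ hτ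
    refine ⟨?_, ?_⟩
    · exact (cV.comp (by fun_prop)).continuousOn
    · intro s hs k
      have h := eq_along cV hk heq (d := 1) (t1 := -(τ:ℂ) * I) (Or.inl rfl) (L := δ) (by
        intro x hx
        rw [mem_Sq]
        simp only [add_re, mul_re, neg_re, ofReal_re, I_re, mul_zero, neg_im, ofReal_im, neg_zero,
          I_im, mul_one, sub_self, one_mul, zero_add, add_im, mul_im, add_zero]
        exact ⟨⟨hx.1, hx.2⟩, by linarith [hτ.2], by linarith [hτ.1]⟩) hs k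
      have e1 : ∀ x : ℝ, (-(τ:ℂ) * I + 1 * x) = (x:ℂ) - τ * I := by intro x; ring
      simp only [e1] at h
      simp only [one, ofReal_one, one_mul, ofReal_zero, zero_sub]
      rw [← neg_mul]
      exact h

/-- uniform bound on the rectangle -/
lemma uniform_bound {B : W →L[ℂ] W →L[ℂ] W} (hB : ∀ x y, ‖B x y‖ ≤ ‖x‖ * ‖y‖) {σ₁ τ₁ : ℝ}
    (hσ : 0 ≤ σ₁) {w : ℝ → W} (hw : ContinuousOn w (Icc 0 τ₁)) {V : ℝ → ℝ → W}
    (hV : ∀ τ ∈ Icc 0 τ₁, IsSol B 1 one 0 σ₁ (V τ)) (hV0 : ∀ τ ∈ Icc 0 τ₁, V τ 0 = w τ) :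
    ∃ M : ℝ, ∀ τ ∈ Icc 0 τ₁, ∀ σ ∈ Icc 0 σ₁, ‖V τ σ‖ ≤ M := by
  have key := isCompact_Icc (a := (0:ℝ)) (b := τ₁) |>.induction_on
    (p := fun s => ∃ M : ℝ, ∀ τ ∈ s, τ ∈ Icc 0 τ₁ → ∀ σ ∈ Icc 0 σ₁, ‖V τ σ‖ ≤ M)
    ⟨0, by simp⟩
    (fun s t hst ⟨M, hM⟩ => ⟨M, fun τ hτ => hM τ (hst hτ)⟩)
    (fun s t ⟨M, hM⟩ ⟨M', hM'⟩ => ⟨max M M', fun τ hτ hτI σ hσ => by
      rcases hτ with h | h
      · exact (hM τ h hτI σ hσ).trans (le_max_left _ _)
      · exact (hM' τ h hτI σ hσ).trans (le_max_right _ _)⟩)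
    (fun τ0 hτ0 => by
      obtain ⟨R, hR⟩ := isCompact_Icc.exists_bound_of_continuousOn (hV τ0 hτ0).cont
      have hR0 : 0 ≤ R := (norm_nonneg _).trans (hR 0 ⟨le_refl 0, hσ⟩)
      set E := Real.exp ((2 * R + 1) * σ₁) with hE
      have hEpos : 0 < E := Real.exp_pos _
      refine ⟨{τ | ‖w τ - w τ0‖ < 1 / (2 * E)}, ?_, R + 1, ?_⟩
      · have := (hw τ0 hτ0)
        rw [ContinuousWithinAt, Metric.tendsto_nhds] at this
        have h2 := this (1 / (2 * E)) (by positivity)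
        filter_upwards [h2] with τ hτ
        rwa [dist_eq_norm] at hτ
      · intro τ hτ hτI σ hσI
        have hint : ∀ x : ℝ, (∫ r in (0:ℝ)..x, one r) = x := by intro x; simp [one]
        have hlt : (1 / (2 * E) + 0 * (σ₁ - 0)) *
            Real.exp ((2 * R + 1) * ∫ r in (0:ℝ)..σ₁, one r) < 1 := by
          rw [hint, ← hE, zero_mul, add_zero]
          field_simp; norm_num
        have h := closeness hB norm_one_dir im_one_dir hσ contOn_one one_nonneg' (hV τ hτI)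
          (hV τ0 hτ0).isApp (M := R) (δ := 0) (ε := 1 / (2 * E)) (η := 1) hR (by simp)
          (by rw [hV0 τ hτI, hV0 τ0 hτ0]; exact (le_of_lt hτ)) hlt hσI
        have h3 : (1 / (2 * E) + 0 * (σ₁ - 0)) *
            Real.exp ((2 * R + 1) * ∫ r in (0:ℝ)..σ, one r) ≤ 1 := by
          refine le_trans ?_ hlt.le
          rw [hint, hint]
          apply mul_le_mul_of_nonneg_left
          · apply Real.exp_le_exp.mpr
            apply mul_le_mul_of_nonneg_left hσI.2 (by linarith)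
          · positivity
        calc ‖V τ σ‖ = ‖(V τ σ - V τ0 σ) + V τ0 σ‖ := by rw [sub_add_cancel]
          _ ≤ ‖V τ σ - V τ0 σ‖ + ‖V τ0 σ‖ := norm_add_le _ _
          _ ≤ 1 + R := add_le_add (h.trans h3) (hR σ hσI)
          _ = R + 1 := add_comm _ _)
  obtain ⟨M, hM⟩ := key
  exact ⟨M, fun τ hτ σ hσ => hM τ hτ hτ σ hσ⟩

/-- one small cell -/
lemma cell {B : W →L[ℂ] W →L[ℂ] W} (hB : ∀ x y, ‖B x y‖ ≤ ‖x‖ * ‖y‖) {σ₁ τ₁ : ℝ}
    {V : ℝ → ℝ → W}
    (hV : ∀ τ ∈ Icc 0 τ₁, IsSol B 1 one 0 σ₁ (V τ)) {M : ℝ} (hM : 0 < M)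
    (hMb : ∀ τ ∈ Icc 0 τ₁, ∀ σ ∈ Icc 0 σ₁, ‖V τ σ‖ ≤ M) {δ : ℝ} (hδ : 0 < δ)
    (hδM : 16 * δ * M ≤ 1) {a h τ0 p : ℝ} (ha : 0 ≤ a) (hh : 0 ≤ h) (hhδ : h ≤ δ)
    (hah : a + h ≤ σ₁) (hτ0 : 0 ≤ τ0) (hp : 0 ≤ p) (hpδ : p ≤ δ) (hτp : τ0 + p ≤ τ₁)
    (hW : IsSol B (-I) one 0 τ₁ (fun τ => V τ a)) :
    IsSol B (-I) one τ0 (τ0 + p) (fun τ => V τ (a + h)) := by
  have hτ0I : τ0 ∈ Icc 0 τ₁ := ⟨hτ0, by linarith⟩
  have haI : a ∈ Icc 0 σ₁ := ⟨ha, by linarith⟩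
  obtain ⟨Vl, hV0, hvert, hhor⟩ := local_square hB hM hδ hδM (V τ0 a) (hMb τ0 hτ0I a haI)
  -- vertical identification
  have hv : ∀ r ∈ Icc 0 p, Vl (-(r:ℂ) * I) = V (τ0 + r) a := by
    intro r hr
    have h1 : IsSol B (-I) one 0 p (fun r => Vl (((0:ℝ):ℂ) - r * I)) :=
      (hvert 0 ⟨le_refl 0, hδ.le⟩).mono contOn_one le_rfl hpδ
    have h2 : IsSol B (-I) one 0 p (fun r => V (r + τ0) a) := by
      have h3 := (hW.mono contOn_one (a' := τ0) (b' := τ0 + p) hτ0 hτp).translate τ0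
      rwa [sub_self, add_sub_cancel_left] at h3
    have h4 := h1.unique hB norm_I_dir im_I_dir h2 (by simp [hV0]) hr
    simp only [ofReal_zero, zero_sub] at h4
    rw [neg_mul, h4, add_comm]
  -- horizontal identification
  have hhz : ∀ r ∈ Icc 0 p, V (τ0 + r) (a + h) = Vl ((h:ℂ) - r * I) := by
    intro r hr
    have hrδ : r ∈ Icc 0 δ := ⟨hr.1, hr.2.trans hpδ⟩
    have hτr : τ0 + r ∈ Icc 0 τ₁ := ⟨by linarith [hr.1], by linarith [hr.2]⟩
    have h1 : IsSol B 1 one 0 h (fun s => Vl ((s:ℂ) - r * I)) :=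
      (hhor r hrδ).mono contOn_one le_rfl hhδ
    have h2 : IsSol B 1 one 0 h (fun s => V (τ0 + r) (s + a)) := by
      have h3 := ((hV (τ0 + r) hτr).mono contOn_one (a' := a) (b' := a + h) ha hah).translate a
      rwa [sub_self, add_sub_cancel_left] at h3
    have h4 := h1.unique hB norm_one_dir im_one_dir h2 (by
      simp only [ofReal_zero, zero_sub, zero_add]
      rw [← neg_mul]; exact hv r hr) (s := h) ⟨hh, le_refl h⟩
    rw [h4, add_comm h a]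
  have h5 : IsSol B (-I) one 0 p (fun r => V (τ0 + r) (a + h)) :=
    ((hvert h ⟨hh, hhδ⟩).mono contOn_one le_rfl hpδ).congr hhz
  have h6 := h5.translate (-τ0)
  rw [zero_sub, neg_neg, sub_neg_eq_add, add_comm p τ0] at h6
  apply h6.congr
  intro s _
  simp

lemma glue_steps {B : W →L[ℂ] W →L[ℂ] W} {d : ℂ} {τ₁ : ℝ} (hτ : 0 ≤ τ₁) {u : ℝ → W} {N : ℕ}
    (hN : 0 < N)
    (h : ∀ j : ℕ, j < N → IsSol B d one (j * (τ₁ / N)) (j * (τ₁ / N) + τ₁ / N) u) :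
    IsSol B d one 0 τ₁ u := by
  have hq : 0 ≤ τ₁ / N := by positivity
  have key : ∀ j : ℕ, j < N → IsSol B d one 0 ((j + 1 : ℕ) * (τ₁ / N)) u := by
    intro j
    induction j with
    | zero =>
      intro h0
      have := h 0 h0
      simpa using this
    | succ j ih =>
      intro hj
      have h1 := ih (by omega)
      have h2 := h (j + 1) hj
      have e : (((j + 1 : ℕ) : ℝ)) * (τ₁ / N) + τ₁ / N = ((j + 1 + 1 : ℕ) : ℝ) * (τ₁ / N) := by
        push_cast; ring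
      rw [e] at h2
      refine h1.glue ?_ ?_ contOn_one h2
      · positivity
      · apply mul_le_mul_of_nonneg_right _ hq
        push_cast; linarith
  have h1 := key (N - 1) (by omega)
  have e : (((N - 1 + 1 : ℕ) : ℝ)) * (τ₁ / N) = τ₁ := by
    rw [Nat.sub_add_cancel hN]
    field_simp
  rwa [e] at h1

/-- **Commutation on a rectangle.** -/
theorem commute_rect {B : W →L[ℂ] W →L[ℂ] W} (hB : ∀ x y, ‖B x y‖ ≤ ‖x‖ * ‖y‖) {σ₁ τ₁ : ℝ}
    (hσ : 0 ≤ σ₁) (hτ : 0 ≤ τ₁) {w : ℝ → W} (hw : IsSol B (-I) one 0 τ₁ w) {V : ℝ → ℝ → W}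
    (hV : ∀ τ ∈ Icc 0 τ₁, IsSol B 1 one 0 σ₁ (V τ)) (hV0 : ∀ τ ∈ Icc 0 τ₁, V τ 0 = w τ) :
    IsSol B (-I) one 0 τ₁ (fun τ => V τ σ₁) := by
  obtain ⟨M', hM'⟩ := uniform_bound hB hσ hw.cont hV hV0
  set M := max M' 1 with hMdef
  have hM : 0 < M := lt_of_lt_of_le one_pos (le_max_right _ _)
  have hMb : ∀ τ ∈ Icc 0 τ₁, ∀ σ ∈ Icc 0 σ₁, ‖V τ σ‖ ≤ M := fun τ h1 σ h2 =>
    (hM' τ h1 σ h2).trans (le_max_left _ _)
  set δ := 1 / (16 * M) with hδdef
  have hδ : 0 < δ := by positivity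
  have hδM : 16 * δ * M ≤ 1 := by rw [hδdef]; field_simp; norm_num
  obtain ⟨N, hNgt⟩ := exists_nat_gt (max (σ₁ / δ) (τ₁ / δ))
  have hNpos : 0 < N := by
    have : (0:ℝ) < N := lt_of_le_of_lt (le_max_of_le_left (by positivity)) hNgt
    exact_mod_cast this
  have hNR : (0:ℝ) < N := by exact_mod_cast hNpos
  have h1N : σ₁ / N ≤ δ := by
    have := (le_max_left _ _).trans_lt hNgt
    rw [div_lt_iff₀ hδ] at this
    rw [div_le_iff₀ hNR]; linarith
  have h2N : τ₁ / N ≤ δ := by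
    have := (le_max_right (σ₁ / δ) (τ₁ / δ)).trans_lt hNgt
    rw [div_lt_iff₀ hδ] at this
    rw [div_le_iff₀ hNR]; linarith
  have key : ∀ n : ℕ, n ≤ N → IsSol B (-I) one 0 τ₁ (fun τ => V τ (n * (σ₁ / N))) := by
    intro n
    induction n with
    | zero =>
      intro _
      apply hw.congr
      intro s hs
      simp [hV0 s hs]
    | succ n ih =>
      intro hn
      have hprev := ih (by omega)
      have hnR : ((n:ℝ) + 1) ≤ N := by exact_mod_cast hn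
      have e : (((n + 1 : ℕ) : ℝ)) * (σ₁ / N) = n * (σ₁ / N) + σ₁ / N := by push_cast; ring
      rw [e]
      apply glue_steps hτ hNpos
      intro j hj
      have hjR : ((j:ℝ) + 1) ≤ N := by exact_mod_cast hj
      apply cell hB hV hM hMb hδ hδM (by positivity) (by positivity) h1N _ (by positivity)
        (by positivity) h2N _ hprev
      · have : ((n:ℝ) + 1) * (σ₁ / N) ≤ N * (σ₁ / N) :=
          mul_le_mul_of_nonneg_right hnR (by positivity)
        have e2 : (N:ℝ) * (σ₁ / N) = σ₁ := by field_simp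
        linarith
      · have : ((j:ℝ) + 1) * (τ₁ / N) ≤ N * (τ₁ / N) :=
          mul_le_mul_of_nonneg_right hjR (by positivity)
        have e2 : (N:ℝ) * (τ₁ / N) = τ₁ := by field_simp
        linarith
  have h1 := key N le_rfl
  have e2 : (N:ℝ) * (σ₁ / N) = σ₁ := by field_simp
  rwa [e2] at h1

end NLSq
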