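import Mathlib

/-!
Scalar lemmas: Duhamel estimate and a Gronwall inequality in integral form.
-/

open scoped Topology
open Set MeasureTheory intervalIntegral

noncomputable section

namespace NLSq

/-- continuous extension of a function on `[a,b]` -/
def ext {E : Type*} (a b : ℝ) (h : a ≤ b) (f : ℝ → E) : ℝ → E := IccExtend h (fun x => f x)

lemma ext_eq {E : Type*} {a b : ℝ} (h : a ≤ b) (f : ℝ → E) {x : ℝ} (hx : x ∈ Icc a b) :
    ext a b h f x = f x := by
  simp [ext, IccExtend_of_mem h _ hx]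

lemma ext_cont {E : Type*} [TopologicalSpace E] {a b : ℝ} (h : a ≤ b) {f : ℝ → E}
    (hf : ContinuousOn f (Icc a b)) : Continuous (ext a b h f) := by
  unfold ext
  exact (continuousOn_iff_continuous_domRestrict.mp hf).Icc_extend'

/-- Duhamel estimate. -/
lemma duhamel_bound {a b : ℝ} (hab : a ≤ b) {lam : ℂ} (hlam : lam.re ≤ 0) {g : ℝ → ℝ}
    {y G : ℝ → ℂ} (hg : ContinuousOn g (Icc a b)) (hg0 : ∀ r ∈ Icc a b, 0 ≤ g r)
    (hy : ContinuousOn y (Icc a b)) (hG : ContinuousOn G (Icc a b))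
    (heq : ∀ s ∈ Icc a b, y s = y a + ∫ r in a..s, ((g r : ℂ) * (lam * y r) + G r))
    {s : ℝ} (hs : s ∈ Icc a b) : ‖y s‖ ≤ ‖y a‖ + ∫ r in a..s, ‖G r‖ := by
  set g' := ext a b hab g with hg'
  set y' := ext a b hab y with hy'
  set G' := ext a b hab G with hG'
  have cg : Continuous g' := ext_cont hab hg
  have cy : Continuous y' := ext_cont hab hy
  have cG : Continuous G' := ext_cont hab hG
  set Γ : ℝ → ℝ := fun s => ∫ r in a..s, g' r with hΓ
  have dΓ : ∀ s, HasDerivAt Γ (g' s) s := fun s => cg.integral_hasStrictDerivAt a s |>.hasDerivAt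
  set h' : ℝ → ℂ := fun r => (g' r : ℂ) * (lam * y' r) + G' r with hh'
  have ch : Continuous h' := by fun_prop
  set Y : ℝ → ℂ := fun s => y a + ∫ r in a..s, h' r with hY
  have dY : ∀ s, HasDerivAt Y (h' s) s := fun s =>
    (ch.integral_hasStrictDerivAt a s |>.hasDerivAt).const_add _
  have hYy : ∀ s ∈ Icc a b, Y s = y s := by
    intro s hs
    rw [heq s hs, hY]
    simp only
    congr 1
    apply integral_congr
    intro r hr
    rw [uIcc_of_le hs.1] at hr
    have hr' : r ∈ Icc a b := ⟨hr.1, hr.2.trans hs.2⟩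
    simp only [hh', hg', hy', hG', ext_eq hab _ hr']
  set w : ℝ → ℂ := fun s => Complex.exp (-(lam * (Γ s : ℂ))) * Y s with hw
  have dw : ∀ s, HasDerivAt w
      (Complex.exp (-(lam * (Γ s : ℂ))) * (h' s - lam * (g' s : ℂ) * Y s)) s := by
    intro s
    have h1 : HasDerivAt (fun s => -(lam * (Γ s : ℂ))) (-(lam * (g' s : ℂ))) s :=
      ((dΓ s).ofReal_comp.const_mul lam).neg
    refine (h1.cexp.mul (dY s)).congr_deriv ?_
    ring
  have cΓ : Continuous Γ := continuous_iff_continuousAt.mpr fun s => (dΓ s).continuousAt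
  have cY : Continuous Y := continuous_iff_continuousAt.mpr fun s => (dY s).continuousAt
  have hwint : w s - w a = ∫ r in a..s,
      Complex.exp (-(lam * (Γ r : ℂ))) * (h' r - lam * (g' r : ℂ) * Y r) := by
    rw [integral_eq_sub_of_hasDerivAt (fun r _ => dw r)]
    apply Continuous.intervalIntegrable
    have : Continuous fun r => ((Γ r : ℝ) : ℂ) := Complex.continuous_ofReal.comp cΓ
    have : Continuous fun r => ((g' r : ℝ) : ℂ) := Complex.continuous_ofReal.comp cg
    fun_prop
  have hwint2 : w s - w a = ∫ r in a..s, Complex.exp (-(lam * (Γ r : ℂ))) * G r := by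
    rw [hwint]
    apply integral_congr
    intro r hr
    rw [uIcc_of_le hs.1] at hr
    have hr' : r ∈ Icc a b := ⟨hr.1, hr.2.trans hs.2⟩
    simp only [hh', hYy r hr', hy', hG', ext_eq hab _ hr']
    ring
  have hΓa : Γ a = 0 := by simp [hΓ]
  have hwa : w a = y a := by
    simp [hw, hΓa, hY]
  have hΓmono : ∀ r ∈ Icc a s, Γ r ≤ Γ s := by
    intro r hr
    have : Γ s - Γ r = ∫ x in r..s, g' x := by
      rw [hΓ]; simp only
      rw [integral_interval_sub_left] <;> exact cg.intervalIntegrable _ _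
    have h2 : 0 ≤ ∫ x in r..s, g' x := by
      apply integral_nonneg hr.2
      intro x hx
      have hx' : x ∈ Icc a b := ⟨hr.1.trans hx.1, hx.2.trans hs.2⟩
      rw [hg', ext_eq hab _ hx']; exact hg0 x hx'
    linarith
  have key : y s = Complex.exp (lam * (Γ s : ℂ)) * y a +
      ∫ r in a..s, Complex.exp (lam * ((Γ s - Γ r : ℝ) : ℂ)) * G r := by
    have h1 : y s = Complex.exp (lam * (Γ s : ℂ)) * w s := by
      rw [hw, ← hYy s hs]
      simp only
      rw [← mul_assoc, ← Complex.exp_add]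
      simp
    rw [h1]
    have h2 : w s = y a + ∫ r in a..s, Complex.exp (-(lam * (Γ r : ℂ))) * G r := by
      rw [← hwint2, hwa]; ring
    rw [h2, mul_add, ← intervalIntegral.integral_const_mul]
    congr 1
    apply integral_congr
    intro r _
    simp only
    rw [← mul_assoc, ← Complex.exp_add]
    congr 2
    push_cast; ring
  have hexp : ∀ r ∈ Icc a s, ‖Complex.exp (lam * ((Γ s - Γ r : ℝ) : ℂ))‖ ≤ 1 := by
    intro r hr
    rw [Complex.norm_exp]
    apply Real.exp_le_one_iff.mpr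
    rw [Complex.mul_re, Complex.ofReal_re, Complex.ofReal_im, mul_zero, sub_zero]
    exact mul_nonpos_of_nonpos_of_nonneg hlam (by linarith [hΓmono r hr])
  have hGint : IntervalIntegrable G volume a s :=
    (hG.mono (by rw [uIcc_of_le hs.1]; exact Icc_subset_Icc_right hs.2)).intervalIntegrable
  rw [key]
  refine (norm_add_le _ _).trans (add_le_add ?_ ?_)
  · rw [norm_mul]
    have := hexp a ⟨le_refl a, hs.1⟩
    rw [hΓa, sub_zero] at this
    calc _ ≤ 1 * ‖y a‖ := by gcongr
      _ = _ := one_mul _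
  · apply intervalIntegral.norm_integral_le_of_norm_le hs.1
    · refine Filter.Eventually.of_forall ?_
      intro r hr
      rw [norm_mul]
      calc _ ≤ 1 * ‖G r‖ := by gcongr; exact hexp r ⟨hr.1.le, hr.2⟩
        _ = _ := one_mul _
    · exact hGint.norm

/-- Gronwall inequality in integral form. -/
lemma gronwall_int {a b : ℝ} (hab : a ≤ b) {g N : ℝ → ℝ} {C κ : ℝ} (hκ : 0 ≤ κ)
    (hg : ContinuousOn g (Icc a b)) (hg0 : ∀ r ∈ Icc a b, 0 ≤ g r)
    (hN : ContinuousOn N (Icc a b))
    (h : ∀ s ∈ Icc a b, N s ≤ C + ∫ r in a..s, κ * g r * N r)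
    {s : ℝ} (hs : s ∈ Icc a b) : N s ≤ C * Real.exp (κ * ∫ r in a..s, g r) := by
  set g' := ext a b hab g with hg'
  set N' := ext a b hab N with hN'
  have cg : Continuous g' := ext_cont hab hg
  have cN : Continuous N' := ext_cont hab hN
  set Γ : ℝ → ℝ := fun s => ∫ r in a..s, g' r with hΓ
  have dΓ : ∀ s, HasDerivAt Γ (g' s) s := fun s => cg.integral_hasStrictDerivAt a s |>.hasDerivAt
  have ch : Continuous fun r => κ * g' r * N' r := by fun_prop
  set Φ : ℝ → ℝ := fun s => C + ∫ r in a..s, κ * g' r * N' r with hΦ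
  have dΦ : ∀ s, HasDerivAt Φ (κ * g' s * N' s) s := fun s =>
    (ch.integral_hasStrictDerivAt a s |>.hasDerivAt).const_add _
  have hint : ∀ s ∈ Icc a b, (∫ r in a..s, κ * g r * N r) = ∫ r in a..s, κ * g' r * N' r := by
    intro s hs
    apply integral_congr
    intro r hr
    rw [uIcc_of_le hs.1] at hr
    have hr' : r ∈ Icc a b := ⟨hr.1, hr.2.trans hs.2⟩
    simp only [hg', hN', ext_eq hab _ hr']
  have hNΦ : ∀ s ∈ Icc a b, N s ≤ Φ s := by
    intro s hs
    have := h s hs
    rwa [hint s hs] at this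
  set Ψ : ℝ → ℝ := fun s => Φ s * Real.exp (-(κ * Γ s)) with hΨ
  have dΨ : ∀ s, HasDerivAt Ψ ((κ * g' s * N' s) * Real.exp (-(κ * Γ s)) +
      Φ s * (Real.exp (-(κ * Γ s)) * (-(κ * g' s)))) s := by
    intro s
    exact (dΦ s).mul (((dΓ s).const_mul κ).neg.exp)
  have hanti : AntitoneOn Ψ (Icc a b) := by
    apply antitoneOn_of_deriv_nonpos (convex_Icc a b)
    · exact (continuous_iff_continuousAt.mpr fun s => (dΨ s).continuousAt).continuousOn
    · intro s _; exact (dΨ s).differentiableAt.differentiableWithinAt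
    · intro s hs
      rw [interior_Icc] at hs
      have hs' : s ∈ Icc a b := ⟨hs.1.le, hs.2.le⟩
      rw [(dΨ s).deriv]
      have h1 : N' s ≤ Φ s := by rw [hN', ext_eq hab _ hs']; exact hNΦ s hs'
      have h2 : 0 ≤ g' s := by rw [hg', ext_eq hab _ hs']; exact hg0 s hs'
      have h3 := Real.exp_pos (-(κ * Γ s))
      have : (κ * g' s * N' s) * Real.exp (-(κ * Γ s)) +
        Φ s * (Real.exp (-(κ * Γ s)) * (-(κ * g' s))) =
        -((κ * g' s) * Real.exp (-(κ * Γ s)) * (Φ s - N' s)) := by ring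
      rw [this]
      have : 0 ≤ (κ * g' s) * Real.exp (-(κ * Γ s)) * (Φ s - N' s) := by
        have := sub_nonneg.mpr h1
        positivity
      linarith
  have h1 := hanti ⟨le_refl a, hab⟩ hs hs.1
  have hΨa : Ψ a = C := by simp [hΨ, hΦ, hΓ]
  rw [hΨa] at h1
  have hΓs : Γ s = ∫ r in a..s, g r := by
    apply integral_congr
    intro r hr
    rw [uIcc_of_le hs.1] at hr
    have hr' : r ∈ Icc a b := ⟨hr.1, hr.2.trans hs.2⟩
    simp only [hg', ext_eq hab _ hr']
  rw [← hΓs]
  calc N s ≤ Φ s := hNΦ s hs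
    _ = Ψ s * Real.exp (κ * Γ s) := by
        rw [hΨ]; simp only; rw [mul_assoc, ← Real.exp_add]; simp
    _ ≤ C * Real.exp (κ * Γ s) := by gcongr

end NLSq
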