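import Pool.Agent.H75.NLSWiener
import Pool.Agent.H75.NLSScalar

/-!
Mild solutions along a direction, and the stability (closeness) estimate.
-/

open scoped Topology
open Set MeasureTheory intervalIntegral

noncomputable section

namespace NLSq

/-- the `k`-th Fourier coefficient of `i d (u_xx + B(u,u))` -/
def rhs (B : W →L[ℂ] W →L[ℂ] W) (d : ℂ) (x : W) (k : ℤ) : ℂ :=
  Complex.I * d * (-(k : ℂ) ^ 2 * x k + B x x k)

/-- `u` solves `u_s = g(s) i d (u_xx + B(u,u))` on `[a,b]` (integral form, coefficientwise) -/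
structure IsSol (B : W →L[ℂ] W →L[ℂ] W) (d : ℂ) (g : ℝ → ℝ) (a b : ℝ) (u : ℝ → W) : Prop where
  cont : ContinuousOn u (Icc a b)
  eq : ∀ s ∈ Icc a b, ∀ k, u s k = u a k + ∫ r in a..s, (g r : ℂ) * rhs B d (u r) k

/-- approximate solution with defect `D` -/
structure IsApp (B : W →L[ℂ] W →L[ℂ] W) (d : ℂ) (g : ℝ → ℝ) (a b : ℝ) (U D : ℝ → W) : Prop where
  cont : ContinuousOn U (Icc a b)
  contD : ContinuousOn D (Icc a b)
  eq : ∀ s ∈ Icc a b, ∀ k, U s k = U a k + ∫ r in a..s, ((g r : ℂ) * rhs B d (U r) k + D r k)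

lemma contOn_coord {a b : ℝ} {u : ℝ → W} (hu : ContinuousOn u (Icc a b)) (k : ℤ) :
    ContinuousOn (fun s => u s k) (Icc a b) :=
  (ev k).continuous.comp_continuousOn hu

lemma contOn_B {B : W →L[ℂ] W →L[ℂ] W} {a b : ℝ} {u v : ℝ → W} (hu : ContinuousOn u (Icc a b))
    (hv : ContinuousOn v (Icc a b)) :
    ContinuousOn (fun s => B (u s) (v s)) (Icc a b) :=
  (B.continuous.comp_continuousOn hu).clm_apply hv

lemma contOn_rhs {B : W →L[ℂ] W →L[ℂ] W} {d : ℂ} {a b : ℝ} {u : ℝ → W}
    (hu : ContinuousOn u (Icc a b)) (k : ℤ) :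
    ContinuousOn (fun s => rhs B d (u s) k) (Icc a b) := by
  unfold rhs
  have h1 := contOn_coord hu k
  have h2 := contOn_coord (contOn_B (B := B) hu hu) k
  exact continuousOn_const.mul ((continuousOn_const.mul h1).add h2)

lemma IsSol.isApp {B : W →L[ℂ] W →L[ℂ] W} {d : ℂ} {g : ℝ → ℝ} {a b : ℝ} {u : ℝ → W}
    (h : IsSol B d g a b u) : IsApp B d g a b u (fun _ => 0) where
  cont := h.cont
  contD := continuousOn_const
  eq := fun s hs k => by
    rw [h.eq s hs k]
    congr 1
    apply integral_congr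
    intro r _
    simp

/-- integral inequality for the difference of a solution and an approximate solution -/
lemma diff_ineq {B : W →L[ℂ] W →L[ℂ] W} (hB : ∀ x y, ‖B x y‖ ≤ ‖x‖ * ‖y‖) {d : ℂ}
    (hd : ‖d‖ = 1) (hdim : d.im ≤ 0) {g : ℝ → ℝ} {a b : ℝ} (hab : a ≤ b)
    (hg : ContinuousOn g (Icc a b)) (hg0 : ∀ r ∈ Icc a b, 0 ≤ g r) {u U D : ℝ → W}
    (hu : IsSol B d g a b u) (hU : IsApp B d g a b U D) {s : ℝ} (hs : s ∈ Icc a b) :
    ‖u s - U s‖ ≤ ‖u a - U a‖ +
      ∫ r in a..s, (g r * (2 * ‖U r‖ * ‖u r - U r‖ + ‖u r - U r‖ ^ 2) + ‖D r‖) := by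
  set e : ℝ → W := fun r => u r - U r with he
  have ce : ContinuousOn e (Icc a b) := hu.cont.sub hU.cont
  set G : ℝ → W := fun r => ((g r : ℂ) * (Complex.I * d)) • (B (u r) (u r) - B (U r) (U r)) - D r
    with hG
  have cBu := contOn_B (B := B) hu.cont hu.cont
  have cBU := contOn_B (B := B) hU.cont hU.cont
  have cgC : ContinuousOn (fun r => (g r : ℂ)) (Icc a b) :=
    Complex.continuous_ofReal.comp_continuousOn hg
  have cG : ContinuousOn G (Icc a b) := by
    apply ContinuousOn.sub _ hU.contD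
    exact (cgC.mul continuousOn_const).smul (cBu.sub cBU)
  have hsub : Icc a s ⊆ Icc a b := Icc_subset_Icc_right hs.2
  have hui : uIcc a s = Icc a s := uIcc_of_le hs.1
  -- coordinatewise equation
  have hek : ∀ k : ℤ, ∀ t ∈ Icc a b, e t k = e a k +
      ∫ r in a..t, ((g r : ℂ) * ((-(Complex.I * d * (k : ℂ) ^ 2)) * e r k) + G r k) := by
    intro k t ht
    have hsubt : uIcc a t ⊆ Icc a b := by
      rw [uIcc_of_le ht.1]; exact Icc_subset_Icc_right ht.2
    have h1 := hu.eq t ht k
    have h2 := hU.eq t ht k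
    have i1 : IntervalIntegrable (fun r => (g r : ℂ) * rhs B d (u r) k) volume a t :=
      ((cgC.mul (contOn_rhs hu.cont k)).mono hsubt).intervalIntegrable
    have i2 : IntervalIntegrable (fun r => (g r : ℂ) * rhs B d (U r) k + D r k) volume a t :=
      (((cgC.mul (contOn_rhs hU.cont k)).add (contOn_coord hU.contD k)).mono
        hsubt).intervalIntegrable
    have : e t k = e a k + ((∫ r in a..t, (g r : ℂ) * rhs B d (u r) k) -
        ∫ r in a..t, ((g r : ℂ) * rhs B d (U r) k + D r k)) := by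
      simp only [he, lp.coeFn_sub, Pi.sub_apply]
      rw [h1, h2]; ring
    rw [this, ← intervalIntegral.integral_sub i1 i2]
    congr 1
    apply integral_congr
    intro r _
    simp only [rhs, he, hG, lp.coeFn_sub, Pi.sub_apply, lp.coeFn_smul, Pi.smul_apply, smul_eq_mul]
    ring
  have hcoord : ∀ k : ℤ, ‖e s k‖ ≤ ‖e a k‖ + ∫ r in a..s, ‖G r k‖ := by
    intro k
    apply duhamel_bound hab (lam := -(Complex.I * d * (k : ℂ) ^ 2)) _ hg hg0
      (contOn_coord ce k) (contOn_coord cG k) (hek k) hs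
    have : (-(Complex.I * d * (k : ℂ) ^ 2)).re = d.im * (k : ℝ) ^ 2 := by
      have h1 : ((k : ℂ) ^ 2) = (((k : ℝ) ^ 2 : ℝ) : ℂ) := by push_cast; rfl
      rw [h1, Complex.neg_re, Complex.re_mul_ofReal]
      simp
    rw [this]
    exact mul_nonpos_of_nonpos_of_nonneg hdim (sq_nonneg _)
  have hGnorm : ContinuousOn (fun r => ‖G r‖) (Icc a s) := (cG.mono hsub).norm
  have hGi : IntervalIntegrable (fun r => ‖G r‖) volume a s := by
    apply ContinuousOn.intervalIntegrable; rw [hui]; exact hGnorm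
  have h3 : ‖e s‖ ≤ ‖e a‖ + ∫ r in a..s, ‖G r‖ := by
    apply norm_le_of_forall_sum
    intro F
    have hFi : ∀ k ∈ F, IntervalIntegrable (fun r => ‖G r k‖) volume a s := by
      intro k _
      apply ContinuousOn.intervalIntegrable; rw [hui]
      exact ((contOn_coord cG k).mono hsub).norm
    calc ∑ k ∈ F, ‖e s k‖ ≤ ∑ k ∈ F, (‖e a k‖ + ∫ r in a..s, ‖G r k‖) :=
          Finset.sum_le_sum fun k _ => hcoord k
      _ = ∑ k ∈ F, ‖e a k‖ + ∫ r in a..s, ∑ k ∈ F, ‖G r k‖ := by
          rw [Finset.sum_add_distrib, intervalIntegral.integral_finsetSum hFi]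
      _ ≤ ‖e a‖ + ∫ r in a..s, ‖G r‖ := by
          apply add_le_add (sum_norm_le _ _)
          apply intervalIntegral.integral_mono_on hs.1 _ hGi
          · intro r _; exact sum_norm_le _ _
          · apply ContinuousOn.intervalIntegrable; rw [hui]
            apply continuousOn_finsetSum
            intro k _; exact ((contOn_coord cG k).mono hsub).norm
  refine h3.trans (add_le_add le_rfl ?_)
  apply intervalIntegral.integral_mono_on hs.1 hGi
  · apply ContinuousOn.intervalIntegrable; rw [hui]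
    have c1 := (hg.mono hsub)
    have c2 := (hU.cont.mono hsub).norm
    have c3 := (ce.mono hsub).norm
    have c4 := (hU.contD.mono hsub).norm
    fun_prop
  · intro r hr
    have hr' : r ∈ Icc a b := hsub hr
    have hBd : ‖B (u r) (u r) - B (U r) (U r)‖ ≤ 2 * ‖U r‖ * ‖e r‖ + ‖e r‖ ^ 2 := by
      have : B (u r) (u r) - B (U r) (U r) = B (e r) (U r) + B (U r) (e r) + B (e r) (e r) := by
        simp only [he, map_sub, sub_apply]; abel
      rw [this]
      refine (norm_add₃_le).trans ?_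
      have b1 := hB (e r) (U r)
      have b2 := hB (U r) (e r)
      have b3 := hB (e r) (e r)
      nlinarith
    rw [hG]
    simp only
    refine (norm_sub_le _ _).trans ?_
    have hn : ‖((g r : ℂ) * (Complex.I * d)) • (B (u r) (u r) - B (U r) (U r))‖ =
        g r * ‖B (u r) (u r) - B (U r) (U r)‖ := by
      rw [norm_smul, norm_mul, norm_mul, Complex.norm_I, hd, one_mul, mul_one, Complex.norm_real,
        Real.norm_of_nonneg (hg0 r hr')]
    rw [hn]
    have := mul_le_mul_of_nonneg_left hBd (hg0 r hr')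
    linarith

/-- The closeness lemma. -/
theorem closeness {B : W →L[ℂ] W →L[ℂ] W} (hB : ∀ x y, ‖B x y‖ ≤ ‖x‖ * ‖y‖) {d : ℂ}
    (hd : ‖d‖ = 1) (hdim : d.im ≤ 0) {g : ℝ → ℝ} {a b : ℝ} (hab : a ≤ b)
    (hg : ContinuousOn g (Icc a b)) (hg0 : ∀ r ∈ Icc a b, 0 ≤ g r) {u U D : ℝ → W}
    (hu : IsSol B d g a b u) (hU : IsApp B d g a b U D)
    {M δ ε η : ℝ} (hM : ∀ r ∈ Icc a b, ‖U r‖ ≤ M) (hD : ∀ r ∈ Icc a b, ‖D r‖ ≤ δ)
    (hε : ‖u a - U a‖ ≤ ε)
    (hη : (ε + δ * (b - a)) * Real.exp ((2 * M + η) * ∫ r in a..b, g r) < η)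
    {s : ℝ} (hs : s ∈ Icc a b) :
    ‖u s - U s‖ ≤ (ε + δ * (b - a)) * Real.exp ((2 * M + η) * ∫ r in a..s, g r) := by
  have ha : a ∈ Icc a b := ⟨le_refl a, hab⟩
  have hb : b ∈ Icc a b := ⟨hab, le_refl b⟩
  have hM0 : 0 ≤ M := (norm_nonneg _).trans (hM a ha)
  have hδ0 : 0 ≤ δ := (norm_nonneg _).trans (hD a ha)
  have hε0 : 0 ≤ ε := (norm_nonneg _).trans hε
  have hC0 : 0 ≤ ε + δ * (b - a) := by
    have := mul_nonneg hδ0 (sub_nonneg.mpr hab); linarith
  have hη0 : 0 < η := lt_of_le_of_lt (by positivity) hη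
  set N : ℝ → ℝ := fun r => ‖u r - U r‖ with hN
  have cN : ContinuousOn N (Icc a b) := (hu.cont.sub hU.cont).norm
  -- monotonicity of the exponential factor
  have hexpmono : ∀ s ∈ Icc a b, Real.exp ((2 * M + η) * ∫ r in a..s, g r) ≤
      Real.exp ((2 * M + η) * ∫ r in a..b, g r) := by
    intro s hs
    apply Real.exp_le_exp.mpr
    apply mul_le_mul_of_nonneg_left _ (by linarith)
    have i1 : IntervalIntegrable g volume a s :=
      (hg.mono (by rw [uIcc_of_le hs.1]; exact Icc_subset_Icc_right hs.2)).intervalIntegrable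
    have i2 : IntervalIntegrable g volume s b :=
      (hg.mono (by rw [uIcc_of_le hs.2]; exact Icc_subset_Icc_left hs.1)).intervalIntegrable
    rw [← intervalIntegral.integral_add_adjacent_intervals i1 i2]
    have : 0 ≤ ∫ r in s..b, g r := intervalIntegral.integral_nonneg hs.2
      (fun x hx => hg0 x ⟨hs.1.trans hx.1, hx.2⟩)
    linarith
  -- conditional bound: as long as N ≤ η
  have hcond : ∀ t ∈ Icc a b, (∀ r ∈ Icc a t, N r ≤ η) →
      N t ≤ (ε + δ * (b - a)) * Real.exp ((2 * M + η) * ∫ r in a..t, g r) := by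
    intro t ht hle
    have hsub : Icc a t ⊆ Icc a b := Icc_subset_Icc_right ht.2
    apply gronwall_int ht.1 (by linarith) (hg.mono hsub) (fun r hr => hg0 r (hsub hr))
      (cN.mono hsub) _ ⟨ht.1, le_refl t⟩
    intro s' hs'
    have hs'b : s' ∈ Icc a b := hsub hs'
    have hsub' : Icc a s' ⊆ Icc a b := Icc_subset_Icc_right hs'b.2
    have h1 := diff_ineq hB hd hdim hab hg hg0 hu hU hs'b
    have hui : uIcc a s' = Icc a s' := uIcc_of_le hs'.1
    have c1 := (hg.mono hsub')
    have c2 := (hU.cont.mono hsub').norm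
    have c3 : ContinuousOn (fun r => ‖u r - U r‖) (Icc a s') := cN.mono hsub'
    have c4 := (hU.contD.mono hsub').norm
    have h2 : (∫ r in a..s', (g r * (2 * ‖U r‖ * ‖u r - U r‖ + ‖u r - U r‖ ^ 2) + ‖D r‖)) ≤
        ∫ r in a..s', ((2 * M + η) * g r * N r + δ) := by
      apply intervalIntegral.integral_mono_on hs'.1
      · apply ContinuousOn.intervalIntegrable; rw [hui]; fun_prop
      · apply ContinuousOn.intervalIntegrable; rw [hui]
        have c3' : ContinuousOn N (Icc a s') := c3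
        fun_prop
      · intro r hr
        have hrb := hsub' hr
        have e1 := hM r hrb
        have e2 := hD r hrb
        have e3 := hle r ⟨hr.1, hr.2.trans hs'.2⟩
        have e4 := hg0 r hrb
        have e5 : 0 ≤ N r := norm_nonneg _
        have e6 : 2 * ‖U r‖ * ‖u r - U r‖ + ‖u r - U r‖ ^ 2 ≤ (2 * M + η) * N r := by
          change 2 * ‖U r‖ * N r + N r ^ 2 ≤ (2 * M + η) * N r
          nlinarith
        have e7 := mul_le_mul_of_nonneg_left e6 e4
        have e8 : (2 * M + η) * g r * N r = g r * ((2 * M + η) * N r) := by ring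
        rw [e8]; linarith
    have h3 : (∫ r in a..s', ((2 * M + η) * g r * N r + δ)) =
        (∫ r in a..s', (2 * M + η) * g r * N r) + δ * (s' - a) := by
      rw [intervalIntegral.integral_add]
      · simp; ring
      · apply ContinuousOn.intervalIntegrable; rw [hui]
        have c3' : ContinuousOn N (Icc a s') := c3
        fun_prop
      · exact intervalIntegrable_const
    have h4 : δ * (s' - a) ≤ δ * (b - a) := by
      apply mul_le_mul_of_nonneg_left _ hδ0; linarith [hs'b.2]
    calc N s' ≤ ‖u a - U a‖ + ∫ r in a..s',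
          (g r * (2 * ‖U r‖ * ‖u r - U r‖ + ‖u r - U r‖ ^ 2) + ‖D r‖) := h1
      _ ≤ ε + ((∫ r in a..s', (2 * M + η) * g r * N r) + δ * (b - a)) := by
          rw [h3] at h2; linarith
      _ = _ := by ring
  -- bootstrap
  have hall : ∀ t ∈ Icc a b, N t < η := by
    by_contra hcon
    push Not at hcon
    obtain ⟨t0, ht0, ht0η⟩ := hcon
    set S : Set ℝ := {t | t ∈ Icc a b ∧ η ≤ N t} with hS
    have hSc : IsCompact S := by
      have : S = Icc a b ∩ N ⁻¹' (Ici η) := by ext x; simp [hS]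
      rw [this]
      exact isCompact_Icc.of_isClosed_subset
        (cN.preimage_isClosed_of_isClosed isClosed_Icc isClosed_Ici) inter_subset_left
    have hSn : S.Nonempty := ⟨t0, ht0, ht0η⟩
    obtain ⟨t1, ht1, hmin⟩ := hSc.exists_isLeast hSn
    have hlt : ∀ r ∈ Ico a t1, N r < η := by
      intro r hr
      by_contra hc
      push Not at hc
      have := hmin ⟨⟨hr.1, hr.2.le.trans ht1.1.2⟩, hc⟩
      linarith [hr.2]
    have hNa : N a < η := by
      have h1 : N a ≤ ε + δ * (b - a) := by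
        have := mul_nonneg hδ0 (sub_nonneg.mpr hab)
        have : N a ≤ ε := hε
        linarith
      have h2 : (1 : ℝ) ≤ Real.exp ((2 * M + η) * ∫ r in a..b, g r) := by
        apply Real.one_le_exp
        apply mul_nonneg (by linarith)
        exact intervalIntegral.integral_nonneg hab hg0
      nlinarith
    have hat1 : a < t1 := by
      rcases eq_or_lt_of_le ht1.1.1 with h | h
      · rw [← h] at ht1; exact absurd ht1.2 (not_le.mpr hNa)
      · exact h
    have hle1 : N t1 ≤ η := by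
      have hcw : ContinuousWithinAt N (Ico a t1) t1 :=
        (cN t1 ht1.1).mono (Ico_subset_Icc_self.trans (Icc_subset_Icc_right ht1.1.2))
      have hne : (𝓝[Ico a t1] t1).NeBot := by
        rw [nhdsWithin_Ico_eq_nhdsLT hat1]; infer_instance
      exact le_of_tendsto hcw (Filter.eventually_of_mem self_mem_nhdsWithin
        (fun r hr => (hlt r hr).le))
    have h5 := hcond t1 ht1.1 (fun r hr => by
      rcases eq_or_lt_of_le hr.2 with h | h
      · rw [h]; exact hle1
      · exact (hlt r ⟨hr.1, h⟩).le)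
    have h6 := mul_le_mul_of_nonneg_left (hexpmono t1 ht1.1) hC0
    have := ht1.2
    linarith
  exact hcond s hs (fun r hr => (hall r ⟨hr.1, hr.2.trans hs.2⟩).le)

end NLSq
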