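import Pool.Agent.H75.NLSCert

/-!
Soundness of the certificate test (integer part).
-/

open Finset

noncomputable section

namespace NLSq

namespace Cert

variable (C : Cert)

lemma cf_zero_of_m {sel : ℕ × ℕ × ℕ → ℕ} {m k : ℕ} (h : ¬ m < C.rows.length) : C.cf sel m k = 0 := by
  unfold cf; rw [if_neg]; tauto

lemma cf_zero_of_k {sel : ℕ × ℕ × ℕ → ℕ} {m k : ℕ} (h : ¬ k ≤ C.K) : C.cf sel m k = 0 := by
  unfold cf; rw [if_neg]; tauto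

lemma length_eq (h : 0 < C.rows.length) : C.n + 1 = C.rows.length := by
  unfold n; omega

lemma Xf_supp1 (h : 0 < C.rows.length) (sel : ℕ × ℕ × ℕ → ℕ) {m : ℤ} (hm : C.n < m.natAbs)
    (k : ℤ) : C.Xf sel m k = 0 := by
  unfold Xf
  apply cf_zero_of_m
  have := C.length_eq h
  omega

lemma Xf_supp2 (sel : ℕ × ℕ × ℕ → ℕ) (m : ℤ) {k : ℤ} (hk : C.K < k.natAbs) :
    C.Xf sel m k = 0 := by
  unfold Xf
  apply cf_zero_of_k
  omega

/-- bases -/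
def uu : ℕ := 2 ^ C.e
def vv : ℕ := 2 ^ C.b

lemma uu_ne : ((C.uu : ℕ) : ℚ) ≠ 0 := by unfold uu; positivity
lemma vv_ne : ((C.vv : ℕ) : ℚ) ≠ 0 := by unfold vv; positivity

lemma row_sum {sel : ℕ × ℕ × ℕ → ℕ} {m : ℕ} (hm : m < C.rows.length) (g : ℕ → ℚ) :
    ∑ k ∈ range (C.K + 1), (g k * (C.cf sel m k : ℚ)) * (Fw C.K C.vv k : ℚ) =
    ∑ k ∈ range (C.K + 1), g k * (dg (C.rows.getD m (0, 0, 0)).1
      (sel (C.rows.getD m (0, 0, 0))) k : ℚ) * (Fw C.K C.vv k : ℚ) -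
    (off (C.rows.getD m (0, 0, 0)).1 : ℚ) * ∑ k ∈ range (C.K + 1), g k * (Fw C.K C.vv k : ℚ) := by
  rw [Finset.mul_sum, ← Finset.sum_sub_distrib]
  apply Finset.sum_congr rfl
  intro k hk
  rw [Finset.mem_range] at hk
  have : C.cf sel m k = (dg (C.rows.getD m (0, 0, 0)).1 (sel (C.rows.getD m (0, 0, 0))) k : ℤ) -
      (off (C.rows.getD m (0, 0, 0)).1 : ℤ) := by
    unfold cf; rw [if_pos ⟨hm, by omega⟩]
  rw [this]
  push_cast
  ring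

lemma rowP_eq (w N : ℕ) : ((C.rowP w N : ℕ) : ℚ) =
    ∑ k ∈ range (C.K + 1), (1:ℚ) * (dg w N k : ℚ) * (Fw C.K C.vv k : ℚ) := by
  unfold rowP
  rw [spk_eq _ _ _ (length_dgl _ _ _)]
  push_cast
  apply Finset.sum_congr rfl
  intro k hk
  rw [getD_dgl _ _ _ _ (Finset.mem_range.mp hk), zero_add]; unfold vv; ring

lemma rowQ_eq (w N : ℕ) : ((C.rowQ w N : ℕ) : ℚ) =
    ∑ k ∈ range (C.K + 1), ((k:ℚ) ^ 2) * (dg w N k : ℚ) * (Fw C.K C.vv k : ℚ) := by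
  unfold rowQ
  rw [spk_eq _ _ _ (length_dgl _ _ _)]
  push_cast
  apply Finset.sum_congr rfl
  intro k hk
  rw [getD_dgl _ _ _ _ (Finset.mem_range.mp hk), zero_add, Nat.mul_eq, Nat.mul_eq]
  push_cast; unfold vv; ring

lemma rowO_eq : ((C.rowO : ℕ) : ℚ) =
    ∑ k ∈ range (C.K + 1), (1:ℚ) * (Fw C.K C.vv k : ℚ) := by
  unfold rowO
  rw [spk_eq _ _ _ (length_dgl _ _ _)]
  push_cast
  apply Finset.sum_congr rfl
  intro k hk
  rw [getD_dgl _ _ _ _ (Finset.mem_range.mp hk)]; push_cast; unfold vv; ring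

lemma rowOQ_eq : ((C.rowOQ : ℕ) : ℚ) =
    ∑ k ∈ range (C.K + 1), ((k:ℚ) ^ 2) * (Fw C.K C.vv k : ℚ) := by
  unfold rowOQ
  rw [spk_eq _ _ _ (length_dgl _ _ _)]
  push_cast
  apply Finset.sum_congr rfl
  intro k hk
  rw [getD_dgl _ _ _ _ (Finset.mem_range.mp hk), zero_add, Nat.mul_eq]
  push_cast; unfold vv; ring

lemma kap_Xf (h : 0 < C.rows.length) (sel : ℕ × ℕ × ℕ → ℕ) (g : ℕ → ℚ) :
    (C.uu : ℚ) ^ C.n * (C.vv : ℚ) ^ C.K *
      kap (C.uu : ℚ) (C.vv : ℚ) C.n C.K (fun m k => g k.natAbs * (C.Xf sel m k : ℚ)) =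
    ∑ m ∈ range C.rows.length, (∑ k ∈ range (C.K + 1), (g k * (C.cf sel m k : ℚ)) *
      (Fw C.K C.vv k : ℚ)) * (Fw C.n C.uu m : ℚ) := by
  have := kap_sym C.uu_ne C.vv_ne (fun m k => g k * (C.cf sel m k : ℚ)) C.n C.K
  rw [C.length_eq h] at this
  exact this

lemma S0_eq (h : 0 < C.rows.length) (sel : ℕ × ℕ × ℕ → ℕ) :
    (C.S0 sel : ℚ) = (C.uu : ℚ) ^ C.n * (C.vv : ℚ) ^ C.K *
      kap (C.uu : ℚ) (C.vv : ℚ) C.n C.K (fun m k => (C.Xf sel m k : ℚ)) := by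
  have h1 := C.kap_Xf h sel (fun _ => 1)
  have h2 : kap (C.uu : ℚ) (C.vv : ℚ) C.n C.K (fun m k => (1:ℚ) * (C.Xf sel m k : ℚ)) =
      kap (C.uu : ℚ) (C.vv : ℚ) C.n C.K (fun m k => (C.Xf sel m k : ℚ)) :=
    kap_congr (fun m k => one_mul _)
  rw [h2] at h1
  rw [h1]
  unfold S0
  rw [spk_eq _ _ _ (by rw [length_imap, C.length_eq h]),
    spk_eq _ _ _ (by rw [length_imap, C.length_eq h]), C.length_eq h]
  push_cast
  rw [← Finset.sum_sub_distrib]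
  apply Finset.sum_congr rfl
  intro m hm
  rw [Finset.mem_range] at hm
  rw [C.row_sum hm, getD_imap _ _ _ _ hm, getD_imap _ _ _ _ hm, Nat.mul_eq]
  push_cast
  rw [C.rowP_eq, C.rowO_eq]
  unfold uu
  ring

lemma S2_eq (h : 0 < C.rows.length) (sel : ℕ × ℕ × ℕ → ℕ) :
    (C.S2 sel : ℚ) = (C.uu : ℚ) ^ C.n * (C.vv : ℚ) ^ C.K *
      kap (C.uu : ℚ) (C.vv : ℚ) C.n C.K (fun m k => (k : ℚ) ^ 2 * (C.Xf sel m k : ℚ)) := by
  have h1 := C.kap_Xf h sel (fun k => (k:ℚ) ^ 2)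
  have h2 : kap (C.uu : ℚ) (C.vv : ℚ) C.n C.K
      (fun m k => ((k.natAbs : ℕ) : ℚ) ^ 2 * (C.Xf sel m k : ℚ)) =
      kap (C.uu : ℚ) (C.vv : ℚ) C.n C.K (fun m k => (k : ℚ) ^ 2 * (C.Xf sel m k : ℚ)) := by
    apply kap_congr
    intro m k
    congr 1
    rw [Nat.cast_natAbs, Int.cast_abs, sq_abs]
  rw [h2] at h1
  rw [h1]
  unfold S2
  rw [spk_eq _ _ _ (by rw [length_imap, C.length_eq h]),
    spk_eq _ _ _ (by rw [length_imap, C.length_eq h]), C.length_eq h]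
  push_cast
  rw [← Finset.sum_sub_distrib]
  apply Finset.sum_congr rfl
  intro m hm
  rw [Finset.mem_range] at hm
  rw [C.row_sum hm (fun k => (k:ℚ) ^ 2), getD_imap _ _ _ _ hm, getD_imap _ _ _ _ hm,
    Nat.mul_eq]
  push_cast
  rw [C.rowQ_eq, C.rowOQ_eq]
  unfold uu
  ring

lemma S1_eq (h : 0 < C.rows.length) (sel : ℕ × ℕ × ℕ → ℕ) :
    (C.S1 sel : ℚ) = (C.uu : ℚ) ^ C.n * (C.vv : ℚ) ^ C.K *
      kap (C.uu : ℚ) (C.vv : ℚ) C.n C.K (fun m k => (m : ℚ) * (C.Xf sel m k : ℚ)) := by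
  have h1 := kap_anti C.uu_ne C.vv_ne (fun m k => (C.cf sel m k : ℚ)) C.n C.K
  rw [C.length_eq h] at h1
  have h2 : kap (C.uu : ℚ) (C.vv : ℚ) C.n C.K (fun m k => (m : ℚ) * (C.Xf sel m k : ℚ)) =
      kap (C.uu : ℚ) (C.vv : ℚ) C.n C.K
        (fun m k => (m : ℚ) * ((C.cf sel m.natAbs k.natAbs : ℤ) : ℚ)) :=
    kap_congr (fun m k => rfl)
  rw [h2, h1]
  unfold S1
  rw [apk_eq _ _ _ (by rw [length_imap, C.length_eq h]),
    apk_eq _ _ _ (by rw [length_imap, C.length_eq h]), C.length_eq h]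
  push_cast
  rw [← Finset.sum_sub_distrib]
  apply Finset.sum_congr rfl
  intro m hm
  rw [Finset.mem_range] at hm
  have h3 := C.row_sum (sel := sel) hm (fun _ => 1)
  simp only [one_mul] at h3
  rw [h3, getD_imap _ _ _ _ hm, getD_imap _ _ _ _ hm, Nat.mul_eq]
  push_cast
  rw [C.rowP_eq, C.rowO_eq]
  simp only [one_mul]
  unfold uu
  push_cast
  ring

/-! integer-valued defect coefficients -/

def NRE (m k : ℤ) : ℤ := cv C.n C.K (C.Xf sX) (C.Xf sX) m k - cv C.n C.K (C.Xf sY) (C.Xf sY) m k -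
  2 ^ C.p * (k ^ 2 * C.Xf sX m k)
def NIM (m k : ℤ) : ℤ := 2 * cv C.n C.K (C.Xf sX) (C.Xf sY) m k - 2 ^ C.p * (k ^ 2 * C.Xf sY m k)

/-- the function entering the real part of the defect -/
def NA (m k : ℤ) : ℤ := bif C.heat then C.NIM m k else C.NRE m k
def NB (m k : ℤ) : ℤ := bif C.heat then -C.NRE m k else C.NIM m k

def DRE (m k : ℤ) : ℤ := -(8192 * 2 ^ C.p) * (m * C.Xf sY m k) -
  C.h * (C.NA (m - 1) k - C.NA (m + 1) k)
def DIM (m k : ℤ) : ℤ := 8192 * 2 ^ C.p * (m * C.Xf sX m k) -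
  C.h * (C.NB (m - 1) k - C.NB (m + 1) k)

lemma cv_supp1' {n K : ℕ} {a b : ℤ → ℤ → ℤ} (h1 : ∀ m k : ℤ, n < m.natAbs → b m k = 0)
    {m : ℤ} (hm : 2 * n < m.natAbs) (k : ℤ) : cv n K a b m k = 0 := by
  unfold cv
  apply Finset.sum_eq_zero
  intro i hi
  apply Finset.sum_eq_zero
  intro j _
  rw [mem_sI] at hi
  rw [h1 (m - i) (k - j) (by omega), mul_zero]

lemma NRE_supp (h : 0 < C.rows.length) {m : ℤ} (hm : 2 * C.n < m.natAbs) (k : ℤ) :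
    C.NRE m k = 0 := by
  unfold NRE
  rw [cv_supp1' (fun m k hm => C.Xf_supp1 h sX hm k) hm,
    cv_supp1' (fun m k hm => C.Xf_supp1 h sY hm k) hm, C.Xf_supp1 h sX (by omega)]
  simp

lemma NIM_supp (h : 0 < C.rows.length) {m : ℤ} (hm : 2 * C.n < m.natAbs) (k : ℤ) :
    C.NIM m k = 0 := by
  unfold NIM
  rw [cv_supp1' (fun m k hm => C.Xf_supp1 h sY hm k) hm, C.Xf_supp1 h sY (by omega)]
  simp

lemma cv_cast (n K : ℕ) (a b : ℤ → ℤ → ℤ) (m k : ℤ) :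
    ((cv n K a b m k : ℤ) : ℚ) = cv n K (fun m k => (a m k : ℚ)) (fun m k => (b m k : ℚ)) m k := by
  unfold cv; push_cast; rfl

lemma pw_cast (a b : ℕ) : ((pw (C.p + (C.e * a + C.b * b)) : ℕ) : ℚ) =
    2 ^ C.p * ((C.uu : ℚ) ^ a * (C.vv : ℚ) ^ b) := by
  rw [pw_eq, pow_add, pow_add, pow_mul, pow_mul]
  unfold uu vv
  push_cast
  rfl

/-- Kronecker value of `NRE` -/
lemma kap_NRE (h : 0 < C.rows.length) :
    (C.uu : ℚ) ^ (2 * C.n) * (C.vv : ℚ) ^ (2 * C.K) *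
      kap (C.uu : ℚ) (C.vv : ℚ) (2 * C.n) (2 * C.K) (fun m k => (C.NRE m k : ℚ)) =
    (C.Nre : ℚ) := by
  set u : ℚ := (C.uu : ℚ) with hu
  set v : ℚ := (C.vv : ℚ) with hv
  have hu0 : u ≠ 0 := C.uu_ne
  have hv0 : v ≠ 0 := C.vv_ne
  set X : ℤ → ℤ → ℚ := fun m k => (C.Xf sX m k : ℚ) with hX
  set Y : ℤ → ℤ → ℚ := fun m k => (C.Xf sY m k : ℚ) with hY
  have sX1 : ∀ m k : ℤ, C.n < m.natAbs → X m k = 0 := fun m k hm => by
    simp only [hX]; rw [C.Xf_supp1 h sX hm]; simp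
  have sX2 : ∀ m k : ℤ, C.K < k.natAbs → X m k = 0 := fun m k hk => by
    simp only [hX]; rw [C.Xf_supp2 sX m hk]; simp
  have sY1 : ∀ m k : ℤ, C.n < m.natAbs → Y m k = 0 := fun m k hm => by
    simp only [hY]; rw [C.Xf_supp1 h sY hm]; simp
  have sY2 : ∀ m k : ℤ, C.K < k.natAbs → Y m k = 0 := fun m k hk => by
    simp only [hY]; rw [C.Xf_supp2 sY m hk]; simp
  have c1 := conv2 hu0 hv0 X X (a := C.n) (b := C.n) (q := C.K) (r := C.K) sX1 sX2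
  have c2 := conv2 hu0 hv0 Y Y (a := C.n) (b := C.n) (q := C.K) (r := C.K) sY1 sY2
  rw [← two_mul, ← two_mul] at c1 c2
  have c3 : kap u v (2 * C.n) (2 * C.K) (fun m k => (k : ℚ) ^ 2 * X m k) =
      kap u v C.n C.K (fun m k => (k : ℚ) ^ 2 * X m k) :=
    kap_extend (by omega) (by omega) (fun m k hm => by rw [sX1 m k hm, mul_zero])
      (fun m k hk => by rw [sX2 m k hk, mul_zero])
  have e1 : kap u v (2 * C.n) (2 * C.K) (fun m k => (C.NRE m k : ℚ)) =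
      kap u v (2 * C.n) (2 * C.K) (fun m k => cv C.n C.K X X m k + ((-1) * cv C.n C.K Y Y m k +
        (-2 ^ C.p) * ((k : ℚ) ^ 2 * X m k))) := by
    apply kap_congr
    intro m k
    unfold NRE
    push_cast
    rw [cv_cast, cv_cast]
    ring
  rw [e1, kap_add, kap_add, kap_smul, kap_smul, ← c1, ← c2, c3]
  unfold Nre
  push_cast
  rw [C.S0_eq h, C.S0_eq h, C.S2_eq h, C.pw_cast, two_mul, two_mul, pow_add, pow_add]
  ring

lemma kap_NIM (h : 0 < C.rows.length) :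
    (C.uu : ℚ) ^ (2 * C.n) * (C.vv : ℚ) ^ (2 * C.K) *
      kap (C.uu : ℚ) (C.vv : ℚ) (2 * C.n) (2 * C.K) (fun m k => (C.NIM m k : ℚ)) =
    (C.Nim : ℚ) := by
  set u : ℚ := (C.uu : ℚ) with hu
  set v : ℚ := (C.vv : ℚ) with hv
  have hu0 : u ≠ 0 := C.uu_ne
  have hv0 : v ≠ 0 := C.vv_ne
  set X : ℤ → ℤ → ℚ := fun m k => (C.Xf sX m k : ℚ) with hX
  set Y : ℤ → ℤ → ℚ := fun m k => (C.Xf sY m k : ℚ) with hY
  have sY1 : ∀ m k : ℤ, C.n < m.natAbs → Y m k = 0 := fun m k hm => by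
    simp only [hY]; rw [C.Xf_supp1 h sY hm]; simp
  have sY2 : ∀ m k : ℤ, C.K < k.natAbs → Y m k = 0 := fun m k hk => by
    simp only [hY]; rw [C.Xf_supp2 sY m hk]; simp
  have c1 := conv2 hu0 hv0 X Y (a := C.n) (b := C.n) (q := C.K) (r := C.K) sY1 sY2
  rw [← two_mul, ← two_mul] at c1
  have c3 : kap u v (2 * C.n) (2 * C.K) (fun m k => (k : ℚ) ^ 2 * Y m k) =
      kap u v C.n C.K (fun m k => (k : ℚ) ^ 2 * Y m k) :=
    kap_extend (by omega) (by omega) (fun m k hm => by rw [sY1 m k hm, mul_zero])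
      (fun m k hk => by rw [sY2 m k hk, mul_zero])
  have e1 : kap u v (2 * C.n) (2 * C.K) (fun m k => (C.NIM m k : ℚ)) =
      kap u v (2 * C.n) (2 * C.K) (fun m k => 2 * cv C.n C.K X Y m k +
        (-2 ^ C.p) * ((k : ℚ) ^ 2 * Y m k)) := by
    apply kap_congr
    intro m k
    unfold NIM
    push_cast
    rw [cv_cast]
    ring
  rw [e1, kap_add, kap_smul, kap_smul, ← c1, c3]
  unfold Nim
  push_cast
  rw [C.S0_eq h, C.S0_eq h, C.S2_eq h, C.pw_cast, two_mul, two_mul, pow_add, pow_add]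
  ring

/-- generic assembly of the Kronecker value of a defect -/
lemma kap_D (h : 0 < C.rows.length) {κ : ℚ} {sel : ℕ × ℕ × ℕ → ℕ} {N : ℤ → ℤ → ℤ} {Nv : ℤ}
    (hN : ∀ {m : ℤ}, 2 * C.n < m.natAbs → ∀ k, N m k = 0)
    (hNv : (C.uu : ℚ) ^ (2 * C.n) * (C.vv : ℚ) ^ (2 * C.K) *
      kap (C.uu : ℚ) (C.vv : ℚ) (2 * C.n) (2 * C.K) (fun m k => (N m k : ℚ)) = (Nv : ℚ)) :
    (C.uu : ℚ) ^ (2 * C.n + 1) * (C.vv : ℚ) ^ (2 * C.K) *
      kap (C.uu : ℚ) (C.vv : ℚ) (2 * C.n + 1) (2 * C.K)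
        (fun m k => κ * ((m : ℚ) * (C.Xf sel m k : ℚ)) -
          (C.h : ℚ) * ((N (m - 1) k : ℚ) - (N (m + 1) k : ℚ))) =
    κ * ((C.uu : ℚ) ^ (C.n + 1) * (C.vv : ℚ) ^ C.K) * (C.S1 sel : ℚ) -
      (C.h : ℚ) * ((C.uu : ℚ) ^ 2 * Nv - Nv) := by
  set u : ℚ := (C.uu : ℚ) with hu
  set v : ℚ := (C.vv : ℚ) with hv
  have hu0 : u ≠ 0 := C.uu_ne
  have e1 : kap u v (2 * C.n + 1) (2 * C.K)
        (fun m k => κ * ((m : ℚ) * (C.Xf sel m k : ℚ)) -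
          (C.h : ℚ) * ((N (m - 1) k : ℚ) - (N (m + 1) k : ℚ))) =
      kap u v (2 * C.n + 1) (2 * C.K)
        (fun m k => κ * ((m : ℚ) * (C.Xf sel m k : ℚ)) +
          (-(C.h : ℚ)) * ((N (m - 1) k : ℚ) - (N (m + 1) k : ℚ))) :=
    kap_congr (fun m k => by ring)
  rw [e1, kap_add, kap_smul, kap_smul]
  have e2 : kap u v (2 * C.n + 1) (2 * C.K) (fun m k => (m : ℚ) * (C.Xf sel m k : ℚ)) =
      kap u v C.n C.K (fun m k => (m : ℚ) * (C.Xf sel m k : ℚ)) :=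
    kap_extend (by omega) (by omega)
      (fun m k hm => by rw [C.Xf_supp1 h sel hm]; simp)
      (fun m k hk => by rw [C.Xf_supp2 sel m hk]; simp)
  have e3 := kap_shift (v := v) hu0 (n := 2 * C.n) (K := 2 * C.K)
    (f := fun m k => (N m k : ℚ)) (fun m k hm => by show ((N m k : ℤ) : ℚ) = 0; rw [hN hm k]; simp)
  rw [e2, e3, C.S1_eq h, ← hNv]
  have hu1 : u * u⁻¹ = 1 := mul_inv_cancel₀ hu0
  have hu2 : u ^ (2 * C.n + 1) = u ^ (2 * C.n) * u := pow_succ _ _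
  have hu3 : u ^ (2 * C.n) = u ^ C.n * u ^ C.n := by rw [two_mul, pow_add]
  have hu4 : u ^ (C.n + 1) = u ^ C.n * u := pow_succ _ _
  have hv1 : v ^ (2 * C.K) = v ^ C.K * v ^ C.K := by rw [two_mul, pow_add]
  set kN := kap u v (2 * C.n) (2 * C.K) fun m k => (N m k : ℚ)
  set kX := kap u v C.n C.K fun m k => (m : ℚ) * (C.Xf sel m k : ℚ)
  rw [hu2, hu4, hu3, hv1]
  have : u ^ C.n * u ^ C.n * u * (v ^ C.K * v ^ C.K) *
      (κ * kX + -(C.h : ℚ) * ((u - u⁻¹) * kN)) =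
      κ * (u ^ C.n * u * v ^ C.K) * (u ^ C.n * v ^ C.K * kX) -
      (C.h : ℚ) * ((u ^ C.n * u ^ C.n * (v ^ C.K * v ^ C.K)) * (u * u - u * u⁻¹) * kN) := by ring
  rw [this, hu1]
  ring

lemma kap_DRE (h : 0 < C.rows.length) :
    (C.uu : ℚ) ^ (2 * C.n + 1) * (C.vv : ℚ) ^ (2 * C.K) *
      kap (C.uu : ℚ) (C.vv : ℚ) (2 * C.n + 1) (2 * C.K) (fun m k => (C.DRE m k : ℚ)) =
    (C.Dre : ℚ) := by
  have hNA : ∀ {m : ℤ}, 2 * C.n < m.natAbs → ∀ k, C.NA m k = 0 := by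
    intro m hm k; unfold NA; rw [C.NRE_supp h hm, C.NIM_supp h hm]; cases C.heat <;> rfl
  have hv : (C.uu : ℚ) ^ (2 * C.n) * (C.vv : ℚ) ^ (2 * C.K) *
      kap (C.uu : ℚ) (C.vv : ℚ) (2 * C.n) (2 * C.K) (fun m k => (C.NA m k : ℚ)) =
      ((bif C.heat then C.Nim else C.Nre : ℤ) : ℚ) := by
    unfold NA
    cases C.heat
    · exact C.kap_NRE h
    · exact C.kap_NIM h
  have h1 := C.kap_D h (κ := -(8192 * 2 ^ C.p)) (sel := sY) hNA hv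
  have e1 : kap (C.uu : ℚ) (C.vv : ℚ) (2 * C.n + 1) (2 * C.K) (fun m k => (C.DRE m k : ℚ)) =
      kap (C.uu : ℚ) (C.vv : ℚ) (2 * C.n + 1) (2 * C.K)
        (fun m k => -(8192 * 2 ^ C.p) * ((m : ℚ) * (C.Xf sY m k : ℚ)) -
          (C.h : ℚ) * ((C.NA (m - 1) k : ℚ) - (C.NA (m + 1) k : ℚ))) := by
    apply kap_congr
    intro m k
    unfold DRE
    push_cast
    ring
  rw [e1, h1]
  unfold Dre ZN
  have h2 : ((pw (2 * C.e) : ℕ) : ℚ) = (C.uu : ℚ) ^ 2 := by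
    rw [pw_eq, mul_comm, pow_mul]; unfold uu; push_cast; rfl
  push_cast
  rw [C.pw_cast]
  cases C.heat
  · simp only [cond_false]
    push_cast
    rw [h2]; ring
  · simp only [cond_true]
    push_cast
    rw [h2]; ring

lemma kap_DIM (h : 0 < C.rows.length) :
    (C.uu : ℚ) ^ (2 * C.n + 1) * (C.vv : ℚ) ^ (2 * C.K) *
      kap (C.uu : ℚ) (C.vv : ℚ) (2 * C.n + 1) (2 * C.K) (fun m k => (C.DIM m k : ℚ)) =
    (C.Dim : ℚ) := by
  have hNB : ∀ {m : ℤ}, 2 * C.n < m.natAbs → ∀ k, C.NB m k = 0 := by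
    intro m hm k; unfold NB; rw [C.NRE_supp h hm, C.NIM_supp h hm]; cases C.heat <;> rfl
  have hv : (C.uu : ℚ) ^ (2 * C.n) * (C.vv : ℚ) ^ (2 * C.K) *
      kap (C.uu : ℚ) (C.vv : ℚ) (2 * C.n) (2 * C.K) (fun m k => (C.NB m k : ℚ)) =
      ((bif C.heat then -C.Nre else C.Nim : ℤ) : ℚ) := by
    unfold NB
    cases C.heat
    · exact C.kap_NIM h
    · simp only [cond_true]
      have e : kap (C.uu : ℚ) (C.vv : ℚ) (2 * C.n) (2 * C.K) (fun m k => ((-C.NRE m k : ℤ) : ℚ)) =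
          kap (C.uu : ℚ) (C.vv : ℚ) (2 * C.n) (2 * C.K) (fun m k => (-1) * (C.NRE m k : ℚ)) :=
        kap_congr (fun m k => by push_cast; ring)
      rw [e, kap_smul]
      push_cast
      rw [← C.kap_NRE h]; ring
  have h1 := C.kap_D h (κ := (8192 * 2 ^ C.p)) (sel := sX) hNB hv
  have e1 : kap (C.uu : ℚ) (C.vv : ℚ) (2 * C.n + 1) (2 * C.K) (fun m k => (C.DIM m k : ℚ)) =
      kap (C.uu : ℚ) (C.vv : ℚ) (2 * C.n + 1) (2 * C.K)
        (fun m k => (8192 * 2 ^ C.p) * ((m : ℚ) * (C.Xf sX m k : ℚ)) -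
          (C.h : ℚ) * ((C.NB (m - 1) k : ℚ) - (C.NB (m + 1) k : ℚ))) := by
    apply kap_congr
    intro m k
    unfold DIM
    push_cast
    ring
  rw [e1, h1]
  unfold Dim ZN
  have h2 : ((pw (2 * C.e) : ℕ) : ℚ) = (C.uu : ℚ) ^ 2 := by
    rw [pw_eq, mul_comm, pow_mul]; unfold uu; push_cast; rfl
  push_cast
  rw [C.pw_cast]
  cases C.heat
  · simp only [cond_false]
    push_cast
    rw [h2]; ring
  · simp only [cond_true]
    push_cast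
    rw [h2]; ring

end Cert

end NLSq
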