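import Pool.Agent.H75.NLSSound

/-!
Soundness of the certificate test: size of the coefficients and of the defect.
-/

open Finset

noncomputable section

namespace NLSq

lemma sum_sI_wt (g : ℕ → ℕ) (n : ℕ) :
    ∑ m ∈ sI n, g m.natAbs = ∑ m ∈ range (n + 1), Cert.wt m * g m := by
  rw [sum_sI_sym, Finset.sum_range_succ', add_comm]
  congr 1
  · apply Finset.sum_congr rfl
    intro m _
    have e1 : ((m : ℤ) + 1).natAbs = m + 1 := by omega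
    have e2 : (-((m : ℤ) + 1)).natAbs = m + 1 := by omega
    rw [e1, e2, Cert.wt_succ]
    ring
  · simp [Cert.wt_zero]

lemma kap_digits (D : ℤ → ℤ → ℤ) (a q b : ℕ) :
    (((2:ℕ) ^ (b * (2 * q + 1)) : ℕ) : ℚ) ^ a * (((2:ℕ) ^ b : ℕ) : ℚ) ^ q *
      kap (((2:ℕ) ^ (b * (2 * q + 1)) : ℕ) : ℚ) (((2:ℕ) ^ b : ℕ) : ℚ) a q
        (fun m k => (D m k : ℚ)) =
    ((∑ t ∈ range ((2 * a + 1) * (2 * q + 1)),
      D (((t / (2 * q + 1) : ℕ) : ℤ) - a) (((t % (2 * q + 1) : ℕ) : ℤ) - q) * (2 ^ b) ^ t : ℤ)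
        : ℚ) := by
  set u : ℚ := (((2:ℕ) ^ (b * (2 * q + 1)) : ℕ) : ℚ) with hu
  set v : ℚ := (((2:ℕ) ^ b : ℕ) : ℚ) with hv
  have hu0 : u ≠ 0 := by rw [hu]; positivity
  have hv0 : v ≠ 0 := by rw [hv]; positivity
  have huv : u = v ^ (2 * q + 1) := by rw [hu, hv, pow_mul]; push_cast; rfl
  have hv2 : v = 2 ^ b := by rw [hv]; push_cast; rfl
  rw [sum_double]
  simp only [Int.cast_sum, Int.cast_mul, Int.cast_pow, Int.cast_ofNat]
  unfold kap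
  rw [sum_sI_range, Finset.mul_sum]
  apply Finset.sum_congr rfl
  intro i _
  rw [sum_sI_range, Finset.sum_mul, Finset.mul_sum]
  apply Finset.sum_congr rfl
  intro j hj
  rw [Finset.mem_range] at hj
  have e1 : (i * (2 * q + 1) + j) / (2 * q + 1) = i := by
    rw [mul_comm, Nat.mul_add_div (by omega), Nat.div_eq_of_lt hj, add_zero]
  have e2 : (i * (2 * q + 1) + j) % (2 * q + 1) = j := by
    rw [mul_comm, Nat.mul_add_mod, Nat.mod_eq_of_lt hj]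
  rw [e1, e2]
  have hp1 : u ^ a * u ^ ((i : ℤ) - a) = u ^ i := by
    rw [← zpow_natCast u a, ← zpow_add₀ hu0, ← zpow_natCast u i]; congr 1; ring
  have hp2 : v ^ q * v ^ ((j : ℤ) - q) = v ^ j := by
    rw [← zpow_natCast v q, ← zpow_add₀ hv0, ← zpow_natCast v j]; congr 1; ring
  rw [← hv2, pow_add v, mul_comm i, pow_mul v, ← huv, ← hp1, ← hp2]
  ring

lemma abs_cv_le {n K : ℕ} {a b : ℤ → ℤ → ℤ} {β : ℤ} (hb : ∀ i j, |b i j| ≤ β) (m k : ℤ) :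
    |cv n K a b m k| ≤ (∑ i ∈ sI n, ∑ j ∈ sI K, |a i j|) * β := by
  unfold cv
  refine (Finset.abs_sum_le_sum_abs _ _).trans ?_
  rw [Finset.sum_mul]
  apply Finset.sum_le_sum
  intro i _
  refine (Finset.abs_sum_le_sum_abs _ _).trans ?_
  rw [Finset.sum_mul]
  apply Finset.sum_le_sum
  intro j _
  rw [abs_mul]
  exact mul_le_mul_of_nonneg_left (hb _ _) (abs_nonneg _)

namespace Cert

variable (C : Cert)

lemma ad_eq (w d : ℕ) : ad w d = ((d : ℤ) - (off w : ℤ)).natAbs := by rw [ad_def]; omega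

lemma Msum_eq (h : 0 < C.rows.length) : C.Msum =
    ∑ m ∈ sI C.n, ∑ k ∈ sI C.K, octn (C.Xf sX m k).natAbs (C.Xf sY m k).natAbs := by
  have h1 : ∀ m : ℤ, ∑ k ∈ sI C.K, octn (C.Xf sX m k).natAbs (C.Xf sY m k).natAbs =
      ∑ k ∈ range (C.K + 1), wt k * octn (C.cf sX m.natAbs k).natAbs
        (C.cf sY m.natAbs k).natAbs := fun m =>
    sum_sI_wt (fun k => octn (C.cf sX m.natAbs k).natAbs (C.cf sY m.natAbs k).natAbs) C.K
  rw [Finset.sum_congr rfl (fun m _ => h1 m)]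
  rw [sum_sI_wt (fun m => ∑ k ∈ range (C.K + 1), wt k * octn (C.cf sX m k).natAbs
        (C.cf sY m k).natAbs) C.n]
  unfold Msum
  rw [lsum_imap, C.length_eq h]
  apply Finset.sum_congr rfl
  intro m hm
  rw [Finset.mem_range] at hm
  rw [Nat.mul_eq]
  congr 1
  rw [lsum_dgl]
  apply Finset.sum_congr rfl
  intro k hk
  rw [Finset.mem_range] at hk
  have e1 : ∀ sel, C.cf sel m k = (dg (C.rows.getD m (0, 0, 0)).1
      (sel (C.rows.getD m (0, 0, 0))) k : ℤ) - (off (C.rows.getD m (0, 0, 0)).1 : ℤ) := by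
    intro sel; unfold cf; rw [if_pos ⟨hm, by omega⟩]
  rw [e1, e1, ad_eq, ad_eq]
  rfl

lemma octn_six (x y : ℕ) : 6 * (x + y) ≤ octn x y := by
  rw [octn_def]; omega

/-- the total size -/
def tot (sel : ℕ × ℕ × ℕ → ℕ) : ℤ := ∑ m ∈ sI C.n, ∑ k ∈ sI C.K, |C.Xf sel m k|

lemma tot_nonneg (sel : ℕ × ℕ × ℕ → ℕ) : 0 ≤ C.tot sel :=
  Finset.sum_nonneg fun _ _ => Finset.sum_nonneg fun _ _ => abs_nonneg _

lemma tot_le (h : 0 < C.rows.length) (hM : 256 * C.Msum ≤ 12 * (C.M * pw C.p)) :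
    C.tot sX + C.tot sY ≤ C.TT := by
  have h1 : 6 * (C.tot sX + C.tot sY) ≤ (C.Msum : ℤ) := by
    rw [C.Msum_eq h]
    unfold tot
    push_cast
    rw [← Finset.sum_add_distrib, Finset.mul_sum]
    apply Finset.sum_le_sum
    intro m _
    rw [← Finset.sum_add_distrib, Finset.mul_sum]
    apply Finset.sum_le_sum
    intro k _
    have := octn_six (C.Xf sX m k).natAbs (C.Xf sY m k).natAbs
    zify at this
    exact this
  have h2 : 128 * (C.tot sX + C.tot sY) ≤ ((C.M * pw C.p : ℕ) : ℤ) := by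
    have : (256 : ℤ) * (C.Msum : ℤ) ≤ 12 * ((C.M * pw C.p : ℕ) : ℤ) := by exact_mod_cast hM
    linarith
  unfold TT
  push_cast at h2 ⊢
  omega

lemma abs_Xf_le (h : 0 < C.rows.length) (sel : ℕ × ℕ × ℕ → ℕ) (m k : ℤ) :
    |C.Xf sel m k| ≤ C.tot sel := by
  by_cases hm : C.n < m.natAbs
  · rw [C.Xf_supp1 h sel hm]; simpa using C.tot_nonneg sel
  by_cases hk : C.K < k.natAbs
  · rw [C.Xf_supp2 sel m hk]; simpa using C.tot_nonneg sel
  unfold tot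
  have hm' : m ∈ sI C.n := by rw [mem_sI]; omega
  have hk' : k ∈ sI C.K := by rw [mem_sI]; omega
  calc |C.Xf sel m k| ≤ ∑ k ∈ sI C.K, |C.Xf sel m k| :=
        Finset.single_le_sum (f := fun k => |C.Xf sel m k|) (fun _ _ => abs_nonneg _) hk'
    _ ≤ _ := Finset.single_le_sum (f := fun m => ∑ k ∈ sI C.K, |C.Xf sel m k|)
        (fun _ _ => Finset.sum_nonneg fun _ _ => abs_nonneg _) hm'

lemma abs_kkX_le (h : 0 < C.rows.length) (sel : ℕ × ℕ × ℕ → ℕ) (m k : ℤ) :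
    |k ^ 2 * C.Xf sel m k| ≤ (C.K : ℤ) ^ 2 * C.tot sel := by
  by_cases hk : C.K < k.natAbs
  · rw [C.Xf_supp2 sel m hk, mul_zero, abs_zero]
    have := C.tot_nonneg sel
    positivity
  · rw [abs_mul]
    apply mul_le_mul _ (C.abs_Xf_le h sel m k) (abs_nonneg _) (by positivity)
    rw [abs_of_nonneg (by positivity)]
    rw [sq_le_sq, abs_of_nonneg (by positivity : (0:ℤ) ≤ (C.K : ℤ)), Int.abs_eq_natAbs]
    omega

lemma abs_mX_le (h : 0 < C.rows.length) (sel : ℕ × ℕ × ℕ → ℕ) (m k : ℤ) :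
    |m * C.Xf sel m k| ≤ (C.n : ℤ) * C.tot sel := by
  by_cases hm : C.n < m.natAbs
  · rw [C.Xf_supp1 h sel hm, mul_zero, abs_zero]
    have := C.tot_nonneg sel
    positivity
  · rw [abs_mul]
    apply mul_le_mul _ (C.abs_Xf_le h sel m k) (abs_nonneg _) (by positivity)
    rw [Int.abs_eq_natAbs]
    omega

/-- size of the nonlinear expression -/
def NB0 : ℤ := (C.TT : ℤ) * C.TT + 2 ^ C.p * ((C.K : ℤ) ^ 2 * C.TT)

lemma abs_NRE_le (h : 0 < C.rows.length) (hM : 256 * C.Msum ≤ 12 * (C.M * pw C.p)) (m k : ℤ) :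
    |C.NRE m k| ≤ C.NB0 := by
  have hT := C.tot_le h hM
  have hx := C.tot_nonneg sX
  have hy := C.tot_nonneg sY
  have h1 := abs_cv_le (n := C.n) (K := C.K) (a := C.Xf sX) (C.abs_Xf_le h sX) m k
  have h2 := abs_cv_le (n := C.n) (K := C.K) (a := C.Xf sY) (C.abs_Xf_le h sY) m k
  have h3 := C.abs_kkX_le h sX m k
  change |_| ≤ C.tot sX * C.tot sX at h1
  change |_| ≤ C.tot sY * C.tot sY at h2
  unfold NRE NB0
  have h4 : |(2:ℤ) ^ C.p * (k ^ 2 * C.Xf sX m k)| ≤ 2 ^ C.p * ((C.K : ℤ) ^ 2 * C.TT) := by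
    rw [abs_mul, abs_of_nonneg (by positivity : (0:ℤ) ≤ 2 ^ C.p)]
    apply mul_le_mul_of_nonneg_left _ (by positivity)
    refine h3.trans (mul_le_mul_of_nonneg_left (by linarith) (by positivity))
  have h5 : C.tot sX * C.tot sX + C.tot sY * C.tot sY ≤ (C.TT : ℤ) * C.TT := by nlinarith
  have e1 := abs_sub (cv C.n C.K (C.Xf sX) (C.Xf sX) m k - cv C.n C.K (C.Xf sY) (C.Xf sY) m k)
    (2 ^ C.p * (k ^ 2 * C.Xf sX m k))
  have e2 := abs_sub (cv C.n C.K (C.Xf sX) (C.Xf sX) m k) (cv C.n C.K (C.Xf sY) (C.Xf sY) m k)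
  linarith

lemma abs_NIM_le (h : 0 < C.rows.length) (hM : 256 * C.Msum ≤ 12 * (C.M * pw C.p)) (m k : ℤ) :
    |C.NIM m k| ≤ C.NB0 := by
  have hT := C.tot_le h hM
  have hx := C.tot_nonneg sX
  have hy := C.tot_nonneg sY
  have h1 := abs_cv_le (n := C.n) (K := C.K) (a := C.Xf sX) (C.abs_Xf_le h sY) m k
  have h3 := C.abs_kkX_le h sY m k
  change |_| ≤ C.tot sX * C.tot sY at h1
  unfold NIM NB0
  have h4 : |(2:ℤ) ^ C.p * (k ^ 2 * C.Xf sY m k)| ≤ 2 ^ C.p * ((C.K : ℤ) ^ 2 * C.TT) := by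
    rw [abs_mul, abs_of_nonneg (by positivity : (0:ℤ) ≤ 2 ^ C.p)]
    apply mul_le_mul_of_nonneg_left _ (by positivity)
    refine h3.trans (mul_le_mul_of_nonneg_left (by linarith) (by positivity))
  have h5 : 2 * (C.tot sX * C.tot sY) ≤ (C.TT : ℤ) * C.TT := by nlinarith [sq_nonneg (C.tot sX - C.tot sY), sq_nonneg (C.tot sX), sq_nonneg (C.tot sY)]
  have e1 := abs_sub (2 * cv C.n C.K (C.Xf sX) (C.Xf sY) m k)
    (2 ^ C.p * (k ^ 2 * C.Xf sY m k))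
  have e2 : |2 * cv C.n C.K (C.Xf sX) (C.Xf sY) m k| = 2 * |cv C.n C.K (C.Xf sX) (C.Xf sY) m k| := by
    rw [abs_mul]; rfl
  linarith

/-- a priori size of the defect -/
def DB0 : ℤ := 8192 * 2 ^ C.p * (C.n * C.TT) + C.h * (2 * C.NB0)

lemma abs_D_le (h : 0 < C.rows.length)
    {sel : ℕ × ℕ × ℕ → ℕ} (hsel : C.tot sel ≤ C.TT) {κ : ℤ} (hκ : |κ| = 8192 * 2 ^ C.p)
    {N : ℤ → ℤ → ℤ} (hN : ∀ m k, |N m k| ≤ C.NB0) (m k : ℤ) :
    |κ * (m * C.Xf sel m k) - C.h * (N (m - 1) k - N (m + 1) k)| ≤ C.DB0 := by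
  have h1 := C.abs_mX_le h sel m k
  have h2 : |κ * (m * C.Xf sel m k)| ≤ 8192 * 2 ^ C.p * (C.n * C.TT) := by
    rw [abs_mul, hκ]
    apply mul_le_mul_of_nonneg_left _ (by positivity)
    exact h1.trans (mul_le_mul_of_nonneg_left hsel (by positivity))
  have h3 : |(C.h : ℤ) * (N (m - 1) k - N (m + 1) k)| ≤ C.h * (2 * C.NB0) := by
    rw [abs_mul, abs_of_nonneg (by positivity : (0:ℤ) ≤ (C.h : ℤ))]
    apply mul_le_mul_of_nonneg_left _ (by positivity)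
    have := abs_sub (N (m - 1) k) (N (m + 1) k)
    have := hN (m - 1) k
    have := hN (m + 1) k
    linarith
  have h4 := abs_sub (κ * (m * C.Xf sel m k)) (C.h * (N (m - 1) k - N (m + 1) k))
  unfold DB0
  linarith

/-- the information contained in a successful test -/
lemma check_spec (hc : C.check = true) : 0 < C.rows.length ∧ 0 < C.h ∧ 0 < C.b ∧
    256 * C.Msum ≤ 12 * (C.M * pw C.p) ∧ C.DB0 + 2 ^ C.c < 2 ^ C.b ∧
    chkD C.b C.c C.T C.Dre = true ∧ chkD C.b C.c C.T C.Dim = true := by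
  unfold check at hc
  simp only [Bool.and_eq_true] at hc
  obtain ⟨⟨⟨⟨⟨⟨h1, h2⟩, h3⟩, h4⟩, h5⟩, h6⟩, h7⟩ := hc
  refine ⟨Nat.blt_eq.mp h1, Nat.blt_eq.mp h2, Nat.blt_eq.mp h3, Nat.le_of_ble_eq_true h4, ?_,
    h6, h7⟩
  have h5' := Nat.blt_eq.mp h5
  unfold DB0 NB0
  rw [pw_eq, pw_eq, pw_eq] at h5'
  zify at h5'
  refine lt_of_le_of_lt (le_of_eq ?_) h5'
  ring

lemma D_digits {D : ℤ → ℤ → ℤ} {Dv : ℤ} (hb : 1 ≤ C.b)
    (hD : ∀ m k, |D m k| + 2 ^ C.c < 2 ^ C.b)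
    (hk : (C.uu : ℚ) ^ (2 * C.n + 1) * (C.vv : ℚ) ^ (2 * C.K) *
      kap (C.uu : ℚ) (C.vv : ℚ) (2 * C.n + 1) (2 * C.K) (fun m k => (D m k : ℚ)) = (Dv : ℚ))
    (hc : chkD C.b C.c C.T Dv = true) :
    ∀ m ∈ sI (2 * C.n + 1), ∀ k ∈ sI (2 * C.K), |D m k| ≤ 2 ^ C.c := by
  have h1 := kap_digits D (2 * C.n + 1) (2 * C.K) C.b
  have eL : 2 * (2 * C.K) + 1 = 4 * C.K + 1 := by ring
  have eT : (2 * (2 * C.n + 1) + 1) * (4 * C.K + 1) = C.T := by unfold T; ring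
  rw [eL, eT] at h1
  have h2 : (C.uu : ℚ) = (((2:ℕ) ^ (C.b * (4 * C.K + 1)) : ℕ) : ℚ) := rfl
  have h3 : (C.vv : ℚ) = (((2:ℕ) ^ C.b : ℕ) : ℚ) := rfl
  rw [h2, h3, h1] at hk
  have h4 : Dv = _ := (Int.cast_injective (α := ℚ) hk).symm
  have h5 := chkD_sound hb (T := C.T) (F := fun t =>
    D (((t / (4 * C.K + 1) : ℕ) : ℤ) - (2 * C.n + 1 : ℕ)) (((t % (4 * C.K + 1) : ℕ) : ℤ) -
      (2 * C.K : ℕ))) (fun i _ => hD _ _) h4 hc
  intro m hm k hk'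
  rw [mem_sI] at hm hk'
  obtain ⟨i, hi⟩ : ∃ i : ℕ, (i : ℤ) = m + (2 * C.n + 1 : ℕ) :=
    ⟨(m + (2 * C.n + 1 : ℕ)).toNat, by omega⟩
  obtain ⟨j, hj⟩ : ∃ j : ℕ, (j : ℤ) = k + (2 * C.K : ℕ) :=
    ⟨(k + (2 * C.K : ℕ)).toNat, by omega⟩
  have hjL : j < 4 * C.K + 1 := by omega
  have hiN : i < 4 * C.n + 3 := by omega
  have ht : i * (4 * C.K + 1) + j < C.T := by
    unfold T
    calc i * (4 * C.K + 1) + j < i * (4 * C.K + 1) + (4 * C.K + 1) := by omega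
      _ = (i + 1) * (4 * C.K + 1) := by ring
      _ ≤ _ := Nat.mul_le_mul_right _ hiN
  have h6 := h5 _ ht
  have e1 : (i * (4 * C.K + 1) + j) / (4 * C.K + 1) = i := by
    rw [mul_comm, Nat.mul_add_div (by omega), Nat.div_eq_of_lt hjL, add_zero]
  have e2 : (i * (4 * C.K + 1) + j) % (4 * C.K + 1) = j := by
    rw [mul_comm, Nat.mul_add_mod, Nat.mod_eq_of_lt hjL]
  rw [e1, e2] at h6
  have e3 : (i : ℤ) - (2 * C.n + 1 : ℕ) = m := by omega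
  have e4 : (j : ℤ) - (2 * C.K : ℕ) = k := by omega
  rwa [e3, e4] at h6

theorem defect_le (hc : C.check = true) : ∀ m ∈ sI (2 * C.n + 1), ∀ k ∈ sI (2 * C.K),
    |C.DRE m k| ≤ 2 ^ C.c ∧ |C.DIM m k| ≤ 2 ^ C.c := by
  obtain ⟨h1, h2, h3, h4, h5, h6, h7⟩ := C.check_spec hc
  have hT := C.tot_le h1 h4
  have hx := C.tot_nonneg sX
  have hy := C.tot_nonneg sY
  have hNA : ∀ m k, |C.NA m k| ≤ C.NB0 := by
    intro m k; unfold NA
    cases C.heat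
    · exact C.abs_NRE_le h1 h4 m k
    · exact C.abs_NIM_le h1 h4 m k
  have hNB : ∀ m k, |C.NB m k| ≤ C.NB0 := by
    intro m k; unfold NB
    cases C.heat
    · exact C.abs_NIM_le h1 h4 m k
    · simp only [cond_true, abs_neg]; exact C.abs_NRE_le h1 h4 m k
  have hre : ∀ m k, |C.DRE m k| + 2 ^ C.c < 2 ^ C.b := by
    intro m k
    have := C.abs_D_le h1 (sel := sY) (by linarith) (κ := -(8192 * 2 ^ C.p))
      (by rw [abs_neg, abs_of_nonneg (by positivity)]) hNA m k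
    have h8 : |C.DRE m k| ≤ C.DB0 := this
    linarith
  have him : ∀ m k, |C.DIM m k| + 2 ^ C.c < 2 ^ C.b := by
    intro m k
    have := C.abs_D_le h1 (sel := sX) (by linarith) (κ := (8192 * 2 ^ C.p))
      (by rw [abs_of_nonneg (by positivity)]) hNB m k
    have h8 : |C.DIM m k| ≤ C.DB0 := this
    linarith
  intro m hm k hk
  exact ⟨C.D_digits h3 hre (C.kap_DRE h1) h6 m hm k hk,
    C.D_digits h3 him (C.kap_DIM h1) h7 m hm k hk⟩

end Cert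

end NLSq
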