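import Mathlib

/-!
The equation `-i u_t = u_xx + u^2` on the circle of length one, in Fourier coefficients.
-/

open scoped Topology
open Set Filter Complex

/-- `QuadNLS.Solves ν J u` : the function with Fourier coefficients `u t k` (`k : ℤ`),
`u(t,x) = ∑ k, u t k * exp (2 π i k x)`, solves `-i u_t = u_xx + u^2`, that is
`u_t = i (u_xx + u^2)`, for the times `t` in the set `J`.
It belongs to the space `A_ν` (norm `∑ k, ‖u t k‖ * ν ^ |k|`) at each time of `J`, it is
continuous on `J` in the norm of `A_ν`, and each Fourier coefficient satisfies the equation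
`d/dt u_k = i (-(2 π k)^2 u_k + ∑ j, u_j u_{k-j})` (one-sided derivatives at end points of `J`). -/
structure QuadNLS.Solves (ν : ℝ) (J : Set ℝ) (u : ℝ → ℤ → ℂ) : Prop where
  summable : ∀ t ∈ J, Summable fun k : ℤ => ‖u t k‖ * ν ^ k.natAbs
  continuous : ∀ t ∈ J,
    Tendsto (fun s => ∑' k : ℤ, ‖u s k - u t k‖ * ν ^ k.natAbs) (𝓝[J] t) (𝓝 0)
  eq : ∀ t ∈ J, ∀ k : ℤ, HasDerivWithinAt (fun s => u s k)
    (I * (-(2 * Real.pi * k) ^ 2 * u t k + ∑' j : ℤ, u t j * u t (k - j))) J t
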