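import Pool.Agent.H75.NLSPoly
import Pool.Agent.H75.QuadNLSDef

/-!
Weighted convolution.
-/

open scoped Topology
open Set Filter Complex

noncomputable section

namespace NLSq

/-- the weight `ν^{|k|}` -/
def wgt (ν : ℝ) (k : ℤ) : ℝ := ν ^ k.natAbs

lemma wgt_pos {ν : ℝ} (hν : 1 ≤ ν) (k : ℤ) : 0 < wgt ν k := by
  unfold wgt; positivity

lemma one_le_wgt {ν : ℝ} (hν : 1 ≤ ν) (k : ℤ) : 1 ≤ wgt ν k := one_le_pow₀ hν

lemma wgt_le_mul {ν : ℝ} (hν : 1 ≤ ν) (j k : ℤ) : wgt ν k ≤ wgt ν j * wgt ν (k - j) := by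
  unfold wgt
  rw [← pow_add]
  apply pow_le_pow_right₀ hν
  omega

/-- kernel of the convolution conjugated by the weight -/
def ckn (ν : ℝ) (j k : ℤ) : ℂ := ((wgt ν k / (wgt ν j * wgt ν (k - j)) : ℝ) : ℂ)

lemma norm_ckn {ν : ℝ} (hν : 1 ≤ ν) (j k : ℤ) : ‖ckn ν j k‖ ≤ 1 := by
  unfold ckn
  rw [Complex.norm_real, Real.norm_of_nonneg (by
    have := wgt_pos hν k; have := wgt_pos hν j; have := wgt_pos hν (k - j); positivity)]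
  rw [div_le_one (mul_pos (wgt_pos hν j) (wgt_pos hν (k - j)))]
  exact wgt_le_mul hν j k

/-- `Bnu ν x y` is the convolution seen through the isomorphism `u ↦ (ν^{|k|} u_k)` of `A_ν`
with `ℓ¹` -/
def Bnu (ν : ℝ) (hν : 1 ≤ ν) : W →L[ℂ] W →L[ℂ] W := conv (ckn ν) (norm_ckn hν)

lemma norm_Bnu {ν : ℝ} (hν : 1 ≤ ν) (x y : W) : ‖Bnu ν hν x y‖ ≤ ‖x‖ * ‖y‖ :=
  norm_conv_le _ _ x y

end NLSq
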