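import Pool.Agent.H75.NLSSound2
import Pool.Agent.H75.NLSWeight

/-!
Soundness of the certificate test: complex form, norms, and the stability of one step.
-/

open scoped Topology
open Set MeasureTheory intervalIntegral Complex

noncomputable section

namespace NLSq

lemma card_sI (n : ℕ) : (sI n).card = 2 * n + 1 := by
  unfold sI; rw [Int.card_Icc]; omega

lemma norm_supp (x : W) (Q : ℕ) (h : ∀ k, k ∉ sI Q → x k = 0) : ‖x‖ = ∑ k ∈ sI Q, ‖x k‖ := by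
  rw [norm_eq]
  apply tsum_eq_sum
  intro k hk; rw [h k hk, norm_zero]

lemma ee_zero : ee 0 = 1 := by unfold ee; simp
lemma ee_pi : ee Real.pi = -1 := by unfold ee; rw [mul_comm]; exact exp_pi_mul_I

namespace Cert

lemma octn_ge (x y : ℤ) : 12 * ‖(x : ℂ) + I * (y : ℂ)‖ ≤ (octn x.natAbs y.natAbs : ℝ) := by
  have h1 : ‖(x : ℂ) + I * (y : ℂ)‖ ^ 2 = (x.natAbs : ℝ) ^ 2 + (y.natAbs : ℝ) ^ 2 := by
    rw [Complex.sq_norm, Complex.normSq_apply]
    simp only [add_re, intCast_re, mul_re, I_re, zero_mul, I_im, intCast_im, mul_zero, sub_zero,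
      add_im, mul_im, one_mul, zero_add, add_zero]
    rw [Nat.cast_natAbs, Nat.cast_natAbs, Int.cast_abs, Int.cast_abs, sq_abs, sq_abs]
    ring
  generalize x.natAbs = p at *
  generalize y.natAbs = q at *
  have h2 : (12 * ‖(x : ℂ) + I * (y : ℂ)‖) ^ 2 ≤ (octn p q : ℝ) ^ 2 := by
    rw [mul_pow, h1]
    rcases le_total p q with h | h
    · have : octn p q = 12 * q + 5 * p := by rw [octn_def]; omega
      rw [this]
      push_cast
      have h' : (p : ℝ) ≤ q := by exact_mod_cast h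
      have hp : (0:ℝ) ≤ p := by positivity
      nlinarith
    · have : octn p q = 12 * p + 5 * q := by rw [octn_def]; omega
      rw [this]
      push_cast
      have h' : (q : ℝ) ≤ p := by exact_mod_cast h
      have hp : (0:ℝ) ≤ q := by positivity
      nlinarith
  exact (sq_le_sq₀ (by positivity) (by positivity)).mp h2

variable (C : Cert)

/-- complex coefficients -/
def aC (m k : ℤ) : ℂ := ((C.Xf sX m k : ℂ) + I * (C.Xf sY m k : ℂ)) / 2 ^ C.p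

/-- direction -/
def dC : ℂ := bif C.heat then -I else 1

/-- half step length -/
def hC : ℝ := (C.h : ℝ) / 4096

lemma dC_dir : C.dC = 1 ∨ C.dC = -I := by
  unfold dC; cases C.heat
  · left; rfl
  · right; rfl

lemma aC_supp1 (h : 0 < C.rows.length) (m k : ℤ) (hm : C.n < m.natAbs) : C.aC m k = 0 := by
  unfold aC; rw [C.Xf_supp1 h sX hm, C.Xf_supp1 h sY hm]; simp

lemma aC_supp2 (m k : ℤ) (hk : C.K < k.natAbs) : C.aC m k = 0 := by
  unfold aC; rw [C.Xf_supp2 sX m hk, C.Xf_supp2 sY m hk]; simp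

lemma cv_aC (m k : ℤ) : cv C.n C.K C.aC C.aC m k =
    (((cv C.n C.K (C.Xf sX) (C.Xf sX) m k - cv C.n C.K (C.Xf sY) (C.Xf sY) m k : ℤ) : ℂ) +
      I * ((cv C.n C.K (C.Xf sX) (C.Xf sY) m k + cv C.n C.K (C.Xf sY) (C.Xf sX) m k : ℤ) : ℂ)) /
      4 ^ C.p := by
  unfold cv
  push_cast
  rw [eq_div_iff (pow_ne_zero _ (by norm_num)), Finset.sum_mul, ← Finset.sum_sub_distrib,
    ← Finset.sum_add_distrib, Finset.mul_sum, ← Finset.sum_add_distrib]
  apply Finset.sum_congr rfl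
  intro i _
  rw [Finset.sum_mul, ← Finset.sum_sub_distrib,
    ← Finset.sum_add_distrib, Finset.mul_sum, ← Finset.sum_add_distrib]
  apply Finset.sum_congr rfl
  intro j _
  unfold aC
  have h4 : (4:ℂ) ^ C.p = 2 ^ C.p * 2 ^ C.p := by
    rw [← mul_pow]; norm_num
  rw [h4]
  have h2 : (2:ℂ) ^ C.p ≠ 0 := pow_ne_zero _ two_ne_zero
  field_simp
  ring_nf
  rw [I_sq]
  ring

end Cert

lemma sum_comm1 {f g : ℤ → ℤ} {K : ℕ} (hf : ∀ j : ℤ, K < j.natAbs → f j = 0)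
    (hg : ∀ j : ℤ, K < j.natAbs → g j = 0) (k : ℤ) :
    ∑ j ∈ sI K, f j * g (k - j) = ∑ j ∈ sI K, g j * f (k - j) := by
  have h1 : ∑' j : ℤ, f j * g (k - j) = ∑ j ∈ sI K, f j * g (k - j) := by
    apply tsum_eq_sum
    intro j hj
    rw [mem_sI, not_le] at hj
    rw [hf j hj, zero_mul]
  have h2 : ∑' j : ℤ, g j * f (k - j) = ∑ j ∈ sI K, g j * f (k - j) := by
    apply tsum_eq_sum
    intro j hj
    rw [mem_sI, not_le] at hj
    rw [hg j hj, zero_mul]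
  rw [← h1, ← h2, ← (Equiv.subLeft k).tsum_eq]
  congr 1
  ext j
  simp only [Equiv.subLeft_apply, sub_sub_cancel]
  ring

lemma cv_comm {n K : ℕ} {a b : ℤ → ℤ → ℤ} (a1 : ∀ m k : ℤ, n < m.natAbs → a m k = 0)
    (a2 : ∀ m k : ℤ, K < k.natAbs → a m k = 0) (b1 : ∀ m k : ℤ, n < m.natAbs → b m k = 0)
    (b2 : ∀ m k : ℤ, K < k.natAbs → b m k = 0) (m k : ℤ) :
    cv n K b a m k = cv n K a b m k := by
  unfold cv
  have e1 : ∀ i : ℤ, ∑ j ∈ sI K, b i j * a (m - i) (k - j) =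
      ∑ j ∈ sI K, a (m - i) j * b i (k - j) := fun i =>
    sum_comm1 (fun j hj => b2 i j hj) (fun j hj => a2 (m - i) j hj) k
  rw [Finset.sum_congr rfl (fun i _ => e1 i)]
  have h1 : ∑' i : ℤ, ∑ j ∈ sI K, a (m - i) j * b i (k - j) =
      ∑ i ∈ sI n, ∑ j ∈ sI K, a (m - i) j * b i (k - j) := by
    apply tsum_eq_sum
    intro i hi
    rw [mem_sI, not_le] at hi
    apply Finset.sum_eq_zero
    intro j _
    rw [b1 i _ hi, mul_zero]
  have h2 : ∑' i : ℤ, ∑ j ∈ sI K, a i j * b (m - i) (k - j) =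
      ∑ i ∈ sI n, ∑ j ∈ sI K, a i j * b (m - i) (k - j) := by
    apply tsum_eq_sum
    intro i hi
    rw [mem_sI, not_le] at hi
    apply Finset.sum_eq_zero
    intro j _
    rw [a1 i _ hi, zero_mul]
  rw [← h1, ← h2, ← (Equiv.subLeft m).tsum_eq]
  congr 1
  ext i
  simp only [Equiv.subLeft_apply, sub_sub_cancel]

namespace Cert

variable (C : Cert)

lemma nl_aC (h : 0 < C.rows.length) (m k : ℤ) : nl C.n C.K C.aC m k =
    ((C.NRE m k : ℂ) + I * (C.NIM m k : ℂ)) / 4 ^ C.p := by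
  unfold nl
  rw [C.cv_aC, cv_comm (fun m k hm => C.Xf_supp1 h sX hm k) (fun m k hk => C.Xf_supp2 sX m hk)
    (fun m k hm => C.Xf_supp1 h sY hm k) (fun m k hk => C.Xf_supp2 sY m hk)]
  unfold NRE NIM aC
  have h4 : (4:ℂ) ^ C.p = 2 ^ C.p * 2 ^ C.p := by
    rw [← mul_pow]; norm_num
  rw [h4]
  have h2 : (2:ℂ) ^ C.p ≠ 0 := pow_ne_zero _ two_ne_zero
  push_cast
  field_simp
  ring

/-- defect coefficients -/
def dfC : ℤ → ℤ → ℂ := dfc C.n C.K ((C.hC : ℝ) : ℂ) C.dC C.aC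

lemma dfC_eq (h : 0 < C.rows.length) (m k : ℤ) :
    C.dfC m k = ((C.DRE m k : ℂ) + I * (C.DIM m k : ℂ)) / (8192 * 4 ^ C.p) := by
  unfold dfC dfc
  rw [C.nl_aC h, C.nl_aC h]
  unfold DRE DIM NA NB dC aC hC
  have h4 : (4:ℂ) ^ C.p = 2 ^ C.p * 2 ^ C.p := by
    rw [← mul_pow]; norm_num
  rw [h4]
  have h2 : (2:ℂ) ^ C.p ≠ 0 := pow_ne_zero _ two_ne_zero
  cases C.heat
  · simp only [cond_false]
    push_cast
    field_simp
    ring_nf
    rw [I_sq]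
    ring
  · simp only [cond_true]
    push_cast
    field_simp
    ring_nf
    rw [I_sq]
    ring

lemma dfC_supp2 (m k : ℤ) (hk : 2 * C.K < k.natAbs) : C.dfC m k = 0 := by
  unfold dfC
  exact dfc_supp2 (fun m k hk => C.aC_supp2 m k hk) m hk

/-- the approximate solution and its defect -/
def Uc (θ : ℝ) : W := polyW C.n C.K C.aC θ
def Dc (θ : ℝ) : W := polyW (2 * C.n + 1) (2 * C.K) C.dfC θ

theorem isApp_Uc (h : 0 < C.rows.length) :
    IsApp B1 C.dC (fun θ => C.hC * Real.sin θ) 0 Real.pi C.Uc C.Dc :=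
  isApp_poly (C.aC_supp1 h) (fun m k hk => C.aC_supp2 m k hk)

lemma sum_aC_le (hc : C.check = true) :
    ∑ k ∈ sI C.K, ∑ m ∈ sI C.n, ‖C.aC m k‖ ≤ (C.M : ℝ) / 256 := by
  obtain ⟨h1, h2, h3, h4, h5, h6, h7⟩ := C.check_spec hc
  rw [Finset.sum_comm]
  have e1 : ∀ m k, ‖C.aC m k‖ ≤
      (octn (C.Xf sX m k).natAbs (C.Xf sY m k).natAbs : ℝ) / (12 * 2 ^ C.p) := by
    intro m k
    unfold aC
    rw [norm_div, norm_pow, Complex.norm_ofNat, div_le_div_iff₀ (by positivity) (by positivity)]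
    have := octn_ge (C.Xf sX m k) (C.Xf sY m k)
    have hp : (0:ℝ) < 2 ^ C.p := by positivity
    nlinarith
  calc ∑ m ∈ sI C.n, ∑ k ∈ sI C.K, ‖C.aC m k‖
      ≤ ∑ m ∈ sI C.n, ∑ k ∈ sI C.K,
        (octn (C.Xf sX m k).natAbs (C.Xf sY m k).natAbs : ℝ) / (12 * 2 ^ C.p) :=
        Finset.sum_le_sum fun m _ => Finset.sum_le_sum fun k _ => e1 m k
    _ = (C.Msum : ℝ) / (12 * 2 ^ C.p) := by
        rw [C.Msum_eq h1]
        push_cast
        rw [Finset.sum_div]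
        apply Finset.sum_congr rfl
        intro m _
        rw [Finset.sum_div]
    _ ≤ _ := by
        rw [div_le_div_iff₀ (by positivity) (by positivity)]
        have : ((256 * C.Msum : ℕ) : ℝ) ≤ ((12 * (C.M * pw C.p) : ℕ) : ℝ) := by exact_mod_cast h4
        rw [pw_eq] at this
        push_cast at this
        linarith

/-- the defect bound -/
def del : ℝ := (C.T : ℝ) * 2 ^ C.c / (4096 * 4 ^ C.p)

lemma sum_dfC_le (hc : C.check = true) :
    ∑ k ∈ sI (2 * C.K), ∑ m ∈ sI (2 * C.n + 1), ‖C.dfC m k‖ ≤ C.del := by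
  obtain ⟨h1, h2, h3, h4, h5, h6, h7⟩ := C.check_spec hc
  have e1 : ∀ k ∈ sI (2 * C.K), ∀ m ∈ sI (2 * C.n + 1), ‖C.dfC m k‖ ≤
      2 * 2 ^ C.c / (8192 * 4 ^ C.p) := by
    intro k hk m hm
    obtain ⟨d1, d2⟩ := C.defect_le hc m hm k hk
    rw [C.dfC_eq h1, norm_div, norm_mul, norm_pow, Complex.norm_ofNat, Complex.norm_ofNat]
    apply div_le_div_of_nonneg_right _ (by positivity)
    calc ‖(C.DRE m k : ℂ) + I * (C.DIM m k : ℂ)‖ ≤ ‖(C.DRE m k : ℂ)‖ + ‖I * (C.DIM m k : ℂ)‖ :=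
          norm_add_le _ _
      _ = |(C.DRE m k : ℝ)| + |(C.DIM m k : ℝ)| := by
          rw [norm_mul, Complex.norm_I, one_mul, Complex.norm_intCast, Complex.norm_intCast]
      _ ≤ 2 ^ C.c + 2 ^ C.c := by
          have e1 : ((|C.DRE m k| : ℤ) : ℝ) ≤ ((2 ^ C.c : ℤ) : ℝ) := by exact_mod_cast d1
          have e2 : ((|C.DIM m k| : ℤ) : ℝ) ≤ ((2 ^ C.c : ℤ) : ℝ) := by exact_mod_cast d2
          push_cast at e1 e2
          linarith
      _ = _ := by ring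
  calc ∑ k ∈ sI (2 * C.K), ∑ m ∈ sI (2 * C.n + 1), ‖C.dfC m k‖
      ≤ ∑ k ∈ sI (2 * C.K), ∑ m ∈ sI (2 * C.n + 1), (2 * 2 ^ C.c / (8192 * 4 ^ C.p) : ℝ) :=
        Finset.sum_le_sum fun k hk => Finset.sum_le_sum fun m hm => e1 k hk m hm
    _ = C.del := by
        rw [Finset.sum_const, Finset.sum_const, card_sI, card_sI]
        unfold del T
        simp only [nsmul_eq_mul]
        push_cast
        ring

/-! weighted versions -/

def UcN (ν : ℝ) (θ : ℝ) : W := polyW C.n C.K (fun m k => (wgt ν k : ℂ) * C.aC m k) θ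
def DcN (ν : ℝ) (θ : ℝ) : W :=
  polyW (2 * C.n + 1) (2 * C.K) (fun m k => (wgt ν k : ℂ) * C.dfC m k) θ

lemma wgt_le_of_mem {ν : ℝ} (hν : 1 ≤ ν) {Q : ℕ} {k : ℤ} (hk : k ∈ sI Q) :
    wgt ν k ≤ ν ^ Q := by
  rw [mem_sI] at hk
  exact pow_le_pow_right₀ hν hk

lemma norm_weighted {ν : ℝ} (hν : 1 ≤ ν) {M Q : ℕ} {lam : ℝ} (hl : ν ^ Q ≤ lam)
    (a : ℤ → ℤ → ℂ) {S : ℝ} (hS : ∑ k ∈ sI Q, ∑ m ∈ sI M, ‖a m k‖ ≤ S) (θ : ℝ) :
    ‖polyW M Q (fun m k => (wgt ν k : ℂ) * a m k) θ‖ ≤ lam * S := by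
  have hl0 : 0 ≤ lam := le_trans (by positivity) hl
  refine (norm_polyW_le _ _ _ _).trans ?_
  refine le_trans ?_ (mul_le_mul_of_nonneg_left hS hl0)
  rw [Finset.mul_sum]
  apply Finset.sum_le_sum
  intro k hk
  rw [Finset.mul_sum]
  apply Finset.sum_le_sum
  intro m _
  rw [norm_mul, Complex.norm_real, Real.norm_of_nonneg (wgt_pos hν k).le]
  exact mul_le_mul_of_nonneg_right ((wgt_le_of_mem hν hk).trans hl) (norm_nonneg _)

lemma norm_UcN {ν : ℝ} (hν : 1 ≤ ν) {lam : ℝ} (hl : ν ^ (2 * C.K) ≤ lam) (hc : C.check = true)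
    (θ : ℝ) : ‖C.UcN ν θ‖ ≤ lam * ((C.M : ℝ) / 256) :=
  norm_weighted hν ((pow_le_pow_right₀ hν (by omega)).trans hl) _ (C.sum_aC_le hc) θ

lemma norm_DcN {ν : ℝ} (hν : 1 ≤ ν) {lam : ℝ} (hl : ν ^ (2 * C.K) ≤ lam) (hc : C.check = true)
    (θ : ℝ) : ‖C.DcN ν θ‖ ≤ lam * C.del :=
  norm_weighted hν hl _ (C.sum_dfC_le hc) θ

end Cert

end NLSq
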