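import Pool.Agent.H75.NLSSound3
import Pool.Agent.H75.NLSQ

/-!
Chains of certified steps.
-/

open scoped Topology
open Set MeasureTheory intervalIntegral Complex

noncomputable section

namespace NLSq

/-- error size attached to a level `v` -/
def ex (v : ℕ) : ℝ := Real.exp (-((v : ℝ) / 262144))

/-- a certified leg: solutions close to `x` exist for the duration `D / 2048` and end up close
to `x'` -/
structure Leg (B : W →L[ℂ] W →L[ℂ] W) (d : ℂ) (x : W) (v D : ℕ) (x' : W) (v' : ℕ) : Prop where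
  ex : ∀ (a : ℝ) (w0 : W), ‖w0 - x‖ ≤ ex v →
    ∃ u : ℝ → W, IsSol B d one a (a + (D : ℝ) / 2048) u ∧ u a = w0
  cl : ∀ (a : ℝ) (u : ℝ → W), IsSol B d one a (a + (D : ℝ) / 2048) u → ‖u a - x‖ ≤ NLSq.ex v →
    ‖u (a + (D : ℝ) / 2048) - x'‖ ≤ NLSq.ex v'

theorem Leg.trans {B : W →L[ℂ] W →L[ℂ] W} {d : ℂ} {x y z : W} {v v' v'' D D' : ℕ}
    (h1 : Leg B d x v D y v') (h2 : Leg B d y v' D' z v'') : Leg B d x v (D + D') z v'' := by
  have hD : (0:ℝ) ≤ (D:ℝ) / 2048 := by positivity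
  have hD' : (0:ℝ) ≤ (D':ℝ) / 2048 := by positivity
  have e : ∀ a : ℝ, a + ((D + D' : ℕ) : ℝ) / 2048 = a + (D:ℝ) / 2048 + (D':ℝ) / 2048 := by
    intro a; push_cast; ring
  constructor
  · intro a w0 hw
    obtain ⟨u, hu, hu0⟩ := h1.ex a w0 hw
    have hc := h1.cl a u hu (by rwa [hu0])
    obtain ⟨u', hu', hu0'⟩ := h2.ex _ _ hc
    rw [e]
    obtain ⟨U, hU, hU1, -⟩ := glue_at (by linarith) (by linarith) hu hu' hu0'.symm
    exact ⟨U, hU, by rw [hU1 a ⟨le_rfl, by linarith⟩, hu0]⟩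
  · intro a u hu hc
    rw [e] at hu ⊢
    have h3 := h1.cl a u (hu.mono contOn_one le_rfl (by linarith)) hc
    exact h2.cl _ u (hu.mono contOn_one (by linarith) le_rfl) h3

namespace Cert

variable (C : Cert)

/-- the error test -/
def err (C : Cert) (lam q bb v v' : ℕ) : Bool :=
  Nat.ble (lam * pw (6 + bb) * (1024 * pw (2 * C.p) + C.T * pw (C.c + q)))
    (pw q * (1024 * pw (2 * C.p))) &&
  Nat.ble (10000 * v) (6931 * (bb * 262144)) &&
  Nat.ble (v' + 4096 + C.h * (lam * C.M + 32)) v && Nat.ble 393216 v'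

lemma err_spec {lam q bb v v' : ℕ} (h : C.err lam q bb v v' = true) :
    (lam : ℝ) * ((2:ℝ) ^ q)⁻¹ + 4 * (lam * C.del) ≤ 1 / 64 * ex v ∧
    (v' : ℝ) / 262144 ≤ (v : ℝ) / 262144 - 1 / 64 -
      (2 * (lam * ((C.M : ℝ) / 256)) + 1 / 4) * (2 * C.hC) ∧ (3:ℝ) / 2 ≤ (v' : ℝ) / 262144 := by
  unfold err at h
  simp only [Bool.and_eq_true] at h
  obtain ⟨⟨⟨h1, h2⟩, h3⟩, h4⟩ := h
  have h1 := Nat.le_of_ble_eq_true h1
  simp only [pw_eq] at h1
  have h2 := Nat.le_of_ble_eq_true h2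
  have h3 := Nat.le_of_ble_eq_true h3
  have h4 := Nat.le_of_ble_eq_true h4
  refine ⟨?_, ?_, ?_⟩
  · have h1' : ((lam * 2 ^ (6 + bb) * (1024 * 2 ^ (2 * C.p) + C.T * 2 ^ (C.c + q)) : ℕ) : ℝ) ≤
        ((2 ^ q * (1024 * 2 ^ (2 * C.p)) : ℕ) : ℝ) := by exact_mod_cast h1
    push_cast at h1'
    have h2' : ((10000 * v : ℕ) : ℝ) ≤ ((6931 * (bb * 262144) : ℕ) : ℝ) := by exact_mod_cast h2
    push_cast at h2'
    have hlog : (0.6931 : ℝ) < Real.log 2 := by linarith [Real.log_two_gt_d9]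
    have h5 : ((2:ℝ) ^ bb)⁻¹ ≤ ex v := by
      unfold ex
      rw [Real.exp_neg]
      apply inv_anti₀ (Real.exp_pos _)
      have : (2:ℝ) ^ bb = Real.exp (bb * Real.log 2) := by
        rw [mul_comm, Real.exp_mul, Real.exp_log (by norm_num), Real.rpow_natCast]
      rw [this]
      apply Real.exp_le_exp.mpr
      have hbb : (0:ℝ) ≤ bb := by positivity
      have : (bb : ℝ) * 0.6931 ≤ bb * Real.log 2 := mul_le_mul_of_nonneg_left hlog.le hbb
      rw [div_le_iff₀ (by norm_num)]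
      linarith
    refine le_trans ?_ (mul_le_mul_of_nonneg_left h5 (by norm_num))
    unfold del
    have e4 : (4:ℝ) ^ C.p = 2 ^ (2 * C.p) := by rw [pow_mul]; norm_num
    rw [e4]
    have p1 : (0:ℝ) < 2 ^ q := by positivity
    have p2 : (0:ℝ) < 2 ^ (2 * C.p) := by positivity
    have p3 : (0:ℝ) < 2 ^ bb := by positivity
    have e5 : (2:ℝ) ^ (C.c + q) = 2 ^ C.c * 2 ^ q := pow_add _ _ _
    have e6 : (2:ℝ) ^ (6 + bb) = 64 * 2 ^ bb := by rw [pow_add]; norm_num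
    rw [e5, e6] at h1'
    have : (lam : ℝ) * ((2:ℝ) ^ q)⁻¹ + 4 * (lam * ((C.T : ℝ) * 2 ^ C.c / (4096 * 2 ^ (2 * C.p)))) =
        (lam * (64 * 2 ^ bb) * (1024 * 2 ^ (2 * C.p) + C.T * (2 ^ C.c * 2 ^ q))) /
        (2 ^ q * (1024 * 2 ^ (2 * C.p)) * (64 * 2 ^ bb)) := by
      field_simp
      ring
    rw [this, div_le_iff₀ (by positivity)]
    have e7 : 1 / 64 * ((2:ℝ) ^ bb)⁻¹ * (2 ^ q * (1024 * 2 ^ (2 * C.p)) * (64 * 2 ^ bb)) =
        2 ^ q * (1024 * 2 ^ (2 * C.p)) := by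
      field_simp
    rw [e7]
    exact h1'
  · have h3' : ((v' + 4096 + C.h * (lam * C.M + 32) : ℕ) : ℝ) ≤ (v : ℝ) := by exact_mod_cast h3
    push_cast at h3'
    unfold hC
    have : (v : ℝ) / 262144 - 1 / 64 -
      (2 * (lam * ((C.M : ℝ) / 256)) + 1 / 4) * (2 * ((C.h : ℝ) / 4096)) =
      (v - 4096 - C.h * (lam * C.M + 32)) / 262144 := by ring
    rw [this]
    apply div_le_div_of_nonneg_right _ (by norm_num)
    linarith
  · have h4' : ((393216 : ℕ) : ℝ) ≤ (v' : ℝ) := by exact_mod_cast h4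
    push_cast at h4'
    rw [div_le_div_iff₀ (by norm_num) (by norm_num)]
    linarith

lemma ex_small {v : ℕ} (h : (3:ℝ) / 2 ≤ (v : ℝ) / 262144) : ex v < 1 / 4 := by
  unfold ex
  have h1 : Real.exp (-((v : ℝ) / 262144)) ≤ Real.exp (-(3/2)) := by
    apply Real.exp_le_exp.mpr; linarith
  have h2 : (4:ℝ) < Real.exp (3/2) := by
    have e1 : Real.exp (3/2) = Real.exp 1 * Real.exp (1/2) := by
      rw [← Real.exp_add]; norm_num
    have e2 := Real.exp_one_gt_d9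
    have e3 : (1:ℝ)/2 + 1 ≤ Real.exp (1/2) := Real.add_one_le_exp _
    rw [e1]
    nlinarith
  have h3 : Real.exp (-(3/2)) < 1/4 := by
    rw [Real.exp_neg, inv_lt_comm₀ (Real.exp_pos _) (by norm_num)]
    norm_num; linarith
  linarith

theorem leg {ν : ℝ} (hν : 1 ≤ ν) {lam : ℕ} (hl : ν ^ (2 * C.K) ≤ lam) (hc : C.check = true)
    {x : W} {q bb v v' : ℕ} (he : C.err lam q bb v v' = true)
    (hj : ‖x - C.UcN ν 0‖ ≤ lam * ((2:ℝ) ^ q)⁻¹) :
    Leg (Bnu ν hν) C.dC x v C.h (C.UcN ν Real.pi) v' := by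
  obtain ⟨h1, h2, -, -, -, -, -⟩ := C.check_spec hc
  obtain ⟨e1, e2, e3⟩ := C.err_spec he
  have hh : 0 < C.hC := by unfold hC; positivity
  have happ : IsApp (Bnu ν hν) C.dC (fun θ => C.hC * Real.sin θ) 0 Real.pi (C.UcN ν) (C.DcN ν) :=
    isApp_weight hν (fun m k hk => C.aC_supp2 m k hk) (fun m k hk => C.dfC_supp2 m k hk)
      (C.isApp_Uc h1)
  have hM : ∀ θ ∈ Icc 0 Real.pi, ‖C.UcN ν θ‖ ≤ lam * ((C.M : ℝ) / 256) := fun θ _ =>
    C.norm_UcN hν hl hc θ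
  have hD : ∀ θ ∈ Icc 0 Real.pi, ‖C.DcN ν θ‖ ≤ lam * C.del := fun θ _ => C.norm_DcN hν hl hc θ
  have hdel : 0 ≤ (lam : ℝ) * C.del := (norm_nonneg _).trans (hD 0 ⟨le_rfl, Real.pi_pos.le⟩)
  have hex : 0 < ex v := Real.exp_pos _
  have key : ((ex v + lam * ((2:ℝ) ^ q)⁻¹) + lam * C.del * Real.pi) *
      Real.exp ((2 * (lam * ((C.M : ℝ) / 256)) + 1 / 4) * (2 * C.hC)) ≤ ex v' := by
    set G := (2 * (lam * ((C.M : ℝ) / 256)) + 1 / 4) * (2 * C.hC) with hG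
    have a1 : (ex v + lam * ((2:ℝ) ^ q)⁻¹) + lam * C.del * Real.pi ≤ (1 / 64 + 1) * ex v := by
      have : lam * C.del * Real.pi ≤ lam * C.del * 4 :=
        mul_le_mul_of_nonneg_left Real.pi_le_four hdel
      linarith
    have a2 : (1:ℝ) / 64 + 1 ≤ Real.exp (1 / 64) := Real.add_one_le_exp _
    calc _ ≤ (1 / 64 + 1) * ex v * Real.exp G :=
          mul_le_mul_of_nonneg_right a1 (Real.exp_pos _).le
      _ ≤ Real.exp (1 / 64) * ex v * Real.exp G := by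
          apply mul_le_mul_of_nonneg_right _ (Real.exp_pos _).le
          exact mul_le_mul_of_nonneg_right a2 hex.le
      _ = Real.exp (1 / 64 + -((v : ℝ) / 262144) + G) := by
          unfold ex; rw [← Real.exp_add, ← Real.exp_add]
      _ ≤ ex v' := by
          unfold ex
          apply Real.exp_le_exp.mpr
          linarith
  have hη := lt_of_le_of_lt key (ex_small e3)
  have eD : ∀ a : ℝ, a + (C.h : ℝ) / 2048 = a + 2 * C.hC := by
    intro a; unfold hC; ring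
  constructor
  · intro a w0 hw
    rw [eD]
    apply step_exists (norm_Bnu hν) C.dC_dir hh happ hM hD hη w0
    calc ‖w0 - C.UcN ν 0‖ ≤ ‖w0 - x‖ + ‖x - C.UcN ν 0‖ := norm_sub_le_norm_sub_add_norm_sub _ _ _
      _ ≤ _ := add_le_add hw hj
  · intro a u hu hw
    rw [eD] at hu ⊢
    refine (step_close (norm_Bnu hν) C.dC_dir hh happ hM hD hη hu ?_).trans key
    calc ‖u a - C.UcN ν 0‖ ≤ ‖u a - x‖ + ‖x - C.UcN ν 0‖ :=
          norm_sub_le_norm_sub_add_norm_sub _ _ _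
      _ ≤ _ := add_le_add hw hj

end Cert

end NLSq
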