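import Mathlib

/-!
The Wiener algebra `ℓ¹(ℤ)` and a family of (possibly twisted) convolution products on it.
-/

open scoped ENNReal Topology
open Set

noncomputable section

namespace NLSq

/-- absolutely summable sequences of Fourier coefficients -/
abbrev W : Type := lp (fun _ : ℤ => ℂ) 1

instance fact_one_le_one : Fact ((1 : ℝ≥0∞) ≤ 1) := ⟨le_refl _⟩

lemma toReal_pos : 0 < (1 : ℝ≥0∞).toReal := by simp

lemma summable_norm (x : W) : Summable fun k => ‖x k‖ := by
  have := (lp.memℓp x).summable toReal_pos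
  simpa using this

lemma norm_eq (x : W) : ‖x‖ = ∑' k, ‖x k‖ := by
  have := lp.norm_eq_tsum_rpow toReal_pos x
  simpa using this

lemma memW {f : ℤ → ℂ} (hf : Summable fun k => ‖f k‖) : Memℓp f 1 := by
  apply memℓp_gen
  simpa using hf

/-- build an element of `W` -/
def mkW (f : ℤ → ℂ) (hf : Summable fun k => ‖f k‖) : W := ⟨f, memW hf⟩

@[simp] lemma mkW_apply (f : ℤ → ℂ) (hf) (k : ℤ) : mkW f hf k = f k := rfl

lemma norm_mkW (f : ℤ → ℂ) (hf) : ‖mkW f hf‖ = ∑' k, ‖f k‖ := by
  rw [norm_eq]; rfl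

lemma norm_coord_le (x : W) (k : ℤ) : ‖x k‖ ≤ ‖x‖ :=
  lp.norm_apply_le_norm (by simp) x k

lemma sum_norm_le (x : W) (F : Finset ℤ) : ∑ k ∈ F, ‖x k‖ ≤ ‖x‖ := by
  rw [norm_eq]; exact (summable_norm x).sum_le_tsum F (fun _ _ => norm_nonneg _)

lemma norm_le_of_forall_sum (x : W) (C : ℝ) (h : ∀ F : Finset ℤ, ∑ k ∈ F, ‖x k‖ ≤ C) :
    ‖x‖ ≤ C := by
  rw [norm_eq]
  exact (summable_norm x).tsum_le_of_sum_le h

/-- coordinate functional -/
def ev (k : ℤ) : W →L[ℂ] ℂ := lp.evalCLM ℂ (fun _ : ℤ => ℂ) 1 k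

@[simp] lemma ev_apply (k : ℤ) (x : W) : ev k x = x k := rfl

lemma W_ext {x y : W} (h : ∀ k, x k = y k) : x = y := lp.ext (funext h)

lemma summable_shift (m : ℤ → ℂ) (hm : ∀ k, ‖m k‖ ≤ 1) (j : ℤ) (y : W) :
    Summable fun k => ‖m k * y (k - j)‖ := by
  refine Summable.of_nonneg_of_le (fun _ => norm_nonneg _) (fun k => ?_)
    ((Equiv.subRight j).summable_iff.mpr (summable_norm y))
  rw [norm_mul]
  calc ‖m k‖ * ‖y (k - j)‖ ≤ 1 * ‖y (k - j)‖ := by gcongr; exact hm k
    _ = _ := by simp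

/-- multiplication by a bounded multiplier, composed with a translation -/
def shiftL (m : ℤ → ℂ) (hm : ∀ k, ‖m k‖ ≤ 1) (j : ℤ) : W →L[ℂ] W :=
  LinearMap.mkContinuous
    { toFun := fun y => mkW (fun k => m k * y (k - j)) (summable_shift m hm j y)
      map_add' := fun y z => by
        apply W_ext; intro k; simp [mul_add]
      map_smul' := fun a y => by
        apply W_ext; intro k; simp; ring } 1
    (fun y => by
      change ‖mkW (fun k => m k * y (k - j)) (summable_shift m hm j y)‖ ≤ _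
      rw [norm_mkW, one_mul, norm_eq, ← (Equiv.subRight j).tsum_eq (fun k => ‖y k‖)]
      apply Summable.tsum_le_tsum
      · intro k
        rw [norm_mul]
        calc ‖m k‖ * ‖y (k - j)‖ ≤ 1 * ‖y (k - j)‖ := by gcongr; exact hm k
          _ = _ := by simp
      · exact summable_shift m hm j y
      · exact (Equiv.subRight j).summable_iff.mpr (summable_norm y))

@[simp] lemma shiftL_apply (m : ℤ → ℂ) (hm) (j k : ℤ) (y : W) :
    shiftL m hm j y k = m k * y (k - j) := rfl

lemma norm_shiftL (m : ℤ → ℂ) (hm) (j : ℤ) : ‖shiftL m hm j‖ ≤ 1 :=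
  LinearMap.mkContinuous_norm_le _ zero_le_one _

/-- the twisted convolution product `(x ⋆ y)_k = ∑_j c(j,k) x_j y_{k-j}` as a bilinear map -/
def conv (c : ℤ → ℤ → ℂ) (hc : ∀ j k, ‖c j k‖ ≤ 1) : W →L[ℂ] W →L[ℂ] W :=
  LinearMap.mkContinuous
    { toFun := fun x => ∑' j, x j • shiftL (c j) (hc j) j
      map_add' := fun x y => by
        rw [← Summable.tsum_add]
        · congr 1; ext1 j; rw [← add_smul]; rfl
        · apply Summable.of_norm_bounded (summable_norm x)
          intro j; rw [norm_smul]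
          calc _ ≤ ‖x j‖ * 1 := by gcongr; exact norm_shiftL _ _ _
            _ = _ := by simp
        · apply Summable.of_norm_bounded (summable_norm y)
          intro j; rw [norm_smul]
          calc _ ≤ ‖y j‖ * 1 := by gcongr; exact norm_shiftL _ _ _
            _ = _ := by simp
      map_smul' := fun a x => by
        simp only [RingHom.id_apply]
        rw [← tsum_const_smul'']
        congr 1; ext1 j; rw [smul_smul]; rfl } 1
    (fun x => by
      change ‖∑' j, x j • shiftL (c j) (hc j) j‖ ≤ _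
      rw [one_mul, norm_eq]
      apply tsum_of_norm_bounded (summable_norm x).hasSum
      intro j; rw [norm_smul]
      calc _ ≤ ‖x j‖ * 1 := by gcongr; exact norm_shiftL _ _ _
        _ = _ := by simp)

lemma norm_conv_le (c : ℤ → ℤ → ℂ) (hc) (x y : W) : ‖conv c hc x y‖ ≤ ‖x‖ * ‖y‖ := by
  calc ‖conv c hc x y‖ ≤ ‖conv c hc‖ * ‖x‖ * ‖y‖ := (conv c hc).le_opNorm₂ x y
    _ ≤ 1 * ‖x‖ * ‖y‖ := by
        gcongr; exact LinearMap.mkContinuous_norm_le _ zero_le_one _
    _ = _ := by ring

lemma conv_apply (c : ℤ → ℤ → ℂ) (hc) (x y : W) (k : ℤ) :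
    conv c hc x y k = ∑' j, c j k * (x j * y (k - j)) := by
  have hs : Summable fun j => x j • shiftL (c j) (hc j) j := by
    apply Summable.of_norm_bounded (summable_norm x)
    intro j; rw [norm_smul]
    calc _ ≤ ‖x j‖ * 1 := by gcongr; exact norm_shiftL _ _ _
      _ = _ := by simp
  change ev k ((∑' j, x j • shiftL (c j) (hc j) j) y) = _
  have h1 : (∑' j, x j • shiftL (c j) (hc j) j) y = ∑' j, x j • (shiftL (c j) (hc j) j y) := by
    have := (ContinuousLinearMap.apply ℂ W y).map_tsum hs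
    simpa using this
  rw [h1]
  have hs2 : Summable fun j => x j • (shiftL (c j) (hc j) j y) := by
    have := (ContinuousLinearMap.apply ℂ W y).summable hs
    simpa using this
  rw [(ev k).map_tsum hs2]
  congr 1; ext1 j
  simp; ring

end NLSq
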